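import Pool.Agent.Helper478_Kwise.B
import Pool.Agent.Helper478_Joint.ET

/-!
# Lacunary sequences: all arcs are hit
-/

set_option autoImplicit false

namespace Pool.Agent.Helper478.Lit

open Finset Filter
open Pool.Agent.H469R2.NK (e norm_e e_add e_zero conj_e)
open Pool.Agent.Helper478.Kwise
open Pool.Agent.Helper478.Joint (e_sum)

/-- a minorant of the indicator function of an arc -/
lemma minor (K : ℕ) (hK : 1 ≤ K) (δ : ℝ) (h0 : 0 < δ) (h1 : δ ≤ 1) (hc : 1 ≤ K * δ ^ 2)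
    (α β : ℝ) (hα : 0 ≤ α) (hαβ : α < β) (hβ : β ≤ 1) :
    ∃ (L : ℝ → ℝ) (m : ℝ), (∀ x, L x ≤ ind α β x) ∧ β - α - 3 * δ ≤ m ∧ m ≤ β - α ∧
      TPm K (2 + 2 * Real.log K) (m : ℂ) (fun x => (L x : ℂ)) := by
  have hK0 : (0 : ℝ) < K := by exact_mod_cast hK
  obtain ⟨c, hcd⟩ : ∃ c : ℝ, c = 1 / (K * δ) := ⟨_, rfl⟩
  have hc0 : 0 ≤ c := by rw [hcd]; positivity
  have hc1 : c ≤ δ := by
    rw [hcd, div_le_iff₀ (by positivity)]
    nlinarith
  have hg := tpm_gg K hK δ h0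
  have key : ∀ s : ℝ, TPm K (1 + Real.log K) 0 (fun x => (gg K δ (x + s) : ℂ)) := fun s =>
    hg.shift s
  refine ⟨fun x => (β - α) + gg K δ (x + (-β + δ)) + -gg K δ (x + -α) - (δ + 2 * c),
    (β - α) - (δ + 2 * c), ?_, by linarith, by linarith, ?_⟩
  · intro x
    have e1 := gg_lower K hK δ h0 h1 (x - β)
    have e2 := gg_upper K hK δ h0 h1 (x - α)
    have e3 := Pool.Agent.R485.Trans.indicator_eq x _ _ hα hαβ hβ
    unfold ind
    rw [← hcd] at e1 e2
    have e4 : x - β + δ = x + (-β + δ) := by ring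
    have e5 : x - α = x + -α := by ring
    rw [e4] at e1
    rw [e5] at e2
    rw [e5] at e3
    simp only
    linarith
  · have h2 := ((((TPm.const K (((β - α : ℝ)) : ℂ)).add (key (-β + δ))).add (key (-α)).neg).add
      (TPm.const K ((-(δ + 2 * c) : ℝ) : ℂ)))
    have h3 : ((β - α : ℝ) : ℂ) + 0 + -0 + ((-(δ + 2 * c) : ℝ) : ℂ) =
        (((β - α) - (δ + 2 * c) : ℝ) : ℂ) := by push_cast; ring
    rw [h3] at h2
    refine TPm.mono (A := 0 + (1 + Real.log K) + (1 + Real.log K) + 0) ?_ le_rfl (by linarith)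
    convert h2 using 2 with x
    push_cast
    ring

/-- the product of a trigonometric polynomial at the multiples of a lacunary sequence -/
theorem prod_bd (k K : ℕ) (F : ℝ → ℝ) (m B : ℝ) (hF : TPm K B (m : ℂ) (fun x => (F x : ℂ)))
    {σ : Type} (S : Finset σ) (ν : σ → ℝ) (u : Fin k → ℝ) (W : ℝ) (hW0 : 0 ≤ W)
    (hW : ∀ Z : Fin k → ℤ, Z ≠ 0 → (∀ j, |Z j| ≤ K) → ‖∑ n ∈ S, e ((∑ j, (Z j : ℝ) * u j) * ν n)‖ ≤ W) :
    |∑ n ∈ S, ∏ j, F (u j * ν n) - S.card * m ^ k| ≤ (|m| + B) ^ k * W := by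
  classical
  obtain ⟨ι, _, a, Z, h1, h2, h3⟩ := hF
  beta_reduce at h3
  let a' : Option ι → ℂ := fun o => o.elim (m : ℂ) a
  let Z' : Option ι → ℤ := fun o => o.elim 0 Z
  have hF' : ∀ x, (F x : ℂ) = ∑ o, a' o * e ((Z' o : ℝ) * x) := by
    intro x
    rw [Fintype.sum_option, h3 x]
    simp only [a', Z', Option.elim, Int.cast_zero, zero_mul, e_zero, mul_one]
  have hprod : ∀ n, ((∏ j, F (u j * ν n) : ℝ) : ℂ) = ∑ p : Fin k → Option ι, (∏ j, a' (p j)) *
      e ((∑ j, (Z' (p j) : ℝ) * u j) * ν n) := by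
    intro n
    push_cast
    simp_rw [hF']
    rw [Finset.prod_univ_sum]
    rw [Fintype.piFinset_univ]
    refine sum_congr rfl fun p _ => ?_
    rw [prod_mul_distrib, sum_mul, e_sum]
    congr 1
    refine prod_congr rfl fun j _ => ?_
    congr 1; ring
  have hsum : ((∑ n ∈ S, ∏ j, F (u j * ν n) : ℝ) : ℂ) = ∑ p : Fin k → Option ι, (∏ j, a' (p j)) *
      ∑ n ∈ S, e ((∑ j, (Z' (p j) : ℝ) * u j) * ν n) := by
    rw [Complex.ofReal_sum]
    simp_rw [hprod]
    rw [sum_comm]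
    refine sum_congr rfl fun p _ => ?_
    rw [mul_sum]
  have hnone : (∏ j : Fin k, a' ((fun _ => none : Fin k → Option ι) j)) *
      ∑ n ∈ S, e ((∑ j : Fin k, (Z' ((fun _ => none : Fin k → Option ι) j) : ℝ) * u j) * ν n) =
      ((S.card * m ^ k : ℝ) : ℂ) := by
    simp only [a', Z', Option.elim, Int.cast_zero, zero_mul, sum_const_zero, e_zero, sum_const,
      prod_const, card_univ, Fintype.card_fin, nsmul_eq_mul, mul_one]
    push_cast
    ring
  have hdiff : ((∑ n ∈ S, ∏ j, F (u j * ν n) - S.card * m ^ k : ℝ) : ℂ) =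
      ∑ p ∈ (univ : Finset (Fin k → Option ι)).erase (fun _ => none), (∏ j, a' (p j)) *
      ∑ n ∈ S, e ((∑ j, (Z' (p j) : ℝ) * u j) * ν n) := by
    rw [Complex.ofReal_sub, hsum, ← hnone, ← Finset.add_sum_erase _ _ (mem_univ (fun _ => none))]
    ring
  have hnorm : |∑ n ∈ S, ∏ j, F (u j * ν n) - S.card * m ^ k| =
      ‖((∑ n ∈ S, ∏ j, F (u j * ν n) - S.card * m ^ k : ℝ) : ℂ)‖ := by
    rw [Complex.norm_real, Real.norm_eq_abs]
  rw [hnorm, hdiff]
  have hA : ∑ o, ‖a' o‖ ≤ |m| + B := by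
    rw [Fintype.sum_option]
    simp only [a', Option.elim, Complex.norm_real, Real.norm_eq_abs]
    linarith
  have hA0 : 0 ≤ ∑ o, ‖a' o‖ := sum_nonneg fun _ _ => norm_nonneg _
  calc ‖∑ p ∈ (univ : Finset (Fin k → Option ι)).erase (fun _ => none), (∏ j, a' (p j)) *
      ∑ n ∈ S, e ((∑ j, (Z' (p j) : ℝ) * u j) * ν n)‖ ≤
      ∑ p ∈ (univ : Finset (Fin k → Option ι)).erase (fun _ => none), (∏ j, ‖a' (p j)‖) * W := by
        refine (norm_sum_le _ _).trans (sum_le_sum fun p hp => ?_)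
        rw [norm_mul, norm_prod]
        apply mul_le_mul_of_nonneg_left _ (prod_nonneg fun _ _ => norm_nonneg _)
        apply hW (fun j => Z' (p j))
        · intro hz
          apply (mem_erase.1 hp).1
          funext j
          have hzj := congrFun hz j
          rcases hpj : p j with _ | i
          · rfl
          · exfalso
            simp only [Pi.zero_apply, hpj, Z', Option.elim] at hzj
            exact (h1 i).1 hzj
        · intro j
          rcases hpj : p j with _ | i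
          · simp [Z']
          · simpa [Z', hpj] using (h1 i).2
    _ ≤ ∑ p : Fin k → Option ι, (∏ j, ‖a' (p j)‖) * W := by
        apply sum_le_sum_of_subset_of_nonneg (erase_subset _ _)
        intro p _ _
        exact mul_nonneg (prod_nonneg fun _ _ => norm_nonneg _) hW0
    _ = (∑ o, ‖a' o‖) ^ k * W := by
        rw [← sum_mul, Fintype.sum_pow]
    _ ≤ (|m| + B) ^ k * W := by
        apply mul_le_mul_of_nonneg_right _ hW0
        exact pow_le_pow_left₀ hA0 hA k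

/-- the number of points for which an arc of length `1 / M` is not hit -/
theorem nohit (k M : ℕ) (hM : 1 ≤ M) (a : ℕ) (ha : a < M) {σ : Type} (S : Finset σ) (ν : σ → ℝ)
    (u : Fin k → ℝ) (W : ℝ) (hW0 : 0 ≤ W)
    (hW : ∀ Z : Fin k → ℤ, Z ≠ 0 → (∀ j, |Z j| ≤ ((36 * M ^ 2 : ℕ) : ℤ)) →
      ‖∑ n ∈ S, e ((∑ j, (Z j : ℝ) * u j) * ν n)‖ ≤ W) :
    ((S.filter fun n => ∀ j, ind ((a : ℝ) / M) (((a : ℝ) + 1) / M) (u j * ν n) = 0).card : ℝ) ≤
      S.card * Real.exp (-(k / (2 * M))) + (3 + 2 * Real.log ((36 * M ^ 2 : ℕ) : ℝ)) ^ k * W := by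
  classical
  have hM0 : (0 : ℝ) < M := by exact_mod_cast hM
  have hM1 : (1 : ℝ) ≤ M := by exact_mod_cast hM
  obtain ⟨K, hK⟩ : ∃ K : ℕ, K = 36 * M ^ 2 := ⟨_, rfl⟩
  rw [← hK] at hW ⊢
  have hK1 : 1 ≤ K := by rw [hK]; nlinarith
  have hKr : (K : ℝ) = 36 * M ^ 2 := by rw [hK]; push_cast; ring
  have haM : (a : ℝ) + 1 ≤ M := by exact_mod_cast ha
  have hlogK : 0 ≤ Real.log K := Real.log_natCast_nonneg K
  obtain ⟨L, m, hL, hm1, hm2, hT⟩ := minor K hK1 (1 / (6 * M)) (by positivity) (by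
      rw [div_le_one (by positivity)]; linarith) (by rw [hKr]; apply le_of_eq; field_simp; norm_num)
    ((a : ℝ) / M) (((a : ℝ) + 1) / M) (by positivity) (by
      apply div_lt_div_of_pos_right _ hM0; linarith) (by rw [div_le_one hM0]; exact haM)
  have e1 : ((a : ℝ) + 1) / M - a / M = 1 / M := by ring
  rw [e1] at hm1 hm2
  have e2 : 1 / (M : ℝ) - 3 * (1 / (6 * M)) = 1 / (2 * M) := by field_simp; norm_num
  rw [e2] at hm1
  have hm0 : 0 ≤ m := le_trans (by positivity) hm1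
  have hm3 : m ≤ 1 := hm2.trans (by rw [div_le_one hM0]; exact hM1)
  -- the function `1 - L`
  have hF : TPm K (2 + 2 * Real.log K) ((1 - m : ℝ) : ℂ) (fun x => ((1 - L x : ℝ) : ℂ)) := by
    have h2 := (TPm.const K 1).add hT.neg
    have h3 : (1 : ℂ) + -(m : ℂ) = ((1 - m : ℝ) : ℂ) := by push_cast; ring
    rw [h3, zero_add] at h2
    convert h2 using 2 with x
    push_cast; ring
  have h4 := prod_bd k K (fun x => 1 - L x) (1 - m) _ hF S ν u W hW0 hW
  have h5 : ∀ x, 0 ≤ 1 - L x := fun x => by linarith [hL x, ind_le_one ((a : ℝ) / M) (((a : ℝ) + 1) / M) x]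
  have h6 : ((S.filter fun n => ∀ j, ind ((a : ℝ) / M) (((a : ℝ) + 1) / M) (u j * ν n) = 0).card : ℝ) ≤
      ∑ n ∈ S, ∏ j, (1 - L (u j * ν n)) := by
    rw [card_filter]
    push_cast
    refine sum_le_sum fun n _ => ?_
    split_ifs with h
    · have h7 : ∀ j, 1 ≤ 1 - L (u j * ν n) := fun j => by
        have := hL (u j * ν n)
        rw [h j] at this
        linarith
      calc (1 : ℝ) = ∏ j : Fin k, (1 : ℝ) := by simp
        _ ≤ _ := prod_le_prod (fun _ _ => zero_le_one) fun j _ => h7 j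
    · exact prod_nonneg fun j _ => h5 _
  refine h6.trans ?_
  have h7 := (abs_le.1 h4).2
  have h8 : (1 - m) ^ k ≤ Real.exp (-(k / (2 * M))) := by
    have h9 : 1 - m ≤ Real.exp (-(1 / (2 * M))) := by
      have := Real.add_one_le_exp (-(1 / (2 * (M : ℝ))))
      linarith
    calc (1 - m) ^ k ≤ Real.exp (-(1 / (2 * M))) ^ k := pow_le_pow_left₀ (by linarith) h9 k
      _ = _ := by rw [← Real.exp_nat_mul]; congr 1; ring
  have h9 : (|1 - m| + (2 + 2 * Real.log K)) ^ k * W ≤ (3 + 2 * Real.log K) ^ k * W := by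
    apply mul_le_mul_of_nonneg_right _ hW0
    apply pow_le_pow_left₀ (by positivity)
    rw [abs_of_nonneg (by linarith)]
    linarith
  have h10 : (S.card : ℝ) * (1 - m) ^ k ≤ S.card * Real.exp (-(k / (2 * M))) := by gcongr
  linarith

open scoped Classical in
/-- the number of points which are not `1 / M`-dense -/
theorem dense (k M : ℕ) (hM : 1 ≤ M) {σ : Type} (S : Finset σ) (ν : σ → ℝ)
    (u : Fin k → ℝ) (W : ℝ) (hW0 : 0 ≤ W)
    (hW : ∀ Z : Fin k → ℤ, Z ≠ 0 → (∀ j, |Z j| ≤ ((36 * M ^ 2 : ℕ) : ℤ)) →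
      ‖∑ n ∈ S, e ((∑ j, (Z j : ℝ) * u j) * ν n)‖ ≤ W) :
    ((S.filter fun n => ∃ y : ℝ, ∀ j, 1 / (M : ℝ) < |u j * ν n - y - round (u j * ν n - y)|).card : ℝ) ≤
      M * (S.card * Real.exp (-(k / (2 * M))) + (3 + 2 * Real.log ((36 * M ^ 2 : ℕ) : ℝ)) ^ k * W) := by
  have hM0 : (0 : ℝ) < M := by exact_mod_cast hM
  have h1 : (S.filter fun n => ∃ y : ℝ, ∀ j, 1 / (M : ℝ) < |u j * ν n - y - round (u j * ν n - y)|) ⊆
      (range M).biUnion fun a => S.filter fun n => ∀ j,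
        ind ((a : ℝ) / M) (((a : ℝ) + 1) / M) (u j * ν n) = 0 := by
    intro n hn
    obtain ⟨hnS, y, hy⟩ := mem_filter.1 hn
    rw [mem_biUnion]
    refine ⟨⌊Int.fract y * M⌋₊, ?_, ?_⟩
    · rw [mem_range, Nat.floor_lt (mul_nonneg (Int.fract_nonneg _) hM0.le)]
      have := Int.fract_lt_one y
      nlinarith
    · rw [mem_filter]
      refine ⟨hnS, fun j => ?_⟩
      unfold ind
      rw [if_neg]
      rintro ⟨c1, c2⟩
      have h2 := Nat.floor_le (mul_nonneg (Int.fract_nonneg y) hM0.le)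
      have h3 := Nat.lt_floor_add_one (Int.fract y * M)
      have h4 : (⌊Int.fract y * M⌋₊ : ℝ) / M ≤ Int.fract y := by rw [div_le_iff₀ hM0]; exact h2
      have h5 : Int.fract y < ((⌊Int.fract y * M⌋₊ : ℝ) + 1) / M := by rw [lt_div_iff₀ hM0]; exact h3
      have h6 : |Int.fract (u j * ν n) - Int.fract y| ≤ 1 / M := by
        have e1 : ((⌊Int.fract y * M⌋₊ : ℝ) + 1) / M = (⌊Int.fract y * M⌋₊ : ℝ) / M + 1 / M := by ring
        rw [e1] at c2 h5
        rw [abs_le]; constructor <;> linarith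
      have h7 := round_le (u j * ν n - y) (⌊u j * ν n⌋ - ⌊y⌋)
      have h8 : u j * ν n - y - ((⌊u j * ν n⌋ - ⌊y⌋ : ℤ) : ℝ) = Int.fract (u j * ν n) - Int.fract y := by
        push_cast
        rw [← Int.self_sub_floor, ← Int.self_sub_floor]; ring
      rw [h8] at h7
      exact absurd (hy j) (not_lt.2 (h7.trans h6))
  calc ((S.filter fun n => ∃ y : ℝ, ∀ j, 1 / (M : ℝ) < |u j * ν n - y - round (u j * ν n - y)|).card : ℝ) ≤
      ∑ a ∈ range M, ((S.filter fun n => ∀ j,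
        ind ((a : ℝ) / M) (((a : ℝ) + 1) / M) (u j * ν n) = 0).card : ℝ) := by
        exact_mod_cast (card_le_card h1).trans card_biUnion_le
    _ ≤ ∑ a ∈ range M, (S.card * Real.exp (-(k / (2 * M))) +
          (3 + 2 * Real.log ((36 * M ^ 2 : ℕ) : ℝ)) ^ k * W) :=
        sum_le_sum fun a ha => nohit k M hM a (mem_range.1 ha) S ν u W hW0 hW
    _ = _ := by rw [sum_const, card_range, nsmul_eq_mul]

end Pool.Agent.Helper478.Lit
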