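import Pool.Agent.Helper478_Short.AbsBd

/-!
# Exponential sums in short intervals, with every small `γ`
-/

set_option autoImplicit false

namespace Pool.Agent.Helper478.Lit

open Finset Filter
open Pool.Agent.H469R2.NK (e norm_e e_add e_zero conj_e)
open Pool.Agent.Y957.VK (TT)
open Pool.Agent.Helper478.Surds (ev_pow e_sub_le)
open Pool.Agent.Helper478.Pow (TT_le' size_s exp_half four_le_exp)
open Pool.Agent.Helper478.Bases (cond)
open Pool.Agent.Helper478.Short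

theorem abs_bd' : ∃ γ₁ : ℝ, 0 < γ₁ ∧ γ₁ ≤ 1 / 100 ∧ ∀ γ : ℝ, 0 < γ → γ ≤ γ₁ → ∀ ρ : ℝ, 0 < ρ → ρ ≤ 1 → ∀ D : ℝ, 1 ≤ D →
    ∃ N₀ : ℕ, ∀ (N R : ℕ) (f : ℕ → ℝ) (κ : ℝ), N₀ ≤ N → (N : ℝ) ^ ρ ≤ R → R ≤ N →
      20 / ρ ≤ κ → κ ≤ (Real.log N) ^ γ →
      (∀ n ∈ Ioc 0 R, ∃ (a₀ : ℝ) (β : ℕ → ℝ),
        (∀ h : ℕ, (h : ℝ) ^ 2 ≤ N →
          |f (n + h) - (a₀ + ∑ j ∈ Icc 1 (⌈2 * κ⌉₊ + 6), β j * (h : ℝ) ^ j)| ≤ 1 / N) ∧
        |β (⌈κ⌉₊ + 1)| ≤ D ^ (⌈κ⌉₊ + 1) * (N : ℝ) ^ (κ - ((⌈κ⌉₊ + 1 : ℕ) : ℝ)) ∧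
        (N : ℝ) ^ (κ - ((⌈κ⌉₊ + 1 : ℕ) : ℝ)) ≤ D ^ (⌈κ⌉₊ + 1) * |β (⌈κ⌉₊ + 1)|) →
      ‖∑ n ∈ Ioc 0 R, e (f n)‖ ≤ R * Real.exp (-(2 * (Real.log N) ^ (1 - 9 * γ))) := by
  obtain ⟨C, hC⟩ := TT_le'
  have hC0 : (0 : ℝ) ≤ C := Nat.cast_nonneg _
  refine ⟨1 / (3 * (C : ℝ) + 100), by positivity, by
    apply one_div_le_one_div_of_le (by norm_num)
    linarith, ?_⟩
  intro γ hγ0 hγle
  have hγ1 : γ ≤ 1 / 100 := by
    refine hγle.trans ?_
    apply one_div_le_one_div_of_le (by norm_num)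
    linarith
  have hγC : γ * (3 * (C : ℝ) + 9) < 1 := by
    calc γ * (3 * (C : ℝ) + 9) ≤ 1 / (3 * (C : ℝ) + 100) * (3 * (C : ℝ) + 9) := by gcongr
      _ < 1 := by
        rw [one_div, inv_mul_lt_iff₀ (by positivity)]
        linarith
  intro ρ hρ0 hρ1 D hD
  obtain ⟨LD, hLD⟩ : ∃ LD : ℝ, LD = Real.log D := ⟨_, rfl⟩
  have hLD0 : 0 ≤ LD := by rw [hLD]; exact Real.log_nonneg hD
  have hD0 : 0 < D := by linarith
  obtain ⟨c, hc⟩ : ∃ c : ℝ, c = ρ / 8 := ⟨_, rfl⟩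
  have hc0 : 0 < c := by rw [hc]; positivity
  have hc1 : c ≤ 1 / 8 := by rw [hc]; linarith
  obtain ⟨B, hB⟩ : ∃ B : ℕ, B = 4 * C * (9 * 1) ^ C + 4374 * 1 ^ 2 := ⟨_, rfl⟩
  have hB0 : (0 : ℝ) ≤ B := Nat.cast_nonneg _
  -- eventual inequalities
  have ev1 : ∀ᶠ y : ℝ in atTop, (4 / c * (B * 9 ^ (3 * C + 9))) * y ^ (γ * (3 * (C : ℝ) + 9)) ≤
      y ^ (1 : ℝ) := ev_pow _ _ _ hγC
  have ev2 : ∀ᶠ y : ℝ in atTop, (4 / c * (1944 * 9 ^ 8)) * y ^ (1 - γ) ≤ y ^ (1 : ℝ) :=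
    ev_pow _ _ _ (by linarith)
  have ev3 : ∀ᶠ y : ℝ in atTop, (100 + 40 * LD) * y ^ γ ≤ y ^ (1 : ℝ) := ev_pow _ _ _ (by linarith)
  have ev4 : ∀ᶠ y : ℝ in atTop, (16 / ρ) * y ^ (1 - 9 * γ) ≤ y ^ (1 : ℝ) := ev_pow _ _ _ (by linarith)
  have ev6 : ∀ᶠ y : ℝ in atTop, 16 / c ≤ y := eventually_ge_atTop _
  have hlog : Tendsto (fun N : ℕ => Real.log N) atTop atTop :=
    Real.tendsto_log_atTop.comp tendsto_natCast_atTop_atTop
  have hev := hlog.eventually (((ev1.and ev2).and (ev3.and ev4)).and (ev6.and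
    (eventually_ge_atTop 20)))
  obtain ⟨N₀, hN₀⟩ := eventually_atTop.1 (hev.and (eventually_ge_atTop 2))
  refine ⟨N₀, ?_⟩
  intro N R f κ hN hRN hRN' hκ1 hκ2 hf
  obtain ⟨⟨⟨⟨q1, q2⟩, q3, q4⟩, q6, q7⟩, q8⟩ := hN₀ N hN
  obtain ⟨y, hy⟩ : ∃ y : ℝ, y = Real.log N := ⟨_, rfl⟩
  rw [← hy] at q1 q2 q3 q4 q6 q7 hκ2 ⊢
  have hy0 : 0 < y := by linarith
  have hy1 : 1 ≤ y := by linarith
  have hN1' : 1 ≤ N := by omega
  have hN1 : (1 : ℝ) ≤ N := by exact_mod_cast hN1'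
  have hN0 : (0 : ℝ) < N := by linarith
  have hpow : ∀ t : ℝ, (N : ℝ) ^ t = Real.exp (y * t) := by
    intro t
    rw [Real.rpow_def_of_pos hN0, hy]
  have hNe : (N : ℝ) = Real.exp y := by rw [hy, Real.exp_log hN0]
  rw [Real.rpow_one] at q1 q2 q3 q4
  obtain ⟨Y, hY⟩ : ∃ Y : ℝ, Y = y ^ (1 - 9 * γ) := ⟨_, rfl⟩
  rw [← hY] at q4 ⊢
  have hY1 : 1 ≤ Y := by
    rw [hY]
    exact Real.one_le_rpow hy1 (by linarith)
  obtain ⟨g, hg⟩ : ∃ g : ℝ, g = y ^ γ := ⟨_, rfl⟩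
  rw [← hg] at q3 hκ2
  have hg1 : 1 ≤ g := by
    rw [hg]
    exact Real.one_le_rpow hy1 (by linarith)
  have hκ20 : 20 ≤ κ := by
    refine le_trans ?_ hκ1
    rw [le_div_iff₀ hρ0]; linarith
  have hκρ : 20 ≤ κ * ρ := by rwa [div_le_iff₀ hρ0] at hκ1
  -- the degree and the index
  obtain ⟨k, hk⟩ : ∃ k : ℕ, k = ⌈2 * κ⌉₊ + 6 := ⟨_, rfl⟩
  have hk1 : 2 * κ + 6 ≤ k := by
    rw [hk]; push_cast
    have := Nat.le_ceil (2 * κ); linarith
  have hk2 : (k : ℝ) ≤ 9 * g := by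
    rw [hk]; push_cast
    have := Nat.ceil_lt_add_one (a := 2 * κ) (by linarith); linarith
  have hk0 : (0 : ℝ) < k := by linarith
  have hk2' : 2 ≤ k := by omega
  obtain ⟨j₀, hj₀⟩ : ∃ j₀ : ℕ, j₀ = ⌈κ⌉₊ + 1 := ⟨_, rfl⟩
  rw [← hj₀, ← hk] at hf
  have hj1 : κ + 1 ≤ j₀ := by
    rw [hj₀]; push_cast
    have := Nat.le_ceil κ; linarith
  have hj2 : (j₀ : ℝ) ≤ κ + 2 := by
    rw [hj₀]; push_cast
    have := Nat.ceil_lt_add_one (a := κ) (by linarith); linarith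
  have hj3 : 1 ≤ j₀ := by omega
  have hjk : j₀ ≤ k := by
    have : (j₀ : ℝ) ≤ k := by linarith
    exact_mod_cast this
  -- the lengths
  obtain ⟨V, hV⟩ : ∃ V : ℕ, V = ⌊Real.exp (c * y)⌋₊ := ⟨_, rfl⟩
  have hVle : (V : ℝ) ≤ Real.exp (c * y) := by
    rw [hV]; exact Nat.floor_le (Real.exp_pos _).le
  have hcy : 16 ≤ c * y := by
    have := mul_le_mul_of_nonneg_left q6 hc0.le
    have e1 : c * (16 / c) = 16 := by field_simp
    linarith
  have hcy1 : c * y ≤ 1 / 8 * y := mul_le_mul_of_nonneg_right hc1 hy0.le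
  have hρy1 : ρ * y ≤ 1 * y := mul_le_mul_of_nonneg_right hρ1 hy0.le
  have hgLD : (100 + 40 * LD) * g = 100 * g + 40 * (g * LD) := by ring
  have hgLD0 : 0 ≤ g * LD := by positivity
  have hj3g : (j₀ : ℝ) * LD ≤ 3 * (g * LD) := by
    have h13 : (j₀ : ℝ) ≤ 3 * g := by linarith
    have h14 : (j₀ : ℝ) * LD ≤ 3 * g * LD := mul_le_mul_of_nonneg_right h13 hLD0
    linarith
  have hE4 : 4 ≤ Real.exp (c * y) := by
    have := Real.add_one_le_exp (c * y)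
    linarith
  have hVge : Real.exp (c * y) / 2 ≤ V := by
    have := Nat.lt_floor_add_one (Real.exp (c * y))
    rw [← hV] at this
    linarith
  have hV2 : (2 : ℝ) ≤ V := by linarith
  have hV1 : 1 ≤ V := by
    have : (1 : ℝ) ≤ V := by linarith
    exact_mod_cast this
  have hV0 : (0 : ℝ) < V := by linarith
  have hlogV : c * y - 1 ≤ Real.log V := by
    calc c * y - 1 ≤ c * y - Real.log 2 := by
          have := Real.log_two_lt_d9; linarith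
      _ = Real.log (Real.exp (c * y) / 2) := by
          rw [Real.log_div (Real.exp_pos _).ne' (by norm_num), Real.log_exp]
      _ ≤ Real.log V := Real.log_le_log (by positivity) hVge
  have hlogV2 : c * y / 2 ≤ Real.log V := by linarith
  obtain ⟨m, hm⟩ : ∃ m, m = 4 * 1 * k ^ 2 * (k + 1) := ⟨_, rfl⟩
  obtain ⟨t, ht⟩ : ∃ t, t = k ^ 2 + k * m := ⟨_, rfl⟩
  have ht1 : 1 ≤ t := by
    rw [ht]; have : 1 ≤ k ^ 2 := Nat.one_le_pow _ _ (by omega)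
    omega
  have ht0 : (0 : ℝ) < t := by exact_mod_cast ht1
  have ht1' : (1 : ℝ) ≤ t := by exact_mod_cast ht1
  have hVt : (V : ℝ) / (t * (V ^ (2 * 1)) ^ j₀ : ℕ) ≤ Real.exp (-(j₀ * LD)) * Real.exp (-(2 * y)) :=
    vt_bound' V t j₀ c y κ ρ LD g hV0 ht1' hρ0 hc hy0 hLD0 hlogV hj1 hj2 hκρ hκ2 hg1 q3
  have hcondV : 4 * C * ((k : ℝ) + m) ^ C + 2 * k * Real.log (15 * (t : ℝ) ^ 2) +
      8 * (t : ℝ) ^ 2 * (3 * Y) ≤ Real.log V := by
    have h1 := cond C 1 k k m t (by omega) hk2' le_rfl hm ht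
    rw [← hB] at h1
    have h2 : (0 : ℝ) ≤ 8 * (t : ℝ) ^ 2 * ((k : ℝ) + 2) := by positivity
    have h3 : (B : ℝ) * (k : ℝ) ^ (3 * C + 9) ≤ c * y / 4 := by
      have h4 : (k : ℝ) ^ (3 * C + 9) ≤ 9 ^ (3 * C + 9) * y ^ (γ * (3 * (C : ℝ) + 9)) := by
        calc (k : ℝ) ^ (3 * C + 9) ≤ (9 * g) ^ (3 * C + 9) := pow_le_pow_left₀ (by linarith) hk2 _
          _ = 9 ^ (3 * C + 9) * y ^ (γ * (3 * (C : ℝ) + 9)) := by
              rw [mul_pow, hg, ← Real.rpow_natCast (y ^ γ), ← Real.rpow_mul hy0.le]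
              push_cast
              rfl
      have h5 := mul_le_mul_of_nonneg_left q1 hc0.le
      have h6 : c * (4 / c * (B * 9 ^ (3 * C + 9)) * y ^ (γ * (3 * (C : ℝ) + 9))) =
          4 * (B * (9 ^ (3 * C + 9) * y ^ (γ * (3 * (C : ℝ) + 9)))) := by
        field_simp
      have h7 : (B : ℝ) * (k : ℝ) ^ (3 * C + 9) ≤
          B * (9 ^ (3 * C + 9) * y ^ (γ * (3 * (C : ℝ) + 9))) := by gcongr
      linarith
    have hs2 := size_s 1 k m t (9 * g) (by omega) (by omega) hm ht hk2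
    have h4 : 8 * (t : ℝ) ^ 2 * (3 * Y) ≤ 1944 * 9 ^ 8 * y ^ (1 - γ) := by
      have h5 : (t : ℝ) ^ 2 ≤ 81 * 9 ^ 8 * g ^ 8 := by
        calc (t : ℝ) ^ 2 ≤ (9 * ((1 : ℕ) : ℝ) * (9 * g) ^ 4) ^ 2 := pow_le_pow_left₀ ht0.le hs2 2
          _ = 81 * 9 ^ 8 * g ^ 8 := by push_cast; ring
      have h6 : g ^ 8 * Y = y ^ (1 - γ) := by
        rw [hg, hY, ← Real.rpow_natCast, ← Real.rpow_mul hy0.le, ← Real.rpow_add hy0]
        congr 1
        push_cast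
        ring
      calc 8 * (t : ℝ) ^ 2 * (3 * Y) ≤ 8 * (81 * 9 ^ 8 * g ^ 8) * (3 * Y) := by gcongr
        _ = 1944 * 9 ^ 8 * (g ^ 8 * Y) := by ring
        _ = _ := by rw [h6]
    have h5 : 1944 * 9 ^ 8 * y ^ (1 - γ) ≤ c * y / 4 := by
      have h6 := mul_le_mul_of_nonneg_left q2 hc0.le
      have h7 : c * (4 / c * (1944 * 9 ^ 8) * y ^ (1 - γ)) =
          4 * (1944 * 9 ^ 8 * y ^ (1 - γ)) := by field_simp
      linarith
    linarith
  obtain ⟨M, hM⟩ : ∃ M : ℕ, M = V ^ (2 * 1) := ⟨_, rfl⟩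
  have hM1 : 1 ≤ M := by rw [hM]; exact Nat.one_le_pow _ _ (by omega)
  have hM0 : (0 : ℝ) < M := by exact_mod_cast hM1
  have hM2 : (M : ℝ) ^ 2 ≤ Real.exp (4 * (c * y)) := by
    rw [hM]
    push_cast
    rw [← pow_mul]
    calc (V : ℝ) ^ (2 * 1 * 2) ≤ (Real.exp (c * y)) ^ (2 * 1 * 2) := pow_le_pow_left₀ hV0.le hVle _
      _ = Real.exp (4 * (c * y)) := by
          rw [← Real.exp_nat_mul]; norm_num
  have hM2' : (M : ℝ) ^ 2 ≤ Real.exp (y / 2) := by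
    refine hM2.trans (Real.exp_le_exp.2 ?_)
    linarith
  have hin : ∀ n ∈ Ioc 0 R, ‖∑ x ∈ Icc 1 M, ∑ z ∈ Icc 1 M, e (f (n + x * z))‖ ≤
      (M : ℝ) ^ 2 * (Real.exp (-(3 * Y)) + 8 * Real.exp (-y)) := by
    intro n hn
    obtain ⟨a₀, β, hβ1, hβ2, hβ3⟩ := hf n hn
    refine (inner_abs f n M k a₀ (1 / N) β ?_).trans ?_
    · intro x hx z hz
      apply hβ1
      have hx' : (x : ℝ) ≤ M := by exact_mod_cast (mem_Icc.1 hx).2
      have hz' : (z : ℝ) ≤ M := by exact_mod_cast (mem_Icc.1 hz).2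
      push_cast
      have hxz : (x : ℝ) * z ≤ M ^ 2 := by
        rw [sq]; exact mul_le_mul hx' hz' (by positivity) (by positivity)
      calc ((x : ℝ) * z) ^ 2 ≤ ((M : ℝ) ^ 2) ^ 2 := pow_le_pow_left₀ (by positivity) hxz 2
        _ ≤ (Real.exp (y / 2)) ^ 2 := pow_le_pow_left₀ (by positivity) hM2' 2
        _ = N := by rw [← Real.exp_nat_mul, hNe]; congr 1; push_cast; ring
    have hDj : D ^ j₀ = Real.exp (j₀ * LD) := by
      rw [Real.exp_nat_mul, hLD, Real.exp_log hD0]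
    have hup : |β j₀| ≤ Real.exp (j₀ * LD + -y) := by
      refine hβ2.trans ?_
      rw [hDj, hpow, ← Real.exp_add]
      apply Real.exp_le_exp.2
      have := mul_le_mul_of_nonneg_left (show κ - j₀ ≤ -1 by linarith) hy0.le
      linarith
    have hdown : Real.exp (-(j₀ * LD)) * Real.exp (-(2 * y)) ≤ |β j₀| := by
      rw [hDj, hpow] at hβ3
      have h5 : Real.exp (-(2 * y)) ≤ Real.exp (y * (κ - j₀)) := by
        apply Real.exp_le_exp.2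
        have := mul_le_mul_of_nonneg_left (show -2 ≤ κ - j₀ by linarith) hy0.le
        linarith
      calc Real.exp (-(j₀ * LD)) * Real.exp (-(2 * y)) ≤
            Real.exp (-(j₀ * LD)) * (Real.exp (j₀ * LD) * |β j₀|) := by
              apply mul_le_mul_of_nonneg_left (h5.trans hβ3) (Real.exp_pos _).le
        _ = |β j₀| := by rw [← mul_assoc, ← Real.exp_add]; simp
    have hTT := hC 1 k V j₀ (3 * Y) β le_rfl hk2' hV1 (by rw [mem_Icc]; omega) m t hm ht (by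
      intro m' hm1 hm2 P
      refine far' (β j₀) _ V m' P hm1 (by exact_mod_cast hm2) (hVt.trans hdown) ?_
      calc (V : ℝ) * |β j₀| ≤ Real.exp (c * y) * Real.exp (j₀ * LD + -y) :=
            mul_le_mul hVle hup (abs_nonneg _) (Real.exp_pos _).le
        _ = Real.exp (c * y + (j₀ * LD + -y)) := (Real.exp_add _ _).symm
        _ ≤ Real.exp (-2) := Real.exp_le_exp.2 (by linarith)
        _ ≤ 1 / 4 := by
            rw [Real.exp_neg, ← one_div]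
            exact one_div_le_one_div_of_le (by norm_num) four_le_exp
        _ ≤ 1 / 2 := by norm_num) hcondV
    rw [← hM] at hTT
    have hpi := Real.pi_le_four
    have hrem : 2 * Real.pi * (1 / N) ≤ 8 * Real.exp (-y) := by
      rw [Real.exp_neg, ← hNe, one_div]
      have : 0 < (N : ℝ)⁻¹ := by positivity
      nlinarith
    calc ‖TT k M β‖ + (M : ℝ) ^ 2 * (2 * Real.pi * (1 / N)) ≤
          (M : ℝ) ^ 2 * Real.exp (-(3 * Y)) + (M : ℝ) ^ 2 * (8 * Real.exp (-y)) := by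
          apply add_le_add hTT
          apply mul_le_mul_of_nonneg_left hrem (by positivity)
      _ = _ := by ring
  have hsh := Pool.Agent.Helper478.Bases.shift (fun n : ℕ => e (f n))
    (fun n => (norm_e _).le) R M hM1
  refine hsh.trans ?_
  have hsum := sum_le_sum hin
  rw [sum_const, Nat.card_Ioc, Nat.sub_zero, nsmul_eq_mul] at hsum
  have hR0 : (0 : ℝ) ≤ R := Nat.cast_nonneg R
  have hYρ : 16 * Y ≤ ρ * y := by
    have := mul_le_mul_of_nonneg_left q4 hρ0.le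
    have e1 : ρ * (16 / ρ * Y) = 16 * Y := by field_simp
    linarith
  have hρy : 128 ≤ ρ * y := by
    rw [hc] at hcy; linarith
  have hMR : 2 * (M : ℝ) ^ 2 ≤ R * (Real.exp (-(2 * Y)) / 4) := by
    have h4 : Real.exp (ρ * y) ≤ R := by
      rw [hpow, mul_comm] at hRN; exact hRN
    have h5 : 8 ≤ Real.exp 4 := by
      have h6 : Real.exp 4 = Real.exp 2 * Real.exp 2 := by rw [← Real.exp_add]; norm_num
      have h7 := four_le_exp
      rw [h6]; nlinarith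
    calc 2 * (M : ℝ) ^ 2 = 8 * (M : ℝ) ^ 2 / 4 := by ring
      _ ≤ Real.exp 4 * Real.exp (4 * (c * y)) / 4 := by gcongr
      _ = Real.exp (4 + 4 * (c * y)) / 4 := by rw [← Real.exp_add]
      _ ≤ Real.exp (ρ * y + -(2 * Y)) / 4 := by
          apply div_le_div_of_nonneg_right _ (by norm_num)
          apply Real.exp_le_exp.2
          rw [hc]
          linarith
      _ = Real.exp (ρ * y) * (Real.exp (-(2 * Y)) / 4) := by rw [Real.exp_add]; ring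
      _ ≤ R * (Real.exp (-(2 * Y)) / 4) := by gcongr
  have h3Y : Real.exp (-(3 * Y)) ≤ Real.exp (-(2 * Y)) / 2 := by
    have h4 : Real.exp (-(3 * Y)) = Real.exp (-(2 * Y)) * Real.exp (-Y) := by
      rw [← Real.exp_add]; congr 1; ring
    have h5 := exp_half (-Y) (by linarith)
    rw [h4]
    have h6 := mul_le_mul_of_nonneg_left h5 (Real.exp_pos (-(2 * Y))).le
    linarith
  have hyY : 8 * Real.exp (-y) ≤ Real.exp (-(2 * Y)) / 4 := by
    have h4 : Real.exp (-y) ≤ Real.exp (-(2 * Y)) * Real.exp (-6) := by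
      rw [← Real.exp_add]
      apply Real.exp_le_exp.2
      linarith
    have h5 : Real.exp (-6 : ℝ) ≤ 1 / 64 := by
      rw [Real.exp_neg, ← one_div]
      apply one_div_le_one_div_of_le (by norm_num)
      have h6 : Real.exp 6 = Real.exp 2 * Real.exp 2 * Real.exp 2 := by
        rw [← Real.exp_add, ← Real.exp_add]; norm_num
      rw [h6]
      have h7 := four_le_exp
      have h8 : 16 ≤ Real.exp 2 * Real.exp 2 := by nlinarith
      nlinarith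
    have h6 := mul_le_mul_of_nonneg_left h5 (Real.exp_pos (-(2 * Y))).le
    have h7 := Real.exp_pos (-(2 * Y))
    linarith
  calc 1 / (M : ℝ) ^ 2 * ∑ n ∈ Ioc 0 R, ‖∑ x ∈ Icc 1 M, ∑ z ∈ Icc 1 M,
        e (f (n + x * z))‖ + 2 * (M : ℝ) ^ 2 ≤
        1 / (M : ℝ) ^ 2 * (R * ((M : ℝ) ^ 2 * (Real.exp (-(3 * Y)) + 8 * Real.exp (-y)))) +
        2 * (M : ℝ) ^ 2 := by
        apply add_le_add _ le_rfl
        exact mul_le_mul_of_nonneg_left hsum (by positivity)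
    _ = R * (Real.exp (-(3 * Y)) + 8 * Real.exp (-y)) + 2 * (M : ℝ) ^ 2 := by field_simp
    _ ≤ R * (Real.exp (-(2 * Y)) / 2 + Real.exp (-(2 * Y)) / 4) + R * (Real.exp (-(2 * Y)) / 4) := by
        gcongr
    _ = R * Real.exp (-(2 * Y)) := by ring

end Pool.Agent.Helper478.Lit
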