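import Pool.Agent.Helper478_Lit.A

/-!
# Linear forms in lacunary sequences; Dirichlet's theorem on all scales
-/

set_option autoImplicit false

namespace Pool.Agent.Helper478.Lit

open Finset Filter

lemma lac_sum (K : ℕ) (hK : 1 ≤ K) (u : ℕ → ℝ) (h0 : 0 < u 0) (k : ℕ)
    (hg : ∀ i, i + 1 < k → 4 * K * u i ≤ u (i + 1)) (i : ℕ) (hi : i < k) :
    0 < u i ∧ u 0 ≤ u i ∧ K * ∑ j ∈ range i, u j ≤ u i / 2 := by
  have hK1 : (1 : ℝ) ≤ K := by exact_mod_cast hK
  induction i with
  | zero => exact ⟨h0, le_rfl, by simp; positivity⟩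
  | succ i ih =>
    obtain ⟨h1, h2, h3⟩ := ih (by omega)
    have h4 := hg i hi
    have h5 : u i ≤ K * u i := by nlinarith
    have h6 : 4 * (K * u i) ≤ u (i + 1) := by linarith
    refine ⟨by linarith, by linarith, ?_⟩
    rw [sum_range_succ, mul_add]
    linarith

lemma lac (K : ℕ) (hK : 1 ≤ K) (u : ℕ → ℝ) (h0 : 0 < u 0) (k : ℕ)
    (hg : ∀ i, i + 1 < k → 4 * K * u i ≤ u (i + 1)) (Z : Fin k → ℤ) (hZ0 : Z ≠ 0)
    (hZ : ∀ j, |Z j| ≤ K) : u 0 / 2 ≤ |∑ j, (Z j : ℝ) * u j| := by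
  induction k with
  | zero => exact absurd (Subsingleton.elim _ _) hZ0
  | succ k ih =>
    rw [Fin.sum_univ_castSucc]
    have hpos : ∀ i < k + 1, 0 < u i := fun i hi => (lac_sum K hK u h0 (k + 1) hg i hi).1
    by_cases hl : Z (Fin.last k) = 0
    · rw [hl, Int.cast_zero, zero_mul, add_zero]
      have hne : (fun j : Fin k => Z j.castSucc) ≠ 0 := by
        intro h
        apply hZ0
        funext j
        refine Fin.lastCases ?_ (fun i => ?_) j
        · exact hl
        · exact congrFun h i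
      have := ih (fun i hi => hg i (by omega)) (fun j => Z j.castSucc) hne (fun j => hZ _)
      simpa using this
    · obtain ⟨_, h2, h3⟩ := lac_sum K hK u h0 (k + 1) hg k (by omega)
      have h4 : |∑ j : Fin k, (Z j.castSucc : ℝ) * u (j.castSucc : ℕ)| ≤ K * ∑ j ∈ range k, u j := by
        rw [← Fin.sum_univ_eq_sum_range, mul_sum]
        refine (abs_sum_le_sum_abs _ _).trans (sum_le_sum fun j _ => ?_)
        have hj := hpos j (by omega)
        rw [abs_mul]
        have e1 : ((j.castSucc : Fin (k + 1)) : ℕ) = (j : ℕ) := rfl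
        rw [e1, abs_of_pos hj]
        apply mul_le_mul_of_nonneg_right _ hj.le
        have := hZ j.castSucc
        exact_mod_cast this
      have h5 : (1 : ℝ) ≤ |(Z (Fin.last k) : ℝ)| := by exact_mod_cast Int.one_le_abs hl
      have hk := hpos k (by omega)
      have h6 : u k ≤ |(Z (Fin.last k) : ℝ) * u (Fin.last k : ℕ)| := by
        rw [abs_mul, Fin.val_last, abs_of_pos hk]
        nlinarith
      have h7 := abs_sub_abs_le_abs_sub ((Z (Fin.last k) : ℝ) * u (Fin.last k : ℕ))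
        (-∑ j : Fin k, (Z j.castSucc : ℝ) * u (j.castSucc : ℕ))
      rw [abs_neg, sub_neg_eq_add, add_comm ((Z (Fin.last k) : ℝ) * u (Fin.last k : ℕ))] at h7
      linarith

lemma lac_le (K : ℕ) (u : ℕ → ℝ) (U : ℝ) (k : ℕ) (hu : ∀ i < k, 0 ≤ u i ∧ u i ≤ U) (Z : Fin k → ℤ)
    (hZ : ∀ j, |Z j| ≤ K) : |∑ j, (Z j : ℝ) * u j| ≤ K * k * U := by
  refine (abs_sum_le_sum_abs _ _).trans ?_
  refine (sum_le_sum (g := fun _ => (K : ℝ) * U) fun j _ => ?_).trans ?_
  · obtain ⟨h1, h2⟩ := hu j j.2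
    rw [abs_mul, abs_of_nonneg h1]
    have : |(Z j : ℝ)| ≤ K := by exact_mod_cast hZ j
    gcongr
  · rw [sum_const, card_univ, Fintype.card_fin, nsmul_eq_mul]
    apply le_of_eq; ring

/-- distance to the nearest integer -/
noncomputable def dist1 (x : ℝ) : ℝ := |x - round x|

lemma dist1_nonneg (x : ℝ) : 0 ≤ dist1 x := abs_nonneg _

lemma dist1_half (x : ℝ) : dist1 x ≤ 1 / 2 := abs_sub_round x

/-- either a good multiple on the scale `T`, or a lacunary sequence of approximations -/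
lemma dirichlet (α T y : ℝ) (hy : 1 ≤ y) (hT : 1 ≤ T) (hT2 : 4 * y ≤ √T) (k : ℕ)
    (hk : y ^ (5 * k) ≤ T ^ (0.3 : ℝ)) :
    (∃ q : ℕ, T ≤ q ∧ (q : ℝ) ≤ T ^ (2.9 : ℝ) ∧ q * dist1 (q * α) ≤ 1 / y) ∨
    ∃ u : ℕ → ℕ, (∀ j < k, T ≤ u j ∧ (u j : ℝ) ≤ T ^ (2.8 : ℝ) ∧ u j * dist1 (u j * α) ≤ 1) ∧
      ∀ j, j + 1 < k → y ^ 4 * u j ≤ u (j + 1) := by
  have hT0 : 0 < T := by linarith
  have hy0 : 0 < y := by linarith
  obtain ⟨X, hX⟩ : ∃ X : ℕ → ℝ, X = fun j => T ^ (2.5 : ℝ) * y ^ (5 * j) := ⟨_, rfl⟩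
  have hT25 : 1 ≤ T ^ (2.5 : ℝ) := Real.one_le_rpow hT (by norm_num)
  have hX1 : ∀ j, 1 ≤ X j := fun j => by
    rw [hX]
    exact one_le_mul_of_one_le_of_one_le hT25 (one_le_pow₀ hy)
  have hXT : ∀ j, T ^ (2.5 : ℝ) ≤ X j := fun j => by
    rw [hX]
    exact le_mul_of_one_le_right (by positivity) (one_le_pow₀ hy)
  have hXk : ∀ j < k, X j ≤ T ^ (2.8 : ℝ) := fun j hj => by
    rw [hX]
    have h1 : y ^ (5 * j) ≤ y ^ (5 * k) := pow_le_pow_right₀ hy (by omega)
    have h2 : T ^ (2.8 : ℝ) = T ^ (2.5 : ℝ) * T ^ (0.3 : ℝ) := by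
      rw [← Real.rpow_add hT0]; norm_num
    rw [h2]
    apply mul_le_mul_of_nonneg_left (h1.trans hk) (by positivity)
  have hdir : ∀ j, ∃ q : ℕ, 0 < q ∧ (q : ℝ) ≤ X j ∧ dist1 (q * α) ≤ 1 / X j := by
    intro j
    have hn : 0 < ⌊X j⌋₊ := Nat.floor_pos.2 (hX1 j)
    obtain ⟨q, h1, h2, h3⟩ := Real.exists_nat_abs_mul_sub_round_le α hn
    refine ⟨q, h1, ?_, h3.trans ?_⟩
    · have h4 : (q : ℝ) ≤ (⌊X j⌋₊ : ℝ) := by exact_mod_cast h2
      exact h4.trans (Nat.floor_le (by linarith [hX1 j]))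
    · apply one_div_le_one_div_of_le (by linarith [hX1 j])
      exact (Nat.lt_floor_add_one _).le
  choose u hu0 huX hud using hdir
  by_cases hA : ∃ q : ℕ, T ≤ q ∧ (q : ℝ) ≤ T ^ (2.9 : ℝ) ∧ q * dist1 (q * α) ≤ 1 / y
  · exact Or.inl hA
  · right
    push Not at hA
    have h28 : T ^ (2.8 : ℝ) ≤ T ^ (2.9 : ℝ) := Real.rpow_le_rpow_of_exponent_le hT (by norm_num)
    have hTu : ∀ j < k, T ≤ u j := by
      intro j hj
      by_contra hlt
      push Not at hlt
      have hu1 : (1 : ℝ) ≤ u j := by exact_mod_cast hu0 j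
      have hu0' : (0 : ℝ) < u j := by linarith
      obtain ⟨m, hm⟩ : ∃ m : ℕ, m = ⌈T / u j⌉₊ := ⟨_, rfl⟩
      have hm1 : T / u j ≤ m := by rw [hm]; exact Nat.le_ceil _
      have hm2 : (m : ℝ) ≤ T / u j + 1 := by
        rw [hm]; exact (Nat.ceil_lt_add_one (by positivity)).le
      have h1 : T ≤ ((m * u j : ℕ) : ℝ) := by
        push_cast
        rwa [div_le_iff₀ hu0'] at hm1
      have h2 : ((m * u j : ℕ) : ℝ) ≤ 2 * T := by
        push_cast
        calc (m : ℝ) * u j ≤ (T / u j + 1) * u j := mul_le_mul_of_nonneg_right hm2 hu0'.le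
          _ = T + u j := by field_simp
          _ ≤ 2 * T := by linarith
      have h3 : 2 * T ≤ T ^ (2.9 : ℝ) := by
        have h4 : T ^ (2 : ℝ) ≤ T ^ (2.9 : ℝ) := Real.rpow_le_rpow_of_exponent_le hT (by norm_num)
        rw [Real.rpow_two] at h4
        have h5 : √T * √T = T := Real.mul_self_sqrt hT0.le
        have h6 : 2 ≤ T := by nlinarith
        nlinarith
      have h4 := hA (m * u j) h1 (h2.trans h3)
      have h5 : dist1 (((m * u j : ℕ) : ℝ) * α) ≤ m * dist1 (u j * α) := by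
        unfold dist1
        have h6 := round_le (((m * u j : ℕ) : ℝ) * α) (m * round (u j * α))
        refine h6.trans (le_of_eq ?_)
        push_cast
        rw [show (m : ℝ) * u j * α - m * (round ((u j : ℝ) * α) : ℝ) =
          m * (u j * α - (round ((u j : ℝ) * α) : ℝ)) by ring, abs_mul, Nat.abs_cast]
      have h6 : (m : ℝ) ≤ 2 * T := by
        refine hm2.trans ?_
        have : T / u j ≤ T := div_le_self hT0.le hu1
        linarith
      have h7 : (((m * u j : ℕ) : ℝ)) * dist1 (((m * u j : ℕ) : ℝ) * α) ≤ 2 * T * (2 * T * (1 / X j)) := by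
        apply mul_le_mul h2 _ (dist1_nonneg _) (by positivity)
        refine h5.trans ?_
        exact mul_le_mul h6 (hud j) (dist1_nonneg _) (by positivity)
      have h8 : 2 * T * (2 * T * (1 / X j)) ≤ 1 / y := by
        have h9 : T ^ (2.5 : ℝ) = T * T * √T := by
          rw [Real.sqrt_eq_rpow, ← sq, ← Real.rpow_natCast, ← Real.rpow_add hT0]
          norm_num
        have h10 := hXT j
        rw [h9] at h10
        have h11 : 0 < T * T := by positivity
        have h12 : T * T * (4 * y) ≤ X j := (mul_le_mul_of_nonneg_left hT2 h11.le).trans h10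
        have hXj : 0 < X j := by linarith [hX1 j]
        rw [show 2 * T * (2 * T * (1 / X j)) = 4 * (T * T) / X j by ring, div_le_div_iff₀ hXj hy0]
        linarith
      linarith
    have hXu : ∀ j < k, X j / y < u j := by
      intro j hj
      by_contra hle
      push Not at hle
      have h1 := hA (u j) (hTu j hj) ((huX j).trans ((hXk j hj).trans h28))
      have hXj : 0 < X j := by linarith [hX1 j]
      have h2 : (u j : ℝ) * dist1 (u j * α) ≤ X j / y * (1 / X j) :=
        mul_le_mul hle (hud j) (dist1_nonneg _) (by positivity)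
      have h3 : X j / y * (1 / X j) = 1 / y := by field_simp
      linarith
    refine ⟨u, fun j hj => ⟨hTu j hj, (huX j).trans (hXk j hj), ?_⟩, fun j hj => ?_⟩
    · have hXj : 0 < X j := by linarith [hX1 j]
      have h2 : (u j : ℝ) * dist1 (u j * α) ≤ X j * (1 / X j) :=
        mul_le_mul (huX j) (hud j) (dist1_nonneg _) (by positivity)
      have h3 : X j * (1 / X j) = 1 := by field_simp
      linarith
    · have h1 := (hXu (j + 1) hj).le
      refine le_trans ?_ h1
      have h2 : X (j + 1) / y = y ^ 4 * X j := by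
        rw [hX]
        simp only
        rw [show 5 * (j + 1) = 5 * j + 5 by ring, pow_add]
        field_simp
      rw [h2]
      exact mul_le_mul_of_nonneg_left (huX j) (by positivity)

end Pool.Agent.Helper478.Lit
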