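import Pool.Agent.Helper478_Lit.B
import Pool.Agent.Helper478_Lit.Fam2
import Pool.Agent.Helper478_Short.An

/-!
# Products `q ‖q α‖ ‖q β_n - z‖` for `β_n = n ^ θ g (n ^ (-s))`
-/

set_option autoImplicit false

namespace Pool.Agent.Helper478.Lit

open Finset Filter Topology
open Pool.Agent.H469R2.NK (e norm_e e_add e_zero conj_e)
open Pool.Agent.Helper478.Surds (ev_pow)
open Pool.Agent.Helper478.Short (germ coeffs_comb)

lemma ev_log (a γ : ℝ) (hγ : 0 < γ) : ∀ᶠ y : ℝ in atTop, a * Real.log y ≤ y ^ γ := by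
  have h1 := (isLittleO_log_rpow_atTop hγ).bound (show (0 : ℝ) < 1 / (|a| + 1) by positivity)
  filter_upwards [h1, eventually_ge_atTop 1] with y hy hy1
  rw [Real.norm_of_nonneg (Real.log_nonneg hy1), Real.norm_of_nonneg (by positivity)] at hy
  have h2 : a * Real.log y ≤ (|a| + 1) * Real.log y :=
    mul_le_mul_of_nonneg_right (by linarith [le_abs_self a]) (Real.log_nonneg hy1)
  refine h2.trans ?_
  calc (|a| + 1) * Real.log y ≤ (|a| + 1) * (1 / (|a| + 1) * y ^ γ) := by gcongr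
    _ = y ^ γ := by field_simp

lemma exp_big (y : ℝ) (hy : 200 ≤ y) : 144 * y ^ 2 * y ≤ Real.exp y := by
  have hy0 : 0 < y := by linarith
  have h6 : 144 * y ^ 2 * y ≤ y ^ 5 / 120 := by
    have h1 : (144 * 120 : ℝ) ≤ y ^ 2 := by nlinarith
    have h2 := mul_le_mul_of_nonneg_right h1 (pow_pos hy0 3).le
    have h3 : y ^ 2 * y ^ 3 = y ^ 5 := by ring
    have h4 : y ^ 2 * y = y ^ 3 := by ring
    rw [h3] at h2
    have h5 : 144 * y ^ 2 * y = 144 * y ^ 3 := by ring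
    rw [h5]
    linarith
  have h7 := Real.pow_div_factorial_le_exp y hy0.le 5
  norm_num [Nat.factorial] at h7
  linarith

open scoped Classical in
theorem lit (ε : ℝ) (hε0 : 0 < ε) (hε1 : ε < 1) : ∃ γ : ℝ, 0 < γ ∧ ∀ (θ s : ℝ), 0 < s → s ≤ 1 →
    ∀ g : ℝ → ℝ, AnalyticAt ℝ g 0 →
    (¬ ∃ P : Polynomial ℝ, ∀ᶠ t : ℝ in atTop, t ^ θ * g (t ^ (-s)) = P.eval t) →
    ∀ ρ : ℝ, 0 < ρ → ρ ≤ 1 → ∃ (C : ℝ) (N₀ : ℕ), ∀ (α : ℝ) (N R : ℕ), N₀ ≤ N →
      (N : ℝ) ^ ρ ≤ R → R ≤ N →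
      (((Ioc 0 R).filter fun n : ℕ => ∃ T : ℝ, 1 ≤ T ∧ C * Real.log N ≤ Real.log T ∧
        Real.log T ≤ (Real.log N) ^ (1 + γ) ∧ ∃ z : ℝ, ∀ q : ℕ, T ≤ q → (q : ℝ) ≤ T ^ (3 : ℝ) →
          (Real.log N) ^ (-1 + ε) < q * dist1 (q * α) *
            dist1 (q * (((N : ℝ) + n) ^ θ * g (((N : ℝ) + n) ^ (-s))) - z)).card : ℝ) ≤
        R * Real.exp (-(Real.log N) ^ γ) := by
  obtain ⟨γ₁, hγ₁0, hγ₁1, hfam⟩ := fam_bd'
  obtain ⟨γf, hγf⟩ : ∃ γf : ℝ, γf = min γ₁ (ε / 40) := ⟨_, rfl⟩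
  have hf0 : 0 < γf := by rw [hγf]; exact lt_min hγ₁0 (by positivity)
  have hf1 : γf ≤ γ₁ := by rw [hγf]; exact min_le_left _ _
  have hf2 : γf ≤ ε / 40 := by rw [hγf]; exact min_le_right _ _
  obtain ⟨γ, hγ⟩ : ∃ γ : ℝ, γ = γf / 4 := ⟨_, rfl⟩
  have hγ0 : 0 < γ := by rw [hγ]; positivity
  refine ⟨γ, hγ0, ?_⟩
  intro θ s hs0 hs1 g hg hpoly ρ hρ0 hρ1
  obtain ⟨b, A, hA, hb, ⟨m₀, hm₀, hθ, hlow⟩, hgerm⟩ := coeffs_comb (r := 1) θ s hs0 (fun _ => g)
    (fun _ => hg) (fun _ => 1) (by simpa using hpoly)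
  simp only [Finset.univ_unique, Fin.default_eq_zero, Int.cast_one, one_mul, sum_singleton] at hgerm
  obtain ⟨C₀, hC₀, N₁, hN₁⟩ := hfam γf hf0 hf1 ρ hρ0 hρ1 θ s hs0 hs1 b A hA hb m₀ hm₀ hθ hlow
  obtain ⟨t₀, ht₀⟩ := eventually_atTop.1 hgerm
  obtain ⟨N₂, hN₂⟩ := exists_nat_ge t₀
  -- eventual inequalities
  have ev1 : ∀ᶠ y : ℝ in atTop, (4 : ℝ) * y ≤ Real.exp y := by
    have h1 := (Real.tendsto_exp_div_pow_atTop 1).eventually (eventually_ge_atTop (4 : ℝ))
    filter_upwards [h1, eventually_gt_atTop 0] with y hy hy0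
    rw [pow_one, le_div_iff₀ hy0] at hy
    exact hy
  have ev2 := ev_log 1 γf hf0
  have ev3 : ∀ᶠ y : ℝ in atTop, 20 * y ^ (1 - 9 * γf) ≤ y ^ (1 : ℝ) := ev_pow _ _ _ (by linarith)
  have ev4 : ∀ᶠ y : ℝ in atTop, 10 * y ^ (1 + γ) ≤ y ^ (1 + γf / 2) := ev_pow _ _ _ (by linarith)
  have ev5 : ∀ᶠ y : ℝ in atTop, 16 * y ^ γ ≤ y ^ (ε - 10 * γf) := ev_pow _ _ _ (by linarith)
  have ev6 : ∀ᶠ y : ℝ in atTop, 2 * y ^ γ ≤ y ^ (1 - 9 * γf) := ev_pow _ _ _ (by linarith)
  have ev7 := ev_log 8 γf hf0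
  have ev8 : ∀ᶠ y : ℝ in atTop, (24 : ℝ) * y ^ (0 : ℝ) ≤ y ^ γf := ev_pow _ _ _ (by linarith)
  have ev9 := ev_log 8 γ hγ0
  have ev10 : ∀ᶠ y : ℝ in atTop, (8 : ℝ) * y ^ (0 : ℝ) ≤ y ^ γ := ev_pow _ _ _ (by linarith)
  have hlog : Tendsto (fun N : ℕ => Real.log N) atTop atTop :=
    Real.tendsto_log_atTop.comp tendsto_natCast_atTop_atTop
  have hev := hlog.eventually ((((ev1.and ev2).and (ev3.and ev4)).and ((ev5.and ev6).and
    (ev7.and ev8))).and ((ev9.and ev10).and (eventually_ge_atTop 200)))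
  obtain ⟨N₀, hN₀⟩ := eventually_atTop.1 (hev.and (eventually_ge_atTop (max (max N₁ N₂) 2)))
  refine ⟨C₀ + 30, N₀, ?_⟩
  intro α N R hN hRN hRN'
  obtain ⟨⟨⟨⟨⟨q1, q2⟩, q3, q4⟩, ⟨q5, q6⟩, q7, q8⟩, ⟨q9, q10⟩, q11⟩, q12⟩ := hN₀ N hN
  obtain ⟨y, hy⟩ : ∃ y : ℝ, y = Real.log N := ⟨_, rfl⟩
  simp only [← hy] at q1 q2 q3 q4 q5 q6 q7 q8 q9 q10 q11 ⊢
  have hNN₁ : N₁ ≤ N := ((le_max_left _ _).trans (le_max_left _ _)).trans q12
  have hNN₂ : N₂ ≤ N := ((le_max_right _ _).trans (le_max_left _ _)).trans q12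
  have hN2 : 2 ≤ N := (le_max_right _ _).trans q12
  have hN0 : (0 : ℝ) < N := by exact_mod_cast (by omega : 0 < N)
  rw [Real.rpow_zero, mul_one] at q8 q10
  rw [Real.rpow_one] at q3
  rw [one_mul] at q2
  have hy0 : 0 < y := by linarith only [q11]
  have hy1 : 1 ≤ y := by linarith only [q11]
  have hR0 : (0 : ℝ) ≤ R := Nat.cast_nonneg R
  have hlogy : 0 ≤ Real.log y := Real.log_nonneg hy1
  -- the numbers `k` and `M`
  obtain ⟨k, hk⟩ : ∃ k : ℕ, k = ⌊y ^ (1 - 10 * γf)⌋₊ := ⟨_, rfl⟩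
  obtain ⟨M, hM⟩ : ∃ M : ℕ, M = ⌈y ^ (1 - ε)⌉₊ := ⟨_, rfl⟩
  have hk1 : (k : ℝ) ≤ y ^ (1 - 10 * γf) := by rw [hk]; exact Nat.floor_le (by positivity)
  have hk2 : y ^ (1 - 10 * γf) / 2 ≤ k := by
    have h1 : y ^ (1 - 10 * γf) - 1 < k := by rw [hk]; exact Nat.sub_one_lt_floor _
    have h2 : 2 ≤ y ^ (1 - 10 * γf) := by
      have h3 : y ^ (1 / 2 : ℝ) ≤ y ^ (1 - 10 * γf) := Real.rpow_le_rpow_of_exponent_le hy1 (by linarith)
      rw [← Real.sqrt_eq_rpow] at h3
      have h4 : (2 : ℝ) ≤ √y := by rw [Real.le_sqrt (by norm_num) hy0.le]; linarith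
      linarith
    linarith
  have hM1 : y ^ (1 - ε) ≤ M := by rw [hM]; exact Nat.le_ceil _
  have hMpos : 1 ≤ M := by
    rw [hM]; exact Nat.one_le_iff_ne_zero.2 (Nat.ceil_pos.2 (by positivity)).ne'
  have hM0 : (0 : ℝ) < M := by exact_mod_cast hMpos
  have hM2 : (M : ℝ) ≤ 2 * y ^ (1 - ε) := by
    have h1 : (M : ℝ) < y ^ (1 - ε) + 1 := by rw [hM]; exact Nat.ceil_lt_add_one (by positivity)
    have h2 : 1 ≤ y ^ (1 - ε) := Real.one_le_rpow hy1 (by linarith)
    linarith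
  have hyε : y ^ (1 - ε) ≤ y := by
    calc y ^ (1 - ε) ≤ y ^ (1 : ℝ) := Real.rpow_le_rpow_of_exponent_le hy1 (by linarith)
      _ = y := Real.rpow_one y
  have hM3 : (M : ℝ) ≤ 2 * y := by linarith
  obtain ⟨K, hK⟩ : ∃ K : ℕ, K = 36 * M ^ 2 := ⟨_, rfl⟩
  have hKr : (K : ℝ) = 36 * M ^ 2 := by rw [hK]; push_cast; ring
  have hK1 : 1 ≤ K := by rw [hK]; nlinarith
  have hK2 : (K : ℝ) ≤ 144 * y ^ 2 := by
    rw [hKr]
    nlinarith
  have hK3 : 4 * (K : ℝ) ≤ y ^ 4 := by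
    have : (576 : ℝ) ≤ y ^ 2 := by nlinarith
    nlinarith [sq_nonneg y]
  have hky : (k : ℝ) ≤ y := by
    refine hk1.trans ?_
    calc y ^ (1 - 10 * γf) ≤ y ^ (1 : ℝ) := Real.rpow_le_rpow_of_exponent_le hy1 (by linarith)
      _ = y := Real.rpow_one y
  -- the points
  obtain ⟨β, hβ⟩ : ∃ β : ℕ → ℝ, β = fun n : ℕ => ((N : ℝ) + n) ^ θ * g (((N : ℝ) + n) ^ (-s)) := ⟨_, rfl⟩
  have hβg : ∀ n : ℕ, β n = germ θ s b ((N : ℝ) + n) := by
    intro n
    rw [hβ]
    apply ht₀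
    have h2 : (N₂ : ℝ) ≤ N := by exact_mod_cast hNN₂
    have h3 : (0 : ℝ) ≤ n := Nat.cast_nonneg n
    linarith
  obtain ⟨W, hW⟩ : ∃ W : ℝ, W = R * Real.exp (-(2 * y ^ (1 - 9 * γf))) := ⟨_, rfl⟩
  have hW0 : 0 ≤ W := by rw [hW]; positivity
  have hexp : ∀ F : ℝ, Real.exp (y * C₀) ≤ |F| → |F| ≤ 2 * Real.exp (y ^ (1 + γf / 2)) →
      ‖∑ n ∈ Ioc 0 R, e (F * β n)‖ ≤ W := by
    intro F hF1 hF2
    have h1 := hN₁ N R F hNN₁ hRN hRN' (by
      rw [Real.rpow_def_of_pos hN0, ← hy]; exact hF1) (by rw [← hy]; exact hF2)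
    rw [← hy] at h1
    rw [hW]
    refine le_trans (le_of_eq ?_) h1
    have h2 : ∑ n ∈ Ioc 0 R, e (F * β n) = ∑ n ∈ Ioc 0 R, e (F * germ θ s b ((N : ℝ) + n)) :=
      sum_congr rfl fun n _ => by rw [hβg]
    rw [h2]
  -- one scale
  have scale : ∀ i : ℕ, (C₀ + 2) * y ≤ i → (i : ℝ) ≤ y ^ (1 + γ) + 1 →
      (((Ioc 0 R).filter fun n : ℕ => ∃ z : ℝ, ∀ q : ℕ, Real.exp i ≤ q → (q : ℝ) ≤ Real.exp i ^ (2.9 : ℝ) →
        y ^ (-1 + ε) < q * dist1 (q * α) * dist1 (q * β n - z)).card : ℝ) ≤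
      4 * y * (R * Real.exp (-(2 * y ^ γ))) := by
    intro i hi1 hi2
    have hi0 : 2 * y ≤ i := by nlinarith
    obtain ⟨T, hT⟩ : ∃ T : ℝ, T = Real.exp i := ⟨_, rfl⟩
    rw [← hT]
    have hT1 : 1 ≤ T := by rw [hT]; exact Real.one_le_exp (by positivity)
    have hT0 : 0 < T := by linarith
    have hTr : ∀ a : ℝ, T ^ a = Real.exp (i * a) := fun a => by rw [hT, ← Real.exp_mul]
    have hyinv : 1 / y ≤ y ^ (-1 + ε) := by
      rw [one_div, ← Real.rpow_neg_one]
      exact Real.rpow_le_rpow_of_exponent_le hy1 (by linarith)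
    rcases dirichlet α T y hy1 hT1 (by
        rw [Real.sqrt_eq_rpow, hTr]
        refine q1.trans (Real.exp_le_exp.2 ?_)
        linarith only [hi0]) k (by
        rw [hTr]
        have h1 : y ^ (5 * k) = Real.exp ((5 * k : ℕ) * Real.log y) := by
          rw [Real.exp_nat_mul, Real.exp_log hy0]
        rw [h1]
        apply Real.exp_le_exp.2
        push_cast
        have h2 : (k : ℝ) * Real.log y ≤ y ^ (1 - 10 * γf) * y ^ γf :=
          mul_le_mul hk1 q2 hlogy (by positivity)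
        rw [← Real.rpow_add hy0, show 1 - 10 * γf + γf = 1 - 9 * γf by ring] at h2
        linarith only [h2, q3, hi0]) with ⟨q, hq1, hq2, hq3⟩ | ⟨u, hu, hgrow⟩
    · -- the trivial case
      rw [filter_eq_empty_iff.2]
      · simp only [card_empty, Nat.cast_zero]; positivity
      · rintro n - ⟨z, hz⟩
        have h1 := hz q hq1 hq2
        have h2 : (q : ℝ) * dist1 (q * α) * dist1 (q * β n - z) ≤ 1 / y * 1 := by
          apply mul_le_mul hq3 _ (dist1_nonneg _) (by positivity)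
          linarith only [dist1_half (q * β n - z)]
        linarith only [h1, h2, hyinv]
    · have hdense := dense k M hMpos (Ioc 0 R) β (fun j : Fin k => (u j : ℝ)) W hW0 (by
        intro Z hZ0 hZ
        rw [← hK] at hZ
        have hkpos : 0 < k := by
          rcases Nat.eq_zero_or_pos k with h | h
          · subst h
            exact absurd (Subsingleton.elim _ _) hZ0
          · exact h
        have hgrow' : ∀ j, j + 1 < k → 4 * (K : ℝ) * (u j : ℝ) ≤ (u (j + 1) : ℝ) := by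
          intro j hj
          refine le_trans ?_ (hgrow j hj)
          exact mul_le_mul_of_nonneg_right hK3 (Nat.cast_nonneg _)
        apply hexp
        · have h1 := lac K hK1 (fun j => (u j : ℝ)) (by
            have := (hu 0 hkpos).1
            linarith only [this, hT0]) k hgrow' Z hZ0 hZ
          refine le_trans ?_ h1
          have h2 := (hu 0 hkpos).1
          have h3 : 2 * Real.exp (y * C₀) ≤ T := by
            rw [hT]
            calc 2 * Real.exp (y * C₀) ≤ Real.exp (2 * y) * Real.exp (y * C₀) := by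
                  apply mul_le_mul_of_nonneg_right _ (Real.exp_pos _).le
                  have := Real.add_one_le_exp (2 * y)
                  linarith only [this, hy1]
              _ = Real.exp ((C₀ + 2) * y) := by rw [← Real.exp_add]; congr 1; ring
              _ ≤ _ := Real.exp_le_exp.2 hi1
          linarith only [h2, h3]
        · have h1 := lac_le K (fun j => (u j : ℝ)) (T ^ (2.8 : ℝ)) k
            (fun j hj => ⟨Nat.cast_nonneg _, (hu j hj).2.1⟩) Z hZ
          refine h1.trans ?_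
          rw [hTr]
          have h2 : (K : ℝ) * k ≤ Real.exp y := by
            have h3 : (K : ℝ) * k ≤ 144 * y ^ 2 * y := by gcongr
            exact h3.trans (exp_big y q11)
          calc (K : ℝ) * k * Real.exp (i * 2.8) ≤ Real.exp y * Real.exp (i * 2.8) := by gcongr
            _ = Real.exp (y + i * 2.8) := by rw [Real.exp_add]
            _ ≤ Real.exp (y ^ (1 + γf / 2)) := by
                apply Real.exp_le_exp.2
                have h3 : y ≤ y ^ (1 + γ) := by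
                  calc y = y ^ (1 : ℝ) := (Real.rpow_one y).symm
                    _ ≤ _ := Real.rpow_le_rpow_of_exponent_le hy1 (by linarith only [hγ0])
                linarith only [h3, hi2, q4, hy1]
            _ ≤ _ := by linarith only [Real.exp_pos (y ^ (1 + γf / 2))])
      refine le_trans (Nat.cast_le.2 (card_le_card ?_)) (hdense.trans ?_)
      · intro n hn
        rw [mem_filter] at hn ⊢
        obtain ⟨hn0, z, hz⟩ := hn
        refine ⟨hn0, z, fun j => ?_⟩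
        by_contra hle
        push Not at hle
        obtain ⟨c1, c2, c3⟩ := hu j j.2
        have h1 := hz (u j) c1 (c2.trans (Real.rpow_le_rpow_of_exponent_le hT1 (by norm_num)))
        have h2 : ((u j : ℕ) : ℝ) * dist1 ((u j : ℕ) * α) * dist1 ((u j : ℕ) * β n - z) ≤ 1 * (1 / M) :=
          mul_le_mul c3 hle (dist1_nonneg _) zero_le_one
        have h3 : 1 / (M : ℝ) ≤ y ^ (-1 + ε) := by
          rw [show -1 + ε = -(1 - ε) by ring, Real.rpow_neg hy0.le, ← one_div]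
          exact one_div_le_one_div_of_le (by positivity) hM1
        linarith only [h1, h2, h3]
      · -- the numbers
        rw [Nat.card_Ioc, Nat.sub_zero, ← hK]
        have h1 : 2 * y ^ γ ≤ k / (2 * M) := by
          rw [le_div_iff₀ (by positivity)]
          have h2 : y ^ (1 - 10 * γf) = y ^ (1 - ε) * y ^ (ε - 10 * γf) := by
            rw [← Real.rpow_add hy0]; congr 1; ring
          have h3 : 2 * y ^ γ * (2 * M) ≤ 2 * y ^ γ * (2 * (2 * y ^ (1 - ε))) := by gcongr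
          have h4 : y ^ (1 - ε) * (16 * y ^ γ) ≤ y ^ (1 - ε) * y ^ (ε - 10 * γf) := by gcongr
          rw [← h2] at h4
          linarith only [h3, h4, hk2]
        have h2 : 3 + 2 * Real.log K ≤ Real.exp (y ^ γf) := by
          have h3 : Real.log K ≤ 5 + 2 * Real.log y := by
            have h4 : Real.log K ≤ Real.log (144 * y ^ 2) :=
              Real.log_le_log (by exact_mod_cast (by omega : 0 < K)) hK2
            have h5 : Real.log 144 ≤ 5 := by
              rw [Real.log_le_iff_le_exp (by norm_num)]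
              have h6 : Real.exp 5 = Real.exp 1 ^ 5 := by rw [← Real.exp_nat_mul]; norm_num
              rw [h6]
              have h7 : (2.718 : ℝ) ^ 5 ≤ Real.exp 1 ^ 5 :=
                pow_le_pow_left₀ (by norm_num) (by linarith [Real.exp_one_gt_d9]) 5
              refine le_trans (by norm_num) h7
            rw [Real.log_mul (by norm_num) (by positivity), Real.log_pow] at h4
            push_cast at h4
            linarith only [h4, h5]
          have h4 := Real.add_one_le_exp (y ^ γf)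
          linarith only [h3, h4, q7, q8]
        have hlogK : 0 ≤ Real.log K := Real.log_natCast_nonneg K
        have h3 : (3 + 2 * Real.log K) ^ k ≤ Real.exp (y ^ (1 - 9 * γf)) := by
          calc (3 + 2 * Real.log K) ^ k ≤ Real.exp (y ^ γf) ^ k :=
                pow_le_pow_left₀ (by positivity) h2 k
            _ = Real.exp (k * y ^ γf) := by rw [← Real.exp_nat_mul]
            _ ≤ _ := by
                apply Real.exp_le_exp.2
                calc (k : ℝ) * y ^ γf ≤ y ^ (1 - 10 * γf) * y ^ γf := by gcongr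
                  _ = _ := by rw [← Real.rpow_add hy0]; congr 1; ring
        have h4 : (3 + 2 * Real.log K) ^ k * W ≤ R * Real.exp (-(2 * y ^ γ)) := by
          rw [hW]
          calc (3 + 2 * Real.log K) ^ k * (R * Real.exp (-(2 * y ^ (1 - 9 * γf)))) ≤
                Real.exp (y ^ (1 - 9 * γf)) * (R * Real.exp (-(2 * y ^ (1 - 9 * γf)))) := by gcongr
            _ = R * Real.exp (-(y ^ (1 - 9 * γf))) := by
                rw [show -(y ^ (1 - 9 * γf)) = y ^ (1 - 9 * γf) + -(2 * y ^ (1 - 9 * γf)) by ring,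
                  Real.exp_add]
                ring
            _ ≤ _ := by
                apply mul_le_mul_of_nonneg_left _ hR0
                apply Real.exp_le_exp.2
                linarith only [q6]
        have h5 : (R : ℝ) * Real.exp (-(k / (2 * M))) ≤ R * Real.exp (-(2 * y ^ γ)) := by
          apply mul_le_mul_of_nonneg_left _ hR0
          apply Real.exp_le_exp.2
          linarith only [h1]
        calc (M : ℝ) * (R * Real.exp (-(k / (2 * M))) + (3 + 2 * Real.log K) ^ k * W) ≤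
              2 * y * (R * Real.exp (-(2 * y ^ γ)) + R * Real.exp (-(2 * y ^ γ))) := by gcongr
          _ = _ := by ring
  -- all scales
  obtain ⟨I, hI⟩ : ∃ I : Finset ℕ, I = (range (⌊y ^ (1 + γ)⌋₊ + 2)).filter fun i : ℕ =>
    (C₀ + 2) * y ≤ i ∧ (i : ℝ) ≤ y ^ (1 + γ) + 1 := ⟨_, rfl⟩
  have hIcard : (I.card : ℝ) ≤ y ^ 2 := by
    have h1 : I.card ≤ ⌊y ^ (1 + γ)⌋₊ + 2 := by
      rw [hI]
      exact (card_filter_le _ _).trans (by rw [card_range])
    have h2 : (I.card : ℝ) ≤ (⌊y ^ (1 + γ)⌋₊ : ℝ) + 2 := by exact_mod_cast h1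
    have h3 : (⌊y ^ (1 + γ)⌋₊ : ℝ) ≤ y ^ (1 + γ) := Nat.floor_le (by positivity)
    have h4 : y ^ (1 + γf / 2) ≤ y ^ (2 : ℝ) := Real.rpow_le_rpow_of_exponent_le hy1 (by linarith)
    rw [Real.rpow_two] at h4
    have h5 : 1 ≤ y ^ (1 + γ) := Real.one_le_rpow hy1 (by linarith)
    linarith
  have hsub : ((Ioc 0 R).filter fun n : ℕ => ∃ T : ℝ, 1 ≤ T ∧ (C₀ + 30) * y ≤ Real.log T ∧
        Real.log T ≤ y ^ (1 + γ) ∧ ∃ z : ℝ, ∀ q : ℕ, T ≤ q → (q : ℝ) ≤ T ^ (3 : ℝ) →
          y ^ (-1 + ε) < q * dist1 (q * α) *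
            dist1 (q * (((N : ℝ) + n) ^ θ * g (((N : ℝ) + n) ^ (-s))) - z)) ⊆
      I.biUnion fun i => (Ioc 0 R).filter fun n : ℕ => ∃ z : ℝ, ∀ q : ℕ, Real.exp i ≤ q →
        (q : ℝ) ≤ Real.exp i ^ (2.9 : ℝ) → y ^ (-1 + ε) < q * dist1 (q * α) * dist1 (q * β n - z) := by
    intro n hn
    obtain ⟨hn0, T, hT1, hT2, hT3, z, hz⟩ := mem_filter.1 hn
    have hT0 : 0 < T := by linarith
    obtain ⟨i, hi⟩ : ∃ i : ℕ, i = ⌈Real.log T⌉₊ := ⟨_, rfl⟩
    have hlT : 0 ≤ Real.log T := Real.log_nonneg hT1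
    have hi1 : Real.log T ≤ i := by rw [hi]; exact Nat.le_ceil _
    have hi2 : (i : ℝ) < Real.log T + 1 := by rw [hi]; exact Nat.ceil_lt_add_one hlT
    have hC30 : 30 * y ≤ Real.log T := by nlinarith
    rw [mem_biUnion]
    refine ⟨i, ?_, ?_⟩
    · rw [hI, mem_filter, mem_range]
      refine ⟨?_, ?_, by linarith⟩
      · have h1 : i ≤ ⌊y ^ (1 + γ)⌋₊ + 1 := by
          rw [hi]
          apply Nat.ceil_le.2
          push_cast
          have := Nat.lt_floor_add_one (y ^ (1 + γ))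
          linarith
        omega
      · linarith
    · rw [mem_filter]
      refine ⟨hn0, z, fun q hq1 hq2 => ?_⟩
      have h1 : T ≤ Real.exp i := by
        rw [← Real.log_le_iff_le_exp hT0]; exact hi1
      have h2 := hz q (h1.trans hq1) (hq2.trans ?_)
      · rw [hβ]; exact h2
      · rw [← Real.exp_mul, Real.rpow_def_of_pos hT0]
        apply Real.exp_le_exp.2
        linarith
  refine le_trans (Nat.cast_le.2 (card_le_card hsub)) ?_
  refine le_trans (Nat.cast_le.2 card_biUnion_le) ?_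
  push_cast
  calc ∑ i ∈ I, (((Ioc 0 R).filter fun n : ℕ => ∃ z : ℝ, ∀ q : ℕ, Real.exp i ≤ q →
        (q : ℝ) ≤ Real.exp i ^ (2.9 : ℝ) →
          y ^ (-1 + ε) < q * dist1 (q * α) * dist1 (q * β n - z)).card : ℝ) ≤
      ∑ i ∈ I, 4 * y * (R * Real.exp (-(2 * y ^ γ))) := by
        refine sum_le_sum fun i hi => ?_
        rw [hI, mem_filter] at hi
        exact scale i hi.2.1 hi.2.2
    _ = I.card * (4 * y * (R * Real.exp (-(2 * y ^ γ)))) := by rw [sum_const, nsmul_eq_mul]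
    _ ≤ y ^ 2 * (4 * y * (R * Real.exp (-(2 * y ^ γ)))) := by gcongr
    _ ≤ R * Real.exp (-y ^ γ) := by
        have h1 : 4 * y ^ 3 ≤ Real.exp (y ^ γ) := by
          have h2 : Real.log (4 * y ^ 3) ≤ y ^ γ := by
            rw [Real.log_mul (by norm_num) (by positivity), Real.log_pow]
            have h3 : Real.log 4 ≤ 4 := by
              have := Real.log_le_sub_one_of_pos (show (0 : ℝ) < 4 by norm_num)
              linarith
            push_cast
            linarith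
          rwa [Real.log_le_iff_le_exp (by positivity)] at h2
        have h2 : Real.exp (-y ^ γ) = Real.exp (y ^ γ) * Real.exp (-(2 * y ^ γ)) := by
          rw [← Real.exp_add]; congr 1; ring
        rw [h2]
        calc y ^ 2 * (4 * y * (R * Real.exp (-(2 * y ^ γ)))) =
              R * ((4 * y ^ 3) * Real.exp (-(2 * y ^ γ))) := by ring
          _ ≤ _ := by gcongr

end Pool.Agent.Helper478.Lit
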