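import Pool.Agent.Helper478_Lit.SC

/-!
# Small arcs: the theorem for `β_n = n ^ θ g (n ^ (-s))`
-/

set_option autoImplicit false

namespace Pool.Agent.Helper478.Lit

open Finset Filter Topology
open Pool.Agent.H469R2.NK (e norm_e e_add e_zero conj_e)
open Pool.Agent.Helper478.Kwise
open Pool.Agent.Helper478.Surds (ev_pow)
open Pool.Agent.Helper478.Short (germ coeffs_comb)

/-- numerical estimates for large `K` -/
lemma evK (ε : ℝ) (hε0 : 0 < ε) : ∃ K₁ : ℕ, ∀ K : ℕ, K₁ ≤ K → 3 ≤ K ∧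
    2 * ((Nat.log 2 (36 * K ^ 2) + 1 : ℕ) : ℝ) ≤ (K : ℝ) ^ (ε / 8) ∧
    1 + 4 * (K : ℝ) ^ (ε / 16) ≤ (K : ℝ) ^ (ε / 8) ∧ 22 * (K : ℝ) ^ (3 * ε / 8) ≤ (K : ℝ) ^ ε := by
  have ev1 := ev_log 32 (ε / 8) (by positivity)
  have ev2 : ∀ᶠ y : ℝ in atTop, 5 * y ^ (ε / 16) ≤ y ^ (ε / 8) := ev_pow _ _ _ (by linarith)
  have ev3 : ∀ᶠ y : ℝ in atTop, 22 * y ^ (3 * ε / 8) ≤ y ^ ε := ev_pow _ _ _ (by linarith)
  have hid : Tendsto (fun N : ℕ => (N : ℝ)) atTop atTop := tendsto_natCast_atTop_atTop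
  obtain ⟨K₁, hK₁⟩ := eventually_atTop.1 (hid.eventually ((ev1.and ev2).and (ev3.and
    (eventually_ge_atTop 3))))
  refine ⟨K₁, fun K hK => ?_⟩
  obtain ⟨⟨q1, q2⟩, q3, q4⟩ := hK₁ K hK
  have hK3 : 3 ≤ K := by exact_mod_cast q4
  have hk1 : (1 : ℝ) ≤ K := by linarith
  have hk0 : (0 : ℝ) < K := by linarith
  refine ⟨hK3, ?_, ?_, q3⟩
  · refine le_trans ?_ q1
    have h1 : 2 ^ Nat.log 2 (36 * K ^ 2) ≤ 36 * K ^ 2 := Nat.pow_log_le_self 2 (by positivity)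
    have h2 : (2 : ℝ) ^ Nat.log 2 (36 * K ^ 2) ≤ 36 * (K : ℝ) ^ 2 := by exact_mod_cast h1
    have h3 := Real.log_le_log (by positivity) h2
    rw [Real.log_pow, Real.log_mul (by norm_num) (by positivity), Real.log_pow] at h3
    have h4 : Real.log 36 ≤ 6 * Real.log 2 := by
      have : Real.log 36 ≤ Real.log ((2 : ℝ) ^ 6) := Real.log_le_log (by norm_num) (by norm_num)
      rw [Real.log_pow] at this; push_cast at this; exact this
    have h5 := Real.log_two_gt_d9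
    have h6 := Real.log_two_lt_d9
    have hl1 : 1 ≤ Real.log K := by
      rw [Real.le_log_iff_exp_le hk0]
      linarith [Real.exp_one_lt_d9]
    have h8 : (0 : ℝ) ≤ (Nat.log 2 (36 * K ^ 2) : ℝ) := Nat.cast_nonneg _
    push_cast at h3 ⊢
    nlinarith
  · have : 1 ≤ (K : ℝ) ^ (ε / 16) := Real.one_le_rpow hk1 (by positivity)
    linarith

open scoped Classical in
theorem sa (ε : ℝ) (hε0 : 0 < ε) (hε1 : ε < 1) : ∃ γ : ℝ, 0 < γ ∧ ∀ (θ s : ℝ), 0 < s → s ≤ 1 →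
    ∀ g : ℝ → ℝ, AnalyticAt ℝ g 0 →
    (¬ ∃ P : Polynomial ℝ, ∀ᶠ t : ℝ in atTop, t ^ θ * g (t ^ (-s)) = P.eval t) →
    ∀ ρ : ℝ, 0 < ρ → ρ ≤ 1 → ∃ C : ℝ, ∀ δ : ℝ, 0 < δ → δ < 1 → ∃ κ : ℝ, 0 < κ ∧ ∃ N₀ : ℕ,
      ∀ (N R : ℕ), N₀ ≤ N → (N : ℝ) ^ ρ ≤ R → R ≤ N →
      (((Ioc 0 R).filter fun n : ℕ => ∃ b u K : ℕ, 2 ≤ b ∧ Real.log b ≤ (Real.log N) ^ κ ∧
        C * Real.log N ≤ u * Real.log b ∧ ((u : ℝ) + K) * Real.log b ≤ (Real.log N) ^ (1 + γ) ∧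
        (Real.log N) ^ δ ≤ K ∧ ¬ ∀ α₁ α₂ : ℝ, 0 ≤ α₁ → α₁ < α₂ → α₂ ≤ 1 →
          |cnt b u K α₁ α₂ (((N : ℝ) + n) ^ θ * g (((N : ℝ) + n) ^ (-s))) - K * (α₂ - α₁)| ≤
            (K : ℝ) ^ ε * (1 + √(K * (α₂ - α₁)))).card : ℝ) ≤
        R * Real.exp (-(Real.log N) ^ κ) := by
  obtain ⟨γ₁, hγ₁0, hγ₁1, hfam⟩ := fam_bd'
  obtain ⟨γf, hγf⟩ : ∃ γf : ℝ, γf = min γ₁ (ε / 400) := ⟨_, rfl⟩
  have hf0 : 0 < γf := by rw [hγf]; exact lt_min hγ₁0 (by positivity)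
  have hf1 : γf ≤ γ₁ := by rw [hγf]; exact min_le_left _ _
  have hf2 : γf ≤ ε / 400 := by rw [hγf]; exact min_le_right _ _
  obtain ⟨γ, hγ⟩ : ∃ γ : ℝ, γ = γf / 4 := ⟨_, rfl⟩
  have hγ0 : 0 < γ := by rw [hγ]; positivity
  refine ⟨γ, hγ0, ?_⟩
  intro θ s hs0 hs1 g hg hpoly ρ hρ0 hρ1
  obtain ⟨bb, A, hA, hb, ⟨m₀, hm₀, hθ, hlow⟩, hgerm⟩ := coeffs_comb (r := 1) θ s hs0 (fun _ => g)
    (fun _ => hg) (fun _ => 1) (by simpa using hpoly)
  simp only [Finset.univ_unique, Fin.default_eq_zero, Int.cast_one, one_mul, sum_singleton] at hgerm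
  obtain ⟨C₀, hC₀, N₁, hN₁⟩ := hfam γf hf0 hf1 ρ hρ0 hρ1 θ s hs0 hs1 bb A hA hb m₀ hm₀ hθ hlow
  obtain ⟨t₀, ht₀⟩ := eventually_atTop.1 hgerm
  obtain ⟨N₂, hN₂⟩ := exists_nat_ge t₀
  obtain ⟨K₁, hK₁⟩ := evK ε hε0
  refine ⟨C₀, ?_⟩
  intro δ hδ0 hδ1
  obtain ⟨κ, hκ⟩ : ∃ κ : ℝ, κ = ε * δ / 16 := ⟨_, rfl⟩
  have hκ0 : 0 < κ := by rw [hκ]; positivity
  have hκ1 : κ < 1 / 16 := by
    rw [hκ]
    have : ε * δ < 1 := by nlinarith
    linarith
  refine ⟨κ, hκ0, ?_⟩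
  -- eventual inequalities
  have ev1 : ∀ᶠ y : ℝ in atTop, 3 * y ^ (1 + γ) ≤ y ^ (1 + γf / 2) := ev_pow _ _ _ (by linarith)
  have ev2 : ∀ᶠ y : ℝ in atTop, 2 * y ^ (1 + γ) ≤ y ^ (2 : ℝ) := ev_pow _ _ _ (by linarith)
  have ev3 := ev_log 48 γf hf0
  have ev4 : ∀ᶠ y : ℝ in atTop, (52 : ℝ) * y ^ (0 : ℝ) ≤ y ^ γf := ev_pow _ _ _ (by linarith)
  have ev5 := ev_log 20 κ hκ0
  have ev6 : ∀ᶠ y : ℝ in atTop, (14 : ℝ) * y ^ (0 : ℝ) ≤ y ^ κ := ev_pow _ _ _ (by linarith)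
  have ev7 : ∀ᶠ y : ℝ in atTop, (3 : ℝ) * y ^ κ ≤ y ^ (4 * κ) := ev_pow _ _ _ (by linarith)
  have ev8 : ∀ᶠ y : ℝ in atTop, (K₁ : ℝ) * y ^ (0 : ℝ) ≤ y ^ δ := ev_pow _ _ _ (by linarith)
  have hlog : Tendsto (fun N : ℕ => Real.log N) atTop atTop :=
    Real.tendsto_log_atTop.comp tendsto_natCast_atTop_atTop
  have hev := hlog.eventually (((ev1.and ev2).and (ev3.and ev4)).and (((ev5.and ev6).and
    (ev7.and ev8)).and (eventually_ge_atTop 50000)))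
  obtain ⟨N₀, hN₀⟩ := eventually_atTop.1 (hev.and (eventually_ge_atTop (max (max N₁ N₂) 2)))
  refine ⟨N₀, ?_⟩
  intro N R hN hRN hRN'
  obtain ⟨⟨⟨⟨q1, q2⟩, q3, q4⟩, ⟨⟨q5, q6⟩, q7, q8⟩, q9⟩, q10⟩ := hN₀ N hN
  obtain ⟨y, hy⟩ : ∃ y : ℝ, y = Real.log N := ⟨_, rfl⟩
  simp only [← hy] at q1 q2 q3 q4 q5 q6 q7 q8 q9 ⊢
  have hNN₁ : N₁ ≤ N := ((le_max_left _ _).trans (le_max_left _ _)).trans q10
  have hNN₂ : N₂ ≤ N := ((le_max_right _ _).trans (le_max_left _ _)).trans q10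
  have hN2 : 2 ≤ N := (le_max_right _ _).trans q10
  have hN0 : (0 : ℝ) < N := by exact_mod_cast (by omega : 0 < N)
  rw [Real.rpow_zero, mul_one] at q4 q6 q8
  rw [Real.rpow_two] at q2
  have hy0 : 0 < y := by linarith only [q9]
  have hy1 : 1 ≤ y := by linarith only [q9]
  have hR0 : (0 : ℝ) ≤ R := Nat.cast_nonneg R
  have hlogy : 0 ≤ Real.log y := Real.log_nonneg hy1
  have hyγ : y ≤ y ^ (1 + γ) := by
    calc y = y ^ (1 : ℝ) := (Real.rpow_one y).symm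
      _ ≤ _ := Real.rpow_le_rpow_of_exponent_le hy1 (by linarith only [hγ0])
  -- the points
  obtain ⟨β, hβ⟩ : ∃ β : ℕ → ℝ, β = fun n : ℕ => ((N : ℝ) + n) ^ θ * g (((N : ℝ) + n) ^ (-s)) := ⟨_, rfl⟩
  have hβg : ∀ n : ℕ, β n = germ θ s bb ((N : ℝ) + n) := by
    intro n
    rw [hβ]
    apply ht₀
    have h2 : (N₂ : ℝ) ≤ N := by exact_mod_cast hNN₂
    have h3 : (0 : ℝ) ≤ n := Nat.cast_nonneg n
    linarith
  obtain ⟨W, hW⟩ : ∃ W : ℝ, W = R * Real.exp (-(2 * y ^ (1 - 9 * γf))) := ⟨_, rfl⟩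
  have hW0 : 0 ≤ W := by rw [hW]; positivity
  have hexp : ∀ F : ℝ, Real.exp (y * C₀) ≤ |F| → |F| ≤ 2 * Real.exp (y ^ (1 + γf / 2)) →
      ‖∑ n ∈ Ioc 0 R, e (F * β n)‖ ≤ W := by
    intro F hF1 hF2
    have h1 := hN₁ N R F hNN₁ hRN hRN' (by
      rw [Real.rpow_def_of_pos hN0, ← hy]; exact hF1) (by rw [← hy]; exact hF2)
    rw [← hy] at h1
    rw [hW]
    refine le_trans (le_of_eq ?_) h1
    have h2 : ∑ n ∈ Ioc 0 R, e (F * β n) = ∑ n ∈ Ioc 0 R, e (F * germ θ s bb ((N : ℝ) + n)) :=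
      sum_congr rfl fun n _ => by rw [hβg]
    rw [h2]
  -- the number `k₀`
  obtain ⟨k₀, hk₀⟩ : ∃ k₀ : ℕ, k₀ = ⌊y ^ (1 - 10 * γf)⌋₊ := ⟨_, rfl⟩
  have hγf1 : γf < 1 / 400 := by linarith only [hf2, hε1]
  have hk1 : (k₀ : ℝ) ≤ y ^ (1 - 10 * γf) := by rw [hk₀]; exact Nat.floor_le (by positivity)
  have hybig : 4 * √y ≤ y ^ (1 - 10 * γf) := by
    have h3 : y ^ (3 / 4 : ℝ) ≤ y ^ (1 - 10 * γf) :=
      Real.rpow_le_rpow_of_exponent_le hy1 (by linarith only [hγf1])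
    refine le_trans ?_ h3
    have h4 : y ^ (3 / 4 : ℝ) = √y * y ^ (1 / 4 : ℝ) := by
      rw [Real.sqrt_eq_rpow, ← Real.rpow_add hy0]; norm_num
    rw [h4, mul_comm]
    apply mul_le_mul_of_nonneg_left _ (Real.sqrt_nonneg _)
    calc (4 : ℝ) = (4 ^ (4 : ℝ)) ^ (1 / 4 : ℝ) := by
          rw [← Real.rpow_mul (by norm_num)]; norm_num
      _ ≤ y ^ (1 / 4 : ℝ) := by
          apply Real.rpow_le_rpow (by positivity) _ (by norm_num)
          have : (4 : ℝ) ^ (4 : ℝ) = 256 := by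
            rw [show (4 : ℝ) ^ (4 : ℝ) = (4 : ℝ) ^ ((4 : ℕ) : ℝ) by norm_num, Real.rpow_natCast]; norm_num
          rw [this]; linarith only [q9]
  have hsq1 : 1 ≤ √y := by rw [Real.le_sqrt (by norm_num) hy0.le]; linarith only [hy1]
  have hk2 : y ^ (1 - 10 * γf) / 2 ≤ k₀ := by
    have h1 : y ^ (1 - 10 * γf) - 1 < k₀ := by rw [hk₀]; exact Nat.sub_one_lt_floor _
    linarith only [h1, hybig, hsq1]
  have hk3 : √y ≤ k₀ := by linarith only [hk2, hybig, hsq1]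
  have hk₀1 : 1 ≤ k₀ := by
    have : (1 : ℝ) ≤ k₀ := hsq1.trans hk3
    exact_mod_cast this
  have hk₀0 : (0 : ℝ) < k₀ := by linarith only [hk3, hsq1]
  -- one triple
  have scale : ∀ b u K : ℕ, 2 ≤ b → C₀ * y ≤ u * Real.log b →
      ((u : ℝ) + K) * Real.log b ≤ y ^ (1 + γ) → y ^ δ ≤ K →
      (((Ioc 0 R).filter fun n : ℕ => ¬ ∀ α₁ α₂ : ℝ, 0 ≤ α₁ → α₁ < α₂ → α₂ ≤ 1 →
        |cnt b u K α₁ α₂ (β n) - K * (α₂ - α₁)| ≤ (K : ℝ) ^ ε * (1 + √(K * (α₂ - α₁)))).card : ℝ) ≤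
      64 * y ^ 6 * (R * Real.exp (-(y ^ (4 * κ)))) := by
    intro b u K hb2 hu hK hδK
    have hKK₁ : K₁ ≤ K := by exact_mod_cast q8.trans hδK
    obtain ⟨hK3, p1, p2, p3⟩ := hK₁ K hKK₁
    obtain ⟨gg, hgg⟩ : ∃ gg : ℕ, gg = Nat.log 2 (36 * K ^ 2) + 1 := ⟨_, rfl⟩
    rw [← hgg] at p1
    have hgg1 : 1 ≤ gg := by rw [hgg]; omega
    have hggb : 36 * K ^ 2 ≤ b ^ gg := by
      rw [hgg]
      exact le_of_lt (lt_of_lt_of_le (Nat.lt_pow_succ_log_self one_lt_two _) (Nat.pow_le_pow_left hb2 _))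
    have hb0 : (0 : ℝ) < b := by exact_mod_cast (by omega : 0 < b)
    have hb2' : (2 : ℝ) ≤ b := by exact_mod_cast hb2
    have hlogb : 1 / 2 ≤ Real.log b := by
      have h1 := Real.log_le_log (by norm_num) hb2'
      linarith [Real.log_two_gt_d9]
    have hKr : (1 : ℝ) ≤ K := by exact_mod_cast (by omega : 1 ≤ K)
    have hK0 : (0 : ℝ) < K := by linarith only [hKr]
    have hu0 : (0 : ℝ) ≤ u := Nat.cast_nonneg u
    have hKy : (K : ℝ) ≤ 2 * y ^ (1 + γ) := by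
      have h1 : (K : ℝ) * (1 / 2) ≤ (u + K) * Real.log b := by gcongr; linarith only [hu0]
      linarith only [h1, hK]
    have hKy2 : (K : ℝ) ≤ y ^ 2 := hKy.trans q2
    obtain ⟨τ, hτ⟩ : ∃ τ : ℝ, τ = (K : ℝ) ^ (ε / 4) := ⟨_, rfl⟩
    have hτ1 : 1 ≤ τ := by rw [hτ]; exact Real.one_le_rpow hKr (by positivity)
    obtain ⟨Q, hQ⟩ : ∃ Q : ℕ, Q = gg * (K / (gg * k₀) + 2) := ⟨_, rfl⟩
    have hQ1 : (Q : ℝ) ≤ 2 * (K : ℝ) ^ (ε / 8) := by
      have h1 : (Q : ℝ) ≤ K / k₀ + 2 * gg := by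
        rw [hQ]
        push_cast
        have h2 : ((K / (gg * k₀) : ℕ) : ℝ) ≤ (K : ℝ) / (gg * k₀ : ℕ) := Nat.cast_div_le
        have hgg0 : (0 : ℝ) < gg := by exact_mod_cast hgg1
        have h3 := mul_le_mul_of_nonneg_left h2 hgg0.le
        have h4 : (gg : ℝ) * ((K : ℝ) / (gg * k₀ : ℕ)) = K / k₀ := by
          push_cast; field_simp
        rw [h4] at h3
        linarith only [h3]
      have h2 : (K : ℝ) / k₀ ≤ 1 + 4 * (K : ℝ) ^ (ε / 16) := by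
        rcases le_or_gt (K : ℝ) k₀ with hle | hgt
        · have h3 : (K : ℝ) / k₀ ≤ 1 := by rw [div_le_one hk₀0]; exact hle
          have h4 : 0 < (K : ℝ) ^ (ε / 16) := by positivity
          linarith only [h3, h4]
        · have h3 : (K : ℝ) / k₀ ≤ 4 * y ^ (11 * γf) := by
            rw [div_le_iff₀ hk₀0]
            have h5 : y ^ (11 * γf) * y ^ (1 - 10 * γf) = y ^ (1 + γf) := by
              rw [← Real.rpow_add hy0]; congr 1; ring
            have h6 : y ^ (1 + γ) ≤ y ^ (1 + γf) :=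
              Real.rpow_le_rpow_of_exponent_le hy1 (by linarith only [hγ, hf0])
            have h7 : 4 * y ^ (11 * γf) * (y ^ (1 - 10 * γf) / 2) ≤ 4 * y ^ (11 * γf) * k₀ := by gcongr
            have h8 : 4 * y ^ (11 * γf) * (y ^ (1 - 10 * γf) / 2) =
                2 * (y ^ (11 * γf) * y ^ (1 - 10 * γf)) := by ring
            rw [h8, h5] at h7
            linarith only [h7, h6, hKy]
          have h4 : y ^ (11 * γf) ≤ (K : ℝ) ^ (ε / 16) := by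
            have h5 : √y ≤ K := hk3.trans hgt.le
            have h6 : y ^ (11 * γf) = √y ^ (22 * γf) := by
              rw [Real.sqrt_eq_rpow, ← Real.rpow_mul hy0.le]; congr 1; ring
            rw [h6]
            calc √y ^ (22 * γf) ≤ (K : ℝ) ^ (22 * γf) :=
                  Real.rpow_le_rpow (Real.sqrt_nonneg _) h5 (by positivity)
              _ ≤ _ := Real.rpow_le_rpow_of_exponent_le hKr (by linarith only [hf2, hε0])
          linarith only [h3, h4]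
      linarith only [h1, h2, p1, p2]
    have hQτ : 11 * (τ * (Q : ℝ)) ≤ (K : ℝ) ^ ε := by
      refine le_trans ?_ p3
      have h1 : τ * (Q : ℝ) ≤ τ * (2 * (K : ℝ) ^ (ε / 8)) := by gcongr
      have h2 : τ * (2 * (K : ℝ) ^ (ε / 8)) = 2 * (K : ℝ) ^ (3 * ε / 8) := by
        rw [hτ]
        have : (K : ℝ) ^ (ε / 4) * (2 * (K : ℝ) ^ (ε / 8)) = 2 * ((K : ℝ) ^ (ε / 4) * (K : ℝ) ^ (ε / 8)) := by
          ring
        rw [this, ← Real.rpow_add hK0]; congr 2; ring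
      linarith only [h1, h2]
    have hmain := all_arcs b gg K k₀ u hb2 (by omega) hgg1 hk₀1 hggb (Ioc 0 R) β W hW0 (by
      intro F hF1 hF2
      apply hexp
      · refine le_trans ?_ hF1
        have h2 : Real.exp (y * C₀) ≤ (b : ℝ) ^ u := by
          rw [← Real.exp_log hb0, ← Real.exp_nat_mul]
          apply Real.exp_le_exp.2
          linarith only [hu]
        rw [pow_succ]
        have h3 : 0 < (b : ℝ) ^ u := by positivity
        nlinarith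
      · refine hF2.trans ?_
        have h2 : 9 * (K : ℝ) ^ 3 ≤ Real.exp y := by
          have h3 : (K : ℝ) ^ 3 ≤ (y ^ 2) ^ 3 := pow_le_pow_left₀ hK0.le hKy2 3
          have h4 := Real.pow_div_factorial_le_exp y hy0.le 7
          norm_num [Nat.factorial] at h4
          have h5 : 9 * (y ^ 2) ^ 3 ≤ y ^ 7 / 5040 := by
            have h6 : 9 * (y ^ 2) ^ 3 = y ^ 6 * 9 := by ring
            have h7 : y ^ 7 / 5040 = y ^ 6 * (y / 5040) := by ring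
            rw [h6, h7]
            apply mul_le_mul_of_nonneg_left _ (by positivity)
            linarith only [q9]
          linarith only [h3, h4, h5]
        have h3 : (b : ℝ) ^ (u + K) = Real.exp ((u + K) * Real.log b) := by
          rw [show ((u : ℝ) + K) = ((u + K : ℕ) : ℝ) by push_cast; ring, Real.exp_nat_mul,
            Real.exp_log hb0]
        rw [h3]
        calc 9 * (K : ℝ) ^ 3 * Real.exp ((u + K) * Real.log b) ≤
            Real.exp y * Real.exp (y ^ (1 + γ)) := by gcongr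
          _ = Real.exp (y + y ^ (1 + γ)) := by rw [Real.exp_add]
          _ ≤ Real.exp (y ^ (1 + γf / 2)) := by
              apply Real.exp_le_exp.2
              linarith only [hyγ, q1, hy0]
          _ ≤ _ := by linarith only [Real.exp_pos (y ^ (1 + γf / 2))]) τ hτ1
    rw [← hQ, Nat.card_Ioc, Nat.sub_zero] at hmain
    refine le_trans (Nat.cast_le.2 (card_le_card ?_)) (hmain.trans ?_)
    · intro n hn
      rw [mem_filter] at hn ⊢
      refine ⟨hn.1, fun h => hn.2 ?_⟩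
      intro α₁ α₂ a1 a2 a3
      refine (h α₁ α₂ a1 a2 a3).trans ?_
      apply mul_le_mul_of_nonneg_right hQτ
      have := Real.sqrt_nonneg (K * (α₂ - α₁))
      linarith only [this]
    · -- numbers
      have h1 : Real.exp (1 - τ) ≤ 3 * Real.exp (-(y ^ (4 * κ))) := by
        have h2 : y ^ (4 * κ) ≤ τ := by
          rw [hτ]
          calc y ^ (4 * κ) = (y ^ δ) ^ (ε / 4) := by
                rw [← Real.rpow_mul hy0.le, hκ]; congr 1; ring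
            _ ≤ (K : ℝ) ^ (ε / 4) := Real.rpow_le_rpow (by positivity) hδK (by positivity)
        rw [sub_eq_add_neg, Real.exp_add]
        apply mul_le_mul _ _ (Real.exp_pos _).le (by norm_num)
        · linarith [Real.exp_one_lt_d9]
        · exact Real.exp_le_exp.2 (by linarith only [h2])
      have h2 : 9 + 6 * Real.log ((9 * K ^ 2 : ℕ) : ℝ) ≤ Real.exp (y ^ γf) := by
        have h3 : Real.log ((9 * K ^ 2 : ℕ) : ℝ) ≤ 3 + 4 * Real.log y := by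
          push_cast
          rw [Real.log_mul (by norm_num) (by positivity), Real.log_pow]
          have h4 : Real.log K ≤ 2 * Real.log y := by
            have := Real.log_le_log hK0 hKy2
            rw [Real.log_pow] at this; push_cast at this; exact this
          have h5 : Real.log 9 ≤ 3 := by
            rw [Real.log_le_iff_le_exp (by norm_num)]
            have h6 : Real.exp 3 = Real.exp 1 ^ 3 := by rw [← Real.exp_nat_mul]; norm_num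
            rw [h6]
            have h7 : (2.7 : ℝ) ^ 3 ≤ Real.exp 1 ^ 3 :=
              pow_le_pow_left₀ (by norm_num) (by linarith [Real.exp_one_gt_d9]) 3
            refine le_trans (by norm_num) h7
          push_cast
          linarith only [h4, h5]
        have h4 := Real.add_one_le_exp (y ^ γf)
        linarith only [h3, h4, q3, q4]
      have hlogK : 0 ≤ Real.log ((9 * K ^ 2 : ℕ) : ℝ) := Real.log_natCast_nonneg _
      have h3 : (9 + 6 * Real.log ((9 * K ^ 2 : ℕ) : ℝ)) ^ k₀ ≤ Real.exp (y ^ (1 - 9 * γf)) := by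
        calc (9 + 6 * Real.log ((9 * K ^ 2 : ℕ) : ℝ)) ^ k₀ ≤ Real.exp (y ^ γf) ^ k₀ :=
              pow_le_pow_left₀ (by positivity) h2 k₀
          _ = Real.exp (k₀ * y ^ γf) := by rw [← Real.exp_nat_mul]
          _ ≤ _ := by
              apply Real.exp_le_exp.2
              calc (k₀ : ℝ) * y ^ γf ≤ y ^ (1 - 10 * γf) * y ^ γf := by gcongr
                _ = _ := by rw [← Real.rpow_add hy0]; congr 1; ring
      have h4 : (9 + 6 * Real.log ((9 * K ^ 2 : ℕ) : ℝ)) ^ k₀ * W ≤ R * Real.exp (-(y ^ (4 * κ))) := by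
        rw [hW]
        calc (9 + 6 * Real.log ((9 * K ^ 2 : ℕ) : ℝ)) ^ k₀ * (R * Real.exp (-(2 * y ^ (1 - 9 * γf)))) ≤
              Real.exp (y ^ (1 - 9 * γf)) * (R * Real.exp (-(2 * y ^ (1 - 9 * γf)))) := by gcongr
          _ = R * Real.exp (-(y ^ (1 - 9 * γf))) := by
              rw [show -(y ^ (1 - 9 * γf)) = y ^ (1 - 9 * γf) + -(2 * y ^ (1 - 9 * γf)) by ring,
                Real.exp_add]
              ring
          _ ≤ _ := by
              apply mul_le_mul_of_nonneg_left _ hR0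
              apply Real.exp_le_exp.2
              have : y ^ (4 * κ) ≤ y ^ (1 - 9 * γf) :=
                Real.rpow_le_rpow_of_exponent_le hy1 (by linarith only [hκ1, hγf1])
              linarith only [this]
      have h5 : R * Real.exp (1 - τ) + (9 + 6 * Real.log ((9 * K ^ 2 : ℕ) : ℝ)) ^ k₀ * W ≤
          4 * (R * Real.exp (-(y ^ (4 * κ)))) := by
        have := mul_le_mul_of_nonneg_left h1 hR0
        linarith only [this, h4]
      have h6 : (Q : ℝ) ≤ 2 * y ^ 2 := by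
        have h7 : (K : ℝ) ^ (ε / 8) ≤ K := by
          calc (K : ℝ) ^ (ε / 8) ≤ (K : ℝ) ^ (1 : ℝ) :=
                Real.rpow_le_rpow_of_exponent_le hKr (by linarith only [hε1])
            _ = K := Real.rpow_one _
        linarith only [hQ1, h7, hKy2]
      have h7 : ((K : ℝ) + 1) ^ 2 ≤ 4 * y ^ 4 := by
        have h8 : (K : ℝ) + 1 ≤ 2 * y ^ 2 := by
          have : 1 ≤ y ^ 2 := one_le_pow₀ hy1
          linarith only [this, hKy2]
        calc ((K : ℝ) + 1) ^ 2 ≤ (2 * y ^ 2) ^ 2 := pow_le_pow_left₀ (by positivity) h8 2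
          _ = 4 * y ^ 4 := by ring
      have h8 : 0 ≤ R * Real.exp (-(y ^ (4 * κ))) := by positivity
      calc ((K : ℝ) + 1) ^ 2 * ((Q : ℝ) * (2 * (R * Real.exp (1 - τ) +
              (9 + 6 * Real.log ((9 * K ^ 2 : ℕ) : ℝ)) ^ k₀ * W))) ≤
            (4 * y ^ 4) * ((2 * y ^ 2) * (2 * (4 * (R * Real.exp (-(y ^ (4 * κ))))))) := by gcongr
        _ = _ := by ring
  -- all triples
  obtain ⟨I, hI⟩ : ∃ I : Finset (ℕ × ℕ × ℕ), I = ((range (⌊Real.exp (y ^ κ)⌋₊ + 1)) ×ˢ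
    ((range (⌊y ^ 2⌋₊ + 1)) ×ˢ (range (⌊y ^ 2⌋₊ + 1)))).filter fun c => 2 ≤ c.1 ∧
      C₀ * y ≤ c.2.1 * Real.log c.1 ∧ ((c.2.1 : ℝ) + c.2.2) * Real.log c.1 ≤ y ^ (1 + γ) ∧
      y ^ δ ≤ c.2.2 := ⟨_, rfl⟩
  have hIcard : (I.card : ℝ) ≤ 8 * y ^ 4 * Real.exp (y ^ κ) := by
    have h1 : I.card ≤ (⌊Real.exp (y ^ κ)⌋₊ + 1) * ((⌊y ^ 2⌋₊ + 1) * (⌊y ^ 2⌋₊ + 1)) := by
      rw [hI]
      refine (card_filter_le _ _).trans ?_
      rw [card_product, card_product, card_range, card_range]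
    have h2 : (I.card : ℝ) ≤ ((⌊Real.exp (y ^ κ)⌋₊ : ℝ) + 1) * (((⌊y ^ 2⌋₊ : ℝ) + 1) * ((⌊y ^ 2⌋₊ : ℝ) + 1)) := by
      exact_mod_cast h1
    have h3 : (⌊Real.exp (y ^ κ)⌋₊ : ℝ) + 1 ≤ 2 * Real.exp (y ^ κ) := by
      have := Nat.floor_le (Real.exp_pos (y ^ κ)).le
      have h4 : 1 ≤ Real.exp (y ^ κ) := Real.one_le_exp (by positivity)
      linarith only [this, h4]
    have h4 : (⌊y ^ 2⌋₊ : ℝ) + 1 ≤ 2 * y ^ 2 := by
      have := Nat.floor_le (by positivity : 0 ≤ y ^ 2)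
      have h5 : 1 ≤ y ^ 2 := one_le_pow₀ hy1
      linarith only [this, h5]
    calc (I.card : ℝ) ≤ ((⌊Real.exp (y ^ κ)⌋₊ : ℝ) + 1) * (((⌊y ^ 2⌋₊ : ℝ) + 1) * ((⌊y ^ 2⌋₊ : ℝ) + 1)) := h2
      _ ≤ (2 * Real.exp (y ^ κ)) * ((2 * y ^ 2) * (2 * y ^ 2)) := by gcongr
      _ = _ := by ring
  have hsub : ((Ioc 0 R).filter fun n : ℕ => ∃ b u K : ℕ, 2 ≤ b ∧ Real.log b ≤ y ^ κ ∧
        C₀ * y ≤ u * Real.log b ∧ ((u : ℝ) + K) * Real.log b ≤ y ^ (1 + γ) ∧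
        y ^ δ ≤ K ∧ ¬ ∀ α₁ α₂ : ℝ, 0 ≤ α₁ → α₁ < α₂ → α₂ ≤ 1 →
          |cnt b u K α₁ α₂ (((N : ℝ) + n) ^ θ * g (((N : ℝ) + n) ^ (-s))) - K * (α₂ - α₁)| ≤
            (K : ℝ) ^ ε * (1 + √(K * (α₂ - α₁)))) ⊆
      I.biUnion fun c => (Ioc 0 R).filter fun n : ℕ => ¬ ∀ α₁ α₂ : ℝ, 0 ≤ α₁ → α₁ < α₂ → α₂ ≤ 1 →
        |cnt c.1 c.2.1 c.2.2 α₁ α₂ (β n) - c.2.2 * (α₂ - α₁)| ≤
          (c.2.2 : ℝ) ^ ε * (1 + √(c.2.2 * (α₂ - α₁))) := by
    intro n hn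
    obtain ⟨hn0, b, u, K, c1, c2, c3, c4, c5, c6⟩ := mem_filter.1 hn
    rw [mem_biUnion]
    refine ⟨(b, u, K), ?_, ?_⟩
    · have hb0 : (0 : ℝ) < b := by exact_mod_cast (by omega : 0 < b)
      have hlogb : 1 / 2 ≤ Real.log b := by
        have hb2' : (2 : ℝ) ≤ b := by exact_mod_cast c1
        have h1 := Real.log_le_log (by norm_num) hb2'
        linarith [Real.log_two_gt_d9]
      have hu0 : (0 : ℝ) ≤ u := Nat.cast_nonneg u
      have hK0 : (0 : ℝ) ≤ K := Nat.cast_nonneg K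
      have h1 : (u : ℝ) ≤ y ^ 2 := by
        have h2 : (u : ℝ) * (1 / 2) ≤ (u + K) * Real.log b := by gcongr; linarith only [hK0]
        linarith only [h2, c4, q2]
      have h3 : (K : ℝ) ≤ y ^ 2 := by
        have h2 : (K : ℝ) * (1 / 2) ≤ (u + K) * Real.log b := by gcongr; linarith only [hu0]
        linarith only [h2, c4, q2]
      rw [hI, mem_filter, mem_product, mem_product, mem_range, mem_range, mem_range]
      refine ⟨⟨?_, ?_, ?_⟩, c1, c3, c4, c5⟩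
      · rw [Nat.lt_succ_iff, Nat.le_floor_iff (Real.exp_pos _).le]
        rwa [← Real.log_le_iff_le_exp hb0]
      · rw [Nat.lt_succ_iff, Nat.le_floor_iff (by positivity)]; exact h1
      · rw [Nat.lt_succ_iff, Nat.le_floor_iff (by positivity)]; exact h3
    · rw [mem_filter]
      refine ⟨hn0, ?_⟩
      simp only [hβ]
      exact c6
  refine le_trans (Nat.cast_le.2 (card_le_card hsub)) ?_
  refine le_trans (Nat.cast_le.2 card_biUnion_le) ?_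
  push_cast
  calc ∑ c ∈ I, (((Ioc 0 R).filter fun n : ℕ => ¬ ∀ α₁ α₂ : ℝ, 0 ≤ α₁ → α₁ < α₂ → α₂ ≤ 1 →
        |cnt c.1 c.2.1 c.2.2 α₁ α₂ (β n) - c.2.2 * (α₂ - α₁)| ≤
          (c.2.2 : ℝ) ^ ε * (1 + √(c.2.2 * (α₂ - α₁)))).card : ℝ) ≤
      ∑ c ∈ I, 64 * y ^ 6 * (R * Real.exp (-(y ^ (4 * κ)))) := by
        refine sum_le_sum fun c hc => ?_
        rw [hI, mem_filter] at hc
        exact scale c.1 c.2.1 c.2.2 hc.2.1 hc.2.2.1 hc.2.2.2.1 hc.2.2.2.2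
    _ = I.card * (64 * y ^ 6 * (R * Real.exp (-(y ^ (4 * κ))))) := by rw [sum_const, nsmul_eq_mul]
    _ ≤ 8 * y ^ 4 * Real.exp (y ^ κ) * (64 * y ^ 6 * (R * Real.exp (-(y ^ (4 * κ))))) := by gcongr
    _ = R * ((512 * y ^ 10) * Real.exp (y ^ κ) * Real.exp (-(y ^ (4 * κ)))) := by ring
    _ ≤ R * Real.exp (-y ^ κ) := by
        apply mul_le_mul_of_nonneg_left _ hR0
        have h1 : 512 * y ^ 10 ≤ Real.exp (y ^ κ) := by
          have h2 : Real.log (512 * y ^ 10) ≤ y ^ κ := by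
            rw [Real.log_mul (by norm_num) (by positivity), Real.log_pow]
            have h3 : Real.log 512 ≤ 7 := by
              have h4 : Real.log 512 = 9 * Real.log 2 := by
                rw [show (512 : ℝ) = 2 ^ 9 by norm_num, Real.log_pow]; push_cast; ring
              rw [h4]
              linarith [Real.log_two_lt_d9]
            push_cast
            linarith only [h3, q5, q6]
          rwa [Real.log_le_iff_le_exp (by positivity)] at h2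
        calc (512 * y ^ 10) * Real.exp (y ^ κ) * Real.exp (-(y ^ (4 * κ))) ≤
              Real.exp (y ^ κ) * Real.exp (y ^ κ) * Real.exp (-(y ^ (4 * κ))) := by gcongr
          _ = Real.exp (y ^ κ + y ^ κ + -(y ^ (4 * κ))) := by rw [Real.exp_add, Real.exp_add]
          _ ≤ _ := Real.exp_le_exp.2 (by linarith only [q7])

end Pool.Agent.Helper478.Lit
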