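import Pool.Agent.Helper478_Lit.PCZ
import Pool.Agent.Helper478_Lit.SD

/-!
# The number of different words in a window of digits
-/

set_option autoImplicit false

namespace Pool.Agent.Helper478.Lit

open Finset Filter Topology
open Pool.Agent.Helper478.Kwise
open Pool.Agent.Helper478.Surds (ev_pow)

/-- the word of `l` digits of `y` in base `b` at the places `i + 1, …, i + l`, read as a number -/
noncomputable def wd (b l : ℕ) (y : ℝ) (i : ℕ) : ℤ := ⌊y * (b : ℝ) ^ (i + l)⌋ % (b : ℤ) ^ l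

lemma wd_nonneg (b l : ℕ) (hb : 1 ≤ b) (y : ℝ) (i : ℕ) : 0 ≤ wd b l y i :=
  Int.emod_nonneg _ (by positivity)

lemma wd_lt (b l : ℕ) (hb : 1 ≤ b) (y : ℝ) (i : ℕ) : wd b l y i < (b : ℤ) ^ l :=
  Int.emod_lt_of_pos _ (by positivity)

lemma wd_iff (b l : ℕ) (hb : 1 ≤ b) (y : ℝ) (i : ℕ) (w : ℕ) (hw : w < b ^ l) :
    wd b l y i = w ↔ (w : ℝ) / (b : ℝ) ^ l ≤ Int.fract ((b : ℝ) ^ i * y) ∧
      Int.fract ((b : ℝ) ^ i * y) < ((w : ℝ) + 1) / (b : ℝ) ^ l := by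
  have h1 := floor_mod (b ^ l) (Nat.one_le_pow _ _ hb) ((b : ℝ) ^ i * y) w hw
  push_cast at h1
  rw [← h1, wd]
  have h2 : y * (b : ℝ) ^ (i + l) = (b : ℝ) ^ i * y * (b : ℝ) ^ l := by rw [pow_add]; ring
  rw [h2]

lemma wd_close (b l : ℕ) (hb : 1 ≤ b) (y : ℝ) (i j : ℕ) (h : wd b l y i = wd b l y j) :
    dist1 ((b : ℝ) ^ i * y - (b : ℝ) ^ j * y) < 1 / (b : ℝ) ^ l := by
  have hb0 : (0 : ℝ) < (b : ℝ) ^ l := by
    have : (0 : ℝ) < b := by exact_mod_cast hb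
    positivity
  obtain ⟨w, hw⟩ : ∃ w : ℕ, (w : ℤ) = wd b l y i := ⟨(wd b l y i).toNat, Int.toNat_of_nonneg (wd_nonneg b l hb y i)⟩
  have hwlt : w < b ^ l := by
    have := wd_lt b l hb y i
    rw [← hw] at this
    exact_mod_cast this
  obtain ⟨a1, a2⟩ := (wd_iff b l hb y i w hwlt).1 hw.symm
  obtain ⟨b1, b2⟩ := (wd_iff b l hb y j w hwlt).1 (by rw [← h, hw])
  have e1 : ((w : ℝ) + 1) / (b : ℝ) ^ l = w / (b : ℝ) ^ l + 1 / (b : ℝ) ^ l := by ring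
  rw [e1] at a2 b2
  unfold dist1
  have h7 := round_le ((b : ℝ) ^ i * y - (b : ℝ) ^ j * y) (⌊(b : ℝ) ^ i * y⌋ - ⌊(b : ℝ) ^ j * y⌋)
  refine lt_of_le_of_lt h7 ?_
  have h8 : (b : ℝ) ^ i * y - (b : ℝ) ^ j * y - ((⌊(b : ℝ) ^ i * y⌋ - ⌊(b : ℝ) ^ j * y⌋ : ℤ) : ℝ) =
      Int.fract ((b : ℝ) ^ i * y) - Int.fract ((b : ℝ) ^ j * y) := by
    push_cast
    rw [← Int.self_sub_floor, ← Int.self_sub_floor]; ring
  rw [h8, abs_lt]
  constructor <;> linarith

/-- coincidences of words are close pairs -/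
lemma coin_le (b l u K : ℕ) (hb : 1 ≤ b) (y : ℝ) :
    ((Ioc u (u + K)).offDiag.filter fun p => wd b l y p.1 = wd b l y p.2).card ≤
      Xlt b K (1 / (b : ℝ) ^ l) ((b : ℝ) ^ (u + 1) * y) := by
  rw [Xlt]
  apply card_le_card_of_injOn (fun p => (p.1 - (u + 1), p.2 - (u + 1)))
  · rintro ⟨i, j⟩ hp
    rw [mem_coe, mem_filter, mem_offDiag, mem_Ioc, mem_Ioc] at hp
    obtain ⟨⟨a1, a2, a3⟩, a4⟩ := hp
    simp only at a1 a2 a3 a4
    rw [mem_coe, mem_filter, mem_offDiag, mem_range, mem_range]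
    refine ⟨⟨by simp only; omega, by simp only; omega, by simp only [ne_eq]; omega⟩, ?_⟩
    have h1 := wd_close b l hb y i j a4
    have h2 : (pw b (i - (u + 1), j - (u + 1)) : ℝ) * ((b : ℝ) ^ (u + 1) * y) =
        (b : ℝ) ^ i * y - (b : ℝ) ^ j * y := by
      unfold pw
      push_cast
      have e1 : (b : ℝ) ^ i = (b : ℝ) ^ (i - (u + 1)) * (b : ℝ) ^ (u + 1) := by
        rw [← pow_add]; congr 1; omega
      have e2 : (b : ℝ) ^ j = (b : ℝ) ^ (j - (u + 1)) * (b : ℝ) ^ (u + 1) := by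
        rw [← pow_add]; congr 1; omega
      rw [e1, e2]; ring
    rw [h2]
    exact h1
  · rintro ⟨i, j⟩ hp ⟨i', j'⟩ hp' h
    rw [mem_coe, mem_filter, mem_offDiag, mem_Ioc, mem_Ioc] at hp hp'
    simp only [Prod.mk.injEq] at h hp hp' ⊢
    omega

/-- the second moment of the multiplicities -/
lemma mult_sq (A : Finset ℕ) (f : ℕ → ℤ) :
    ∑ w ∈ A.image f, (A.filter fun a => f a = w).card ^ 2 =
      A.card + (A.offDiag.filter fun p => f p.1 = f p.2).card := by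
  have h1 : ((A ×ˢ A).filter fun p => f p.1 = f p.2).card =
      ∑ w ∈ A.image f, (A.filter fun a => f a = w).card ^ 2 := by
    rw [card_eq_sum_card_fiberwise (f := fun p : ℕ × ℕ => f p.1) (t := A.image f)]
    · refine sum_congr rfl fun w _ => ?_
      rw [sq, ← card_product]
      congr 1
      ext ⟨a, a'⟩
      simp only [mem_filter, mem_product]
      constructor
      · rintro ⟨⟨⟨c1, c2⟩, c3⟩, c4⟩
        exact ⟨⟨c1, c4⟩, ⟨c2, by rw [← c3]; exact c4⟩⟩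
      · rintro ⟨⟨c1, c4⟩, ⟨c2, c5⟩⟩
        exact ⟨⟨⟨c1, c2⟩, by rw [c4, c5]⟩, c4⟩
    · intro p hp
      rw [mem_coe, mem_filter, mem_product] at hp
      exact mem_coe.2 (mem_image_of_mem _ hp.1.1)
  rw [← h1, ← diag_union_offDiag, filter_union, card_union_of_disjoint]
  · congr 1
    rw [filter_true_of_mem, diag_card]
    intro p hp
    rw [mem_diag] at hp
    rw [hp.2]
  · exact disjoint_filter_filter (disjoint_diag_offDiag A)

lemma card_sub (A : Finset ℕ) (f : ℕ → ℤ) :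
    A.card ≤ (A.image f).card + (A.offDiag.filter fun p => f p.1 = f p.2).card := by
  have h1 := mult_sq A f
  have h2 := card_eq_sum_card_image f A
  have h3 : ∑ w ∈ A.image f, 2 * (A.filter fun a => f a = w).card ≤
      ∑ w ∈ A.image f, (1 + (A.filter fun a => f a = w).card ^ 2) := by
    refine sum_le_sum fun w _ => ?_
    obtain ⟨c, hc⟩ : ∃ c : ℕ, c = (A.filter fun a => f a = w).card := ⟨_, rfl⟩
    rw [← hc]
    rcases Nat.lt_or_ge c 1 with h | h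
    · interval_cases c; omega
    · obtain ⟨d, rfl⟩ := Nat.exists_eq_add_of_le h
      nlinarith
  rw [← mul_sum, ← h2, sum_add_distrib, h1, sum_const, smul_eq_mul, mul_one] at h3
  omega

lemma card_cs (A : Finset ℕ) (f : ℕ → ℤ) :
    (A.card : ℝ) ^ 2 ≤ (A.image f).card * (A.card + (A.offDiag.filter fun p => f p.1 = f p.2).card) := by
  have h1 := mult_sq A f
  have h2 := card_eq_sum_card_image f A
  have h3 := sq_sum_le_card_mul_sum_sq (s := A.image f)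
    (f := fun w => ((A.filter fun a => f a = w).card : ℝ))
  have h4 : (A.card : ℝ) = ∑ w ∈ A.image f, ((A.filter fun a => f a = w).card : ℝ) := by
    exact_mod_cast h2
  rw [← h4] at h3
  refine h3.trans (le_of_eq ?_)
  congr 1
  exact_mod_cast h1

lemma Xlt_mono (b K : ℕ) (δ δ' ν : ℝ) (h : δ ≤ δ') : Xlt b K δ ν ≤ Xlt b K δ' ν :=
  card_le_card (monotone_filter_right _ (fun _ _ hp => lt_of_lt_of_le hp h))

/-- the deterministic part -/
theorem profile (ε : ℝ) (hε0 : 0 < ε) (hε1 : ε < 1) : ∃ K₀ : ℕ, ∀ (b u K : ℕ) (y : ℝ), K₀ ≤ K → 2 ≤ b →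
    (∀ δ : ℝ, (K : ℝ) ^ (-2 + ε) ≤ δ → δ ≤ 1 / 2 →
      |(Xlt b K δ ((b : ℝ) ^ (u + 1) * y) : ℝ) - 2 * δ * K ^ 2| ≤ (K : ℝ) ^ (-(ε / 32)) * (δ * K ^ 2)) →
    Xlt b K ((K : ℝ) ^ (-2 - ε)) ((b : ℝ) ^ (u + 1) * y) = 0 →
    (∀ α₁ α₂ : ℝ, 0 ≤ α₁ → α₁ < α₂ → α₂ ≤ 1 →
      |cnt b u K α₁ α₂ y - K * (α₂ - α₁)| ≤ (K : ℝ) ^ (ε / 4) * (1 + √(K * (α₂ - α₁)))) →
    ∀ l : ℕ,
      (((b : ℝ) ^ l ≤ (K : ℝ) ^ (1 - ε)) → ((Ioc u (u + K)).image (wd b l y)).card = b ^ l) ∧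
      (1 ≤ l → (K : ℝ) - 3 * K ^ 2 / (b : ℝ) ^ l - 3 * (K : ℝ) ^ ε ≤
        ((Ioc u (u + K)).image (wd b l y)).card) ∧
      (1 ≤ l → min ((b : ℝ) ^ l) K ≤ 5 * ((Ioc u (u + K)).image (wd b l y)).card) ∧
      (((K : ℝ) ^ (2 + ε) ≤ (b : ℝ) ^ l) → ((Ioc u (u + K)).image (wd b l y)).card = K) := by
  have ev1 : ∀ᶠ y : ℝ in atTop, (3 : ℝ) * y ^ (0 : ℝ) ≤ y ^ (ε / 4) := ev_pow _ _ _ (by linarith)
  have ev2 : ∀ᶠ y : ℝ in atTop, (2 : ℝ) * y ^ (-2 + ε) ≤ y ^ (0 : ℝ) := ev_pow _ _ _ (by linarith)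
  have ev3 : ∀ᶠ y : ℝ in atTop, (3 : ℝ) * y ^ ε ≤ y ^ (1 : ℝ) := ev_pow _ _ _ (by linarith)
  have hid : Tendsto (fun N : ℕ => (N : ℝ)) atTop atTop := tendsto_natCast_atTop_atTop
  obtain ⟨K₀, hK₀⟩ := eventually_atTop.1 (hid.eventually ((ev1.and ev2).and (ev3.and
    (eventually_ge_atTop 1))))
  refine ⟨K₀, ?_⟩
  intro b u K y hK hb H1 H2 H3 l
  obtain ⟨⟨q1, q2⟩, q3, q4⟩ := hK₀ K hK
  rw [Real.rpow_zero] at q1 q2
  rw [Real.rpow_one] at q3
  rw [mul_one] at q1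
  have hk0 : (0 : ℝ) < K := by linarith only [q4]
  have hb1 : 1 ≤ b := by omega
  have hb0 : (0 : ℝ) < b := by exact_mod_cast hb1
  have hbl : (0 : ℝ) < (b : ℝ) ^ l := by positivity
  obtain ⟨Dl, hDl⟩ : ∃ Dl : ℕ, Dl = ((Ioc u (u + K)).image (wd b l y)).card := ⟨_, rfl⟩
  rw [← hDl]
  obtain ⟨P, hP⟩ : ∃ P : ℕ, P = ((Ioc u (u + K)).offDiag.filter fun p => wd b l y p.1 = wd b l y p.2).card :=
    ⟨_, rfl⟩
  have hA : (Ioc u (u + K)).card = K := by rw [Nat.card_Ioc]; omega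
  have hsub := card_sub (Ioc u (u + K)) (wd b l y)
  rw [← hP, ← hDl, hA] at hsub
  have hcs := card_cs (Ioc u (u + K)) (wd b l y)
  rw [← hP, ← hDl, hA] at hcs
  have hcoin := coin_le b l u K hb1 y
  rw [← hP] at hcoin
  have hDK : Dl ≤ K := by
    calc Dl ≤ (Ioc u (u + K)).card := by rw [hDl]; exact card_image_le
      _ = K := hA
  -- the bound for the number of coincidences
  have hPb : 1 ≤ l → (P : ℝ) ≤ 3 * K ^ 2 / (b : ℝ) ^ l + 3 * (K : ℝ) ^ ε := by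
    intro hl
    have hkε : (K : ℝ) ^ (-(ε / 32)) ≤ 1 := Real.rpow_le_one_of_one_le_of_nonpos q4 (by linarith)
    have key : ∀ δ : ℝ, (K : ℝ) ^ (-2 + ε) ≤ δ → δ ≤ 1 / 2 →
        (Xlt b K δ ((b : ℝ) ^ (u + 1) * y) : ℝ) ≤ 3 * (δ * K ^ 2) := by
      intro δ h1 h2
      have h3 := (abs_le.1 (H1 δ h1 h2)).2
      have h4 : 0 ≤ δ * (K : ℝ) ^ 2 := by
        have : 0 < (K : ℝ) ^ (-2 + ε) := by positivity
        have : 0 ≤ δ := by linarith
        positivity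
      have h5 := mul_le_mul_of_nonneg_right hkε h4
      linarith
    have hP1 : (P : ℝ) ≤ (Xlt b K (1 / (b : ℝ) ^ l) ((b : ℝ) ^ (u + 1) * y) : ℝ) := by
      exact_mod_cast hcoin
    have h0 : 0 ≤ 3 * (K : ℝ) ^ 2 / (b : ℝ) ^ l := by positivity
    have h0' : 0 ≤ 3 * (K : ℝ) ^ ε := by positivity
    rcases le_or_gt ((K : ℝ) ^ (-2 + ε)) (1 / (b : ℝ) ^ l) with h | h
    · have h1 : 1 / (b : ℝ) ^ l ≤ 1 / 2 := by
        apply one_div_le_one_div_of_le (by norm_num)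
        calc (2 : ℝ) ≤ b := by exact_mod_cast hb
          _ = (b : ℝ) ^ 1 := (pow_one _).symm
          _ ≤ (b : ℝ) ^ l := pow_le_pow_right₀ (by exact_mod_cast hb1) hl
      have h2 := key _ h h1
      have h3 : 3 * (1 / (b : ℝ) ^ l * (K : ℝ) ^ 2) = 3 * K ^ 2 / (b : ℝ) ^ l := by ring
      linarith
    · have h2 := key ((K : ℝ) ^ (-2 + ε)) le_rfl (by linarith)
      have h3 : (Xlt b K (1 / (b : ℝ) ^ l) ((b : ℝ) ^ (u + 1) * y) : ℝ) ≤
          (Xlt b K ((K : ℝ) ^ (-2 + ε)) ((b : ℝ) ^ (u + 1) * y) : ℝ) := by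
        exact_mod_cast Xlt_mono b K _ _ _ h.le
      have h4 : (K : ℝ) ^ (-2 + ε) * (K : ℝ) ^ 2 = (K : ℝ) ^ ε := by
        rw [← Real.rpow_natCast (K : ℝ) 2, ← Real.rpow_add hk0]; congr 1; push_cast; ring
      rw [h4] at h2
      linarith
  refine ⟨?_, ?_, ?_, ?_⟩
  · -- all words occur
    intro hle
    obtain ⟨z, hz⟩ : ∃ z : ℝ, z = K / (b : ℝ) ^ l := ⟨_, rfl⟩
    have hzε : (K : ℝ) ^ ε ≤ z := by
      rw [hz, le_div_iff₀ hbl]
      calc (K : ℝ) ^ ε * (b : ℝ) ^ l ≤ (K : ℝ) ^ ε * (K : ℝ) ^ (1 - ε) := by gcongr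
        _ = K := by rw [← Real.rpow_add hk0]; simp
    have hz0 : 0 ≤ z := le_trans (by positivity) hzε
    have hsz : (K : ℝ) ^ (ε / 2) ≤ √z := by
      rw [Real.le_sqrt (by positivity) hz0, ← Real.rpow_natCast, ← Real.rpow_mul hk0.le]
      refine le_trans (le_of_eq ?_) hzε
      congr 1; push_cast; ring
    have hεε : (K : ℝ) ^ (ε / 2) = (K : ℝ) ^ (ε / 4) * (K : ℝ) ^ (ε / 4) := by
      rw [← Real.rpow_add hk0]; congr 1; ring
    have hbig : (K : ℝ) ^ (ε / 4) * (1 + √z) < z := by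
      have h1 : √z * √z = z := Real.mul_self_sqrt hz0
      have h2 : 3 * (K : ℝ) ^ (ε / 4) ≤ √z := by
        refine le_trans ?_ hsz
        rw [hεε]
        exact mul_le_mul_of_nonneg_right q1 (by positivity)
      have h3 : 1 ≤ √z := by
        have : 1 ≤ (K : ℝ) ^ (ε / 4) := by linarith
        linarith
      nlinarith
    have hall : ∀ w < b ^ l, (w : ℤ) ∈ (Ioc u (u + K)).image (wd b l y) := by
      intro w hw
      have hw' : (w : ℝ) + 1 ≤ (b : ℝ) ^ l := by exact_mod_cast hw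
      have e1 : ((w : ℝ) + 1) / (b : ℝ) ^ l - w / (b : ℝ) ^ l = 1 / (b : ℝ) ^ l := by ring
      have h1 := H3 ((w : ℝ) / (b : ℝ) ^ l) (((w : ℝ) + 1) / (b : ℝ) ^ l) (by positivity)
        (by apply div_lt_div_of_pos_right _ hbl; linarith) (by rw [div_le_one hbl]; exact hw')
      rw [e1, mul_one_div, ← hz] at h1
      have h2 := (abs_le.1 h1).1
      have h3 : 0 < cnt b u K ((w : ℝ) / (b : ℝ) ^ l) (((w : ℝ) + 1) / (b : ℝ) ^ l) y := by linarith
      have h4 : ∃ i ∈ Ioc u (u + K),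
          ind ((w : ℝ) / (b : ℝ) ^ l) (((w : ℝ) + 1) / (b : ℝ) ^ l) ((b : ℝ) ^ i * y) ≠ 0 := by
        by_contra hcon
        push Not at hcon
        rw [cnt, sum_eq_zero hcon] at h3
        exact lt_irrefl _ h3
      obtain ⟨i, hi, h5⟩ := h4
      rw [mem_image]
      refine ⟨i, hi, ?_⟩
      rw [wd_iff b l hb1 y i w hw]
      unfold ind at h5
      by_contra hcon
      rw [if_neg hcon] at h5
      exact h5 rfl
    have h1 : b ^ l ≤ Dl := by
      rw [hDl]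
      have h2 : ((range (b ^ l)).image (fun w : ℕ => (w : ℤ))) ⊆ (Ioc u (u + K)).image (wd b l y) := by
        intro v hv
        obtain ⟨w, hw, rfl⟩ := mem_image.1 hv
        exact hall w (mem_range.1 hw)
      have h3 := card_le_card h2
      rwa [card_image_of_injective _ Nat.cast_injective, card_range] at h3
    have h2 : Dl ≤ b ^ l := by
      rw [hDl]
      have h2 : (Ioc u (u + K)).image (wd b l y) ⊆ ((range (b ^ l)).image (fun w : ℕ => (w : ℤ))) := by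
        intro v hv
        obtain ⟨i, _, rfl⟩ := mem_image.1 hv
        have a1 := wd_nonneg b l hb1 y i
        have a2 := wd_lt b l hb1 y i
        rw [mem_image]
        refine ⟨(wd b l y i).toNat, ?_, Int.toNat_of_nonneg a1⟩
        rw [mem_range, Int.toNat_lt a1]
        exact_mod_cast a2
      have h3 := card_le_card h2
      rwa [card_image_of_injective _ Nat.cast_injective, card_range] at h3
    omega
  · intro hl
    have h1 := hPb hl
    have h2 : (K : ℝ) ≤ Dl + P := by exact_mod_cast hsub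
    linarith
  · intro hl
    have h1 := hPb hl
    obtain ⟨Y, hY⟩ : ∃ Y : ℝ, Y = K + (3 * K ^ 2 / (b : ℝ) ^ l + 3 * (K : ℝ) ^ ε) := ⟨_, rfl⟩
    have hY0 : 0 < Y := by rw [hY]; positivity
    have h2 : (K : ℝ) ^ 2 ≤ Dl * Y := by
      refine hcs.trans ?_
      apply mul_le_mul_of_nonneg_left _ (Nat.cast_nonneg _)
      rw [hY]; linarith
    have h3 : min ((b : ℝ) ^ l) K * Y ≤ 5 * (K : ℝ) ^ 2 := by
      have m0 : 0 ≤ min ((b : ℝ) ^ l) (K : ℝ) := le_min hbl.le hk0.le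
      have m1 : min ((b : ℝ) ^ l) (K : ℝ) * K ≤ K * K :=
        mul_le_mul_of_nonneg_right (min_le_right _ _) hk0.le
      have m2 : min ((b : ℝ) ^ l) (K : ℝ) * (3 * K ^ 2 / (b : ℝ) ^ l) ≤ 3 * K ^ 2 := by
        calc min ((b : ℝ) ^ l) (K : ℝ) * (3 * K ^ 2 / (b : ℝ) ^ l) ≤
              (b : ℝ) ^ l * (3 * K ^ 2 / (b : ℝ) ^ l) :=
              mul_le_mul_of_nonneg_right (min_le_left _ _) (by positivity)
          _ = 3 * K ^ 2 := by field_simp
      have m3 : min ((b : ℝ) ^ l) (K : ℝ) * (3 * (K : ℝ) ^ ε) ≤ K * K := by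
        apply mul_le_mul (min_le_right _ _) q3 (by positivity) hk0.le
      rw [hY]
      have e1 : (K : ℝ) * K = (K : ℝ) ^ 2 := by ring
      rw [e1] at m1 m3
      linarith
    have h4 : min ((b : ℝ) ^ l) K * Y ≤ 5 * Dl * Y := by linarith
    exact le_of_mul_le_mul_right h4 hY0
  · intro hle
    have h1 : 1 / (b : ℝ) ^ l ≤ (K : ℝ) ^ (-2 - ε) := by
      rw [show -2 - ε = -(2 + ε) by ring, Real.rpow_neg hk0.le, ← one_div]
      exact one_div_le_one_div_of_le (by positivity) hle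
    have h2 := Xlt_mono b K _ _ ((b : ℝ) ^ (u + 1) * y) h1
    rw [H2] at h2
    omega

end Pool.Agent.Helper478.Lit
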