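import Pool.Agent.Helper478_Lit.A

/-!
# Pair correlation: the variance
-/

set_option autoImplicit false

namespace Pool.Agent.Helper478.Lit

open Finset Filter
open Pool.Agent.H469R2.NK (e norm_e e_add e_zero conj_e)
open Pool.Agent.Helper478.Kwise

/-- a majorant of the indicator function of an arc -/
lemma major (K : ℕ) (hK : 1 ≤ K) (δ : ℝ) (h0 : 0 < δ) (h1 : δ ≤ 1) (hc : 1 ≤ K * δ ^ 2)
    (α β : ℝ) (hα : 0 ≤ α) (hαβ : α < β) (hβ : β ≤ 1) :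
    ∃ (U : ℝ → ℝ) (m : ℝ), (∀ x, ind α β x ≤ U x) ∧ β - α ≤ m ∧ m ≤ β - α + 3 * δ ∧
      TPm K (2 + 2 * Real.log K) (m : ℂ) (fun x => (U x : ℂ)) := by
  have hK0 : (0 : ℝ) < K := by exact_mod_cast hK
  obtain ⟨c, hcd⟩ : ∃ c : ℝ, c = 1 / (K * δ) := ⟨_, rfl⟩
  have hc0 : 0 ≤ c := by rw [hcd]; positivity
  have hc1 : c ≤ δ := by
    rw [hcd, div_le_iff₀ (by positivity)]
    nlinarith
  have hg := tpm_gg K hK δ h0
  have key : ∀ s : ℝ, TPm K (1 + Real.log K) 0 (fun x => (gg K δ (x + s) : ℂ)) := fun s =>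
    hg.shift s
  refine ⟨fun x => (β - α) + gg K δ (x + -β) + -gg K δ (x + (-α + δ)) + (δ + 2 * c),
    (β - α) + (δ + 2 * c), ?_, by linarith, by linarith, ?_⟩
  · intro x
    have e1 := gg_upper K hK δ h0 h1 (x - β)
    have e2 := gg_lower K hK δ h0 h1 (x - α)
    have e3 := Pool.Agent.R485.Trans.indicator_eq x _ _ hα hαβ hβ
    unfold ind
    rw [← hcd] at e1 e2
    have e4 : x - α + δ = x + (-α + δ) := by ring
    have e5 : x - β = x + -β := by ring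
    rw [e4] at e2
    rw [e5] at e1
    rw [e5] at e3
    simp only
    linarith
  · have h2 := ((((TPm.const K (((β - α : ℝ)) : ℂ)).add (key (-β))).add (key (-α + δ)).neg).add
      (TPm.const K ((δ + 2 * c : ℝ) : ℂ)))
    have h3 : ((β - α : ℝ) : ℂ) + 0 + -0 + ((δ + 2 * c : ℝ) : ℂ) =
        (((β - α) + (δ + 2 * c) : ℝ) : ℂ) := by push_cast; ring
    rw [h3] at h2
    refine TPm.mono (A := 0 + (1 + Real.log K) + (1 + Real.log K) + 0) ?_ le_rfl (by linarith)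
    convert h2 using 2 with x
    push_cast
    ring

/-! ### Linear combinations of four powers -/

lemma split4 (b g D : ℕ) (hb : 1 ≤ b) (c : ℤ) (hc : |c| ≤ D) (e₁ e₂ : ℕ) (h : e₁ + g ≤ e₂ ∨ e₂ + g ≤ e₁) :
    ∃ h' l : ℤ, c * (b : ℤ) ^ e₂ = h' * (b : ℤ) ^ (e₁ + g) + l ∧ |l| * (b : ℤ) ^ g ≤ D * (b : ℤ) ^ e₁ := by
  rcases h with h | h
  · refine ⟨c * (b : ℤ) ^ (e₂ - (e₁ + g)), 0, ?_, ?_⟩
    · rw [add_zero, mul_assoc, ← pow_add]
      congr 2; omega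
    · simp only [abs_zero, zero_mul]; positivity
  · refine ⟨0, c * (b : ℤ) ^ e₂, by ring, ?_⟩
    rw [abs_mul, abs_of_nonneg (by positivity : (0 : ℤ) ≤ (b : ℤ) ^ e₂), mul_assoc, ← pow_add]
    have h1 : (b : ℤ) ^ (e₂ + g) ≤ (b : ℤ) ^ e₁ := pow_le_pow_right₀ (by exact_mod_cast hb) h
    have h2 : (0 : ℤ) ≤ (b : ℤ) ^ (e₂ + g) := by positivity
    exact mul_le_mul hc h1 h2 (by positivity)

/-- a term that is well separated from three others -/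
lemma ne0 (b g D : ℕ) (hb : 1 ≤ b) (hg : 4 * D < b ^ g) (c₁ c₂ c₃ c₄ : ℤ) (h0 : c₁ ≠ 0)
    (h1 : |c₁| ≤ D) (h2 : |c₂| ≤ D) (h3 : |c₃| ≤ D) (h4 : |c₄| ≤ D) (e₁ e₂ e₃ e₄ : ℕ)
    (s2 : e₁ + g ≤ e₂ ∨ e₂ + g ≤ e₁) (s3 : e₁ + g ≤ e₃ ∨ e₃ + g ≤ e₁)
    (s4 : e₁ + g ≤ e₄ ∨ e₄ + g ≤ e₁) :
    c₁ * (b : ℤ) ^ e₁ + c₂ * (b : ℤ) ^ e₂ + c₃ * (b : ℤ) ^ e₃ + c₄ * (b : ℤ) ^ e₄ ≠ 0 := by
  obtain ⟨k2, l2, q2, r2⟩ := split4 b g D hb c₂ h2 e₁ e₂ s2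
  obtain ⟨k3, l3, q3, r3⟩ := split4 b g D hb c₃ h3 e₁ e₃ s3
  obtain ⟨k4, l4, q4, r4⟩ := split4 b g D hb c₄ h4 e₁ e₄ s4
  intro h
  rw [q2, q3, q4, pow_add] at h
  have hgz : 4 * (D : ℤ) < (b : ℤ) ^ g := by exact_mod_cast hg
  have hB1 : 0 < (b : ℤ) ^ e₁ := by positivity
  have hG1 : 0 < (b : ℤ) ^ g := by positivity
  obtain ⟨B, hB⟩ : ∃ B : ℤ, B = (b : ℤ) ^ e₁ := ⟨_, rfl⟩
  obtain ⟨G, hG⟩ : ∃ G : ℤ, G = (b : ℤ) ^ g := ⟨_, rfl⟩
  rw [← hB, ← hG] at h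
  rw [← hB, ← hG] at r2 r3 r4
  rw [← hG] at hgz hG1
  rw [← hB] at hB1
  have hD0 : (0 : ℤ) ≤ D := Nat.cast_nonneg D
  have hl : |l2 + l3 + l4| * G ≤ 3 * D * B := by
    have e1 : |l2 + l3 + l4| ≤ |l2| + |l3| + |l4| := by
      have := abs_add_le (l2 + l3) l4
      have := abs_add_le l2 l3
      linarith
    have e2 := mul_le_mul_of_nonneg_right e1 hG1.le
    linarith
  have hk : c₁ * B + (l2 + l3 + l4) = -(k2 + k3 + k4) * (B * G) := by linarith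
  by_cases hH : k2 + k3 + k4 = 0
  · rw [hH, neg_zero, zero_mul] at hk
    have e1 : |c₁| * B = |l2 + l3 + l4| := by
      have e0 : c₁ * B = -(l2 + l3 + l4) := by linarith
      have e9 : |c₁| * B = |c₁ * B| := by rw [abs_mul, abs_of_pos hB1]
      rw [e9, e0, abs_neg]
    have e2 : 1 ≤ |c₁| := Int.one_le_abs h0
    have e3 : B * G ≤ |l2 + l3 + l4| * G := by
      apply mul_le_mul_of_nonneg_right _ hG1.le
      rw [← e1]; nlinarith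
    have e4 : B * G ≤ B * (3 * D) := by linarith
    have e5 := le_of_mul_le_mul_left e4 hB1
    linarith
  · have e1 : 1 ≤ |-(k2 + k3 + k4)| := by rw [abs_neg]; exact Int.one_le_abs hH
    have e2 : B * G ≤ |c₁ * B + (l2 + l3 + l4)| := by
      rw [hk, abs_mul, abs_of_pos (mul_pos hB1 hG1)]
      have := mul_pos hB1 hG1
      nlinarith
    have e3 : |c₁ * B + (l2 + l3 + l4)| ≤ D * B + |l2 + l3 + l4| := by
      refine (abs_add_le _ _).trans ?_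
      rw [abs_mul, abs_of_pos hB1]
      have := mul_le_mul_of_nonneg_right h1 hB1.le
      linarith
    have e4 : B * G * G ≤ (D * B + |l2 + l3 + l4|) * G := mul_le_mul_of_nonneg_right (e2.trans e3) hG1.le
    have e5 : (D * B + |l2 + l3 + l4|) * G ≤ 4 * D * (B * G) := by
      have e6 : 1 ≤ G := hG1
      have e7 : (0 : ℤ) ≤ 3 * D * B := by positivity
      nlinarith
    have e6 : (B * G) * G ≤ (B * G) * (4 * D) := by linarith
    have e7 := le_of_mul_le_mul_left e6 (mul_pos hB1 hG1)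
    linarith

/-- closeness of two indices -/
def near (g a b : ℕ) : Prop := a < b + 2 * g ∧ b < a + 2 * g

instance (g a b : ℕ) : Decidable (near g a b) := by unfold near; infer_instance

/-- the frequencies of pairs of pairs -/
lemma freq_ne (b g D : ℕ) (hb : 1 ≤ b) (hg : 4 * D < b ^ g) (Z Z' : ℤ) (hZ : Z ≠ 0) (hZ' : Z' ≠ 0)
    (hZD : |Z| ≤ D) (hZD' : |Z'| ≤ D) (i j k l : ℕ)
    (hn : ¬ ((near g i j ∧ near g k l) ∨ (near g i k ∧ near g j l) ∨ (near g i l ∧ near g j k))) :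
    Z * ((b : ℤ) ^ i - (b : ℤ) ^ j) + Z' * ((b : ℤ) ^ k - (b : ℤ) ^ l) ≠ 0 := by
  have hZn : |-Z| ≤ D := by rwa [abs_neg]
  have hZn' : |-Z'| ≤ D := by rwa [abs_neg]
  have key : ((i + g ≤ j ∨ j + g ≤ i) ∧ (i + g ≤ k ∨ k + g ≤ i) ∧ (i + g ≤ l ∨ l + g ≤ i)) ∨
      ((j + g ≤ i ∨ i + g ≤ j) ∧ (j + g ≤ k ∨ k + g ≤ j) ∧ (j + g ≤ l ∨ l + g ≤ j)) ∨
      ((k + g ≤ i ∨ i + g ≤ k) ∧ (k + g ≤ j ∨ j + g ≤ k) ∧ (k + g ≤ l ∨ l + g ≤ k)) ∨
      ((l + g ≤ i ∨ i + g ≤ l) ∧ (l + g ≤ j ∨ j + g ≤ l) ∧ (l + g ≤ k ∨ k + g ≤ l)) := by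
    unfold near at hn
    omega
  rcases key with ⟨s2, s3, s4⟩ | ⟨s2, s3, s4⟩ | ⟨s2, s3, s4⟩ | ⟨s2, s3, s4⟩
  · have := ne0 b g D hb hg Z (-Z) Z' (-Z') hZ hZD hZn hZD' hZn' i j k l s2 s3 s4
    intro h; apply this; rw [← h]; ring
  · have := ne0 b g D hb hg (-Z) Z Z' (-Z') (neg_ne_zero.2 hZ) hZn hZD hZD' hZn' j i k l s2 s3 s4
    intro h; apply this; rw [← h]; ring
  · have := ne0 b g D hb hg Z' Z (-Z) (-Z') hZ' hZD' hZD hZn hZn' k i j l s2 s3 s4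
    intro h; apply this; rw [← h]; ring
  · have := ne0 b g D hb hg (-Z') Z (-Z) Z' (neg_ne_zero.2 hZ') hZn' hZD hZn hZD' l i j k s2 s3 s4
    intro h; apply this; rw [← h]; ring

/-- the set of near pairs -/
def Near (g K : ℕ) : Finset (ℕ × ℕ) := (range K ×ˢ range K).filter fun p => near g p.1 p.2

lemma near_card (g K : ℕ) : (Near g K).card ≤ K * (4 * g) := by
  have h1 : Near g K ⊆ ((range K).sigma (fun a => Ico (a + 1 - 2 * g) (a + 2 * g))).image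
      (fun s : (_ : ℕ) × ℕ => (s.1, s.2)) := by
    intro p hp
    rw [Near, mem_filter, mem_product, mem_range, mem_range] at hp
    obtain ⟨⟨h1, h2⟩, h3, h4⟩ := hp
    rw [mem_image]
    refine ⟨⟨p.1, p.2⟩, ?_, rfl⟩
    rw [mem_sigma, mem_range, mem_Ico]
    refine ⟨h1, ?_⟩
    dsimp only
    omega
  refine (card_le_card h1).trans (card_image_le.trans ?_)
  rw [card_sigma]
  calc ∑ a ∈ range K, (Ico (a + 1 - 2 * g) (a + 2 * g)).card ≤ ∑ a ∈ range K, 4 * g := by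
        refine sum_le_sum fun a _ => ?_
        rw [Nat.card_Ico]; omega
    _ = K * (4 * g) := by rw [sum_const, card_range, smul_eq_mul]

/-- the set of bad pairs of pairs -/
def Bad (g K : ℕ) : Finset ((ℕ × ℕ) × (ℕ × ℕ)) :=
  ((range K).offDiag ×ˢ (range K).offDiag).filter fun z =>
    (near g z.1.1 z.1.2 ∧ near g z.2.1 z.2.2) ∨ (near g z.1.1 z.2.1 ∧ near g z.1.2 z.2.2) ∨
      (near g z.1.1 z.2.2 ∧ near g z.1.2 z.2.1)

lemma bad_card (g K : ℕ) : (Bad g K).card ≤ 48 * K ^ 2 * g ^ 2 := by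
  obtain ⟨Q, hQ⟩ : ∃ Q : Finset ((ℕ × ℕ) × (ℕ × ℕ)), Q = Near g K ×ˢ Near g K := ⟨_, rfl⟩
  have hQc : Q.card ≤ 16 * K ^ 2 * g ^ 2 := by
    rw [hQ, card_product]
    refine (Nat.mul_le_mul (near_card g K) (near_card g K)).trans (le_of_eq ?_)
    ring
  have h1 : Bad g K ⊆ Q ∪ Q.image (fun z => ((z.1.1, z.2.1), (z.1.2, z.2.2))) ∪
      Q.image (fun z => ((z.1.1, z.2.1), (z.2.2, z.1.2))) := by
    rintro ⟨⟨i, j⟩, ⟨k, l⟩⟩ hz
    rw [Bad, mem_filter, mem_product, mem_offDiag, mem_offDiag] at hz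
    obtain ⟨⟨⟨hi, hj, -⟩, hk, hl, -⟩, hz⟩ := hz
    dsimp only at hi hj hk hl hz
    rw [mem_union, mem_union, mem_image, mem_image]
    rcases hz with ⟨h1, h2⟩ | ⟨h1, h2⟩ | ⟨h1, h2⟩
    · left; left
      rw [hQ, mem_product, Near, mem_filter, mem_filter, mem_product, mem_product]
      exact ⟨⟨⟨hi, hj⟩, h1⟩, ⟨⟨hk, hl⟩, h2⟩⟩
    · left; right
      refine ⟨((i, k), (j, l)), ?_, rfl⟩
      rw [hQ, mem_product, Near, mem_filter, mem_filter, mem_product, mem_product]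
      exact ⟨⟨⟨hi, hk⟩, h1⟩, ⟨⟨hj, hl⟩, h2⟩⟩
    · right
      refine ⟨((i, l), (j, k)), ?_, rfl⟩
      rw [hQ, mem_product, Near, mem_filter, mem_filter, mem_product, mem_product]
      exact ⟨⟨⟨hi, hl⟩, h1⟩, ⟨⟨hj, hk⟩, h2⟩⟩
  have h2 := card_le_card h1
  have h3 := (card_union_le (Q ∪ Q.image (fun z => ((z.1.1, z.2.1), (z.1.2, z.2.2))))
    (Q.image (fun z => ((z.1.1, z.2.1), (z.2.2, z.1.2)))))
  have h4 := card_union_le Q (Q.image (fun z => ((z.1.1, z.2.1), (z.1.2, z.2.2))))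
  have h5 : (Q.image (fun z => ((z.1.1, z.2.1), (z.1.2, z.2.2)))).card ≤ Q.card := card_image_le
  have h6 : (Q.image (fun z => ((z.1.1, z.2.1), (z.2.2, z.1.2)))).card ≤ Q.card := card_image_le
  have h7 : 48 * K ^ 2 * g ^ 2 = 3 * (16 * K ^ 2 * g ^ 2) := by ring
  rw [h7]
  linarith

end Pool.Agent.Helper478.Lit
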