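import Pool.Agent.Helper478_Lit.PC

/-!
# Pair correlation: the variance of the pair sums
-/

set_option autoImplicit false

namespace Pool.Agent.Helper478.Lit

open Finset Filter
open Pool.Agent.H469R2.NK (e norm_e e_add e_zero conj_e)
open Pool.Agent.Helper478.Kwise

/-- the variance of a sum over a family of frequencies -/
theorem variance (D : ℕ) (B : ℝ) (m : ℝ) (f : ℝ → ℝ) (hf : TPm D B (m : ℂ) (fun x => (f x : ℂ)))
    (BG mG : ℝ) (G : ℝ → ℝ) (hG : TPm D BG (mG : ℂ) (fun x => (G x : ℂ))) (hfG : ∀ x, |f x| ≤ G x)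
    {σ : Type} (S : Finset σ) (ν : σ → ℝ) {τ : Type} [DecidableEq τ] (P : Finset τ) (w : τ → ℤ)
    (Bd : Finset (τ × τ)) (hBd : Bd ⊆ P ×ˢ P) (W : ℝ) (hW0 : 0 ≤ W)
    (h1 : ∀ p ∈ P, ∀ Z : ℤ, Z ≠ 0 → |Z| ≤ D → ‖∑ n ∈ S, e (((Z * w p : ℤ) : ℝ) * ν n)‖ ≤ W)
    (h2 : ∀ z ∈ P ×ˢ P, z ∉ Bd → ∀ Z Z' : ℤ, Z ≠ 0 → Z' ≠ 0 → |Z| ≤ D → |Z'| ≤ D →
      ‖∑ n ∈ S, e (((Z * w z.1 + Z' * w z.2 : ℤ) : ℝ) * ν n)‖ ≤ W) :
    ∑ n ∈ S, (∑ p ∈ P, (f (w p * ν n) - m)) ^ 2 ≤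
      Bd.card * (B * ((mG + |m|) * S.card + BG * W)) + (P.card : ℝ) ^ 2 * (B ^ 2 * W) := by
  have hB0 := hf.nonneg
  obtain ⟨ι, _, a, Z, c1, c2, c3⟩ := id hf
  beta_reduce at c3
  have hx : ∀ x, ((f x - m : ℝ) : ℂ) = ∑ i, a i * e ((Z i : ℝ) * x) := by
    intro x
    push_cast
    rw [c3 x]; ring
  have hfm : ∀ x, |f x - m| ≤ B := by
    intro x
    have h3 : |f x - m| = ‖((f x - m : ℝ) : ℂ)‖ := by rw [Complex.norm_real, Real.norm_eq_abs]
    rw [h3, hx]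
    refine (norm_sum_le _ _).trans (le_trans (le_of_eq ?_) c2)
    refine sum_congr rfl fun i _ => ?_
    rw [norm_mul, norm_e, mul_one]
  -- sums of `G`
  have hGs : ∀ p ∈ P, ∑ n ∈ S, G (w p * ν n) ≤ mG * S.card + BG * W := by
    intro p hp
    have h3 := hG.compare S (fun n => (w p : ℝ) * ν n) W (by
      intro Z hZ hZD
      refine le_trans (le_of_eq ?_) (h1 p hp Z hZ hZD)
      congr 1
      refine sum_congr rfl fun n _ => ?_
      congr 1; push_cast; ring) hW0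
    have h4 : ‖∑ n ∈ S, ((G (w p * ν n) : ℝ) : ℂ) - S.card * (mG : ℂ)‖ =
        |∑ n ∈ S, G (w p * ν n) - S.card * mG| := by
      rw [← Real.norm_eq_abs, ← Complex.norm_real]
      congr 1; push_cast; ring
    beta_reduce at h3
    rw [h4] at h3
    have h5 := (abs_le.1 h3).2
    linarith
  have hbad : ∀ z ∈ Bd, ∑ n ∈ S, (f (w z.1 * ν n) - m) * (f (w z.2 * ν n) - m) ≤
      B * ((mG + |m|) * S.card + BG * W) := by
    intro z hz
    have hzP := (mem_product.1 (hBd hz)).1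
    calc ∑ n ∈ S, (f (w z.1 * ν n) - m) * (f (w z.2 * ν n) - m) ≤
        ∑ n ∈ S, B * (G (w z.1 * ν n) + |m|) := by
          refine sum_le_sum fun n _ => ?_
          refine (le_abs_self _).trans ?_
          rw [abs_mul, mul_comm]
          apply mul_le_mul (hfm _) _ (abs_nonneg _) hB0
          refine (abs_sub _ _).trans ?_
          linarith [hfG (w z.1 * ν n)]
      _ = B * (∑ n ∈ S, G (w z.1 * ν n) + S.card * |m|) := by
          rw [← mul_sum, sum_add_distrib, sum_const, nsmul_eq_mul]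
      _ ≤ _ := by
          apply mul_le_mul_of_nonneg_left _ hB0
          have := hGs z.1 hzP
          linarith
  have hgood : ∀ z ∈ (P ×ˢ P) \ Bd, ∑ n ∈ S, (f (w z.1 * ν n) - m) * (f (w z.2 * ν n) - m) ≤
      B ^ 2 * W := by
    intro z hz
    obtain ⟨hz1, hz2⟩ := mem_sdiff.1 hz
    have h3 : ((∑ n ∈ S, (f (w z.1 * ν n) - m) * (f (w z.2 * ν n) - m) : ℝ) : ℂ) =
        ∑ i, ∑ j, a i * a j * ∑ n ∈ S, e (((Z i * w z.1 + Z j * w z.2 : ℤ) : ℝ) * ν n) := by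
      rw [Complex.ofReal_sum]
      have h4 : ∀ n, (((f (w z.1 * ν n) - m) * (f (w z.2 * ν n) - m) : ℝ) : ℂ) =
          ∑ i, ∑ j, a i * a j * e (((Z i * w z.1 + Z j * w z.2 : ℤ) : ℝ) * ν n) := by
        intro n
        rw [Complex.ofReal_mul, hx, hx, sum_mul_sum]
        refine sum_congr rfl fun i _ => sum_congr rfl fun j _ => ?_
        have h5 : ((Z i * w z.1 + Z j * w z.2 : ℤ) : ℝ) * ν n =
            (Z i : ℝ) * (w z.1 * ν n) + (Z j : ℝ) * (w z.2 * ν n) := by push_cast; ring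
        rw [h5, e_add]; ring
      simp_rw [h4]
      rw [sum_comm]
      refine sum_congr rfl fun i _ => ?_
      rw [sum_comm]
      refine sum_congr rfl fun j _ => ?_
      rw [mul_sum]
    have h4 : ∑ n ∈ S, (f (w z.1 * ν n) - m) * (f (w z.2 * ν n) - m) ≤
        ‖((∑ n ∈ S, (f (w z.1 * ν n) - m) * (f (w z.2 * ν n) - m) : ℝ) : ℂ)‖ := by
      rw [Complex.norm_real, Real.norm_eq_abs]; exact le_abs_self _
    refine h4.trans ?_
    rw [h3]
    calc ‖∑ i, ∑ j, a i * a j * ∑ n ∈ S, e (((Z i * w z.1 + Z j * w z.2 : ℤ) : ℝ) * ν n)‖ ≤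
        ∑ i, ∑ j, ‖a i‖ * ‖a j‖ * W := by
          refine (norm_sum_le _ _).trans (sum_le_sum fun i _ => ?_)
          refine (norm_sum_le _ _).trans (sum_le_sum fun j _ => ?_)
          rw [norm_mul, norm_mul]
          apply mul_le_mul_of_nonneg_left _ (by positivity)
          exact h2 z hz1 hz2 (Z i) (Z j) (c1 i).1 (c1 j).1 (c1 i).2 (c1 j).2
      _ = (∑ i, ‖a i‖) ^ 2 * W := by
          rw [sq, sum_mul_sum, sum_mul]
          refine sum_congr rfl fun i _ => ?_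
          rw [sum_mul]
      _ ≤ B ^ 2 * W := by
          apply mul_le_mul_of_nonneg_right _ hW0
          exact pow_le_pow_left₀ (sum_nonneg fun _ _ => norm_nonneg _) c2 2
  have hsq : ∑ n ∈ S, (∑ p ∈ P, (f (w p * ν n) - m)) ^ 2 =
      ∑ z ∈ P ×ˢ P, ∑ n ∈ S, (f (w z.1 * ν n) - m) * (f (w z.2 * ν n) - m) := by
    rw [sum_comm]
    refine sum_congr rfl fun n _ => ?_
    rw [sq, sum_mul_sum, sum_product]
  rw [hsq, ← sum_sdiff hBd]
  have k1 : ∑ z ∈ (P ×ˢ P) \ Bd, ∑ n ∈ S, (f (w z.1 * ν n) - m) * (f (w z.2 * ν n) - m) ≤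
      (P.card : ℝ) ^ 2 * (B ^ 2 * W) := by
    refine (sum_le_sum hgood).trans ?_
    rw [sum_const, nsmul_eq_mul]
    apply mul_le_mul_of_nonneg_right _ (by positivity)
    have h3 : ((P ×ˢ P) \ Bd).card ≤ P.card ^ 2 := by
      refine (card_le_card sdiff_subset).trans ?_
      rw [card_product, sq]
    exact_mod_cast h3
  have k2 : ∑ z ∈ Bd, ∑ n ∈ S, (f (w z.1 * ν n) - m) * (f (w z.2 * ν n) - m) ≤
      Bd.card * (B * ((mG + |m|) * S.card + BG * W)) := by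
    refine (sum_le_sum hbad).trans ?_
    rw [sum_const, nsmul_eq_mul]
  linarith

/-- Chebyshev's inequality -/
lemma cheb {σ : Type} (S : Finset σ) (F : σ → ℝ) (V T : ℝ) (hT : 0 < T)
    (h : ∑ n ∈ S, F n ^ 2 ≤ V) : ((S.filter fun n => T < |F n|).card : ℝ) ≤ V / T ^ 2 := by
  rw [le_div_iff₀ (by positivity)]
  calc ((S.filter fun n => T < |F n|).card : ℝ) * T ^ 2 =
      ∑ n ∈ S.filter (fun n => T < |F n|), T ^ 2 := by rw [sum_const, nsmul_eq_mul]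
    _ ≤ ∑ n ∈ S.filter (fun n => T < |F n|), F n ^ 2 := by
        refine sum_le_sum fun n hn => ?_
        rw [← sq_abs (F n)]
        exact pow_le_pow_left₀ hT.le (mem_filter.1 hn).2.le 2
    _ ≤ ∑ n ∈ S, F n ^ 2 := sum_le_sum_of_subset_of_nonneg (filter_subset _ _) fun _ _ _ => sq_nonneg _
    _ ≤ V := h

end Pool.Agent.Helper478.Lit
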