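import Pool.Agent.Helper478_Lit.PCV
import Pool.Agent.Helper478_Lit.B

/-!
# Pair correlation: one distance
-/

set_option autoImplicit false

namespace Pool.Agent.Helper478.Lit

open Finset Filter
open Pool.Agent.H469R2.NK (e norm_e e_add e_zero conj_e)
open Pool.Agent.Helper478.Kwise

/-- the difference of two powers -/
def pw (b : ℕ) (p : ℕ × ℕ) : ℤ := (b : ℤ) ^ p.1 - (b : ℤ) ^ p.2

lemma pw_ne (b : ℕ) (hb : 2 ≤ b) (p : ℕ × ℕ) (hp : p.1 ≠ p.2) : pw b p ≠ 0 := by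
  unfold pw
  rw [sub_ne_zero]
  intro h
  apply hp
  have h1 : b ^ p.1 = b ^ p.2 := by exact_mod_cast h
  exact Nat.pow_right_injective hb h1

lemma pw_le (b K : ℕ) (hb : 1 ≤ b) (p : ℕ × ℕ) (h1 : p.1 < K) (h2 : p.2 < K) :
    |pw b p| ≤ (b : ℤ) ^ K := by
  unfold pw
  have e1 : (b : ℤ) ^ p.1 ≤ (b : ℤ) ^ K := pow_le_pow_right₀ (by exact_mod_cast hb) h1.le
  have e2 : (b : ℤ) ^ p.2 ≤ (b : ℤ) ^ K := pow_le_pow_right₀ (by exact_mod_cast hb) h2.le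
  have e3 : (0 : ℤ) ≤ (b : ℤ) ^ p.1 := by positivity
  have e4 : (0 : ℤ) ≤ (b : ℤ) ^ p.2 := by positivity
  rw [abs_le]; constructor <;> linarith

lemma lt_ind (δ x : ℝ) (h1 : δ ≤ 1 / 2) (h : dist1 x < δ) : ind 0 (2 * δ) (x + δ) = 1 := by
  unfold dist1 at h
  obtain ⟨h2, h3⟩ := abs_lt.1 h
  have h4 : Int.fract (x + δ) = x - round x + δ := by
    rw [Int.fract_eq_iff]
    exact ⟨by linarith, by linarith, round x, by ring⟩
  unfold ind
  rw [if_pos ⟨Int.fract_nonneg _, by rw [h4]; linarith⟩]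

lemma ind_le_dist (δ x : ℝ) (h : ¬ dist1 x ≤ δ) : ind 0 (2 * δ) (x + δ) = 0 := by
  unfold ind
  rw [if_neg]
  rintro ⟨h1, h2⟩
  apply h
  unfold dist1
  refine (round_le x ⌊x + δ⌋).trans ?_
  rw [← Int.self_sub_floor] at h1 h2
  rw [abs_le]; constructor <;> linarith

/-- the number of pairs at distance less than `δ` -/
noncomputable def Xlt (b K : ℕ) (δ ν : ℝ) : ℕ :=
  ((range K).offDiag.filter fun p => dist1 (pw b p * ν) < δ).card

/-- the number of pairs at distance at most `δ` -/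
noncomputable def Xle (b K : ℕ) (δ ν : ℝ) : ℕ :=
  ((range K).offDiag.filter fun p => dist1 (pw b p * ν) ≤ δ).card

theorem one (b K g : ℕ) (hb : 2 ≤ b) (hK : 2 ≤ K) (hg : 4 * K ^ 6 < b ^ g) (δ η : ℝ) (hδ0 : 0 < δ)
    (hδ1 : δ ≤ 1 / 2) (hη0 : 0 < η) (hη1 : η ≤ 1) (hηK : 2 ≤ η * K) (hδK : 3 ≤ η * δ * K ^ 3)
    {σ : Type} (S : Finset σ) (ν : σ → ℝ) (W : ℝ) (hW0 : 0 ≤ W)
    (hW : ∀ Z : ℤ, Z ≠ 0 → |Z| ≤ 2 * (K : ℤ) ^ 6 * (b : ℤ) ^ K → ‖∑ n ∈ S, e ((Z : ℝ) * ν n)‖ ≤ W) :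
    ((S.filter fun n => ¬ ((Xlt b K δ (ν n) : ℝ) ≤ (2 + 2 * η) * δ * K ^ 2 ∧
      (2 - 3 * η) * δ * K ^ 2 ≤ (Xle b K δ (ν n) : ℝ))).card : ℝ) ≤
      2 * ((48 * K ^ 2 * g ^ 2 * ((2 + 2 * Real.log ((K ^ 6 : ℕ) : ℝ)) * (16 * δ * S.card +
        3 * (2 + 2 * Real.log ((K ^ 6 : ℕ) : ℝ)) * W)) +
        (K : ℝ) ^ 4 * ((2 + 2 * Real.log ((K ^ 6 : ℕ) : ℝ)) ^ 2 * W)) / (η * δ * K ^ 2) ^ 2) := by
  classical
  have hK0 : (0 : ℝ) < K := by exact_mod_cast (by omega : 0 < K)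
  have hK2 : (2 : ℝ) ≤ K := by exact_mod_cast hK
  obtain ⟨D, hD⟩ : ∃ D : ℕ, D = K ^ 6 := ⟨_, rfl⟩
  have hDr : (D : ℝ) = (K : ℝ) ^ 6 := by rw [hD]; push_cast; ring
  have hDz : (D : ℤ) = (K : ℤ) ^ 6 := by rw [hD]; push_cast; ring
  have hD1 : 1 ≤ D := by rw [hD]; exact Nat.one_le_pow _ _ (by omega)
  rw [← hD] at hg ⊢
  rw [← hDz] at hW
  obtain ⟨B, hB⟩ : ∃ B : ℝ, B = 2 + 2 * Real.log D := ⟨_, rfl⟩
  have hlogD : 0 ≤ Real.log D := Real.log_natCast_nonneg D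
  have hB0 : 0 < B := by rw [hB]; linarith
  rw [← hB]
  obtain ⟨lam, hlam⟩ : ∃ lam : ℝ, lam = 1 / (K : ℝ) ^ 3 := ⟨_, rfl⟩
  have hl0 : 0 < lam := by rw [hlam]; positivity
  have hl1 : lam ≤ 1 := by
    rw [hlam, div_le_one (by positivity)]
    exact one_le_pow₀ (by linarith)
  have hlc : 1 ≤ (D : ℝ) * lam ^ 2 := by
    rw [hlam, hDr]; apply le_of_eq; field_simp
  have hlδ : 3 * lam ≤ η * δ := by
    rw [hlam, mul_one_div, div_le_iff₀ (by positivity)]; exact hδK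
  have hηδ : η * δ ≤ δ := by nlinarith
  -- majorant and minorant
  obtain ⟨U, mU, hU, hU1, hU2, hUT⟩ := major D hD1 lam hl0 hl1 hlc 0 (2 * δ) le_rfl (by linarith) (by linarith)
  obtain ⟨L, mL, hL, hL1, hL2, hLT⟩ := minor D hD1 lam hl0 hl1 hlc 0 (2 * δ) le_rfl (by linarith) (by linarith)
  rw [sub_zero] at hU1 hU2 hL1 hL2
  rw [← hB] at hUT hLT
  have hUs := hUT.shift δ
  have hLs := hLT.shift δ
  beta_reduce at hUs hLs
  have hGs : TPm D (3 * B) ((2 * mU - mL : ℝ) : ℂ) (fun x => ((2 * U (x + δ) - L (x + δ) : ℝ) : ℂ)) := by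
    have h2 := (hUs.add hUs).add hLs.neg
    have h3 : (mU : ℂ) + mU + -(mL : ℂ) = ((2 * mU - mL : ℝ) : ℂ) := by push_cast; ring
    rw [h3] at h2
    refine TPm.mono (A := B + B + B) ?_ le_rfl (by linarith)
    convert h2 using 2 with x
    push_cast; ring
  have hUL : ∀ x, L x ≤ U x := fun x => (hL x).trans (hU x)
  have hU0 : ∀ x, 0 ≤ U x := fun x => (ind_nonneg 0 (2 * δ) x).trans (hU x)
  have hG1 : ∀ x, |U (x + δ)| ≤ 2 * U (x + δ) - L (x + δ) := fun x => by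
    rw [abs_of_nonneg (hU0 _)]; linarith [hUL (x + δ)]
  have hG2 : ∀ x, |L (x + δ)| ≤ 2 * U (x + δ) - L (x + δ) := fun x => by
    rw [abs_le]; constructor <;> linarith [hUL (x + δ), hU0 (x + δ)]
  obtain ⟨P, hP⟩ : ∃ P : Finset (ℕ × ℕ), P = (range K).offDiag := ⟨_, rfl⟩
  have hBadP : Bad g K ⊆ P ×ˢ P := by rw [hP]; exact filter_subset _ _
  have hPcard : (P.card : ℝ) = (K : ℝ) ^ 2 - K := by
    rw [hP, offDiag_card, card_range, Nat.cast_sub (by nlinarith)]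
    push_cast; ring
  have hPcard2 : (P.card : ℝ) ^ 2 ≤ (K : ℝ) ^ 4 := by
    rw [hPcard]
    have h1 : (K : ℝ) ^ 2 - K ≤ (K : ℝ) ^ 2 := by linarith
    have h2 : 0 ≤ (K : ℝ) ^ 2 - K := by nlinarith
    calc ((K : ℝ) ^ 2 - K) ^ 2 ≤ ((K : ℝ) ^ 2) ^ 2 := pow_le_pow_left₀ h2 h1 2
      _ = (K : ℝ) ^ 4 := by ring
  have hBadc : ((Bad g K).card : ℝ) ≤ 48 * K ^ 2 * g ^ 2 := by exact_mod_cast bad_card g K
  have hb1 : 1 ≤ b := by omega
  have hbK : (1 : ℤ) ≤ (b : ℤ) ^ K := one_le_pow₀ (by exact_mod_cast hb1)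
  -- the frequencies
  have f1 : ∀ p ∈ P, ∀ Z : ℤ, Z ≠ 0 → |Z| ≤ D → ‖∑ n ∈ S, e (((Z * pw b p : ℤ) : ℝ) * ν n)‖ ≤ W := by
    intro p hp Z hZ hZD
    rw [hP, mem_offDiag, mem_range, mem_range] at hp
    apply hW
    · exact mul_ne_zero hZ (pw_ne b hb p hp.2.2)
    · rw [abs_mul]
      have := mul_le_mul hZD (pw_le b K hb1 p hp.1 hp.2.1) (abs_nonneg _) (Nat.cast_nonneg D)
      have h0 : (0 : ℤ) ≤ D * (b : ℤ) ^ K := by positivity
      linarith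
  have f2 : ∀ z ∈ P ×ˢ P, z ∉ Bad g K → ∀ Z Z' : ℤ, Z ≠ 0 → Z' ≠ 0 → |Z| ≤ D → |Z'| ≤ D →
      ‖∑ n ∈ S, e (((Z * pw b z.1 + Z' * pw b z.2 : ℤ) : ℝ) * ν n)‖ ≤ W := by
    intro z hz hzB Z Z' hZ hZ' hZD hZD'
    have hz' := hz
    rw [mem_product, hP, mem_offDiag, mem_offDiag, mem_range, mem_range, mem_range, mem_range] at hz'
    apply hW
    · apply freq_ne b g D hb1 hg Z Z' hZ hZ' hZD hZD'
      intro h
      apply hzB
      rw [Bad, mem_filter]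
      exact ⟨by rw [← hP]; exact hz, h⟩
    · refine (abs_add_le _ _).trans ?_
      rw [abs_mul, abs_mul]
      have e1 := mul_le_mul hZD (pw_le b K hb1 z.1 hz'.1.1 hz'.1.2.1) (abs_nonneg _) (Nat.cast_nonneg D)
      have e2 := mul_le_mul hZD' (pw_le b K hb1 z.2 hz'.2.1 hz'.2.2.1) (abs_nonneg _) (Nat.cast_nonneg D)
      linarith
  have vU := variance D B mU (fun x => U (x + δ)) hUs (3 * B) (2 * mU - mL)
    (fun x => 2 * U (x + δ) - L (x + δ)) hGs hG1 S ν P (pw b) (Bad g K) hBadP W hW0 f1 f2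
  have vL := variance D B mL (fun x => L (x + δ)) hLs (3 * B) (2 * mU - mL)
    (fun x => 2 * U (x + δ) - L (x + δ)) hGs hG2 S ν P (pw b) (Bad g K) hBadP W hW0 f1 f2
  obtain ⟨V, hV⟩ : ∃ V : ℝ, V = 48 * K ^ 2 * g ^ 2 * (B * (16 * δ * S.card + 3 * B * W)) +
    (K : ℝ) ^ 4 * (B ^ 2 * W) := ⟨_, rfl⟩
  rw [← hV]
  have hS0 : (0 : ℝ) ≤ S.card := Nat.cast_nonneg _
  have hVge : ∀ m : ℝ, |m| ≤ 2 * δ + 3 * lam → ((Bad g K).card : ℝ) * (B * ((2 * mU - mL + |m|) * S.card + 3 * B * W)) +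
      (P.card : ℝ) ^ 2 * (B ^ 2 * W) ≤ V := by
    intro m hm
    rw [hV]
    have e1 : (2 * mU - mL + |m|) ≤ 16 * δ := by linarith
    have e0 : 0 ≤ 2 * mU - mL + |m| := by linarith [abs_nonneg m]
    have e2 : B * ((2 * mU - mL + |m|) * S.card + 3 * B * W) ≤ B * (16 * δ * S.card + 3 * B * W) := by
      gcongr
    have e3 : 0 ≤ B * ((2 * mU - mL + |m|) * S.card + 3 * B * W) := by positivity
    have e4 := mul_le_mul hBadc e2 e3 (by positivity)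
    have e5 := mul_le_mul_of_nonneg_right hPcard2 (by positivity : 0 ≤ B ^ 2 * W)
    linarith
  have vU' := vU.trans (hVge mU (by rw [abs_of_nonneg (by linarith)]; exact hU2))
  have vL' := vL.trans (hVge mL (by rw [abs_of_nonneg (by linarith)]; linarith))
  have hT0 : 0 < η * δ * K ^ 2 := by positivity
  have cU := cheb S _ V _ hT0 vU'
  have cL := cheb S _ V _ hT0 vL'
  have hsub : (S.filter fun n => ¬ ((Xlt b K δ (ν n) : ℝ) ≤ (2 + 2 * η) * δ * K ^ 2 ∧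
      (2 - 3 * η) * δ * K ^ 2 ≤ (Xle b K δ (ν n) : ℝ))) ⊆
      (S.filter fun n => η * δ * K ^ 2 < |∑ p ∈ P, (U (pw b p * ν n + δ) - mU)|) ∪
      (S.filter fun n => η * δ * K ^ 2 < |∑ p ∈ P, (L (pw b p * ν n + δ) - mL)|) := by
    intro n hn
    obtain ⟨hnS, hn⟩ := mem_filter.1 hn
    rw [mem_union, mem_filter, mem_filter]
    by_contra hcon
    push Not at hcon
    obtain ⟨d1, d2⟩ := hcon
    have d1 := d1 hnS
    have d2 := d2 hnS
    apply hn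
    rw [sum_sub_distrib, sum_const, nsmul_eq_mul] at d1 d2
    have g1 := (abs_le.1 d1).2
    have g2 := (abs_le.1 d2).1
    constructor
    · have k1 : (Xlt b K δ (ν n) : ℝ) ≤ ∑ p ∈ P, U (pw b p * ν n + δ) := by
        rw [Xlt, ← hP, card_filter]
        push_cast
        refine sum_le_sum fun p _ => ?_
        split_ifs with h
        · rw [← lt_ind δ _ hδ1 h]; exact hU _
        · exact hU0 _
      have k2 : (P.card : ℝ) * mU ≤ (K : ℝ) ^ 2 * (2 * δ + η * δ) := by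
        apply mul_le_mul _ (by linarith) (by linarith) (by positivity)
        rw [hPcard]; linarith
      nlinarith
    · have k1 : ∑ p ∈ P, L (pw b p * ν n + δ) ≤ (Xle b K δ (ν n) : ℝ) := by
        rw [Xle, ← hP, card_filter]
        push_cast
        refine sum_le_sum fun p _ => ?_
        split_ifs with h
        · exact (hL _).trans (ind_le_one _ _ _)
        · rw [← ind_le_dist δ _ h]; exact hL _
      have k2 : ((K : ℝ) ^ 2 - K) * (2 * δ - η * δ) ≤ P.card * mL := by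
        rw [hPcard]
        apply mul_le_mul_of_nonneg_left (by linarith)
        nlinarith
      have k3 : K * (2 * δ - η * δ) ≤ η * δ * K ^ 2 := by
        have h1 : (K : ℝ) * (2 * δ - η * δ) ≤ K * (2 * δ) := by
          apply mul_le_mul_of_nonneg_left _ hK0.le
          have := mul_pos hη0 hδ0
          linarith
        have h2 : (K : ℝ) * (2 * δ) = K * δ * 2 := by ring
        have h3 : (K : ℝ) * δ * 2 ≤ K * δ * (η * K) := by gcongr
        have h4 : (K : ℝ) * δ * (η * K) = η * δ * K ^ 2 := by ring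
        linarith
      nlinarith
  have hfin := (card_le_card hsub).trans (card_union_le _ _)
  have hfin' : ((S.filter fun n => ¬ ((Xlt b K δ (ν n) : ℝ) ≤ (2 + 2 * η) * δ * K ^ 2 ∧
      (2 - 3 * η) * δ * K ^ 2 ≤ (Xle b K δ (ν n) : ℝ))).card : ℝ) ≤
      ((S.filter fun n => η * δ * K ^ 2 < |∑ p ∈ P, (U (pw b p * ν n + δ) - mU)|).card : ℝ) +
      ((S.filter fun n => η * δ * K ^ 2 < |∑ p ∈ P, (L (pw b p * ν n + δ) - mL)|).card : ℝ) := by
    exact_mod_cast hfin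
  linarith

end Pool.Agent.Helper478.Lit
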