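import Pool.Agent.Helper478_Lit.PCW
import Pool.Agent.Helper478_Lit.C

/-!
# Pair correlation: all distances
-/

set_option autoImplicit false

namespace Pool.Agent.Helper478.Lit

open Finset Filter
open Pool.Agent.H469R2.NK (e norm_e e_add e_zero conj_e)
open Pool.Agent.Helper478.Kwise
open Pool.Agent.Helper478.Surds (ev_pow)

/-- the smallest distance -/
theorem small (b K : ℕ) (hb : 2 ≤ b) (hK : 1 ≤ K) (δ : ℝ) (hδ0 : 0 < δ) (hδ1 : δ ≤ 1 / 2)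
    {σ : Type} (S : Finset σ) (ν : σ → ℝ) (W : ℝ) (hW0 : 0 ≤ W)
    (hW : ∀ Z : ℤ, Z ≠ 0 → |Z| ≤ 2 * (K : ℤ) ^ 6 * (b : ℤ) ^ K → ‖∑ n ∈ S, e ((Z : ℝ) * ν n)‖ ≤ W) :
    ((S.filter fun n => ¬ Xlt b K δ (ν n) = 0).card : ℝ) ≤
      K ^ 2 * ((2 * δ + 3 * (1 / K ^ 3)) * S.card + (2 + 2 * Real.log ((K ^ 6 : ℕ) : ℝ)) * W) := by
  classical
  have hK0 : (0 : ℝ) < K := by exact_mod_cast (by omega : 0 < K)
  have hK2 : (1 : ℝ) ≤ K := by exact_mod_cast hK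
  obtain ⟨D, hD⟩ : ∃ D : ℕ, D = K ^ 6 := ⟨_, rfl⟩
  have hDr : (D : ℝ) = (K : ℝ) ^ 6 := by rw [hD]; push_cast; ring
  have hDz : (D : ℤ) = (K : ℤ) ^ 6 := by rw [hD]; push_cast; ring
  have hD1 : 1 ≤ D := by rw [hD]; exact Nat.one_le_pow _ _ (by omega)
  rw [← hD]
  rw [← hDz] at hW
  obtain ⟨B, hB⟩ : ∃ B : ℝ, B = 2 + 2 * Real.log D := ⟨_, rfl⟩
  have hlogD : 0 ≤ Real.log D := Real.log_natCast_nonneg D
  have hB0 : 0 < B := by rw [hB]; linarith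
  rw [← hB]
  obtain ⟨lam, hlam⟩ : ∃ lam : ℝ, lam = 1 / (K : ℝ) ^ 3 := ⟨_, rfl⟩
  rw [← hlam]
  have hl0 : 0 < lam := by rw [hlam]; positivity
  have hl1 : lam ≤ 1 := by
    rw [hlam, div_le_one (by positivity)]
    exact one_le_pow₀ (by linarith)
  have hlc : 1 ≤ (D : ℝ) * lam ^ 2 := by
    rw [hlam, hDr]; apply le_of_eq; field_simp
  obtain ⟨U, mU, hU, hU1, hU2, hUT⟩ := major D hD1 lam hl0 hl1 hlc 0 (2 * δ) le_rfl (by linarith) (by linarith)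
  rw [sub_zero] at hU1 hU2
  rw [← hB] at hUT
  have hUs := hUT.shift δ
  beta_reduce at hUs
  have hU0 : ∀ x, 0 ≤ U x := fun x => (ind_nonneg 0 (2 * δ) x).trans (hU x)
  obtain ⟨P, hP⟩ : ∃ P : Finset (ℕ × ℕ), P = (range K).offDiag := ⟨_, rfl⟩
  have hPcard : (P.card : ℝ) ≤ (K : ℝ) ^ 2 := by
    have h1 : P.card ≤ K ^ 2 := by
      rw [hP, offDiag_card, card_range, sq]; omega
    exact_mod_cast h1
  have hb1 : 1 ≤ b := by omega
  have f1 : ∀ p ∈ P, ∑ n ∈ S, U (pw b p * ν n + δ) ≤ (2 * δ + 3 * lam) * S.card + B * W := by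
    intro p hp
    rw [hP, mem_offDiag, mem_range, mem_range] at hp
    have h3 := hUs.compare S (fun n => (pw b p : ℝ) * ν n) W (by
      intro Z hZ hZD
      have h4 : ‖∑ n ∈ S, e (((Z * pw b p : ℤ) : ℝ) * ν n)‖ ≤ W := by
        apply hW
        · exact mul_ne_zero hZ (pw_ne b hb p hp.2.2)
        · rw [abs_mul]
          have := mul_le_mul hZD (pw_le b K hb1 p hp.1 hp.2.1) (abs_nonneg _) (Nat.cast_nonneg D)
          have h0 : (0 : ℤ) ≤ D * (b : ℤ) ^ K := by positivity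
          linarith
      refine le_trans (le_of_eq ?_) h4
      congr 1
      refine sum_congr rfl fun n _ => ?_
      congr 1; push_cast; ring) hW0
    have h4 : ‖∑ n ∈ S, ((U (pw b p * ν n + δ) : ℝ) : ℂ) - S.card * (mU : ℂ)‖ =
        |∑ n ∈ S, U (pw b p * ν n + δ) - S.card * mU| := by
      rw [← Real.norm_eq_abs, ← Complex.norm_real]
      congr 1; push_cast; ring
    beta_reduce at h3
    rw [h4] at h3
    have h5 := (abs_le.1 h3).2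
    have h6 : (S.card : ℝ) * mU ≤ S.card * (2 * δ + 3 * lam) :=
      mul_le_mul_of_nonneg_left hU2 (Nat.cast_nonneg _)
    linarith
  calc ((S.filter fun n => ¬ Xlt b K δ (ν n) = 0).card : ℝ) ≤ ∑ n ∈ S, (Xlt b K δ (ν n) : ℝ) := by
        rw [card_filter]
        push_cast
        refine sum_le_sum fun n _ => ?_
        split_ifs with h
        · exact Nat.cast_nonneg _
        · exact_mod_cast Nat.one_le_iff_ne_zero.2 h
    _ ≤ ∑ n ∈ S, ∑ p ∈ P, U (pw b p * ν n + δ) := by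
        refine sum_le_sum fun n _ => ?_
        rw [Xlt, ← hP, card_filter]
        push_cast
        refine sum_le_sum fun p _ => ?_
        split_ifs with h
        · rw [← lt_ind δ _ hδ1 h]; exact hU _
        · exact hU0 _
    _ = ∑ p ∈ P, ∑ n ∈ S, U (pw b p * ν n + δ) := sum_comm
    _ ≤ ∑ p ∈ P, ((2 * δ + 3 * lam) * S.card + B * W) := sum_le_sum f1
    _ = P.card * ((2 * δ + 3 * lam) * S.card + B * W) := by rw [sum_const, nsmul_eq_mul]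
    _ ≤ _ := mul_le_mul_of_nonneg_right hPcard (by positivity)

/-- from a geometric grid to all distances -/
lemma grid (b K : ℕ) (ν η δ₀ : ℝ) (hη0 : 0 < η) (hη1 : η ≤ 1 / 2) (hδ₀ : 0 < δ₀)
    (H : ∀ t : ℕ, δ₀ ≤ (1 - η) ^ t → (Xlt b K (1 / 2 * (1 - η) ^ t) ν : ℝ) ≤
      (2 + 2 * η) * (1 / 2 * (1 - η) ^ t) * K ^ 2 ∧
      (2 - 3 * η) * (1 / 2 * (1 - η) ^ t) * K ^ 2 ≤ (Xle b K (1 / 2 * (1 - η) ^ t) ν : ℝ))
    (δ : ℝ) (h1 : δ₀ ≤ δ) (h2 : δ ≤ 1 / 2) :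
    |(Xlt b K δ ν : ℝ) - 2 * δ * K ^ 2| ≤ 8 * η * (δ * K ^ 2) := by
  have hδ0 : 0 < δ := by linarith
  obtain ⟨t, ht1, ht2⟩ := exists_nat_pow_near_of_lt_one (show 0 < 2 * δ by linarith)
    (show 2 * δ ≤ 1 by linarith) (show 0 < 1 - η by linarith) (show 1 - η < 1 by linarith)
  obtain ⟨d, hd⟩ : ∃ d : ℝ, d = 1 / 2 * (1 - η) ^ t := ⟨_, rfl⟩
  obtain ⟨d', hd'⟩ : ∃ d' : ℝ, d' = 1 / 2 * (1 - η) ^ (t + 1) := ⟨_, rfl⟩
  have hdd : d' = (1 - η) * d := by rw [hd, hd', pow_succ]; ring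
  have hdδ : δ ≤ d := by rw [hd]; linarith
  have hdδ' : d' < δ := by rw [hd']; linarith
  have q1 := (H t (by linarith)).1
  have q2 := (H (t + 1) (by
    have e1 : (1 - η) ^ (t + 1) = 2 * d' := by rw [hd']; ring
    rw [e1, hdd]
    nlinarith)).2
  rw [← hd] at q1
  rw [← hd'] at q2
  have m1 : (Xlt b K δ ν : ℝ) ≤ (Xlt b K d ν : ℝ) := by
    rw [Xlt, Xlt]
    exact_mod_cast card_le_card (monotone_filter_right _ (fun p _ hp => lt_of_lt_of_le hp hdδ))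
  have m2 : (Xle b K d' ν : ℝ) ≤ (Xlt b K δ ν : ℝ) := by
    rw [Xle, Xlt]
    exact_mod_cast card_le_card (monotone_filter_right _ (fun p _ hp => lt_of_le_of_lt hp hdδ'))
  have hK2 : (0 : ℝ) ≤ (K : ℝ) ^ 2 := by positivity
  -- bounds for `d` and `d'` in terms of `δ`
  have b1 : (1 - η) * d ≤ δ := by rw [← hdd]; exact hdδ'.le
  have b2 : (1 - η) * δ ≤ d' := by rw [hdd]; exact mul_le_mul_of_nonneg_left hdδ (by linarith)
  have c1 : (2 + 2 * η) * d ≤ (2 + 8 * η) * δ := by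
    have e1 : (2 + 8 * η) * ((1 - η) * d) ≤ (2 + 8 * η) * δ :=
      mul_le_mul_of_nonneg_left b1 (by linarith)
    have e2 : 2 + 2 * η ≤ (2 + 8 * η) * (1 - η) := by nlinarith
    have e3 := mul_le_mul_of_nonneg_right e2 (show 0 ≤ d by linarith)
    linarith
  have c2 : (2 - 8 * η) * δ ≤ (2 - 3 * η) * d' := by
    have e1 : (2 - 3 * η) * ((1 - η) * δ) ≤ (2 - 3 * η) * d' :=
      mul_le_mul_of_nonneg_left b2 (by linarith)
    have e2 : 2 - 8 * η ≤ (2 - 3 * η) * (1 - η) := by nlinarith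
    have e3 := mul_le_mul_of_nonneg_right e2 hδ0.le
    linarith
  have c1' := mul_le_mul_of_nonneg_right c1 hK2
  have c2' := mul_le_mul_of_nonneg_right c2 hK2
  rw [abs_le]
  constructor <;> linarith

lemma num (k x g B η δ S W E : ℝ) (hk : 1 ≤ k) (hg0 : 0 ≤ g) (hB0 : 0 ≤ B) (hgx : g ≤ x) (hBx : B ≤ x)
    (hxk : x ≤ k) (hη0 : 0 < η) (hη : 1 / k ≤ η ^ 2) (hδ0 : 0 < δ) (hE : 1 ≤ E) (hδ : E / 2 ≤ δ * k ^ 2)
    (hS : 0 ≤ S) (hW : 0 ≤ W) :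
    (48 * k ^ 2 * g ^ 2 * (B * (16 * δ * S + 3 * B * W)) + k ^ 4 * (B ^ 2 * W)) / (η * δ * k ^ 2) ^ 2 ≤
      1536 * x ^ 3 * S / (η ^ 2 * E) + 600 * k ^ 7 * W := by
  have hk0 : 0 < k := by linarith
  have hx0 : 0 ≤ x := by linarith
  have hE0 : 0 < E := by linarith
  rw [div_le_iff₀ (by positivity)]
  have h1 : 48 * k ^ 2 * g ^ 2 * (B * (16 * δ * S + 3 * B * W)) + k ^ 4 * (B ^ 2 * W) ≤
      48 * k ^ 2 * x ^ 2 * (x * (16 * δ * S + 3 * x * W)) + k ^ 4 * (x ^ 2 * W) := by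
    gcongr
  have h2 : 48 * k ^ 2 * x ^ 2 * (x * (16 * δ * S + 3 * x * W)) + k ^ 4 * (x ^ 2 * W) =
      768 * x ^ 3 * S * (δ * k ^ 2) + (144 * k ^ 2 * x ^ 4 + k ^ 4 * x ^ 2) * W := by ring
  have h3 : (144 * k ^ 2 * x ^ 4 + k ^ 4 * x ^ 2) * W ≤ (144 * k ^ 2 * k ^ 4 + k ^ 4 * k ^ 2) * W := by
    gcongr
  have h4 : (144 * k ^ 2 * k ^ 4 + k ^ 4 * k ^ 2) * W = 145 * k ^ 6 * W := by ring
  have h5 : 1536 * x ^ 3 * S / (η ^ 2 * E) * (η * δ * k ^ 2) ^ 2 =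
      1536 * x ^ 3 * S * (δ * k ^ 2) * ((δ * k ^ 2) / E) := by
    field_simp
  have h6 : 1 / 2 ≤ (δ * k ^ 2) / E := by rw [le_div_iff₀ hE0]; linarith
  have h7 : 1536 * x ^ 3 * S * (δ * k ^ 2) * (1 / 2) ≤ 1536 * x ^ 3 * S * (δ * k ^ 2) * ((δ * k ^ 2) / E) :=
    mul_le_mul_of_nonneg_left h6 (by positivity)
  have h8 : 1 / 2 ≤ δ * k ^ 2 := by linarith
  have h9 : 600 * k ^ 7 * W * (η * δ * k ^ 2) ^ 2 = 600 * k ^ 7 * W * (η ^ 2 * (δ * k ^ 2) ^ 2) := by ring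
  have h10 : 1 / k * (1 / 4) ≤ η ^ 2 * (δ * k ^ 2) ^ 2 := by
    apply mul_le_mul hη _ (by norm_num) (by positivity)
    nlinarith
  have h11 : 600 * k ^ 7 * W * (1 / k * (1 / 4)) ≤ 600 * k ^ 7 * W * (η ^ 2 * (δ * k ^ 2) ^ 2) :=
    mul_le_mul_of_nonneg_left h10 (by positivity)
  have h12 : 600 * k ^ 7 * W * (1 / k * (1 / 4)) = 150 * k ^ 6 * W := by field_simp; ring
  have h13 : 0 ≤ k ^ 6 * W := by positivity
  rw [add_mul, h5, h9]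
  linarith

end Pool.Agent.Helper478.Lit
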