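import Pool.Agent.Helper478_Lit.PCX

/-!
# Pair correlation: the abstract theorem
-/

set_option autoImplicit false

namespace Pool.Agent.Helper478.Lit

open Finset Filter
open Pool.Agent.H469R2.NK (e norm_e e_add e_zero conj_e)
open Pool.Agent.Helper478.Kwise
open Pool.Agent.Helper478.Surds (ev_pow)

open scoped Classical in
theorem pc_abs (ε : ℝ) (hε0 : 0 < ε) (hε1 : ε < 1) : ∃ K₀ : ℕ, ∀ (b K : ℕ), K₀ ≤ K → 2 ≤ b →
    ∀ {σ : Type} (S : Finset σ) (ν : σ → ℝ) (W : ℝ), 0 ≤ W →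
    (∀ Z : ℤ, Z ≠ 0 → |Z| ≤ 2 * (K : ℤ) ^ 6 * (b : ℤ) ^ K → ‖∑ n ∈ S, e ((Z : ℝ) * ν n)‖ ≤ W) →
    ((S.filter fun n => ¬ ((∀ δ : ℝ, (K : ℝ) ^ (-2 + ε) ≤ δ → δ ≤ 1 / 2 →
        |(Xlt b K δ (ν n) : ℝ) - 2 * δ * K ^ 2| ≤ (K : ℝ) ^ (-(ε / 32)) * (δ * K ^ 2)) ∧
        Xlt b K ((K : ℝ) ^ (-2 - ε)) (ν n) = 0)).card : ℝ) ≤
      1 / 2 * (S.card * (K : ℝ) ^ (-(ε / 32))) + (K : ℝ) ^ 10 * W := by
  have ev1 := ev_log 16 (ε / 64) (by positivity)
  have ev2 : ∀ᶠ y : ℝ in atTop, 2 * y ^ (-(ε / 16)) ≤ y ^ (0 : ℝ) := ev_pow _ _ _ (by linarith)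
  have ev3 : ∀ᶠ y : ℝ in atTop, (2 : ℝ) * y ^ (0 : ℝ) ≤ y ^ (1 - ε / 16) := ev_pow _ _ _ (by linarith)
  have ev4 : ∀ᶠ y : ℝ in atTop, (8 : ℝ) * y ^ (-(ε / 16)) ≤ y ^ (-(ε / 32)) := ev_pow _ _ _ (by linarith)
  have ev5 : ∀ᶠ y : ℝ in atTop, (6 : ℝ) * y ^ (0 : ℝ) ≤ y ^ (1 + 15 * ε / 16) := ev_pow _ _ _ (by linarith)
  have ev6 : ∀ᶠ y : ℝ in atTop, (2 : ℝ) * y ^ (-2 - ε) ≤ y ^ (0 : ℝ) := ev_pow _ _ _ (by linarith)
  have ev7 : ∀ᶠ y : ℝ in atTop, (6154 : ℝ) * y ^ (-(3 * ε / 4)) ≤ y ^ (-(ε / 32)) := ev_pow _ _ _ (by linarith)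
  have hid : Tendsto (fun N : ℕ => (N : ℝ)) atTop atTop := tendsto_natCast_atTop_atTop
  obtain ⟨K₀, hK₀⟩ := eventually_atTop.1 (hid.eventually (((ev1.and ev2).and (ev3.and ev4)).and
    ((ev5.and ev6).and (ev7.and (eventually_ge_atTop 64)))))
  refine ⟨K₀, ?_⟩
  intro b K hK hb σ S ν W hW0 hW
  obtain ⟨⟨⟨q1, q2⟩, q3, q4⟩, ⟨q5, q6⟩, q7, q8⟩ := hK₀ K hK
  obtain ⟨k, hk⟩ : ∃ k : ℝ, k = (K : ℝ) := ⟨_, rfl⟩
  simp only [← hk] at q1 q2 q3 q4 q5 q6 q7 q8 ⊢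
  rw [Real.rpow_zero] at q2 q3 q5 q6
  rw [mul_one] at q3 q5
  have hk0 : 0 < k := by linarith only [q8]
  have hk1 : 1 ≤ k := by linarith only [q8]
  obtain ⟨η, hη⟩ : ∃ η : ℝ, η = k ^ (-(ε / 16)) := ⟨_, rfl⟩
  obtain ⟨x, hx⟩ : ∃ x : ℝ, x = k ^ (ε / 64) := ⟨_, rfl⟩
  obtain ⟨l, hl⟩ : ∃ l : ℝ, l = Real.log k := ⟨_, rfl⟩
  have hη0 : 0 < η := by rw [hη]; positivity
  rw [← hη] at q2 q4
  rw [← hl, ← hx] at q1
  have hl1 : 1 ≤ l := by
    rw [hl, Real.le_log_iff_exp_le hk0]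
    linarith [Real.exp_one_lt_d9]
  have hx1 : 1 ≤ x := by linarith only [q1, hl1]
  have hxk : x ≤ k := by
    rw [hx]
    calc k ^ (ε / 64) ≤ k ^ (1 : ℝ) := Real.rpow_le_rpow_of_exponent_le hk1 (by linarith)
      _ = k := Real.rpow_one k
  have hKN : 64 ≤ K := by exact_mod_cast (hk ▸ q8 : (64 : ℝ) ≤ (K : ℝ))
  -- the number `g`
  obtain ⟨g, hg⟩ : ∃ g : ℕ, g = Nat.log 2 (4 * K ^ 6) + 1 := ⟨_, rfl⟩
  have hg1 : 4 * K ^ 6 < b ^ g := by
    rw [hg]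
    exact lt_of_lt_of_le (Nat.lt_pow_succ_log_self one_lt_two _) (Nat.pow_le_pow_left hb _)
  have hgx : (g : ℝ) ≤ x := by
    have h1 : 2 ^ Nat.log 2 (4 * K ^ 6) ≤ 4 * K ^ 6 := Nat.pow_log_le_self 2 (by positivity)
    have h2 : (2 : ℝ) ^ Nat.log 2 (4 * K ^ 6) ≤ 4 * k ^ 6 := by rw [hk]; exact_mod_cast h1
    have h3 := Real.log_le_log (by positivity) h2
    rw [Real.log_pow, Real.log_mul (by norm_num) (by positivity), Real.log_pow, ← hl] at h3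
    have h4 : Real.log 4 = 2 * Real.log 2 := by
      rw [show (4 : ℝ) = 2 ^ 2 by norm_num, Real.log_pow]; push_cast; ring
    rw [h4] at h3
    have h5 := Real.log_two_gt_d9
    have h6 := Real.log_two_lt_d9
    have h7 : (g : ℝ) = (Nat.log 2 (4 * K ^ 6) : ℝ) + 1 := by rw [hg]; push_cast; ring
    rw [h7]
    have h8 : (0 : ℝ) ≤ (Nat.log 2 (4 * K ^ 6) : ℝ) := Nat.cast_nonneg _
    push_cast at h3
    nlinarith
  obtain ⟨B, hB⟩ : ∃ B : ℝ, B = 2 + 2 * Real.log ((K ^ 6 : ℕ) : ℝ) := ⟨_, rfl⟩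
  have hBl : B = 2 + 12 * l := by
    rw [hB, hl, hk]; push_cast
    rw [Real.log_pow]; push_cast; ring
  have hBx : B ≤ x := by rw [hBl]; linarith only [q1, hl1]
  have hB0 : 0 ≤ B := by rw [hBl]; linarith only [hl1]
  have hη12 : η ≤ 1 / 2 := by linarith only [q2]
  have hηk : 2 ≤ η * k := by
    have : η * k = k ^ (1 - ε / 16) := by
      rw [hη]
      nth_rewrite 2 [← Real.rpow_one k]
      rw [← Real.rpow_add hk0]; congr 1; ring
    rw [this]; exact q3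
  have hη2 : 1 / k ≤ η ^ 2 := by
    rw [hη, ← Real.rpow_natCast, ← Real.rpow_mul hk0.le, one_div, ← Real.rpow_neg_one]
    apply Real.rpow_le_rpow_of_exponent_le hk1
    push_cast; linarith
  -- the exceptional sets
  obtain ⟨d, hd⟩ : ∃ d : ℕ → ℝ, d = fun t => 1 / 2 * (1 - η) ^ t := ⟨_, rfl⟩
  obtain ⟨δ₀, hδ₀⟩ : ∃ δ₀ : ℝ, δ₀ = k ^ (-2 + ε) := ⟨_, rfl⟩
  have hδ₀0 : 0 < δ₀ := by rw [hδ₀]; positivity
  have hδ₀k : δ₀ * k ^ 2 = k ^ ε := by
    rw [hδ₀, ← Real.rpow_natCast k 2, ← Real.rpow_add hk0]; congr 1; push_cast; ring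
  obtain ⟨E, hE⟩ : ∃ E : ℕ → Finset σ, E = fun t => S.filter fun n =>
    ¬ ((Xlt b K (d t) (ν n) : ℝ) ≤ (2 + 2 * η) * d t * k ^ 2 ∧
      (2 - 3 * η) * d t * k ^ 2 ≤ (Xle b K (d t) (ν n) : ℝ)) := ⟨_, rfl⟩
  obtain ⟨T, hT⟩ : ∃ T : ℕ, T = ⌊2 * l / η⌋₊ + 1 := ⟨_, rfl⟩
  obtain ⟨I, hI⟩ : ∃ I : Finset ℕ, I = (range T).filter fun t => δ₀ ≤ (1 - η) ^ t := ⟨_, rfl⟩
  have hIT : (I.card : ℝ) ≤ x / η := by
    have h1 : I.card ≤ T := by rw [hI]; exact (card_filter_le _ _).trans (by rw [card_range])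
    have h2 : (I.card : ℝ) ≤ (⌊2 * l / η⌋₊ : ℝ) + 1 := by
      have : (I.card : ℝ) ≤ (T : ℝ) := by exact_mod_cast h1
      rw [hT] at this; push_cast at this; exact this
    have h3 : (⌊2 * l / η⌋₊ : ℝ) ≤ 2 * l / η := Nat.floor_le (by positivity)
    have h4 : 1 ≤ l / η := by rw [le_div_iff₀ hη0]; linarith only [hη12, hl1]
    have h5 : 2 * l / η = 2 * (l / η) := by ring
    have h6 : 3 * (l / η) ≤ x / η := by
      rw [← mul_div_assoc]
      exact div_le_div_of_nonneg_right (by linarith only [q1, hl1]) hη0.le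
    linarith only [h2, h3, h4, h5, h6]
  obtain ⟨s, hs⟩ : ∃ s : ℝ, s = (S.card : ℝ) := ⟨_, rfl⟩
  have hs0 : 0 ≤ s := by rw [hs]; exact Nat.cast_nonneg _
  have hEt : ∀ t ∈ I, ((E t).card : ℝ) ≤ 2 * (1536 * x ^ 3 * s / (η ^ 2 * k ^ ε) + 600 * k ^ 7 * W) := by
    intro t ht
    rw [hI, mem_filter] at ht
    have hpow0 : 0 < (1 - η) ^ t := by
      have : 0 < 1 - η := by linarith only [hη12]
      positivity
    have hdt : d t = 1 / 2 * (1 - η) ^ t := by rw [hd]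
    have hdt0 : 0 < d t := by rw [hdt]; linarith only [hpow0]
    have hdt1 : d t ≤ 1 / 2 := by
      rw [hdt]
      have : (1 - η) ^ t ≤ 1 := pow_le_one₀ (by linarith only [hη12]) (by linarith only [hη0])
      linarith only [this]
    have hdt2 : k ^ ε / 2 ≤ d t * k ^ 2 := by
      rw [← hδ₀k, hdt]
      have := mul_le_mul_of_nonneg_right ht.2 (by positivity : 0 ≤ k ^ 2)
      linarith only [this]
    have h3 : 3 ≤ η * d t * k ^ 3 := by
      have h1 : η * k ^ ε * k = k ^ (1 + 15 * ε / 16) := by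
        rw [hη]
        nth_rewrite 3 [← Real.rpow_one k]
        rw [← Real.rpow_add hk0, ← Real.rpow_add hk0]; congr 1; ring
      have h2 : η * (k ^ ε / 2) * k ≤ η * (d t * k ^ 2) * k := by gcongr
      have h4 : η * d t * k ^ 3 = η * (d t * k ^ 2) * k := by ring
      rw [h4]
      linarith only [h1, h2, q5]
    have h1 := one b K g hb (by omega) hg1 (d t) η hdt0 hdt1 hη0 (by linarith only [hη12]) (by
      rw [← hk]; exact hηk) (by rw [← hk]; exact h3) S ν W hW0 hW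
    rw [← hB, ← hk, ← hs] at h1
    have h2 := num k x g B η (d t) s W (k ^ ε) hk1 (Nat.cast_nonneg g) hB0 hgx hBx hxk hη0 hη2 hdt0
      (Real.one_le_rpow hk1 hε0.le) hdt2 hs0 hW0
    refine le_trans (le_of_eq ?_) (h1.trans (by linarith only [h2]))
    rw [hE]
  -- the smallest distance
  obtain ⟨E', hE'⟩ : ∃ E' : Finset σ, E' = S.filter fun n => ¬ Xlt b K (k ^ (-2 - ε)) (ν n) = 0 := ⟨_, rfl⟩
  have hE'c : (E'.card : ℝ) ≤ 5 * k ^ (-(3 * ε / 4)) * s + k ^ 3 * W := by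
    have h1 := small b K hb (by omega) (k ^ (-2 - ε)) (by positivity) (by linarith only [q6]) S ν W hW0 hW
    rw [← hB, ← hE', ← hk, ← hs] at h1
    refine h1.trans ?_
    have h2 : k ^ 2 * (2 * k ^ (-2 - ε)) = 2 * k ^ (-ε) := by
      rw [← Real.rpow_natCast k 2]
      have : k ^ (((2 : ℕ) : ℝ)) * (2 * k ^ (-2 - ε)) = 2 * (k ^ (((2 : ℕ) : ℝ)) * k ^ (-2 - ε)) := by ring
      rw [this, ← Real.rpow_add hk0]
      congr 2; push_cast; ring
    have h3 : k ^ 2 * (3 * (1 / k ^ 3)) = 3 * k ^ (-1 : ℝ) := by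
      rw [Real.rpow_neg_one]; field_simp
    have h4 : k ^ (-ε) ≤ k ^ (-(3 * ε / 4)) := Real.rpow_le_rpow_of_exponent_le hk1 (by linarith only [hε0])
    have h5 : k ^ (-1 : ℝ) ≤ k ^ (-(3 * ε / 4)) :=
      Real.rpow_le_rpow_of_exponent_le hk1 (by linarith only [hε0, hε1])
    have h6 : k ^ 2 * ((2 * k ^ (-2 - ε) + 3 * (1 / k ^ 3)) * s + B * W) =
        (k ^ 2 * (2 * k ^ (-2 - ε)) + k ^ 2 * (3 * (1 / k ^ 3))) * s + k ^ 2 * B * W := by ring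
    rw [h6, h2, h3]
    have h7 : (2 * k ^ (-ε) + 3 * k ^ (-1 : ℝ)) * s ≤ 5 * k ^ (-(3 * ε / 4)) * s := by
      apply mul_le_mul_of_nonneg_right _ hs0
      linarith only [h4, h5]
    have h8 : k ^ 2 * B * W ≤ k ^ 2 * k * W := by
      have := hBx.trans hxk
      gcongr
    have h9 : k ^ 2 * k * W = k ^ 3 * W := by ring
    linarith only [h7, h8, h9]
  -- the inclusion
  have hsub : (S.filter fun n => ¬ ((∀ δ : ℝ, k ^ (-2 + ε) ≤ δ → δ ≤ 1 / 2 →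
        |(Xlt b K δ (ν n) : ℝ) - 2 * δ * k ^ 2| ≤ k ^ (-(ε / 32)) * (δ * k ^ 2)) ∧
        Xlt b K (k ^ (-2 - ε)) (ν n) = 0)) ⊆ I.biUnion E ∪ E' := by
    intro n hn
    obtain ⟨hnS, hn⟩ := mem_filter.1 hn
    by_contra hcon
    rw [mem_union, mem_biUnion] at hcon
    push Not at hcon
    obtain ⟨c1, c2⟩ := hcon
    apply hn
    refine ⟨?_, ?_⟩
    · intro δ hδ1 hδ2
      rw [← hδ₀] at hδ1
      have h1 := grid b K (ν n) η δ₀ hη0 hη12 hδ₀0 (by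
        intro t ht
        have htI : t ∈ I := by
          rw [hI, mem_filter, mem_range]
          refine ⟨?_, ht⟩
          rw [hT, Nat.lt_succ_iff, Nat.le_floor_iff (by positivity), le_div_iff₀ hη0]
          have h2 : (1 - η) ^ t ≤ Real.exp (-(t * η)) := by
            have h3 : 1 - η ≤ Real.exp (-η) := by linarith [Real.add_one_le_exp (-η)]
            calc (1 - η) ^ t ≤ Real.exp (-η) ^ t := pow_le_pow_left₀ (by linarith only [hη12]) h3 t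
              _ = _ := by rw [← Real.exp_nat_mul]; congr 1; ring
          have h3 : δ₀ ≤ Real.exp (-(t * η)) := ht.trans h2
          rw [hδ₀, Real.rpow_def_of_pos hk0, ← hl, Real.exp_le_exp] at h3
          nlinarith
        have h2 := c1 t htI
        rw [hE, mem_filter, not_and, not_not] at h2
        have h3 := h2 hnS
        rw [hd] at h3
        rw [← hk]
        exact h3) δ hδ1 hδ2
      rw [← hk] at h1
      refine h1.trans ?_
      apply mul_le_mul_of_nonneg_right q4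
      have : 0 < δ := by linarith only [hδ1, hδ₀0]
      positivity
    · by_contra h
      exact c2 (by rw [hE', mem_filter]; exact ⟨hnS, h⟩)
  have hfin : ((S.filter fun n => ¬ ((∀ δ : ℝ, k ^ (-2 + ε) ≤ δ → δ ≤ 1 / 2 →
        |(Xlt b K δ (ν n) : ℝ) - 2 * δ * k ^ 2| ≤ k ^ (-(ε / 32)) * (δ * k ^ 2)) ∧
        Xlt b K (k ^ (-2 - ε)) (ν n) = 0)).card : ℝ) ≤ (∑ t ∈ I, ((E t).card : ℝ)) + E'.card := by
    have h1 := (card_le_card hsub).trans ((card_union_le _ _).trans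
      (Nat.add_le_add_right card_biUnion_le _))
    exact_mod_cast h1
  refine hfin.trans ?_
  have hsum : ∑ t ∈ I, ((E t).card : ℝ) ≤ 3072 * k ^ (-(3 * ε / 4)) * s + 1200 * k ^ 8 * W := by
    have hE0 : 0 < k ^ ε := by positivity
    calc ∑ t ∈ I, ((E t).card : ℝ) ≤
        ∑ t ∈ I, 2 * (1536 * x ^ 3 * s / (η ^ 2 * k ^ ε) + 600 * k ^ 7 * W) := sum_le_sum hEt
      _ = I.card * (2 * (1536 * x ^ 3 * s / (η ^ 2 * k ^ ε) + 600 * k ^ 7 * W)) := by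
          rw [sum_const, nsmul_eq_mul]
      _ ≤ (x / η) * (2 * (1536 * x ^ 3 * s / (η ^ 2 * k ^ ε) + 600 * k ^ 7 * W)) := by
          apply mul_le_mul_of_nonneg_right hIT
          have : 0 ≤ x := by linarith only [hx1]
          positivity
      _ = 3072 * (x ^ 4 / (η ^ 3 * k ^ ε)) * s + 1200 * (x / η) * k ^ 7 * W := by
          field_simp
          ring
      _ = 3072 * k ^ (-(3 * ε / 4)) * s + 1200 * (x / η) * k ^ 7 * W := by
          congr 3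
          rw [div_eq_iff (by positivity), hx, hη, ← Real.rpow_natCast, ← Real.rpow_natCast,
            ← Real.rpow_mul hk0.le, ← Real.rpow_mul hk0.le, ← Real.rpow_add hk0, ← Real.rpow_add hk0]
          congr 1; push_cast; ring
      _ ≤ 3072 * k ^ (-(3 * ε / 4)) * s + 1200 * k * k ^ 7 * W := by
          have h1 : x / η ≤ k := by
            have h2 : x / η = k ^ (5 * ε / 64) := by
              rw [div_eq_iff hη0.ne', hx, hη, ← Real.rpow_add hk0]; congr 1; ring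
            rw [h2]
            calc k ^ (5 * ε / 64) ≤ k ^ (1 : ℝ) := Real.rpow_le_rpow_of_exponent_le hk1 (by linarith)
              _ = k := Real.rpow_one k
          gcongr
      _ = _ := by ring
  have hW1 : 1201 * (k ^ 8 * W) ≤ k ^ 2 * (k ^ 8 * W) := by
    apply mul_le_mul_of_nonneg_right _ (by positivity)
    nlinarith only [q8]
  have hW2 : k ^ 3 * W ≤ k ^ 8 * W := by
    apply mul_le_mul_of_nonneg_right _ hW0
    exact pow_le_pow_right₀ hk1 (by norm_num)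
  have hW3 : k ^ 2 * (k ^ 8 * W) = k ^ 10 * W := by ring
  have hS1 := mul_le_mul_of_nonneg_right q7 hs0
  rw [← hs]
  have hW4 : 1200 * k ^ 8 * W = 1200 * (k ^ 8 * W) := by ring
  linarith only [hsum, hE'c, hW1, hW2, hW3, hS1, hW4]

end Pool.Agent.Helper478.Lit
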