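import Pool.Agent.Helper478_Lit.PCY

/-!
# Pair correlation for `β_n = n ^ θ g (n ^ (-s))`
-/

set_option autoImplicit false

namespace Pool.Agent.Helper478.Lit

open Finset Filter Topology
open Pool.Agent.H469R2.NK (e norm_e e_add e_zero conj_e)
open Pool.Agent.Helper478.Surds (ev_pow)
open Pool.Agent.Helper478.Short (germ coeffs_comb)

open scoped Classical in
theorem pc : ∃ γ : ℝ, 0 < γ ∧ ∀ (θ s : ℝ), 0 < s → s ≤ 1 → ∀ g : ℝ → ℝ, AnalyticAt ℝ g 0 →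
    (¬ ∃ P : Polynomial ℝ, ∀ᶠ t : ℝ in atTop, t ^ θ * g (t ^ (-s)) = P.eval t) →
    ∀ ρ : ℝ, 0 < ρ → ρ ≤ 1 → ∃ C : ℝ, ∀ ε : ℝ, 0 < ε → ε < 1 → ∃ (N₀ K₀ : ℕ), ∀ (N R b u K : ℕ),
      N₀ ≤ N → (N : ℝ) ^ ρ ≤ R → R ≤ N → 2 ≤ b → C * Real.log N ≤ u * Real.log b →
      ((u : ℝ) + K) * Real.log b ≤ (Real.log N) ^ (1 + γ) → K₀ ≤ K →
      (((Ioc 0 R).filter fun n : ℕ => ¬ ((∀ δ : ℝ, (K : ℝ) ^ (-2 + ε) ≤ δ → δ ≤ 1 / 2 →
        |(Xlt b K δ ((b : ℝ) ^ (u + 1) * (((N : ℝ) + n) ^ θ * g (((N : ℝ) + n) ^ (-s)))) : ℝ) -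
          2 * δ * K ^ 2| ≤ (K : ℝ) ^ (-(ε / 32)) * (δ * K ^ 2)) ∧
        Xlt b K ((K : ℝ) ^ (-2 - ε)) ((b : ℝ) ^ (u + 1) *
          (((N : ℝ) + n) ^ θ * g (((N : ℝ) + n) ^ (-s)))) = 0)).card : ℝ) ≤
        R * (K : ℝ) ^ (-(ε / 32)) := by
  obtain ⟨γ₁, hγ₁0, hγ₁1, hfam⟩ := fam_bd'
  obtain ⟨γ, hγ⟩ : ∃ γ : ℝ, γ = γ₁ / 4 := ⟨_, rfl⟩
  have hγ0 : 0 < γ := by rw [hγ]; positivity
  refine ⟨γ, hγ0, ?_⟩
  intro θ s hs0 hs1 g hg hpoly ρ hρ0 hρ1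
  obtain ⟨bb, A, hA, hb, ⟨m₀, hm₀, hθ, hlow⟩, hgerm⟩ := coeffs_comb (r := 1) θ s hs0 (fun _ => g)
    (fun _ => hg) (fun _ => 1) (by simpa using hpoly)
  simp only [Finset.univ_unique, Fin.default_eq_zero, Int.cast_one, one_mul, sum_singleton] at hgerm
  obtain ⟨C₀, hC₀, N₁, hN₁⟩ := hfam γ₁ hγ₁0 le_rfl ρ hρ0 hρ1 θ s hs0 hs1 bb A hA hb m₀ hm₀ hθ hlow
  obtain ⟨t₀, ht₀⟩ := eventually_atTop.1 hgerm
  obtain ⟨N₂, hN₂⟩ := exists_nat_ge t₀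
  refine ⟨C₀, ?_⟩
  intro ε hε0 hε1
  obtain ⟨K₁, hK₁⟩ := pc_abs ε hε0 hε1
  have ev1 : ∀ᶠ y : ℝ in atTop, 14 * y ^ (1 + γ) ≤ y ^ (1 + γ₁ / 2) := ev_pow _ _ _ (by linarith)
  have ev2 := ev_log 23 (1 - 9 * γ₁) (by linarith)
  have ev3 : ∀ᶠ y : ℝ in atTop, 2 * y ^ (1 + γ) ≤ y ^ (2 : ℝ) := ev_pow _ _ _ (by linarith)
  have hlog : Tendsto (fun N : ℕ => Real.log N) atTop atTop :=
    Real.tendsto_log_atTop.comp tendsto_natCast_atTop_atTop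
  have hev := hlog.eventually ((ev1.and ev2).and (ev3.and (eventually_ge_atTop 2)))
  obtain ⟨N₀, hN₀⟩ := eventually_atTop.1 (hev.and (eventually_ge_atTop (max (max N₁ N₂) 2)))
  refine ⟨N₀, max K₁ 1, ?_⟩
  intro N R b u K hN hRN hRN' hb2 hu hK hK₀
  obtain ⟨⟨⟨q1, q2⟩, q3, q4⟩, q5⟩ := hN₀ N hN
  obtain ⟨y, hy⟩ : ∃ y : ℝ, y = Real.log N := ⟨_, rfl⟩
  simp only [← hy] at q1 q2 q3 q4 hu hK
  have hNN₁ : N₁ ≤ N := ((le_max_left _ _).trans (le_max_left _ _)).trans q5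
  have hNN₂ : N₂ ≤ N := ((le_max_right _ _).trans (le_max_left _ _)).trans q5
  have hN2 : 2 ≤ N := (le_max_right _ _).trans q5
  have hN0 : (0 : ℝ) < N := by exact_mod_cast (by omega : 0 < N)
  have hKK₁ : K₁ ≤ K := (le_max_left _ _).trans hK₀
  have hK1 : 1 ≤ K := (le_max_right _ _).trans hK₀
  have hy0 : 0 < y := by linarith only [q4]
  have hy1 : 1 ≤ y := by linarith only [q4]
  have hR0 : (0 : ℝ) ≤ R := Nat.cast_nonneg R
  have hb0 : (0 : ℝ) < b := by exact_mod_cast (by omega : 0 < b)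
  have hb2' : (2 : ℝ) ≤ b := by exact_mod_cast hb2
  have hlogb : 1 / 2 ≤ Real.log b := by
    have h1 := Real.log_le_log (by norm_num) hb2'
    linarith [Real.log_two_gt_d9]
  have hKr : (1 : ℝ) ≤ K := by exact_mod_cast hK1
  have hK0 : (0 : ℝ) < K := by linarith
  have hu0 : (0 : ℝ) ≤ u := Nat.cast_nonneg u
  have hKy : (K : ℝ) ≤ 2 * y ^ (1 + γ) := by
    have h1 : (K : ℝ) * (1 / 2) ≤ (u + K) * Real.log b := by gcongr; linarith
    linarith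
  have hKy2 : (K : ℝ) ≤ y ^ 2 := by
    rw [← Real.rpow_two]; linarith
  -- the points
  obtain ⟨β, hβ⟩ : ∃ β : ℕ → ℝ, β = fun n : ℕ => ((N : ℝ) + n) ^ θ * g (((N : ℝ) + n) ^ (-s)) := ⟨_, rfl⟩
  have hβg : ∀ n : ℕ, β n = germ θ s bb ((N : ℝ) + n) := by
    intro n
    rw [hβ]
    apply ht₀
    have h2 : (N₂ : ℝ) ≤ N := by exact_mod_cast hNN₂
    have h3 : (0 : ℝ) ≤ n := Nat.cast_nonneg n
    linarith
  obtain ⟨W, hW⟩ : ∃ W : ℝ, W = R * Real.exp (-(2 * y ^ (1 - 9 * γ₁))) := ⟨_, rfl⟩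
  have hW0 : 0 ≤ W := by rw [hW]; positivity
  have hexp : ∀ F : ℝ, Real.exp (y * C₀) ≤ |F| → |F| ≤ 2 * Real.exp (y ^ (1 + γ₁ / 2)) →
      ‖∑ n ∈ Ioc 0 R, e (F * β n)‖ ≤ W := by
    intro F hF1 hF2
    have h1 := hN₁ N R F hNN₁ hRN hRN' (by
      rw [Real.rpow_def_of_pos hN0, ← hy]; exact hF1) (by rw [← hy]; exact hF2)
    rw [← hy] at h1
    rw [hW]
    refine le_trans (le_of_eq ?_) h1
    have h2 : ∑ n ∈ Ioc 0 R, e (F * β n) = ∑ n ∈ Ioc 0 R, e (F * germ θ s bb ((N : ℝ) + n)) :=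
      sum_congr rfl fun n _ => by rw [hβg]
    rw [h2]
  have hmain := hK₁ b K hKK₁ hb2 (Ioc 0 R) (fun n => (b : ℝ) ^ (u + 1) * β n) W hW0 (by
    intro Z hZ0 hZ
    have h1 : ∑ n ∈ Ioc 0 R, e ((Z : ℝ) * ((b : ℝ) ^ (u + 1) * β n)) =
        ∑ n ∈ Ioc 0 R, e (((Z : ℝ) * (b : ℝ) ^ (u + 1)) * β n) :=
      sum_congr rfl fun n _ => by congr 1; ring
    rw [h1]
    have hZ1 : (1 : ℝ) ≤ |(Z : ℝ)| := by
      have : 1 ≤ |Z| := Int.one_le_abs hZ0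
      exact_mod_cast this
    have hZ2 : |(Z : ℝ)| ≤ 2 * (K : ℝ) ^ 6 * (b : ℝ) ^ K := by exact_mod_cast hZ
    have hbp : |(b : ℝ) ^ (u + 1)| = (b : ℝ) ^ (u + 1) := abs_of_pos (by positivity)
    apply hexp
    · rw [abs_mul, hbp]
      have h2 : Real.exp (y * C₀) ≤ (b : ℝ) ^ u := by
        rw [← Real.exp_log hb0, ← Real.exp_nat_mul]
        apply Real.exp_le_exp.2
        linarith only [hu]
      have h3 : (b : ℝ) ^ u ≤ (b : ℝ) ^ (u + 1) := pow_le_pow_right₀ (by linarith) (by omega)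
      have h4 : (b : ℝ) ^ (u + 1) ≤ |(Z : ℝ)| * (b : ℝ) ^ (u + 1) := by
        have : 0 < (b : ℝ) ^ (u + 1) := by positivity
        nlinarith
      linarith only [h2, h3, h4]
    · rw [abs_mul, hbp]
      calc |(Z : ℝ)| * (b : ℝ) ^ (u + 1) ≤ 2 * (K : ℝ) ^ 6 * (b : ℝ) ^ K * (b : ℝ) ^ (u + 1) := by gcongr
        _ = 2 * Real.exp (6 * Real.log K + (K + (u + 1)) * Real.log b) := by
            rw [Real.exp_add, mul_comm (6 : ℝ), mul_comm ((K : ℝ) + (u + 1))]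
            rw [show Real.log K * 6 = ((6 : ℕ) : ℝ) * Real.log K by push_cast; ring,
              show Real.log b * ((K : ℝ) + (u + 1)) = ((K + (u + 1) : ℕ) : ℝ) * Real.log b by push_cast; ring]
            rw [Real.exp_nat_mul, Real.exp_nat_mul, Real.exp_log hK0, Real.exp_log hb0, pow_add]
            ring
        _ ≤ 2 * Real.exp (y ^ (1 + γ₁ / 2)) := by
            apply mul_le_mul_of_nonneg_left _ (by norm_num)
            apply Real.exp_le_exp.2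
            have h2 : Real.log K ≤ K := (Real.log_le_sub_one_of_pos hK0).trans (by linarith)
            have h3 : ((K : ℝ) + (u + 1)) * Real.log b ≤ 2 * ((u + K) * Real.log b) := by
              have h8 : 0 ≤ Real.log b := by linarith
              have h9 : (K : ℝ) + (u + 1) ≤ 2 * (u + K) := by linarith
              have := mul_le_mul_of_nonneg_right h9 h8
              linarith
            linarith only [h2, h3, hKy, hK, q1])
  rw [Nat.card_Ioc, Nat.sub_zero] at hmain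
  simp only [hβ] at hmain
  refine hmain.trans ?_
  obtain ⟨k, hk⟩ : ∃ k : ℝ, k = (K : ℝ) := ⟨_, rfl⟩
  rw [← hk] at hKr hK0 hKy2 ⊢
  have h1 : k ^ 10 * W ≤ 1 / 2 * (R * k ^ (-(ε / 32))) := by
    rw [hW]
    have h2 : k ^ 10 = k ^ (10 + ε / 32) * k ^ (-(ε / 32)) := by
      rw [← Real.rpow_add hK0, show 10 + ε / 32 + -(ε / 32) = ((10 : ℕ) : ℝ) by push_cast; ring,
        Real.rpow_natCast]
    have h3 : k ^ (10 + ε / 32) ≤ y ^ 22 := by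
      calc k ^ (10 + ε / 32) ≤ k ^ ((11 : ℕ) : ℝ) := by
            apply Real.rpow_le_rpow_of_exponent_le hKr
            push_cast; linarith
        _ = k ^ 11 := Real.rpow_natCast k 11
        _ ≤ (y ^ 2) ^ 11 := pow_le_pow_left₀ hK0.le hKy2 11
        _ = y ^ 22 := by ring
    have h4 : 2 * y ^ 22 ≤ Real.exp (y ^ (1 - 9 * γ₁)) := by
      calc 2 * y ^ 22 ≤ y * y ^ 22 := by gcongr
        _ = Real.exp (23 * Real.log y) := by
            rw [show (23 : ℝ) = ((23 : ℕ) : ℝ) by norm_num, Real.exp_nat_mul, Real.exp_log hy0]; ring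
        _ ≤ _ := Real.exp_le_exp.2 q2
    have h5 : Real.exp (y ^ (1 - 9 * γ₁)) * Real.exp (-(2 * y ^ (1 - 9 * γ₁))) ≤ 1 := by
      rw [← Real.exp_add, Real.exp_le_one_iff]
      have : 0 ≤ y ^ (1 - 9 * γ₁) := by positivity
      linarith only [this]
    have h6 : 2 * k ^ (10 + ε / 32) * Real.exp (-(2 * y ^ (1 - 9 * γ₁))) ≤ 1 := by
      refine le_trans ?_ h5
      apply mul_le_mul_of_nonneg_right _ (Real.exp_pos _).le
      linarith only [h3, h4]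
    rw [h2]
    have h7 : 0 ≤ R * k ^ (-(ε / 32)) := by positivity
    have h8 := mul_le_mul_of_nonneg_left h6 h7
    linarith only [h8]
  linarith only [h1]

end Pool.Agent.Helper478.Lit
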