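import Pool.Agent.Helper478_Lit.B
import Pool.Agent.Helper478_Bases.Weyl

/-!
# A minorant of an arc with small Fourier coefficients
-/

set_option autoImplicit false

namespace Pool.Agent.Helper478.Lit.Sq

open Finset Filter
open scoped Pointwise
open Pool.Agent.H469R2.NK (e norm_e e_add e_zero conj_e)
open Pool.Agent.Helper478.Bases (norm_e_sub_one_ge)
open Pool.Agent.Helper478.Lit (dist1)

noncomputable def D (H : ℕ) (x : ℝ) : ℂ := ∑ h ∈ range H, e (h * x)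

lemma D_sq (H : ℕ) (x : ℝ) : ((‖D H x‖ ^ 2 : ℝ) : ℂ) =
    ∑ o ∈ range H ×ˢ range H, e ((((o.1 : ℤ) - o.2 : ℤ) : ℝ) * x) := by
  have h1 : ((‖D H x‖ ^ 2 : ℝ) : ℂ) = D H x * (starRingEnd ℂ) (D H x) := by
    rw [Complex.mul_conj, Complex.normSq_eq_norm_sq]
  rw [h1]
  unfold D
  rw [map_sum, sum_mul_sum, sum_product]
  refine sum_congr rfl fun a _ => sum_congr rfl fun b _ => ?_
  rw [conj_e, ← e_add]
  congr 1
  push_cast
  ring

lemma D_four (H : ℕ) (x : ℝ) : ((‖D H x‖ ^ 4 : ℝ) : ℂ) =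
    ∑ o ∈ (range H ×ˢ range H) ×ˢ (range H ×ˢ range H),
      e ((((o.1.1 : ℤ) - o.1.2 + o.2.1 - o.2.2 : ℤ) : ℝ) * x) := by
  have h1 : ((‖D H x‖ ^ 4 : ℝ) : ℂ) = ((‖D H x‖ ^ 2 : ℝ) : ℂ) * ((‖D H x‖ ^ 2 : ℝ) : ℂ) := by
    rw [← Complex.ofReal_mul]
    congr 1
    ring
  rw [h1, D_sq, sum_mul_sum]
  refine Eq.trans ?_ (sum_product _ _ _).symm
  refine sum_congr rfl fun a _ => sum_congr rfl fun b _ => ?_
  rw [← e_add]
  congr 1
  push_cast
  ring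

lemma D_tel (H : ℕ) (x : ℝ) : (e x - 1) * D H x = e (H * x) - 1 := by
  induction H with
  | zero => simp [D, e_zero]
  | succ H ih =>
    unfold D at ih ⊢
    rw [sum_range_succ, mul_add, ih]
    have h1 : e (((H + 1 : ℕ) : ℝ) * x) = e x * e (H * x) := by
      rw [← e_add]; congr 1; push_cast; ring
    rw [h1]
    ring

lemma D_H (H : ℕ) (x : ℝ) : ((‖e (H * x) - 1‖ ^ 2 : ℝ) : ℂ) = 2 - e (H * x) - e (-(H * x)) := by
  have h1 : ((‖e (H * x) - 1‖ ^ 2 : ℝ) : ℂ) = (e (H * x) - 1) * (starRingEnd ℂ) (e (H * x) - 1) := by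
    rw [Complex.mul_conj, Complex.normSq_eq_norm_sq]
  rw [h1, map_sub, map_one, conj_e]
  have h2 : e (H * x) * e (-(H * x)) = 1 := by rw [← e_add]; simp [e_zero]
  linear_combination h2

lemma fib {ι : Type} (O : Finset ι) (Z : ι → ℤ) (B : ℕ) (hZ : ∀ o ∈ O, |Z o| ≤ B) (x : ℝ) :
    ∑ o ∈ O, e ((Z o : ℝ) * x) = ∑ h ∈ Icc (-(B : ℤ)) B,
      (((O.filter fun o => Z o = h).card : ℝ) : ℂ) * e ((h : ℝ) * x) := by
  classical
  rw [← sum_fiberwise_of_maps_to (s := O) (t := Icc (-(B : ℤ)) B) (g := Z)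
    (fun o ho => by rw [mem_Icc]; exact abs_le.1 (hZ o ho))]
  refine sum_congr rfl fun h _ => ?_
  rw [Complex.ofReal_natCast, ← nsmul_eq_mul, ← sum_const]
  refine sum_congr rfl fun o ho => ?_
  rw [(mem_filter.1 ho).2]

/-- **the minorant** -/
theorem kern (H : ℕ) (hH : 1 ≤ H) : ∃ a : ℤ → ℝ, (∀ h, |a h| ≤ (5 : ℝ) / (H : ℝ)) ∧ (1 : ℝ) / (H : ℝ) ≤ a 0 ∧
    ∃ f : ℝ → ℝ, (∀ x, (f x : ℂ) = ∑ h ∈ Icc (-((2 * H : ℕ) : ℤ)) ((2 * H : ℕ) : ℤ), (a h : ℂ) * e ((h : ℝ) * x)) ∧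
      ∀ x, 3 / (H : ℝ) ≤ dist1 x → f x ≤ 0 := by
  classical
  have hH0 : (0 : ℝ) < H := by exact_mod_cast hH
  let O4 := (range H ×ˢ range H) ×ˢ (range H ×ˢ range H)
  let O2 := range H ×ˢ range H
  let c4 : ℤ → ℕ := fun h => (O4.filter fun o => (o.1.1 : ℤ) - o.1.2 + o.2.1 - o.2.2 = h).card
  let c2 : ℤ → ℕ := fun h => (O2.filter fun o => (o.1 : ℤ) - o.2 = h).card
  let cp : ℤ → ℕ := fun h => (O2.filter fun o => (o.1 : ℤ) - o.2 + H = h).card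
  let cm : ℤ → ℕ := fun h => (O2.filter fun o => (o.1 : ℤ) - o.2 - H = h).card
  -- bounds for the counts
  have b4 : ∀ h, c4 h ≤ H ^ 3 := by
    intro h
    have h1 : (O4.filter fun o => (o.1.1 : ℤ) - o.1.2 + o.2.1 - o.2.2 = h).card ≤
        ((range H ×ˢ range H) ×ˢ range H).card := by
      refine card_le_card_of_injOn (fun o => (o.1, o.2.1)) ?_ ?_
      · intro o ho
        simp only [coe_filter, O4, mem_product, mem_range, Set.mem_ofPred_eq, coe_product, coe_range,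
          Set.mem_prod, Set.mem_Iio] at ho ⊢
        tauto
      · intro o ho o' ho' heq
        simp only [coe_filter, O4, mem_product, mem_range, Set.mem_ofPred_eq, Prod.mk.injEq] at ho ho' heq
        obtain ⟨⟨a1, a2⟩, a3, a4⟩ := o
        obtain ⟨⟨b1, b2⟩, b3, b4⟩ := o'
        simp only [Prod.mk.injEq] at ho ho' heq ⊢
        omega
    refine h1.trans (le_of_eq ?_)
    simp only [card_product, card_range]
    ring
  have b2 : ∀ (s : ℤ) (h : ℤ), (O2.filter fun o => (o.1 : ℤ) - o.2 + s = h).card ≤ H := by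
    intro s h
    have h1 : (O2.filter fun o => (o.1 : ℤ) - o.2 + s = h).card ≤ (range H).card := by
      refine card_le_card_of_injOn (fun o => o.1) ?_ ?_
      · intro o ho
        simp only [coe_filter, O2, mem_product, mem_range, Set.mem_ofPred_eq, coe_range, Set.mem_Iio] at ho ⊢
        exact ho.1.1
      · intro o ho o' ho' heq
        simp only [coe_filter, O2, mem_product, mem_range, Set.mem_ofPred_eq] at ho ho' heq
        ext
        · exact heq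
        · omega
    simpa using h1
  have b2' : ∀ h, c2 h ≤ H := fun h => by simpa [c2] using b2 0 h
  have bp : ∀ h, cp h ≤ H := fun h => b2 H h
  have bm : ∀ h, cm h ≤ H := fun h => by
    have := b2 (-(H : ℤ)) h
    simpa [cm, sub_eq_add_neg] using this
  -- the energy
  have e0 : (H : ℝ) ^ 3 / 2 ≤ c4 0 := by
    have h1 := Finset.le_card_add_mul_addEnergy (range H) (range H)
    have h2 : (range H + range H).card ≤ 2 * H := by
      have h3 : range H + range H ⊆ range (2 * H) := by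
        intro m hm
        obtain ⟨a, ha, b, hb, rfl⟩ := Finset.mem_add.1 hm
        rw [mem_range] at ha hb ⊢
        omega
      exact (card_le_card h3).trans (by rw [card_range])
    have h3 : Finset.addEnergy (range H) (range H) = c4 0 := by
      simp only [Finset.addEnergy, c4, O4]
      congr 1
      refine filter_congr fun o _ => ?_
      constructor
      · intro h; omega
      · intro h; omega
    rw [card_range, h3] at h1
    have h4 : H ^ 2 * H ^ 2 ≤ 2 * H * c4 0 := h1.trans (Nat.mul_le_mul_right _ h2)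
    have h5 : (H : ℝ) ^ 2 * H ^ 2 ≤ 2 * H * c4 0 := by exact_mod_cast h4
    have h6 : (H : ℝ) * H ^ 3 ≤ H * (2 * c4 0) := by nlinarith
    have h7 := le_of_mul_le_mul_left h6 hH0
    linarith
  have e2 : (c2 0 : ℝ) ≤ H := by exact_mod_cast b2' 0
  let ξ : ℝ := 4 / H ^ 2
  let a : ℤ → ℝ := fun h => ξ / (H : ℝ) ^ 2 * (c4 h : ℝ) - 1 / (2 * (H : ℝ) ^ 2) * (2 * (c2 h : ℝ) - (cp h : ℝ) - (cm h : ℝ))
  refine ⟨a, ?_, ?_, fun x => ξ / H ^ 2 * ‖D H x‖ ^ 4 - 1 / (2 * H ^ 2) * (‖D H x‖ ^ 2 * ‖e (H * x) - 1‖ ^ 2),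
    ?_, ?_⟩
  · intro h
    have h1 : (c4 h : ℝ) ≤ H ^ 3 := by exact_mod_cast b4 h
    have h2 : (c2 h : ℝ) ≤ H := by exact_mod_cast b2' h
    have h3 : (cp h : ℝ) ≤ H := by exact_mod_cast bp h
    have h4 : (cm h : ℝ) ≤ H := by exact_mod_cast bm h
    have h5 : |ξ / (H : ℝ) ^ 2 * (c4 h : ℝ)| ≤ (4 : ℝ) / (H : ℝ) := by
      rw [abs_of_nonneg (by positivity)]
      calc ξ / (H : ℝ) ^ 2 * (c4 h : ℝ) ≤ ξ / (H : ℝ) ^ 2 * (H : ℝ) ^ 3 := by gcongr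
        _ = (4 : ℝ) / (H : ℝ) := by simp only [ξ]; field_simp
    have h6 : |1 / (2 * (H : ℝ) ^ 2) * (2 * (c2 h : ℝ) - (cp h : ℝ) - (cm h : ℝ))| ≤ (1 : ℝ) / (H : ℝ) := by
      rw [abs_mul, abs_of_nonneg (by positivity)]
      have h7 : |2 * (c2 h : ℝ) - (cp h : ℝ) - (cm h : ℝ)| ≤ 2 * (H : ℝ) := by
        have p1 : (0 : ℝ) ≤ c2 h := Nat.cast_nonneg _
        have p2 : (0 : ℝ) ≤ cp h := Nat.cast_nonneg _
        have p3 : (0 : ℝ) ≤ cm h := Nat.cast_nonneg _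
        rw [abs_le]; constructor <;> linarith
      calc 1 / (2 * (H : ℝ) ^ 2) * |2 * (c2 h : ℝ) - (cp h : ℝ) - (cm h : ℝ)| ≤ 1 / (2 * (H : ℝ) ^ 2) * (2 * (H : ℝ)) := by gcongr
        _ = (1 : ℝ) / (H : ℝ) := by field_simp
    calc |a h| ≤ |ξ / (H : ℝ) ^ 2 * (c4 h : ℝ)| + |1 / (2 * (H : ℝ) ^ 2) * (2 * (c2 h : ℝ) - (cp h : ℝ) - (cm h : ℝ))| := abs_sub _ _
      _ ≤ (4 : ℝ) / (H : ℝ) + (1 : ℝ) / (H : ℝ) := add_le_add h5 h6
      _ = (5 : ℝ) / (H : ℝ) := by ring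
  · have h5 : 2 / (H : ℝ) ≤ ξ / (H : ℝ) ^ 2 * (c4 0 : ℝ) := by
      calc 2 / (H : ℝ) = ξ / H ^ 2 * (H ^ 3 / 2) := by simp only [ξ]; field_simp; norm_num
        _ ≤ _ := by gcongr
    have h6 : 1 / (2 * (H : ℝ) ^ 2) * (2 * (c2 0 : ℝ) - (cp 0 : ℝ) - (cm 0 : ℝ)) ≤ (1 : ℝ) / (H : ℝ) := by
      have p2 : (0 : ℝ) ≤ cp 0 := Nat.cast_nonneg _
      have p3 : (0 : ℝ) ≤ cm 0 := Nat.cast_nonneg _
      calc 1 / (2 * (H : ℝ) ^ 2) * (2 * (c2 0 : ℝ) - (cp 0 : ℝ) - (cm 0 : ℝ)) ≤ 1 / (2 * (H : ℝ) ^ 2) * (2 * (H : ℝ)) := by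
            gcongr; linarith
        _ = (1 : ℝ) / (H : ℝ) := by field_simp
    have h7 : a 0 = ξ / (H : ℝ) ^ 2 * (c4 0 : ℝ) - 1 / (2 * (H : ℝ) ^ 2) * (2 * (c2 0 : ℝ) - (cp 0 : ℝ) - (cm 0 : ℝ)) := rfl
    rw [h7]
    have h8 : 2 / (H : ℝ) - 1 / H = 1 / H := by ring
    linarith
  · intro x
    push_cast
    have h4 := D_four H x
    have h2 := D_sq H x
    have hH2 := D_H H x
    rw [Complex.ofReal_pow] at h4 h2 hH2
    rw [h4, h2, hH2]
    have f4 := fib O4 (fun o => (o.1.1 : ℤ) - o.1.2 + o.2.1 - o.2.2) (2 * H) (by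
      intro o ho
      simp only [O4, mem_product, mem_range] at ho
      rw [abs_le]; push_cast; constructor <;> omega) x
    have f2 := fib O2 (fun o => (o.1 : ℤ) - o.2) (2 * H) (by
      intro o ho
      simp only [O2, mem_product, mem_range] at ho
      rw [abs_le]; push_cast; constructor <;> omega) x
    have fp := fib O2 (fun o => (o.1 : ℤ) - o.2 + H) (2 * H) (by
      intro o ho
      simp only [O2, mem_product, mem_range] at ho
      rw [abs_le]; push_cast; constructor <;> omega) x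
    have fm := fib O2 (fun o => (o.1 : ℤ) - o.2 - H) (2 * H) (by
      intro o ho
      simp only [O2, mem_product, mem_range] at ho
      rw [abs_le]; push_cast; constructor <;> omega) x
    have gp : ∑ o ∈ O2, e ((((o.1 : ℤ) - o.2 + H : ℤ) : ℝ) * x) =
        (∑ o ∈ O2, e ((((o.1 : ℤ) - o.2 : ℤ) : ℝ) * x)) * e (H * x) := by
      rw [sum_mul]
      refine sum_congr rfl fun o _ => ?_
      rw [← e_add]; congr 1; push_cast; ring
    have gm : ∑ o ∈ O2, e ((((o.1 : ℤ) - o.2 - H : ℤ) : ℝ) * x) =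
        (∑ o ∈ O2, e ((((o.1 : ℤ) - o.2 : ℤ) : ℝ) * x)) * e (-(H * x)) := by
      rw [sum_mul]
      refine sum_congr rfl fun o _ => ?_
      rw [← e_add]; congr 1; push_cast; ring
    have s4 : ∑ o ∈ (range H ×ˢ range H) ×ˢ (range H ×ˢ range H),
      e ((((o.1.1 : ℤ) - o.1.2 + o.2.1 - o.2.2 : ℤ) : ℝ) * x) = ∑ h ∈ Icc (-((2 * H : ℕ) : ℤ)) ((2 * H : ℕ) : ℤ),
      ((c4 h : ℝ) : ℂ) * e ((h : ℝ) * x) := f4
    have s2 : (∑ o ∈ range H ×ˢ range H, e ((((o.1 : ℤ) - o.2 : ℤ) : ℝ) * x)) * (2 - e (H * x) - e (-(H * x))) =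
        ∑ h ∈ Icc (-((2 * H : ℕ) : ℤ)) ((2 * H : ℕ) : ℤ), (2 * ((c2 h : ℝ) : ℂ) - ((cp h : ℝ) : ℂ) -
          ((cm h : ℝ) : ℂ)) * e ((h : ℝ) * x) := by
      have t1 : (∑ o ∈ range H ×ˢ range H, e ((((o.1 : ℤ) - o.2 : ℤ) : ℝ) * x)) * (2 - e (H * x) - e (-(H * x))) =
          2 * (∑ o ∈ O2, e ((((o.1 : ℤ) - o.2 : ℤ) : ℝ) * x)) -
          (∑ o ∈ O2, e ((((o.1 : ℤ) - o.2 : ℤ) : ℝ) * x)) * e (H * x) -
          (∑ o ∈ O2, e ((((o.1 : ℤ) - o.2 : ℤ) : ℝ) * x)) * e (-(H * x)) := by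
        simp only [O2]
        ring
      rw [t1, ← gp, ← gm, f2, fp, fm, mul_sum, ← sum_sub_distrib, ← sum_sub_distrib]
      refine sum_congr rfl fun h _ => ?_
      simp only [c2, cp, cm]
      ring
    rw [s4, s2, mul_sum, mul_sum, ← sum_sub_distrib]
    refine sum_congr rfl fun h _ => ?_
    simp only [a]
    push_cast
    ring
  · intro x hx
    have h1 : ‖e (H * x) - 1‖ ^ 2 = ‖e x - 1‖ ^ 2 * ‖D H x‖ ^ 2 := by
      rw [← D_tel, norm_mul, mul_pow]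
    have h2 : 3 / (H : ℝ) ≤ ‖e x - 1‖ := by
      apply norm_e_sub_one_ge
      intro P
      refine hx.trans ?_
      exact round_le x P
    have h3 : 8 / (H : ℝ) ^ 2 ≤ ‖e x - 1‖ ^ 2 := by
      have h4 : (3 / (H : ℝ)) ^ 2 ≤ ‖e x - 1‖ ^ 2 := pow_le_pow_left₀ (by positivity) h2 2
      rw [div_pow] at h4
      refine le_trans ?_ h4
      gcongr
      norm_num
    have h4 : 0 ≤ ‖D H x‖ ^ 4 / H ^ 2 := by positivity
    have h5 : ξ / H ^ 2 * ‖D H x‖ ^ 4 - 1 / (2 * H ^ 2) * (‖D H x‖ ^ 2 * ‖e (H * x) - 1‖ ^ 2) =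
        (‖D H x‖ ^ 4 / H ^ 2) * (ξ - ‖e x - 1‖ ^ 2 / 2) := by
      rw [h1]
      field_simp
    simp only
    rw [h5]
    apply mul_nonpos_of_nonneg_of_nonpos h4
    simp only [ξ]
    have h6 : 8 / (H : ℝ) ^ 2 = 2 * (4 / H ^ 2) := by ring
    linarith

end Pool.Agent.Helper478.Lit.Sq
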