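import Pool.Agent.Helper478_Lit.QB

/-!
# Primitive lattice points and a badly approximable number
-/

set_option autoImplicit false

namespace Pool.Agent.Helper478.Lit.Sq

open Finset Filter
open Pool.Agent.Helper478.Lit (dist1 dist1_nonneg dist1_half)

/-- a basis of the lattice of the pairs `(q, P)` adapted to the scale `X` -/
lemma basis (α c : ℝ) (hc : 0 < c) (hbad : ∀ q : ℕ, 1 ≤ q → c ≤ q * dist1 (q * α)) (X : ℕ) (hX : 1 ≤ X) :
    ∃ a b p r : ℤ, a * r - b * p = 1 ∧ 0 < a ∧ a ≤ X ∧ (X : ℤ) < b ∧ b ≤ 2 * X ∧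
      |(a : ℝ) * α - p| ≤ 1 / X ∧ |(b : ℝ) * α - r| ≤ 3 / (c * X) := by
  have hX0 : (0 : ℝ) < X := by exact_mod_cast hX
  obtain ⟨k, hk0, hkX, hk⟩ := Real.exists_nat_abs_mul_sub_round_le α (n := X) (by omega)
  obtain ⟨g, hg⟩ : ∃ g : ℕ, g = Int.gcd (k : ℤ) (round ((k : ℝ) * α)) := ⟨_, rfl⟩
  have hg0 : 0 < g := by rw [hg]; exact Int.gcd_pos_of_ne_zero_left _ (by omega)
  have hgd1 : (g : ℤ) ∣ (k : ℤ) := by rw [hg]; exact Int.gcd_dvd_left _ _
  have hgd2 : (g : ℤ) ∣ round ((k : ℝ) * α) := by rw [hg]; exact Int.gcd_dvd_right _ _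
  obtain ⟨a, ha⟩ := hgd1
  obtain ⟨p, hp⟩ := hgd2
  have hgZ : (0 : ℤ) < g := by exact_mod_cast hg0
  have hgR : (1 : ℝ) ≤ g := by exact_mod_cast hg0
  have hcop : IsCoprime a p := by
    rw [Int.isCoprime_iff_gcd_eq_one]
    have h1 : Int.gcd ((g : ℤ) * a) ((g : ℤ) * p) = g * Int.gcd a p := by
      rw [Int.gcd_mul_left]; simp
    rw [← ha, ← hp, ← hg] at h1
    have h2 : g * 1 = g * Int.gcd a p := by rw [mul_one]; exact h1
    exact (Nat.eq_of_mul_eq_mul_left hg0 h2).symm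
  have ha0 : 0 < a := by
    by_contra hcon
    push Not at hcon
    have h1 : (g : ℤ) * a ≤ 0 := mul_nonpos_of_nonneg_of_nonpos hgZ.le hcon
    rw [← ha] at h1
    omega
  have haX : a ≤ X := by
    have h1 : a ≤ g * a := by nlinarith
    rw [← ha] at h1
    omega
  have haR : (0 : ℝ) < a := by exact_mod_cast ha0
  have hap : |(a : ℝ) * α - p| ≤ 1 / X := by
    have h1 : (k : ℝ) = g * a := by exact_mod_cast ha
    have h2 : ((round ((k : ℝ) * α) : ℤ) : ℝ) = g * p := by rw [hp]; push_cast; ring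
    rw [h2, h1] at hk
    rw [show (g : ℝ) * a * α - g * p = g * (a * α - p) by ring, abs_mul, Nat.abs_cast] at hk
    have h3 : |(a : ℝ) * α - p| ≤ g * |(a : ℝ) * α - p| := le_mul_of_one_le_left (abs_nonneg _) hgR
    refine h3.trans (hk.trans ?_)
    apply one_div_le_one_div_of_le hX0
    push_cast; linarith
  -- the lower bound for `a`
  have hac : c * X ≤ a := by
    have h1 := hbad a.toNat (by omega)
    have h2 : ((a.toNat : ℕ) : ℝ) = a := by
      have : ((a.toNat : ℕ) : ℤ) = a := Int.toNat_of_nonneg ha0.le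
      exact_mod_cast congrArg (fun z : ℤ => (z : ℝ)) this
    rw [h2] at h1
    have h3 : dist1 ((a : ℝ) * α) ≤ 1 / X := (round_le _ p).trans hap
    have h4 : c ≤ a * (1 / X) := h1.trans (mul_le_mul_of_nonneg_left h3 haR.le)
    rw [mul_one_div, le_div_iff₀ hX0] at h4
    exact h4
  -- the second vector
  obtain ⟨r', b', hrb⟩ := hcop
  obtain ⟨b, hb⟩ : ∃ b : ℤ, b = X + 1 + (-b' - X - 1) % a := ⟨_, rfl⟩
  have hm1 := Int.emod_nonneg (-b' - X - 1) ha0.ne'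
  have hm2 := Int.emod_lt_of_pos (-b' - X - 1) ha0
  have hdvd : a ∣ b + b' := by
    have h1 := Int.emod_add_mul_ediv (-b' - X - 1) a
    refine ⟨-((-b' - X - 1) / a), ?_⟩
    rw [hb]
    linarith
  obtain ⟨m, hm⟩ := hdvd
  refine ⟨a, b, p, r' + p * m, ?_, ha0, haX, by omega, by omega, hap, ?_⟩
  · have h1 : b = a * m - b' := by linarith
    rw [h1]
    linear_combination hrb
  · obtain ⟨r, hr⟩ : ∃ r : ℤ, r = r' + p * m := ⟨_, rfl⟩
    have hdet : a * r - b * p = 1 := by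
      have h1 : b = a * m - b' := by linarith
      rw [h1, hr]
      linear_combination hrb
    have hdetR : (a : ℝ) * r - b * p = 1 := by exact_mod_cast hdet
    rw [← hr]
    have hb0 : 0 < b := by omega
    have hbR : (0 : ℝ) < b := by exact_mod_cast hb0
    have hb2 : (b : ℝ) ≤ 2 * X := by
      have : b ≤ 2 * X := by omega
      exact_mod_cast this
    have h2 : (a : ℝ) * (b * α - r) = b * (a * α - p) - 1 := by linear_combination -hdetR
    have h3 : (a : ℝ) * |(b : ℝ) * α - r| ≤ 3 := by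
      rw [show (a : ℝ) * |(b : ℝ) * α - r| = |(a : ℝ) * (b * α - r)| by rw [abs_mul, abs_of_pos haR], h2]
      have h4 : |(b : ℝ) * (a * α - p)| ≤ 2 := by
        rw [abs_mul, abs_of_pos hbR]
        calc (b : ℝ) * |(a : ℝ) * α - p| ≤ (2 * X) * (1 / X) := mul_le_mul hb2 hap (abs_nonneg _) (by positivity)
          _ = 2 := by field_simp
      rw [abs_le] at h4 ⊢
      constructor <;> linarith
    rw [le_div_iff₀ (by positivity)]
    calc |(b : ℝ) * α - r| * (c * X) ≤ |(b : ℝ) * α - r| * a := mul_le_mul_of_nonneg_left hac (abs_nonneg _)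
      _ = a * |(b : ℝ) * α - r| := mul_comm _ _
      _ ≤ 3 := h3

/-- the coprime pairs -/
def cell (j : ℕ) : Finset (ℕ × ℕ) :=
  ((Ico (2 ^ j) (2 * 2 ^ j)) ×ˢ (Ico (2 ^ j) (2 * 2 ^ j))).filter fun uv => Nat.Coprime uv.1 uv.2

lemma mult_card (U d : ℕ) (hU : 1 ≤ U) (hd : 1 ≤ d) :
    (((Ico U (2 * U)).filter fun x => d ∣ x).card : ℝ) ≤ U / d + 1 := by
  have hd0 : (0 : ℝ) < d := by exact_mod_cast hd
  have h1 : ((Ioc 0 (2 * U - 1)).filter fun x => d ∣ x) = ((Ioc 0 (U - 1)).filter fun x => d ∣ x) ∪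
      ((Ico U (2 * U)).filter fun x => d ∣ x) := by
    rw [← filter_union]
    congr 1
    ext x
    simp only [mem_union, mem_Ioc, mem_Ico]
    omega
  have h2 : Disjoint ((Ioc 0 (U - 1)).filter fun x => d ∣ x) ((Ico U (2 * U)).filter fun x => d ∣ x) := by
    apply disjoint_filter_filter
    rw [disjoint_left]
    intro x hx hx'
    rw [mem_Ioc] at hx
    rw [mem_Ico] at hx'
    omega
  have h3 := congrArg card h1
  rw [card_union_of_disjoint h2, Nat.Ioc_filter_dvd_card_eq_div, Nat.Ioc_filter_dvd_card_eq_div] at h3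
  have h4 : (((2 * U - 1) / d : ℕ) : ℝ) ≤ (2 * U - 1) / d := by
    refine (Nat.cast_div_le).trans (le_of_eq ?_)
    rw [Nat.cast_sub (by omega)]; push_cast; ring
  have h5 : ((U : ℝ) - 1) / d < (((U - 1) / d : ℕ) : ℝ) + 1 := by
    rw [div_lt_iff₀ hd0]
    have h6 := Nat.lt_div_mul_add (a := U - 1) hd
    have h7 : ((U - 1 : ℕ) : ℝ) < (((U - 1) / d * d + d : ℕ) : ℝ) := by exact_mod_cast h6
    rw [Nat.cast_sub hU] at h7
    push_cast at h7
    linarith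
  have h6 : (((2 * U - 1) / d : ℕ) : ℝ) = (((U - 1) / d : ℕ) : ℝ) +
      (((Ico U (2 * U)).filter fun x => d ∣ x).card : ℝ) := by exact_mod_cast h3
  have h7 : (2 * (U : ℝ) - 1) / d - (U - 1) / d = U / d := by ring
  linarith

lemma sum_sq (n : ℕ) (hn : 2 ≤ n) : ∑ d ∈ Ico 2 n, 1 / (d : ℝ) ^ 2 ≤ (2 : ℝ) / 3 - 1 / ((n : ℝ) - 1 / 2) := by
  induction n, hn using Nat.le_induction with
  | base => norm_num
  | succ n hn ih =>
    rw [sum_Ico_succ_top hn]
    have h1 : (2 : ℝ) ≤ n := by exact_mod_cast hn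
    have h2 : 1 / (n : ℝ) ^ 2 ≤ 1 / ((n : ℝ) - 1 / 2) - 1 / ((n : ℝ) + 1 / 2) := by
      rw [div_sub_div _ _ (by linarith) (by linarith), div_le_div_iff₀ (by positivity) (by nlinarith)]
      nlinarith
    push_cast
    have h3 : (n : ℝ) + 1 - 1 / 2 = n + 1 / 2 := by ring
    rw [h3]
    linarith

/-- many coprime pairs -/
lemma cop (j : ℕ) (hj : 10 ≤ j) : (4 : ℝ) ^ j / 4 ≤ (cell j).card := by
  classical
  obtain ⟨U, hU⟩ : ∃ U : ℕ, U = 2 ^ j := ⟨_, rfl⟩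
  have hU1 : 1024 ≤ U := by
    rw [hU]
    calc 1024 = 2 ^ 10 := by norm_num
      _ ≤ 2 ^ j := Nat.pow_le_pow_right (by norm_num) hj
  have hUr : (1024 : ℝ) ≤ U := by exact_mod_cast hU1
  have hU4 : (4 : ℝ) ^ j = (U : ℝ) ^ 2 := by
    rw [hU]; push_cast
    rw [← pow_mul, mul_comm, pow_mul]; norm_num
  unfold cell
  rw [← hU, hU4]
  obtain ⟨A, hA⟩ : ∃ A : Finset ℕ, A = Ico U (2 * U) := ⟨_, rfl⟩
  rw [← hA]
  have hAc : A.card = U := by rw [hA, Nat.card_Ico]; omega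
  have h1 : ((A ×ˢ A).filter fun uv => ¬ Nat.Coprime uv.1 uv.2) ⊆
      (Ico 2 (2 * U)).biUnion fun d => (A.filter fun x => d ∣ x) ×ˢ (A.filter fun x => d ∣ x) := by
    rintro ⟨u, v⟩ huv
    rw [mem_filter, mem_product, hA, mem_Ico, mem_Ico] at huv
    obtain ⟨⟨⟨a1, a2⟩, a3, a4⟩, a5⟩ := huv
    simp only at a1 a2 a3 a4 a5
    rw [mem_biUnion]
    refine ⟨Nat.gcd u v, ?_, ?_⟩
    · rw [mem_Ico]
      have h2 : Nat.gcd u v ≠ 1 := a5
      have h3 : 0 < Nat.gcd u v := Nat.gcd_pos_of_pos_left _ (by omega)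
      have h4 := Nat.gcd_le_left v (show 0 < u by omega)
      omega
    · rw [mem_product, mem_filter, mem_filter, hA, mem_Ico, mem_Ico]
      exact ⟨⟨⟨a1, a2⟩, Nat.gcd_dvd_left u v⟩, ⟨a3, a4⟩, Nat.gcd_dvd_right u v⟩
  have h2 : (((A ×ˢ A).filter fun uv => ¬ Nat.Coprime uv.1 uv.2).card : ℝ) ≤
      ∑ d ∈ Ico 2 (2 * U), ((U : ℝ) / d + 1) ^ 2 := by
    refine le_trans (Nat.cast_le.2 (card_le_card h1)) ?_
    refine le_trans (Nat.cast_le.2 card_biUnion_le) ?_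
    push_cast
    refine sum_le_sum fun d hd => ?_
    rw [mem_Ico] at hd
    rw [card_product]
    push_cast
    have := mult_card U d (by omega) (by omega)
    rw [← hA] at this
    rw [sq]
    exact mul_le_mul this this (Nat.cast_nonneg _) (by positivity)
  obtain ⟨T, hT⟩ : ∃ T : ℝ, T = ∑ d ∈ Ico 2 (2 * U), 1 / (d : ℝ) := ⟨_, rfl⟩
  have hT0 : 0 ≤ T := by rw [hT]; exact sum_nonneg fun _ _ => by positivity
  have hS2 : ∑ d ∈ Ico 2 (2 * U), 1 / (d : ℝ) ^ 2 ≤ (2 : ℝ) / 3 := by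
    have h3 := sum_sq (2 * U) (by omega)
    have h4 : 0 ≤ 1 / (((2 * U : ℕ) : ℝ) - 1 / 2) := by
      push_cast
      apply div_nonneg zero_le_one
      linarith
    linarith
  have hT2 : T ^ 2 ≤ 4 * U / 3 := by
    have h3 := sq_sum_le_card_mul_sum_sq (s := Ico 2 (2 * U)) (f := fun d : ℕ => 1 / (d : ℝ))
    rw [← hT] at h3
    have h4 : ((Ico 2 (2 * U)).card : ℝ) ≤ 2 * U := by
      rw [Nat.card_Ico]
      have : 2 * U - 2 ≤ 2 * U := Nat.sub_le _ _
      exact_mod_cast this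
    have h5 : ∑ d ∈ Ico 2 (2 * U), (1 / (d : ℝ)) ^ 2 ≤ (2 : ℝ) / 3 := by
      refine le_trans (le_of_eq (sum_congr rfl fun d _ => ?_)) hS2
      rw [one_div_pow]
    calc T ^ 2 ≤ ((Ico 2 (2 * U)).card : ℝ) * ∑ d ∈ Ico 2 (2 * U), (1 / (d : ℝ)) ^ 2 := h3
      _ ≤ (2 * U) * (2 / 3) := mul_le_mul h4 h5 (sum_nonneg fun _ _ => by positivity) (by positivity)
      _ = _ := by ring
  have hT3 : T ≤ U / 24 - 1 := by
    by_contra hcon
    push Not at hcon
    have h3 : (0 : ℝ) ≤ U / 24 - 1 := by linarith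
    have h4 : ((U : ℝ) / 24 - 1) ^ 2 < T ^ 2 := pow_lt_pow_left₀ hcon h3 (by norm_num)
    nlinarith
  have h3 : ∑ d ∈ Ico 2 (2 * U), ((U : ℝ) / d + 1) ^ 2 ≤ 3 / 4 * (U : ℝ) ^ 2 := by
    have h4 : ∀ d ∈ Ico 2 (2 * U), ((U : ℝ) / d + 1) ^ 2 = U ^ 2 * (1 / (d : ℝ) ^ 2) + 2 * U * (1 / (d : ℝ)) + 1 := by
      intro d hd
      rw [mem_Ico] at hd
      have : (d : ℝ) ≠ 0 := by
        have : d ≠ 0 := by omega
        exact_mod_cast this
      field_simp
      ring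
    rw [sum_congr rfl h4, sum_add_distrib, sum_add_distrib, ← mul_sum, ← mul_sum, ← hT, sum_const,
      nsmul_eq_mul, mul_one, Nat.card_Ico]
    have h5 : ((2 * U - 2 : ℕ) : ℝ) ≤ 2 * U := by
      have : 2 * U - 2 ≤ 2 * U := Nat.sub_le _ _
      exact_mod_cast this
    have h6 : (U : ℝ) ^ 2 * ∑ d ∈ Ico 2 (2 * U), 1 / (d : ℝ) ^ 2 ≤ U ^ 2 * (2 / 3) :=
      mul_le_mul_of_nonneg_left hS2 (by positivity)
    have h7 : 2 * (U : ℝ) * T ≤ 2 * U * (U / 24 - 1) := mul_le_mul_of_nonneg_left hT3 (by positivity)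
    nlinarith
  have h4 := card_filter_add_card_filter_not (s := A ×ˢ A) (fun uv : ℕ × ℕ => Nat.Coprime uv.1 uv.2)
  rw [card_product, hAc] at h4
  have h5 : (((A ×ˢ A).filter fun uv => Nat.Coprime uv.1 uv.2).card : ℝ) +
      (((A ×ˢ A).filter fun uv => ¬ Nat.Coprime uv.1 uv.2).card : ℝ) = U * U := by exact_mod_cast h4
  nlinarith

lemma three (s : Finset ℕ) (h : ∀ a ∈ s, ∀ b ∈ s, a ≤ b + 2) : s.card ≤ 3 := by
  rcases s.eq_empty_or_nonempty with h0 | h0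
  · rw [h0]; simp
  · have h1 : s ⊆ Icc (s.min' h0) (s.min' h0 + 2) := fun a ha => by
      rw [mem_Icc]
      exact ⟨min'_le _ _ ha, h a ha _ (min'_mem _ _)⟩
    have h2 := card_le_card h1
    rw [Nat.card_Icc] at h2
    omega

end Pool.Agent.Helper478.Lit.Sq
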