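import Pool.Agent.Helper478_Lit.QC

/-!
# One scale
-/

set_option autoImplicit false

namespace Pool.Agent.Helper478.Lit.Sq

open Finset Filter
open Pool.Agent.H469R2.NK (e norm_e e_add e_zero conj_e)
open Pool.Agent.Helper478.Lit (dist1 dist1_nonneg dist1_half)

lemma geo (j D : ℕ) (hD : j ≤ D) : ∑ i ∈ Ico j D, (3 : ℝ) / 4 ^ i ≤ 4 / 4 ^ j - 4 / 4 ^ D := by
  induction D, hD using Nat.le_induction with
  | base => simp
  | succ D hD ih =>
    rw [sum_Ico_succ_top hD, pow_succ]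
    have h1 : (4 : ℝ) / (4 ^ D * 4) = 1 / 4 ^ D := by field_simp
    have h2 : (3 : ℝ) / 4 ^ D = 4 / 4 ^ D - 1 / 4 ^ D := by ring
    rw [h1, h2]
    linarith

lemma pow_sum (D : ℕ) : ∑ i ∈ range D, (4 : ℝ) ^ i ≤ 4 ^ D := by
  induction D with
  | zero => simp
  | succ D ih =>
    rw [sum_range_succ, pow_succ]
    have : (0 : ℝ) < 4 ^ D := by positivity
    linarith

lemma cell_card_le (j : ℕ) : ((cell j).card : ℝ) ≤ 4 ^ j := by
  have h1 : (cell j).card ≤ 2 ^ j * 2 ^ j := by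
    unfold cell
    refine (card_filter_le _ _).trans ?_
    rw [card_product, Nat.card_Ico]
    apply le_of_eq
    congr 1 <;> omega
  have h2 : (4 : ℝ) ^ j = 2 ^ j * 2 ^ j := by rw [← mul_pow]; norm_num
  rw [h2]
  exact_mod_cast h1

open scoped Classical in
/-- **one scale** -/
theorem one_scale (α c : ℝ) (hc : 0 < c) (hc1 : c ≤ 1) (hbad : ∀ q : ℕ, 1 ≤ q → c ≤ q * dist1 (q * α))
    (K D Y X0 : ℕ) (hK : 1 ≤ K) (hD : 11 ≤ D) (hY : 1 ≤ Y) (hX0 : 1 ≤ X0)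
    (hsm : 32 * (8 : ℝ) ^ D * Y < c * X0) {σ : Type} (S : Finset σ) (β : σ → ℝ) (ζ : ℕ → ℝ) (W : ℝ) (hW0 : 0 ≤ W)
    (hW : ∀ m : ℤ, c ^ 2 * X0 / (32 * (8 : ℝ) ^ D * Y) ≤ |(m : ℝ)| →
      |(m : ℝ)| ≤ 24 * (8 : ℝ) ^ D * Y * (2 ^ K * X0) → ‖∑ n ∈ S, e (m * β n)‖ ≤ W) :
    ((S.filter fun n => ∀ q : ℕ, X0 ≤ q → q ≤ 6 * 2 ^ D * 2 ^ K * X0 →
      144 / (c * Y) < q * dist1 (q * α) * dist1 (q * β n - ζ q)).card : ℝ) ≤
      4000 * S.card * Y / (K * ((D : ℝ) - 10)) + 10000 * (16 : ℝ) ^ D * Y ^ 2 * W := by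
  have hX0r : (0 : ℝ) < X0 := by exact_mod_cast hX0
  have hX0r1 : (1 : ℝ) ≤ X0 := by exact_mod_cast hX0
  have hYr : (0 : ℝ) < Y := by exact_mod_cast hY
  have hKr : (1 : ℝ) ≤ K := by exact_mod_cast hK
  have hDr : (11 : ℝ) ≤ D := by exact_mod_cast hD
  let X : ℕ → ℕ := fun k => 2 ^ k * X0
  have hX1 : ∀ k, 1 ≤ X k := fun k => Nat.one_le_iff_ne_zero.2 (by positivity)
  choose a b p r hB using fun k => basis α c hc hbad (X k) (hX1 k)
  let H : (Σ _ : ℕ × ℕ, ℕ × ℕ) → ℕ := fun t => 4 ^ t.1.2 * Y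
  let qv : (Σ _ : ℕ × ℕ, ℕ × ℕ) → ℤ := fun t => t.2.1 * a t.1.1 + t.2.2 * b t.1.1
  let Pv : (Σ _ : ℕ × ℕ, ℕ × ℕ) → ℤ := fun t => t.2.1 * p t.1.1 + t.2.2 * r t.1.1
  let Q : Finset (Σ _ : ℕ × ℕ, ℕ × ℕ) := (range K ×ˢ Ico 10 D).sigma fun kj => cell kj.2
  obtain ⟨rel, hrel⟩ : ∃ rel : (Σ _ : ℕ × ℕ, ℕ × ℕ) → (Σ _ : ℕ × ℕ, ℕ × ℕ) → Prop,
      ∀ t t', rel t t' ↔ (qv t = qv t' ∧ Pv t = Pv t') := ⟨_, fun _ _ => Iff.rfl⟩
  have hQ : ∀ t ∈ Q, t.1.1 < K ∧ 10 ≤ t.1.2 ∧ t.1.2 < D ∧ 2 ^ t.1.2 ≤ t.2.1 ∧ t.2.1 < 2 * 2 ^ t.1.2 ∧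
      2 ^ t.1.2 ≤ t.2.2 ∧ t.2.2 < 2 * 2 ^ t.1.2 ∧ Nat.Coprime t.2.1 t.2.2 := by
    intro t ht
    simp only [Q, mem_sigma, mem_product, mem_range, mem_Ico, cell, mem_filter] at ht
    tauto
  -- the facts
  have F1 : ∀ t ∈ Q, ((2 ^ t.1.2 * X t.1.1 : ℕ) : ℤ) ≤ qv t ∧ qv t ≤ ((6 * (2 ^ t.1.2 * X t.1.1) : ℕ) : ℤ) := by
    intro t ht
    obtain ⟨_, _, _, h1, h2, h3, h4, _⟩ := hQ t ht
    obtain ⟨_, b1, b2, b3, b4, _, _⟩ := hB t.1.1
    have h1' : ((2 ^ t.1.2 : ℕ) : ℤ) ≤ t.2.1 := by exact_mod_cast h1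
    have h2' : (t.2.1 : ℤ) ≤ 2 * ((2 ^ t.1.2 : ℕ) : ℤ) := by exact_mod_cast h2.le
    have h3' : ((2 ^ t.1.2 : ℕ) : ℤ) ≤ t.2.2 := by exact_mod_cast h3
    have h4' : (t.2.2 : ℤ) ≤ 2 * ((2 ^ t.1.2 : ℕ) : ℤ) := by exact_mod_cast h4.le
    have hX : (0 : ℤ) < (X t.1.1 : ℤ) := by exact_mod_cast hX1 t.1.1
    have hU : (0 : ℤ) < ((2 ^ t.1.2 : ℕ) : ℤ) := by positivity
    simp only [qv]
    constructor
    · rw [Nat.cast_mul]
      have e1 : (0 : ℤ) ≤ t.2.1 * a t.1.1 := by positivity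
      have e2 : ((2 ^ t.1.2 : ℕ) : ℤ) * (X t.1.1 : ℤ) ≤ t.2.2 * b t.1.1 := mul_le_mul h3' b3.le hX.le (by positivity)
      linarith
    · have e1 : (t.2.1 : ℤ) * a t.1.1 ≤ 2 * ((2 ^ t.1.2 : ℕ) : ℤ) * X t.1.1 :=
        mul_le_mul h2' b2 b1.le (by positivity)
      have e2 : (t.2.2 : ℤ) * b t.1.1 ≤ 2 * ((2 ^ t.1.2 : ℕ) : ℤ) * (2 * X t.1.1) :=
        mul_le_mul h4' b4 (by linarith) (by positivity)
      have e3 : ((6 * (2 ^ t.1.2 * X t.1.1) : ℕ) : ℤ) = 6 * (((2 ^ t.1.2 : ℕ) : ℤ) * (X t.1.1 : ℤ)) := by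
        push_cast; ring
      rw [e3]
      linarith
  have hXle : ∀ k, (X0 : ℝ) ≤ X k := by
    intro k
    simp only [X]
    push_cast
    exact le_mul_of_one_le_left hX0r.le (one_le_pow₀ (by norm_num))
  have F3 : ∀ t ∈ Q, |(qv t : ℝ) * α - Pv t| ≤ 8 * 2 ^ t.1.2 / (c * X t.1.1) := by
    intro t ht
    obtain ⟨_, _, _, h1, h2, h3, h4, _⟩ := hQ t ht
    obtain ⟨_, _, _, _, _, b5, b6⟩ := hB t.1.1
    have h2' : (t.2.1 : ℝ) ≤ 2 * 2 ^ t.1.2 := by exact_mod_cast h2.le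
    have h4' : (t.2.2 : ℝ) ≤ 2 * 2 ^ t.1.2 := by exact_mod_cast h4.le
    have hX : (0 : ℝ) < X t.1.1 := by exact_mod_cast hX1 t.1.1
    have e1 : (qv t : ℝ) * α - Pv t = t.2.1 * (a t.1.1 * α - p t.1.1) + t.2.2 * (b t.1.1 * α - r t.1.1) := by
      simp only [qv, Pv]
      push_cast
      ring
    rw [e1]
    refine (abs_add_le _ _).trans ?_
    rw [abs_mul, abs_mul, Nat.abs_cast, Nat.abs_cast]
    have e2 : (1 : ℝ) / X t.1.1 ≤ 1 / (c * X t.1.1) := by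
      apply one_div_le_one_div_of_le (by positivity)
      exact mul_le_of_le_one_left hX.le hc1
    calc (t.2.1 : ℝ) * |(a t.1.1 : ℝ) * α - p t.1.1| + t.2.2 * |(b t.1.1 : ℝ) * α - r t.1.1| ≤
          (2 * 2 ^ t.1.2) * (1 / (c * X t.1.1)) + (2 * 2 ^ t.1.2) * (3 / (c * X t.1.1)) :=
          add_le_add (mul_le_mul h2' (b5.trans e2) (abs_nonneg _) (by positivity))
            (mul_le_mul h4' b6 (abs_nonneg _) (by positivity))
      _ = _ := by ring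
  have F4 : ∀ t ∈ Q, ∃ x y : ℤ, x * qv t + y * Pv t = 1 := by
    intro t ht
    obtain ⟨_, _, _, _, _, _, _, h5⟩ := hQ t ht
    obtain ⟨b0, _⟩ := hB t.1.1
    have h6 : IsCoprime (t.2.1 : ℤ) (t.2.2 : ℤ) := Nat.isCoprime_iff_coprime.2 h5
    obtain ⟨x, y, hxy⟩ := h6
    refine ⟨x * r t.1.1 - y * p t.1.1, y * a t.1.1 - x * b t.1.1, ?_⟩
    simp only [qv, Pv]
    linear_combination (x * (t.2.1 : ℤ) + y * (t.2.2 : ℤ)) * b0 + hxy
  obtain ⟨δ, hδ⟩ : ∃ δ : ℝ, δ = 32 * (8 : ℝ) ^ D * Y / (c * X0) := ⟨_, rfl⟩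
  have hδ0 : 0 < δ := by rw [hδ]; positivity
  have hδ1 : δ < 1 := by rw [hδ, div_lt_one (by positivity)]; exact hsm
  have F5 : ∀ t ∈ Q, ∀ h : ℤ, |h| ≤ ((2 * H t : ℕ) : ℤ) → |(h : ℝ) * ((qv t : ℝ) * α - Pv t)| ≤ δ / 2 := by
    intro t ht h hh
    obtain ⟨_, _, h0, _⟩ := hQ t ht
    have h1 : |(h : ℝ)| ≤ 2 * (4 ^ t.1.2 * Y) := by
      have : ((|h| : ℤ) : ℝ) ≤ (((2 * H t : ℕ) : ℤ) : ℝ) := by exact_mod_cast hh
      rw [Int.cast_abs] at this
      simp only [H] at this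
      push_cast at this
      exact this
    rw [abs_mul]
    have hX : (0 : ℝ) < X t.1.1 := by exact_mod_cast hX1 t.1.1
    have h2 : (4 : ℝ) ^ t.1.2 * 2 ^ t.1.2 ≤ 8 ^ D := by
      rw [← mul_pow]
      calc ((4 : ℝ) * 2) ^ t.1.2 = 8 ^ t.1.2 := by norm_num
        _ ≤ 8 ^ D := pow_le_pow_right₀ (by norm_num) h0.le
    calc |(h : ℝ)| * |(qv t : ℝ) * α - Pv t| ≤ (2 * (4 ^ t.1.2 * Y)) * (8 * 2 ^ t.1.2 / (c * X t.1.1)) :=
          mul_le_mul h1 (F3 t ht) (abs_nonneg _) (by positivity)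
      _ ≤ (2 * (4 ^ t.1.2 * Y)) * (8 * 2 ^ t.1.2 / (c * X0)) := by
          have := hXle t.1.1
          gcongr
      _ = 16 * (4 ^ t.1.2 * 2 ^ t.1.2) * Y / (c * X0) := by ring
      _ ≤ 16 * 8 ^ D * Y / (c * X0) := by gcongr
      _ = δ / 2 := by rw [hδ]; ring
  have F6 : ∀ t ∈ Q, ∀ t' ∈ Q, ∀ h h' : ℤ, |h| ≤ ((2 * H t : ℕ) : ℤ) → |h'| ≤ ((2 * H t' : ℕ) : ℤ) →
      |((h * qv t - h' * qv t' : ℤ) : ℝ) * α - ((h * Pv t - h' * Pv t' : ℤ) : ℝ)| ≤ δ := by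
    intro t ht t' ht' h h' hh hh'
    have h1 := F5 t ht h hh
    have h2 := F5 t' ht' h' hh'
    have h3 : ((h * qv t - h' * qv t' : ℤ) : ℝ) * α - ((h * Pv t - h' * Pv t' : ℤ) : ℝ) =
        (h : ℝ) * ((qv t : ℝ) * α - Pv t) - (h' : ℝ) * ((qv t' : ℝ) * α - Pv t') := by
      push_cast; ring
    rw [h3]
    refine (abs_sub _ _).trans ?_
    linarith
  have Fpos : ∀ t ∈ Q, 0 < qv t := by
    intro t ht
    have h1 := (F1 t ht).1
    have h2 : (0 : ℤ) < ((2 ^ t.1.2 * X t.1.1 : ℕ) : ℤ) := by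
      have := hX1 t.1.1
      positivity
    linarith
  have key := secmom S β Q H (fun t _ => Nat.one_le_iff_ne_zero.2 (by simp only [H]; positivity)) qv
    (fun t => ζ (qv t).toNat) rel W hW0 (by
      intro t ht t' ht' h h' hh hh' hne
      apply hW
      · -- the lower bound
        obtain ⟨m, hm⟩ : ∃ m : ℤ, m = h * qv t - h' * qv t' := ⟨_, rfl⟩
        have h1 := F6 t ht t' ht' h h' hh hh'
        rw [← hm] at h1 ⊢
        have hm0 : m ≠ 0 := by rw [hm]; exact sub_ne_zero.2 hne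
        have h2 := hbad m.natAbs (Int.natAbs_pos.2 hm0)
        have h3 : ((m.natAbs : ℕ) : ℝ) = |(m : ℝ)| := by
          rw [← Int.cast_abs, ← Int.natCast_natAbs]; rfl
        rw [h3] at h2
        have h4 : dist1 (|(m : ℝ)| * α) ≤ δ := by
          rcases abs_cases (m : ℝ) with ⟨h5, _⟩ | ⟨h5, _⟩
          · rw [h5]
            exact (round_le _ (h * Pv t - h' * Pv t')).trans h1
          · rw [h5]
            refine (round_le _ (-(h * Pv t - h' * Pv t'))).trans ?_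
            refine le_trans (le_of_eq ?_) h1
            rw [← abs_neg]
            congr 1
            push_cast; ring
        have h5 : c ≤ |(m : ℝ)| * δ := h2.trans (mul_le_mul_of_nonneg_left h4 (abs_nonneg _))
        rw [div_le_iff₀ (by positivity)]
        rw [hδ, mul_div_assoc', le_div_iff₀ (by positivity)] at h5
        calc c ^ 2 * X0 = c * (c * X0) := by ring
          _ ≤ _ := h5
      · -- the upper bound
        have h6 : ∀ t ∈ Q, ∀ h : ℤ, |h| ≤ ((2 * H t : ℕ) : ℤ) → |((h * qv t : ℤ) : ℝ)| ≤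
            12 * 8 ^ D * Y * (2 ^ K * X0) := by
          intro t ht h hh
          obtain ⟨hk, _, h0, _⟩ := hQ t ht
          have h1 : |(h : ℝ)| ≤ 2 * (4 ^ t.1.2 * Y) := by
            have : ((|h| : ℤ) : ℝ) ≤ (((2 * H t : ℕ) : ℤ) : ℝ) := by exact_mod_cast hh
            rw [Int.cast_abs] at this
            simp only [H] at this
            push_cast at this
            exact this
          have h2 : (4 : ℝ) ^ t.1.2 * 2 ^ t.1.2 ≤ 8 ^ D := by
            rw [← mul_pow]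
            calc ((4 : ℝ) * 2) ^ t.1.2 = 8 ^ t.1.2 := by norm_num
              _ ≤ 8 ^ D := pow_le_pow_right₀ (by norm_num) h0.le
          have h3 : |(qv t : ℝ)| ≤ 6 * (2 ^ t.1.2 * (2 ^ K * X0)) := by
            rw [abs_of_pos (by exact_mod_cast Fpos t ht)]
            have h4 : (qv t : ℝ) ≤ (((6 * (2 ^ t.1.2 * X t.1.1) : ℕ) : ℤ) : ℝ) := by exact_mod_cast (F1 t ht).2
            refine h4.trans ?_
            simp only [X]
            push_cast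
            have h5 : (2 : ℝ) ^ t.1.1 ≤ 2 ^ K := pow_le_pow_right₀ (by norm_num) hk.le
            gcongr
          push_cast
          rw [abs_mul]
          calc |(h : ℝ)| * |(qv t : ℝ)| ≤ (2 * (4 ^ t.1.2 * Y)) * (6 * (2 ^ t.1.2 * (2 ^ K * X0))) :=
                mul_le_mul h1 h3 (abs_nonneg _) (by positivity)
            _ = 12 * (4 ^ t.1.2 * 2 ^ t.1.2) * Y * (2 ^ K * X0) := by ring
            _ ≤ 12 * 8 ^ D * Y * (2 ^ K * X0) := by gcongr
        have h7 := h6 t ht h hh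
        have h8 := h6 t' ht' h' hh'
        have h9 : ((h * qv t - h' * qv t' : ℤ) : ℝ) = ((h * qv t : ℤ) : ℝ) - ((h' * qv t' : ℤ) : ℝ) := by
          push_cast; ring
        rw [h9]
        refine (abs_sub _ _).trans ?_
        linarith)
    (by
      intro t ht t' ht' h h' hh hh' h0 h0' heq
      have h1 := F6 t ht t' ht' h h' hh hh'
      have h2 : h * qv t - h' * qv t' = 0 := by linarith
      rw [h2, Int.cast_zero, zero_mul, zero_sub, abs_neg] at h1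
      have h3 : h * Pv t - h' * Pv t' = 0 := by
        have h4 : |((h * Pv t - h' * Pv t' : ℤ) : ℝ)| < 1 := lt_of_le_of_lt h1 hδ1
        rw [← Int.cast_abs] at h4
        have h5 : |h * Pv t - h' * Pv t'| < 1 := by exact_mod_cast h4
        exact Int.abs_lt_one_iff.1 h5
      obtain ⟨x, y, hxy⟩ := F4 t ht
      obtain ⟨x', y', hxy'⟩ := F4 t' ht'
      have d1 : h' ∣ h := ⟨x * qv t' + y * Pv t', by linear_combination (-h) * hxy + x * heq + y * h3⟩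
      have d2 : h ∣ h' := ⟨x' * qv t + y' * Pv t, by linear_combination (-h') * hxy' - x' * heq - y' * h3⟩
      have hh2 : h = h' := by
        rcases Int.natAbs_eq_natAbs_iff.1 (Int.natAbs_eq_of_dvd_dvd d2 d1) with h5 | h5
        · exact h5
        · exfalso
          have p1 := Fpos t ht
          have p2 := Fpos t' ht'
          have h6 : h' * (qv t + qv t') = 0 := by rw [h5] at h2; linarith
          rcases mul_eq_zero.1 h6 with h7 | h7
          · exact h0' h7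
          · linarith
      subst hh2
      exact ⟨rfl, (hrel _ _).2 ⟨mul_left_cancel₀ h0 heq, mul_left_cancel₀ h0 (by linarith)⟩⟩)
    (fun t t' h => (hrel _ _).2 ⟨((hrel _ _).1 h).1.symm, ((hrel _ _).1 h).2.symm⟩)
    (by
      intro t ht
      obtain ⟨_, t0, t1, _⟩ := hQ t ht
      suffices hs : ∀ R0 : Finset (Σ _ : ℕ × ℕ, ℕ × ℕ), (∀ t' ∈ R0, t' ∈ Q ∧ rel t t' ∧ H t ≤ H t') →
          ∑ t' ∈ R0, 1 / (H t' : ℝ) ≤ 4 / (H t : ℝ) from
        hs _ (fun t' h => by rw [mem_filter] at h; exact ⟨h.1, h.2⟩)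
      intro R0 hR0
      have hcard : ∀ j' ∈ Ico t.1.2 D, ((R0.filter (fun t' => t'.1.2 = j')).card : ℝ) ≤ 3 := by
        intro j' _
        obtain ⟨R, hR⟩ : ∃ R, R = R0.filter (fun t' => t'.1.2 = j') := ⟨_, rfl⟩
        rw [← hR]
        have hRm : ∀ t' ∈ R, t' ∈ Q ∧ qv t = qv t' ∧ Pv t = Pv t' ∧ t'.1.2 = j' := by
          intro t' ht'
          rw [hR, mem_filter] at ht'
          obtain ⟨h1, h2, h3⟩ := hR0 t' ht'.1
          exact ⟨h1, ((hrel _ _).1 h2).1, ((hrel _ _).1 h2).2, ht'.2⟩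
        have hinj : (R.image fun t' => t'.1.1).card = R.card := by
          apply card_image_of_injOn
          intro t1 h1 t2 h2 h3
          obtain ⟨a1, a2, a3, a4⟩ := hRm t1 h1
          obtain ⟨c1, c2, c3, c4⟩ := hRm t2 h2
          simp only at h3
          obtain ⟨⟨k1, j1⟩, u1, v1⟩ := t1
          obtain ⟨⟨k2, j2⟩, u2, v2⟩ := t2
          simp only at h3 a4 c4
          subst h3
          subst a4
          subst c4
          obtain ⟨b0, _⟩ := hB k1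
          rw [a2] at c2
          rw [a3] at c3
          simp only [qv, Pv] at c2 c3
          have e1 : (u1 : ℤ) = u2 := by
            linear_combination (-(u1 : ℤ) + u2) * b0 + r k1 * c2 - b k1 * c3
          have e2 : (v1 : ℤ) = v2 := by
            linear_combination (-(v1 : ℤ) + v2) * b0 - p k1 * c2 + a k1 * c3
          have e3 : u1 = u2 := by exact_mod_cast e1
          have e4 : v1 = v2 := by exact_mod_cast e2
          rw [e3, e4]
        rw [← hinj]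
        have h3 : (R.image fun t' => t'.1.1).card ≤ 3 := by
          apply three
          intro k1 hk1 k2 hk2
          obtain ⟨t1, h1, rfl⟩ := mem_image.1 hk1
          obtain ⟨t2, h2, rfl⟩ := mem_image.1 hk2
          obtain ⟨a1, a2, a3, a4⟩ := hRm t1 h1
          obtain ⟨c1, c2, c3, c4⟩ := hRm t2 h2
          have g1 := (F1 t1 a1).1
          have g2 := (F1 t2 c1).2
          rw [← a2, a4] at g1
          rw [← c2, c4] at g2
          have g3 : 2 ^ j' * X t1.1.1 ≤ 6 * (2 ^ j' * X t2.1.1) := by exact_mod_cast g1.trans g2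
          simp only [X] at g3
          have hj0 : 0 < 2 ^ j' * X0 := by positivity
          have g4 : 2 ^ t1.1.1 * (2 ^ j' * X0) ≤ (6 * 2 ^ t2.1.1) * (2 ^ j' * X0) := by
            calc 2 ^ t1.1.1 * (2 ^ j' * X0) = 2 ^ j' * (2 ^ t1.1.1 * X0) := by ring
              _ ≤ _ := g3
              _ = _ := by ring
          have g5 := Nat.le_of_mul_le_mul_right g4 hj0
          by_contra hcon
          push Not at hcon
          have g6 : 2 ^ (t2.1.1 + 3) ≤ 2 ^ t1.1.1 := Nat.pow_le_pow_right (by norm_num) (by omega)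
          rw [pow_add] at g6
          have g7 : 0 < 2 ^ t2.1.1 := by positivity
          omega
        exact_mod_cast h3
      have hmaps : ∀ t' ∈ R0, t'.1.2 ∈ Ico t.1.2 D := by
        intro t' ht'
        obtain ⟨h1, _, h2⟩ := hR0 t' ht'
        obtain ⟨_, _, h3, _⟩ := hQ t' h1
        rw [mem_Ico]
        refine ⟨?_, h3⟩
        simp only [H] at h2
        have h4 := Nat.le_of_mul_le_mul_right h2 hY
        exact (Nat.pow_le_pow_iff_right (by norm_num)).1 h4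
      rw [← sum_fiberwise_of_maps_to hmaps]
      have h1 : ∀ j' ∈ Ico t.1.2 D, ∑ t' ∈ R0.filter (fun t' => t'.1.2 = j'), 1 / (H t' : ℝ) ≤
          (3 / 4 ^ j') * (1 / Y) := by
        intro j' hj'
        have h2 : ∑ t' ∈ R0.filter (fun t' => t'.1.2 = j'), 1 / (H t' : ℝ) =
            ∑ t' ∈ R0.filter (fun t' => t'.1.2 = j'), 1 / ((4 : ℝ) ^ j' * Y) := by
          refine sum_congr rfl fun t' ht' => ?_
          rw [← (mem_filter.1 ht').2]
          simp only [H]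
          push_cast
          ring
        rw [h2, sum_const, nsmul_eq_mul]
        calc ((R0.filter (fun t' => t'.1.2 = j')).card : ℝ) *
              (1 / ((4 : ℝ) ^ j' * Y)) ≤ 3 * (1 / ((4 : ℝ) ^ j' * Y)) :=
              mul_le_mul_of_nonneg_right (hcard j' hj') (by positivity)
          _ = _ := by field_simp
      refine (sum_le_sum h1).trans ?_
      rw [← sum_mul]
      have h2 := geo t.1.2 D t1.le
      have h3 : (0 : ℝ) ≤ 4 / 4 ^ D := by positivity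
      have h4 : (4 : ℝ) / (H t : ℝ) = 4 / 4 ^ t.1.2 * (1 / Y) := by
        simp only [H]
        push_cast
        field_simp
      rw [h4]
      apply mul_le_mul_of_nonneg_right _ (by positivity)
      linarith)
  -- the mean value
  obtain ⟨μ, hμ⟩ : ∃ μ : ℝ, μ = ∑ t ∈ Q, 1 / (H t : ℝ) := ⟨_, rfl⟩
  rw [← hμ] at key
  obtain ⟨μ₀, hμ₀⟩ : ∃ μ₀ : ℝ, μ₀ = K * ((D : ℝ) - 10) / (4 * Y) := ⟨_, rfl⟩
  have hD10 : (0 : ℝ) < (D : ℝ) - 10 := by linarith
  have hμ₀0 : 0 < μ₀ := by rw [hμ₀]; positivity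
  have hμμ : μ₀ ≤ μ := by
    rw [hμ]
    simp only [Q]
    rw [sum_sigma]
    have h1 : ∀ kj ∈ range K ×ˢ Ico 10 D, 1 / (4 * (Y : ℝ)) ≤ ∑ uv ∈ cell kj.2, 1 / (H ⟨kj, uv⟩ : ℝ) := by
      intro kj hkj
      rw [mem_product, mem_Ico] at hkj
      simp only [H]
      rw [sum_const, nsmul_eq_mul]
      push_cast
      have h2 := cop kj.2 hkj.2.1
      calc 1 / (4 * (Y : ℝ)) = (4 ^ kj.2 / 4) * (1 / (4 ^ kj.2 * Y)) := by field_simp
        _ ≤ _ := mul_le_mul_of_nonneg_right h2 (by positivity)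
    refine le_trans (le_of_eq ?_) (sum_le_sum h1)
    rw [sum_const, card_product, card_range, Nat.card_Ico, nsmul_eq_mul, hμ₀]
    push_cast
    rw [Nat.cast_sub (by omega)]
    push_cast
    field_simp
  have hμ0 : 0 < μ := lt_of_lt_of_le hμ₀0 hμμ
  have hQc : (Q.card : ℝ) ≤ K * 4 ^ D := by
    simp only [Q]
    rw [card_sigma]
    push_cast
    rw [sum_product]
    have h1 : ∀ k ∈ range K, ∑ j ∈ Ico 10 D, ((cell j).card : ℝ) ≤ 4 ^ D := by
      intro k _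
      calc ∑ j ∈ Ico 10 D, ((cell j).card : ℝ) ≤ ∑ j ∈ Ico 10 D, (4 : ℝ) ^ j :=
            sum_le_sum fun j _ => cell_card_le j
        _ ≤ ∑ j ∈ range D, (4 : ℝ) ^ j := by
            apply sum_le_sum_of_subset_of_nonneg
            · intro j hj; rw [mem_Ico] at hj; rw [mem_range]; exact hj.2
            · intro _ _ _; positivity
        _ ≤ 4 ^ D := pow_sum D
    refine (sum_le_sum h1).trans (le_of_eq ?_)
    rw [sum_const, card_range, nsmul_eq_mul]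
  -- the conclusion
  obtain ⟨Z, hZ⟩ : ∃ Z : ℝ, Z = ((S.filter fun n => ∀ t ∈ Q, 3 / (H t : ℝ) ≤
    dist1 (qv t * β n - ζ (qv t).toNat)).card : ℝ) := ⟨_, rfl⟩
  have key2 : Z * μ ^ 2 ≤ 1000 * S.card * μ + (25 * (Q.card : ℝ)) ^ 2 * W := by rw [hZ]; exact key
  have hS0 : (0 : ℝ) ≤ S.card := Nat.cast_nonneg _
  have hZle : Z ≤ 1000 * S.card / μ₀ + (25 * (K * 4 ^ D)) ^ 2 * W / μ₀ ^ 2 := by
    have h1 : Z ≤ 1000 * S.card / μ + (25 * (Q.card : ℝ)) ^ 2 * W / μ ^ 2 := by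
      have h2 : 1000 * S.card / μ + (25 * (Q.card : ℝ)) ^ 2 * W / μ ^ 2 =
          (1000 * S.card * μ + (25 * (Q.card : ℝ)) ^ 2 * W) / μ ^ 2 := by field_simp
      rw [h2, le_div_iff₀ (by positivity)]
      exact key2
    refine h1.trans ?_
    gcongr
  have hsub : (S.filter fun n => ∀ q : ℕ, X0 ≤ q → q ≤ 6 * 2 ^ D * 2 ^ K * X0 →
      144 / (c * Y) < q * dist1 (q * α) * dist1 (q * β n - ζ q)) ⊆
      S.filter fun n => ∀ t ∈ Q, 3 / (H t : ℝ) ≤ dist1 (qv t * β n - ζ (qv t).toNat) := by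
    intro n hn
    rw [mem_filter] at hn ⊢
    refine ⟨hn.1, fun t ht => ?_⟩
    by_contra hcon
    push Not at hcon
    obtain ⟨hk, _, hj, _⟩ := hQ t ht
    obtain ⟨f1, f2⟩ := F1 t ht
    have f3 := F3 t ht
    obtain ⟨q, hq⟩ : ∃ q : ℕ, q = (qv t).toNat := ⟨_, rfl⟩
    have hqz : (q : ℤ) = qv t := by rw [hq]; exact Int.toNat_of_nonneg (Fpos t ht).le
    have hqr : (qv t : ℝ) = q := by rw [← hqz]; simp
    rw [hqr] at f3 hcon
    rw [← hq] at hcon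
    rw [← hqz] at f1 f2
    have f1' : 2 ^ t.1.2 * X t.1.1 ≤ q := by exact_mod_cast f1
    have f2' : q ≤ 6 * (2 ^ t.1.2 * X t.1.1) := by exact_mod_cast f2
    have hX : (0 : ℝ) < X t.1.1 := by exact_mod_cast hX1 t.1.1
    have r1 : X0 ≤ q := by
      refine le_trans ?_ f1'
      simp only [X]
      have h1 : 1 ≤ 2 ^ t.1.2 := Nat.one_le_two_pow
      have h2 : 1 ≤ 2 ^ t.1.1 := Nat.one_le_two_pow
      calc X0 = 1 * (1 * X0) := by ring
        _ ≤ 2 ^ t.1.2 * (2 ^ t.1.1 * X0) := Nat.mul_le_mul h1 (Nat.mul_le_mul_right _ h2)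
    have r2 : q ≤ 6 * 2 ^ D * 2 ^ K * X0 := by
      refine f2'.trans ?_
      simp only [X]
      have h1 : 2 ^ t.1.2 ≤ 2 ^ D := Nat.pow_le_pow_right (by norm_num) hj.le
      have h2 : 2 ^ t.1.1 ≤ 2 ^ K := Nat.pow_le_pow_right (by norm_num) hk.le
      calc 6 * (2 ^ t.1.2 * (2 ^ t.1.1 * X0)) ≤ 6 * (2 ^ D * (2 ^ K * X0)) := by gcongr
        _ = _ := by ring
    have h1 := hn.2 q r1 r2
    have f2r : (q : ℝ) ≤ 6 * (2 ^ t.1.2 * X t.1.1) := by exact_mod_cast f2'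
    have h2 : dist1 ((q : ℝ) * α) ≤ 8 * 2 ^ t.1.2 / (c * X t.1.1) := (round_le _ (Pv t)).trans f3
    have h3 : (q : ℝ) * dist1 (q * α) ≤ (6 * (2 ^ t.1.2 * X t.1.1)) * (8 * 2 ^ t.1.2 / (c * X t.1.1)) :=
      mul_le_mul f2r h2 (dist1_nonneg _) (by positivity)
    have h4 : (q : ℝ) * dist1 (q * α) * dist1 (q * β n - ζ q) ≤
        (6 * (2 ^ t.1.2 * X t.1.1)) * (8 * 2 ^ t.1.2 / (c * X t.1.1)) * (3 / (H t : ℝ)) :=
      mul_le_mul h3 hcon.le (dist1_nonneg _) (by positivity)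
    have h5 : (6 * (2 ^ t.1.2 * (X t.1.1 : ℝ))) * (8 * 2 ^ t.1.2 / (c * X t.1.1)) * (3 / (H t : ℝ)) =
        144 / (c * Y) := by
      simp only [H]
      push_cast
      have h6 : (4 : ℝ) ^ t.1.2 = 2 ^ t.1.2 * 2 ^ t.1.2 := by rw [← mul_pow]; norm_num
      rw [h6]
      field_simp
      norm_num
    linarith
  refine le_trans (Nat.cast_le.2 (card_le_card hsub)) ?_
  rw [← hZ]
  refine hZle.trans ?_
  have e1 : 1000 * (S.card : ℝ) / μ₀ = 4000 * S.card * Y / (K * ((D : ℝ) - 10)) := by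
    rw [hμ₀]; field_simp; ring
  rw [e1]
  have e2 : (25 * (K * (4 : ℝ) ^ D)) ^ 2 * W / μ₀ ^ 2 ≤ 10000 * (16 : ℝ) ^ D * Y ^ 2 * W := by
    have h1 : (K : ℝ) / (4 * Y) ≤ μ₀ := by
      rw [hμ₀]
      apply div_le_div_of_nonneg_right _ (by positivity)
      nlinarith
    have h2 : ((K : ℝ) / (4 * Y)) ^ 2 ≤ μ₀ ^ 2 := pow_le_pow_left₀ (by positivity) h1 2
    calc (25 * (K * (4 : ℝ) ^ D)) ^ 2 * W / μ₀ ^ 2 ≤ (25 * (K * (4 : ℝ) ^ D)) ^ 2 * W / ((K : ℝ) / (4 * Y)) ^ 2 := by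
          gcongr
      _ = 10000 * ((4 : ℝ) ^ D) ^ 2 * Y ^ 2 * W := by
          have hK0 : (K : ℝ) ≠ 0 := by positivity
          rw [div_pow, div_div_eq_mul_div, div_eq_iff (by positivity)]
          ring
      _ = _ := by rw [← pow_mul, mul_comm D 2, pow_mul]; norm_num
  linarith

end Pool.Agent.Helper478.Lit.Sq
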