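import Pool.Agent.Helper478_Lit.QD
import Pool.Agent.Helper478_Lit.C

/-!
# Littlewood's inequality with the rate `(log q) ^ (2 - ε)`
-/

set_option autoImplicit false

namespace Pool.Agent.Helper478.Lit.Sq

open Finset Filter Topology
open Pool.Agent.H469R2.NK (e norm_e e_add e_zero conj_e)
open Pool.Agent.Helper478.Surds (ev_pow)
open Pool.Agent.Helper478.Short (germ coeffs_comb)
open Pool.Agent.Helper478.Lit (dist1 dist1_nonneg dist1_half fam_bd' ev_log)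

open scoped Classical in
theorem sqlit (ε : ℝ) (hε0 : 0 < ε) (hε1 : ε < 1) : ∃ γ : ℝ, 0 < γ ∧ ∀ (θ s : ℝ), 0 < s → s ≤ 1 →
    ∀ g : ℝ → ℝ, AnalyticAt ℝ g 0 →
    (¬ ∃ P : Polynomial ℝ, ∀ᶠ t : ℝ in atTop, t ^ θ * g (t ^ (-s)) = P.eval t) →
    ∀ ρ : ℝ, 0 < ρ → ρ ≤ 1 → ∀ c : ℝ, 0 < c → ∃ (C : ℝ) (N₀ : ℕ), ∀ α : ℝ,
      (∀ q : ℕ, 1 ≤ q → c ≤ q * dist1 (q * α)) → ∀ (ζ : ℕ → ℝ) (N R : ℕ), N₀ ≤ N →
      (N : ℝ) ^ ρ ≤ R → R ≤ N →
      (((Ioc 0 R).filter fun n : ℕ => ∃ T : ℝ, 1 ≤ T ∧ C * Real.log N ≤ Real.log T ∧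
        Real.log T ≤ (Real.log N) ^ (1 + γ) ∧ ∀ q : ℕ, T ≤ q → (q : ℝ) ≤ T ^ (3 : ℝ) →
          (Real.log N) ^ (-2 + ε) < q * dist1 (q * α) *
            dist1 (q * (((N : ℝ) + n) ^ θ * g (((N : ℝ) + n) ^ (-s))) - ζ q)).card : ℝ) ≤
        R * (Real.log N) ^ (-γ) := by
  obtain ⟨γ₁, hγ₁0, hγ₁1, hfam⟩ := fam_bd'
  obtain ⟨γf, hγf⟩ : ∃ γf : ℝ, γf = min γ₁ (ε / 100) := ⟨_, rfl⟩
  have hf0 : 0 < γf := by rw [hγf]; exact lt_min hγ₁0 (by positivity)
  have hf1 : γf ≤ γ₁ := by rw [hγf]; exact min_le_left _ _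
  have hf2 : γf ≤ ε / 100 := by rw [hγf]; exact min_le_right _ _
  obtain ⟨γ, hγ⟩ : ∃ γ : ℝ, γ = γf / 4 := ⟨_, rfl⟩
  have hγ0 : 0 < γ := by rw [hγ]; positivity
  refine ⟨γ, hγ0, ?_⟩
  intro θ s hs0 hs1 g hg hpoly ρ hρ0 hρ1 c hc
  obtain ⟨b, A, hA, hb, ⟨m₀, hm₀, hθ, hlow⟩, hgerm⟩ := coeffs_comb (r := 1) θ s hs0 (fun _ => g)
    (fun _ => hg) (fun _ => 1) (by simpa using hpoly)
  simp only [Finset.univ_unique, Fin.default_eq_zero, Int.cast_one, one_mul, sum_singleton] at hgerm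
  obtain ⟨C₀, hC₀, N₁, hN₁⟩ := hfam γf hf0 hf1 ρ hρ0 hρ1 θ s hs0 hs1 b A hA hb m₀ hm₀ hθ hlow
  obtain ⟨t₀, ht₀⟩ := eventually_atTop.1 hgerm
  obtain ⟨N₂, hN₂⟩ := exists_nat_ge t₀
  -- eventual inequalities
  have ev1 : ∀ᶠ y : ℝ in atTop, 24 * y ^ (0 : ℝ) ≤ y ^ (1 - 10 * γf) := ev_pow _ _ _ (by linarith)
  have ev2 : ∀ᶠ y : ℝ in atTop, 12 * y ^ (1 - 10 * γf) ≤ y ^ (1 : ℝ) := ev_pow _ _ _ (by linarith)
  have ev3 : ∀ᶠ y : ℝ in atTop, 10 * y ^ (1 + γ) ≤ y ^ (1 + γf / 2) := ev_pow _ _ _ (by linarith)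
  have ev4 : ∀ᶠ y : ℝ in atTop, (144 / c) * y ^ (0 : ℝ) ≤ y ^ (ε / 2) := ev_pow _ _ _ (by linarith)
  have ev5 := ev_log 8 1 one_pos
  have ev6 : ∀ᶠ y : ℝ in atTop, 12 * y ^ (1 - 10 * γf) ≤ y ^ (1 - 9 * γf) := ev_pow _ _ _ (by linarith)
  have ev7 := ev_log 16 (1 - 9 * γf) (by linarith)
  have ev8 : ∀ᶠ y : ℝ in atTop, 24 * y ^ (0 : ℝ) ≤ y ^ (1 - 9 * γf) := ev_pow _ _ _ (by linarith)
  have ev9 : ∀ᶠ y : ℝ in atTop, (240000 : ℝ) * y ^ (0 : ℝ) ≤ y ^ (ε / 5) := ev_pow _ _ _ (by linarith)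
  have ev10 : ∀ᶠ y : ℝ in atTop, 8 * max 0 (Real.log (64 / c ^ 2)) + 64 ≤ y := eventually_ge_atTop _
  have hlog : Tendsto (fun N : ℕ => Real.log N) atTop atTop :=
    Real.tendsto_log_atTop.comp tendsto_natCast_atTop_atTop
  have hev := hlog.eventually (((((ev1.and ev2).and (ev3.and ev4)).and ((ev5.and ev6).and
    (ev7.and ev8))).and (ev9.and ev10)).and (eventually_ge_atTop 200))
  obtain ⟨N₀, hN₀⟩ := eventually_atTop.1 (hev.and (eventually_ge_atTop (max (max N₁ N₂) 2)))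
  refine ⟨2 * (C₀ + 2) + 4, N₀, ?_⟩
  intro α hbad ζ N R hN hRN hRN'
  obtain ⟨⟨⟨⟨⟨⟨q1, q2⟩, q3, q4⟩, ⟨q5, q6⟩, q7, q8⟩, q9, q10⟩, q11⟩, q12⟩ := hN₀ N hN
  have hc1 : c ≤ 1 := by
    have h1 := hbad 1 le_rfl
    have h2 := dist1_half (((1 : ℕ) : ℝ) * α)
    push_cast at h1 h2
    rw [one_mul] at h1
    linarith
  obtain ⟨y, hy⟩ : ∃ y : ℝ, y = Real.log N := ⟨_, rfl⟩
  simp only [← hy] at q1 q2 q3 q4 q5 q6 q7 q8 q9 q10 q11 ⊢
  have hNN₁ : N₁ ≤ N := ((le_max_left _ _).trans (le_max_left _ _)).trans q12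
  have hNN₂ : N₂ ≤ N := ((le_max_right _ _).trans (le_max_left _ _)).trans q12
  have hN2 : 2 ≤ N := (le_max_right _ _).trans q12
  have hN0 : (0 : ℝ) < N := by exact_mod_cast (by omega : 0 < N)
  rw [Real.rpow_zero, mul_one] at q1 q4 q8 q9
  rw [Real.rpow_one] at q2 q5
  have hy0 : 0 < y := by linarith only [q11]
  have hy1 : 1 ≤ y := by linarith only [q11]
  have hR0 : (0 : ℝ) ≤ R := Nat.cast_nonneg R
  have hlogy : 0 ≤ Real.log y := Real.log_nonneg hy1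
  -- the parameters
  obtain ⟨D, hD⟩ : ∃ D : ℕ, D = ⌊y ^ (1 - 10 * γf)⌋₊ := ⟨_, rfl⟩
  obtain ⟨K, hK⟩ : ∃ K : ℕ, K = ⌊y⌋₊ := ⟨_, rfl⟩
  obtain ⟨Y, hY⟩ : ∃ Y : ℕ, Y = ⌈y ^ (2 - ε / 2)⌉₊ := ⟨_, rfl⟩
  obtain ⟨w, hw⟩ : ∃ w : ℝ, w = y ^ (1 - 10 * γf) := ⟨_, rfl⟩
  obtain ⟨v, hv⟩ : ∃ v : ℝ, v = y ^ (1 - 9 * γf) := ⟨_, rfl⟩
  rw [← hw] at q1 q2 q6 hD
  rw [← hv] at q6 q7 q8
  have hw0 : 0 < w := by linarith only [q1]
  have hD1 : (D : ℝ) ≤ w := by rw [hD]; exact Nat.floor_le hw0.le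
  have hD2 : w - 1 < D := by rw [hD]; exact Nat.sub_one_lt_floor _
  have hD11 : 11 ≤ D := by
    have : (11 : ℝ) ≤ D := by linarith only [hD2, q1]
    exact_mod_cast this
  have hK1 : (K : ℝ) ≤ y := by rw [hK]; exact Nat.floor_le hy0.le
  have hK2 : y - 1 < K := by rw [hK]; exact Nat.sub_one_lt_floor _
  have hKpos : 1 ≤ K := by
    have : (1 : ℝ) ≤ K := by linarith only [hK2, q11]
    exact_mod_cast this
  have hY1 : y ^ (2 - ε / 2) ≤ Y := by rw [hY]; exact Nat.le_ceil _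
  have hYpos : 1 ≤ Y := by
    rw [hY]; exact Nat.one_le_iff_ne_zero.2 (Nat.ceil_pos.2 (by positivity)).ne'
  have hY0 : (0 : ℝ) < Y := by exact_mod_cast hYpos
  have hY2 : (Y : ℝ) ≤ 2 * y ^ (2 - ε / 2) := by
    have h1 : (Y : ℝ) < y ^ (2 - ε / 2) + 1 := by rw [hY]; exact Nat.ceil_lt_add_one (by positivity)
    have h2 : 1 ≤ y ^ (2 - ε / 2) := Real.one_le_rpow hy1 (by linarith only [hε1])
    linarith only [h1, h2]
  have hY3 : (Y : ℝ) ≤ 2 * y ^ 2 := by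
    have h1 : y ^ (2 - ε / 2) ≤ y ^ (2 : ℝ) := Real.rpow_le_rpow_of_exponent_le hy1 (by linarith only [hε0])
    rw [Real.rpow_two] at h1
    linarith only [h1, hY2]
  -- exponentials
  have h8D : (8 : ℝ) ^ D ≤ Real.exp (3 * w) := by
    have h1 : (8 : ℝ) ≤ Real.exp 3 := by
      have h2 : Real.exp 3 = Real.exp 1 ^ 3 := by rw [← Real.exp_nat_mul]; norm_num
      rw [h2]
      have h3 : (2 : ℝ) ^ 3 ≤ Real.exp 1 ^ 3 :=
        pow_le_pow_left₀ (by norm_num) (by linarith [Real.exp_one_gt_d9]) 3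
      refine le_trans (by norm_num) h3
    calc (8 : ℝ) ^ D ≤ Real.exp 3 ^ D := pow_le_pow_left₀ (by norm_num) h1 D
      _ = Real.exp (D * 3) := by rw [← Real.exp_nat_mul]
      _ ≤ _ := Real.exp_le_exp.2 (by linarith only [hD1])
  have h16D : (16 : ℝ) ^ D ≤ Real.exp (3 * w) := by
    have h1 : (16 : ℝ) ≤ Real.exp 3 := by
      have h2 : Real.exp 3 = Real.exp 1 ^ 3 := by rw [← Real.exp_nat_mul]; norm_num
      rw [h2]
      have h3 : (2.6 : ℝ) ^ 3 ≤ Real.exp 1 ^ 3 :=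
        pow_le_pow_left₀ (by norm_num) (by linarith [Real.exp_one_gt_d9]) 3
      refine le_trans (by norm_num) h3
    calc (16 : ℝ) ^ D ≤ Real.exp 3 ^ D := pow_le_pow_left₀ (by norm_num) h1 D
      _ = Real.exp (D * 3) := by rw [← Real.exp_nat_mul]
      _ ≤ _ := Real.exp_le_exp.2 (by linarith only [hD1])
  have h2K : (2 : ℝ) ^ K ≤ Real.exp y := by
    calc (2 : ℝ) ^ K ≤ Real.exp 1 ^ K := pow_le_pow_left₀ (by norm_num) (by linarith [Real.exp_one_gt_d9]) K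
      _ = Real.exp (K * 1) := by rw [← Real.exp_nat_mul]
      _ ≤ _ := Real.exp_le_exp.2 (by linarith only [hK1])
  have hYexp : (Y : ℝ) ≤ Real.exp (2 * Real.log y + 1) := by
    rw [Real.exp_add, show (2 : ℝ) * Real.log y = ((2 : ℕ) : ℝ) * Real.log y by norm_num, Real.exp_nat_mul,
      Real.exp_log hy0]
    have h1 : (2 : ℝ) ≤ Real.exp 1 := by linarith [Real.exp_one_gt_d9]
    nlinarith only [h1, hY3, sq_nonneg y]
  obtain ⟨lc, hlc⟩ : ∃ lc : ℝ, lc = max 0 (Real.log (64 / c ^ 2)) := ⟨_, rfl⟩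
  rw [← hlc] at q10
  have hlc0 : 0 ≤ lc := by rw [hlc]; exact le_max_left _ _
  have h64 : 64 / c ^ 2 ≤ Real.exp lc := by
    rw [← Real.log_le_iff_le_exp (by positivity), hlc]
    exact le_max_right _ _
  have hbig : 64 / c ^ 2 * (8 : ℝ) ^ D * Y ≤ Real.exp y := by
    calc 64 / c ^ 2 * (8 : ℝ) ^ D * Y ≤ Real.exp lc * Real.exp (3 * w) * Real.exp (2 * Real.log y + 1) := by
          gcongr
      _ = Real.exp (lc + 3 * w + (2 * Real.log y + 1)) := by rw [Real.exp_add (lc + 3 * w), Real.exp_add lc]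
      _ ≤ _ := by
          apply Real.exp_le_exp.2
          linarith only [q2, q5, q10, hlc0, hy0]
  have hc2 : 0 < c ^ 2 := by positivity
  -- the points
  obtain ⟨β, hβ⟩ : ∃ β : ℕ → ℝ, β = fun n : ℕ => ((N : ℝ) + n) ^ θ * g (((N : ℝ) + n) ^ (-s)) := ⟨_, rfl⟩
  have hβg : ∀ n : ℕ, β n = germ θ s b ((N : ℝ) + n) := by
    intro n
    rw [hβ]
    apply ht₀
    have h2 : (N₂ : ℝ) ≤ N := by exact_mod_cast hNN₂
    have h3 : (0 : ℝ) ≤ n := Nat.cast_nonneg n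
    linarith
  obtain ⟨W, hW⟩ : ∃ W : ℝ, W = R * Real.exp (-(2 * v)) := ⟨_, rfl⟩
  have hW0 : 0 ≤ W := by rw [hW]; positivity
  have hexp : ∀ F : ℝ, Real.exp (y * C₀) ≤ |F| → |F| ≤ 2 * Real.exp (y ^ (1 + γf / 2)) →
      ‖∑ n ∈ Ioc 0 R, e (F * β n)‖ ≤ W := by
    intro F hF1 hF2
    have h1 := hN₁ N R F hNN₁ hRN hRN' (by
      rw [Real.rpow_def_of_pos hN0, ← hy]; exact hF1) (by rw [← hy]; exact hF2)
    rw [← hy, ← hv] at h1
    rw [hW]
    refine le_trans (le_of_eq ?_) h1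
    have h2 : ∑ n ∈ Ioc 0 R, e (F * β n) = ∑ n ∈ Ioc 0 R, e (F * germ θ s b ((N : ℝ) + n)) :=
      sum_congr rfl fun n _ => by rw [hβg]
    rw [h2]
  -- one scale
  have scale : ∀ S₀ : ℝ, (C₀ + 2) * y ≤ S₀ → S₀ ≤ 2 * y ^ (1 + γ) →
      (((Ioc 0 R).filter fun n : ℕ => ∀ q : ℕ, ⌈Real.exp S₀⌉₊ ≤ q → q ≤ 6 * 2 ^ D * 2 ^ K * ⌈Real.exp S₀⌉₊ →
        144 / (c * Y) < q * dist1 (q * α) * dist1 (q * β n - ζ q)).card : ℝ) ≤
      40000 * R * y ^ (-(2 / 5) * ε) := by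
    intro S₀ hS1 hS2
    obtain ⟨X0, hX0⟩ : ∃ X0 : ℕ, X0 = ⌈Real.exp S₀⌉₊ := ⟨_, rfl⟩
    rw [← hX0]
    have hX1 : Real.exp S₀ ≤ X0 := by rw [hX0]; exact Nat.le_ceil _
    have hX2 : (X0 : ℝ) ≤ Real.exp (S₀ + 1) := by
      have h1 : (X0 : ℝ) < Real.exp S₀ + 1 := by rw [hX0]; exact Nat.ceil_lt_add_one (Real.exp_pos _).le
      rw [Real.exp_add]
      have h2 : 1 ≤ Real.exp S₀ := Real.one_le_exp (by nlinarith only [hS1, hC₀, hy0])
      have h3 : (2 : ℝ) ≤ Real.exp 1 := by linarith [Real.exp_one_gt_d9]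
      nlinarith only [h1, h2, h3]
    have hX0pos : (0 : ℝ) < X0 := lt_of_lt_of_le (Real.exp_pos _) hX1
    have hX0n : 1 ≤ X0 := by exact_mod_cast hX0pos
    have hX3 : Real.exp (y * C₀) * Real.exp y * Real.exp y ≤ X0 := by
      refine le_trans (le_of_eq ?_) ((Real.exp_le_exp.2 hS1).trans hX1)
      rw [← Real.exp_add, ← Real.exp_add]; congr 1; ring
    have hX4 : Real.exp (y * C₀) * Real.exp y ≤ X0 := by
      refine le_trans ?_ hX3
      exact le_mul_of_one_le_right (by positivity) (Real.one_le_exp hy0.le)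
    have hsm : 32 * (8 : ℝ) ^ D * Y < c * X0 := by
      have h1 : 64 * (8 : ℝ) ^ D * Y ≤ c ^ 2 * Real.exp y := by
        have h2 := mul_le_mul_of_nonneg_left hbig hc2.le
        have h3 : c ^ 2 * (64 / c ^ 2 * (8 : ℝ) ^ D * Y) = 64 * (8 : ℝ) ^ D * Y := by field_simp
        rw [h3] at h2
        exact h2
      have h2 : Real.exp y ≤ X0 := by
        refine le_trans ?_ hX4
        exact le_mul_of_one_le_left (Real.exp_pos _).le (Real.one_le_exp (by positivity))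
      have h3 : c ^ 2 * Real.exp y ≤ c * X0 := by
        calc c ^ 2 * Real.exp y = c * (c * Real.exp y) := by ring
          _ ≤ c * (1 * X0) := by gcongr
          _ = c * X0 := by ring
      have h4 : 0 < 32 * (8 : ℝ) ^ D * Y := by positivity
      linarith only [h1, h3, h4]
    have hmain := one_scale α c hc hc1 hbad K D Y X0 hKpos hD11 hYpos hX0n hsm (Ioc 0 R) β ζ W hW0 (by
      intro m hm1 hm2
      apply hexp
      · refine le_trans ?_ hm1
        rw [le_div_iff₀ (by positivity)]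
        have h2 := mul_le_mul_of_nonneg_left hbig hc2.le
        have h3 : c ^ 2 * (64 / c ^ 2 * (8 : ℝ) ^ D * Y) = 64 * (8 : ℝ) ^ D * Y := by field_simp
        rw [h3] at h2
        have h4 : 0 < (8 : ℝ) ^ D * Y := by positivity
        calc Real.exp (y * C₀) * (32 * (8 : ℝ) ^ D * Y) ≤ Real.exp (y * C₀) * (c ^ 2 * Real.exp y) := by
              apply mul_le_mul_of_nonneg_left _ (Real.exp_pos _).le
              linarith only [h2, h4]
          _ = c ^ 2 * (Real.exp (y * C₀) * Real.exp y) := by ring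
          _ ≤ c ^ 2 * X0 := by gcongr
      · refine hm2.trans ?_
        have h1 : 24 * (8 : ℝ) ^ D * Y ≤ Real.exp y := by
          refine le_trans ?_ hbig
          have h2 : (24 : ℝ) ≤ 64 / c ^ 2 := by
            rw [le_div_iff₀ hc2]
            have : c ^ 2 ≤ 1 := pow_le_one₀ hc.le hc1
            linarith only [this]
          gcongr
        calc 24 * (8 : ℝ) ^ D * Y * (2 ^ K * X0) ≤ Real.exp y * (Real.exp y * Real.exp (S₀ + 1)) := by gcongr
          _ = Real.exp (y + (y + (S₀ + 1))) := by rw [Real.exp_add y (y + (S₀ + 1)), Real.exp_add y (S₀ + 1)]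
          _ ≤ Real.exp (y ^ (1 + γf / 2)) := by
              apply Real.exp_le_exp.2
              have h3 : y ≤ y ^ (1 + γ) := by
                calc y = y ^ (1 : ℝ) := (Real.rpow_one y).symm
                  _ ≤ _ := Real.rpow_le_rpow_of_exponent_le hy1 (by linarith only [hγ0])
              linarith only [h3, hS2, q3, hy1]
          _ ≤ _ := by linarith only [Real.exp_pos (y ^ (1 + γf / 2))])
    refine hmain.trans ?_
    rw [Nat.card_Ioc, Nat.sub_zero]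
    -- the main term
    have hDw : w / 2 ≤ (D : ℝ) - 10 := by linarith only [hD2, q1]
    have hKy : y / 2 ≤ K := by linarith only [hK2, q11]
    have p1 : 4000 * (R : ℝ) * Y / (K * ((D : ℝ) - 10)) ≤ 32000 * R * y ^ (-(2 / 5) * ε) := by
      calc 4000 * (R : ℝ) * Y / (K * ((D : ℝ) - 10)) ≤ 4000 * (R : ℝ) * (2 * y ^ (2 - ε / 2)) / ((y / 2) * (w / 2)) := by
            gcongr
        _ = 32000 * R * (y ^ (2 - ε / 2) / (y * w)) := by field_simp; ring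
        _ ≤ 32000 * R * y ^ (-(2 / 5) * ε) := by
            apply mul_le_mul_of_nonneg_left _ (by positivity)
            rw [div_le_iff₀ (by positivity), hw]
            have h1 : y * y ^ (1 - 10 * γf) = y ^ (2 - 10 * γf) := by
              nth_rw 1 [← Real.rpow_one y]
              rw [← Real.rpow_add hy0]; congr 1; ring
            rw [h1, ← Real.rpow_add hy0]
            exact Real.rpow_le_rpow_of_exponent_le hy1 (by linarith only [hf2])
    have p2 : 10000 * (16 : ℝ) ^ D * Y ^ 2 * W ≤ 8000 * R * y ^ (-(2 / 5) * ε) := by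
      have h1 : (10000 : ℝ) ≤ Real.exp 10 := by
        have h2 : Real.exp 10 = Real.exp 1 ^ 10 := by rw [← Real.exp_nat_mul]; norm_num
        rw [h2]
        have h3 : (2.6 : ℝ) ^ 10 ≤ Real.exp 1 ^ 10 :=
          pow_le_pow_left₀ (by norm_num) (by linarith [Real.exp_one_gt_d9]) 10
        refine le_trans (by norm_num) h3
      have h2 : (Y : ℝ) ^ 2 ≤ Real.exp (4 * Real.log y + 2) := by
        calc (Y : ℝ) ^ 2 ≤ Real.exp (2 * Real.log y + 1) ^ 2 := pow_le_pow_left₀ hY0.le hYexp 2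
          _ = _ := by rw [← Real.exp_nat_mul]; congr 1; push_cast; ring
      have h3 : Real.exp (-Real.log y) ≤ y ^ (-(2 / 5) * ε) := by
        rw [Real.rpow_def_of_pos hy0]
        apply Real.exp_le_exp.2
        nlinarith only [hlogy, hε0, hε1]
      calc 10000 * (16 : ℝ) ^ D * Y ^ 2 * W ≤ Real.exp 10 * Real.exp (3 * w) * Real.exp (4 * Real.log y + 2) *
            (R * Real.exp (-(2 * v))) := by rw [hW]; gcongr
        _ = R * Real.exp (10 + 3 * w + (4 * Real.log y + 2) + -(2 * v)) := by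
            rw [Real.exp_add (10 + 3 * w + (4 * Real.log y + 2)), Real.exp_add (10 + 3 * w), Real.exp_add 10]; ring
        _ ≤ R * Real.exp (-Real.log y) := by
            apply mul_le_mul_of_nonneg_left _ hR0
            apply Real.exp_le_exp.2
            linarith only [q6, q7, q8, hlogy, hw0]
        _ ≤ R * y ^ (-(2 / 5) * ε) := by gcongr
        _ ≤ _ := by
            have : 0 ≤ (R : ℝ) * y ^ (-(2 / 5) * ε) := by positivity
            linarith only [this]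
    linarith only [p1, p2]
  -- all scales
  let sc : ℕ → ℝ := fun i => (C₀ + 2) * y * (6 / 5) ^ i
  have hsc0 : 0 < (C₀ + 2) * y := by positivity
  obtain ⟨L, hL⟩ : ∃ L : ℕ, L = ⌊5 * y ^ γ⌋₊ + 2 := ⟨_, rfl⟩
  have hyγ : 1 ≤ y ^ γ := Real.one_le_rpow hy1 hγ0.le
  have hLr : (L : ℝ) ≤ 7 * y ^ γ := by
    have h1 : (⌊5 * y ^ γ⌋₊ : ℝ) ≤ 5 * y ^ γ := Nat.floor_le (by positivity)
    rw [hL]; push_cast
    linarith only [h1, hyγ]
  obtain ⟨I, hI⟩ : ∃ I : Finset ℕ, I = (range L).filter fun i : ℕ => sc i ≤ 2 * y ^ (1 + γ) := ⟨_, rfl⟩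
  have hIcard : (I.card : ℝ) ≤ 7 * y ^ γ := by
    refine le_trans ?_ hLr
    rw [hI]
    exact_mod_cast (card_filter_le _ _).trans (by rw [card_range])
  have hsub : ((Ioc 0 R).filter fun n : ℕ => ∃ T : ℝ, 1 ≤ T ∧ (2 * (C₀ + 2) + 4) * y ≤ Real.log T ∧
        Real.log T ≤ y ^ (1 + γ) ∧ ∀ q : ℕ, T ≤ q → (q : ℝ) ≤ T ^ (3 : ℝ) →
          y ^ (-2 + ε) < q * dist1 (q * α) *
            dist1 (q * (((N : ℝ) + n) ^ θ * g (((N : ℝ) + n) ^ (-s))) - ζ q)) ⊆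
      I.biUnion fun i => (Ioc 0 R).filter fun n : ℕ => ∀ q : ℕ, ⌈Real.exp (sc i)⌉₊ ≤ q →
        q ≤ 6 * 2 ^ D * 2 ^ K * ⌈Real.exp (sc i)⌉₊ →
        144 / (c * Y) < q * dist1 (q * α) * dist1 (q * β n - ζ q) := by
    intro n hn
    obtain ⟨hn0, T, hT1, hT2, hT3, hz⟩ := mem_filter.1 hn
    have hT0 : 0 < T := by linarith only [hT1]
    obtain ⟨t, ht⟩ : ∃ t : ℝ, t = Real.log T := ⟨_, rfl⟩
    rw [← ht] at hT2 hT3
    have ht0 : 0 < t := by nlinarith only [hT2, hC₀, hy0]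
    have hTe : T = Real.exp t := by rw [ht, Real.exp_log hT0]
    -- the index
    have hex : ∃ i : ℕ, t ≤ sc i := by
      obtain ⟨i, hi⟩ := pow_unbounded_of_one_lt (t / ((C₀ + 2) * y)) (by norm_num : (1 : ℝ) < 6 / 5)
      refine ⟨i, ?_⟩
      rw [div_lt_iff₀ hsc0] at hi
      simp only [sc]
      linarith only [hi]
    obtain ⟨i, hi⟩ : ∃ i : ℕ, i = Nat.find hex := ⟨_, rfl⟩
    have hi1 : t ≤ sc i := by rw [hi]; exact Nat.find_spec hex
    have hi0 : i ≠ 0 := by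
      intro h0
      rw [h0] at hi1
      simp only [sc, pow_zero, mul_one] at hi1
      nlinarith only [hi1, hT2, hC₀, hy0]
    have hi2 : sc (i - 1) < t := by
      have h1 := Nat.find_min hex (m := i - 1) (by omega)
      push Not at h1
      exact h1
    have hi3 : sc i = 6 / 5 * sc (i - 1) := by
      simp only [sc]
      have h1 : (6 / 5 : ℝ) ^ i = (6 / 5) ^ (i - 1) * (6 / 5) := by
        rw [← pow_succ]; congr 1; omega
      rw [h1]; ring
    have hi4 : sc i ≤ 6 / 5 * t := by rw [hi3]; linarith only [hi2]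
    have hyp : 0 < y ^ (1 + γ) := by positivity
    rw [mem_biUnion]
    refine ⟨i, ?_, ?_⟩
    · rw [hI, mem_filter, mem_range]
      refine ⟨?_, by linarith only [hi4, hT3, hyp]⟩
      -- Bernoulli
      have h1 := one_add_mul_le_pow (show (-2 : ℝ) ≤ 1 / 5 by norm_num) (i - 1)
      have h2 : (1 + 1 / 5 : ℝ) ^ (i - 1) = (6 / 5) ^ (i - 1) := by norm_num
      rw [h2] at h1
      have h3 : (C₀ + 2) * y * (6 / 5) ^ (i - 1) < y ^ (1 + γ) := lt_of_lt_of_le hi2 hT3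
      have h4 : y ^ (1 + γ) = y * y ^ γ := by
        nth_rw 2 [← Real.rpow_one y]
        rw [← Real.rpow_add hy0]
      have h5 : (6 / 5 : ℝ) ^ (i - 1) < y ^ γ := by
        rw [h4] at h3
        have h6 : y * (6 / 5 : ℝ) ^ (i - 1) ≤ (C₀ + 2) * y * (6 / 5) ^ (i - 1) := by
          have h7 : 0 ≤ y * (6 / 5 : ℝ) ^ (i - 1) := by positivity
          nlinarith only [h7, hC₀]
        have h7 : y * (6 / 5 : ℝ) ^ (i - 1) < y * y ^ γ := lt_of_le_of_lt h6 h3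
        exact lt_of_mul_lt_mul_left h7 hy0.le
      have h6 : ((i - 1 : ℕ) : ℝ) < 5 * y ^ γ := by linarith only [h1, h5]
      have h7 : i - 1 ≤ ⌊5 * y ^ γ⌋₊ := Nat.le_floor h6.le
      omega
    · rw [mem_filter]
      refine ⟨hn0, fun q hq1 hq2 => ?_⟩
      have h1 : T ≤ q := by
        rw [hTe]
        refine (Real.exp_le_exp.2 hi1).trans ((Nat.le_ceil _).trans ?_)
        exact_mod_cast hq1
      have h2 : (q : ℝ) ≤ T ^ (3 : ℝ) := by
        have h3 : (q : ℝ) ≤ 6 * 2 ^ D * 2 ^ K * (⌈Real.exp (sc i)⌉₊ : ℝ) := by exact_mod_cast hq2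
        have h4 : (⌈Real.exp (sc i)⌉₊ : ℝ) ≤ Real.exp (sc i + 1) := by
          have h5 := Nat.ceil_lt_add_one (Real.exp_pos (sc i)).le
          rw [Real.exp_add]
          have h6 : 1 ≤ Real.exp (sc i) := Real.one_le_exp (by linarith only [hi1, ht0])
          have h7 : (2 : ℝ) ≤ Real.exp 1 := by linarith [Real.exp_one_gt_d9]
          nlinarith only [h5, h6, h7]
        have h5 : (6 : ℝ) ≤ Real.exp 2 := by
          have h6 : Real.exp 2 = Real.exp 1 ^ 2 := by rw [← Real.exp_nat_mul]; norm_num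
          rw [h6]
          have h7 : (2.6 : ℝ) ^ 2 ≤ Real.exp 1 ^ 2 :=
            pow_le_pow_left₀ (by norm_num) (by linarith [Real.exp_one_gt_d9]) 2
          refine le_trans (by norm_num) h7
        have h6 : (2 : ℝ) ^ D ≤ Real.exp w := by
          calc (2 : ℝ) ^ D ≤ Real.exp 1 ^ D :=
                pow_le_pow_left₀ (by norm_num) (by linarith [Real.exp_one_gt_d9]) D
            _ = Real.exp (D * 1) := by rw [← Real.exp_nat_mul]
            _ ≤ _ := Real.exp_le_exp.2 (by linarith only [hD1])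
        calc (q : ℝ) ≤ 6 * 2 ^ D * 2 ^ K * (⌈Real.exp (sc i)⌉₊ : ℝ) := h3
          _ ≤ Real.exp 2 * Real.exp w * Real.exp y * Real.exp (sc i + 1) := by gcongr
          _ = Real.exp (2 + w + y + (sc i + 1)) := by
              rw [Real.exp_add (2 + w + y), Real.exp_add (2 + w), Real.exp_add 2]
          _ ≤ T ^ (3 : ℝ) := by
              rw [hTe, ← Real.exp_mul]
              apply Real.exp_le_exp.2
              nlinarith only [hi4, hT2, hC₀, hy0, q2, q11]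
      have h3 := hz q h1 h2
      have h4 : 144 / (c * Y) ≤ y ^ (-2 + ε) := by
        have h5 : 144 / (c * Y) ≤ 144 / (c * y ^ (2 - ε / 2)) := by gcongr
        refine h5.trans ?_
        rw [div_le_iff₀ (by positivity)]
        have h6 : y ^ (-2 + ε) * (c * y ^ (2 - ε / 2)) = c * y ^ (ε / 2) := by
          rw [mul_left_comm, ← Real.rpow_add hy0]
          congr 2; ring
        rw [h6]
        have h7 := mul_le_mul_of_nonneg_left q4 hc.le
        have h8 : c * (144 / c) = 144 := by field_simp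
        linarith only [h7, h8]
      have h5 : β n = ((N : ℝ) + n) ^ θ * g (((N : ℝ) + n) ^ (-s)) := by rw [hβ]
      rw [← h5] at h3
      linarith only [h3, h4]
  refine le_trans (Nat.cast_le.2 (card_le_card hsub)) ?_
  refine le_trans (Nat.cast_le.2 card_biUnion_le) ?_
  push_cast
  calc ∑ i ∈ I, (((Ioc 0 R).filter fun n : ℕ => ∀ q : ℕ, ⌈Real.exp (sc i)⌉₊ ≤ q →
        q ≤ 6 * 2 ^ D * 2 ^ K * ⌈Real.exp (sc i)⌉₊ →
        144 / (c * Y) < q * dist1 (q * α) * dist1 (q * β n - ζ q)).card : ℝ) ≤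
      ∑ i ∈ I, 40000 * R * y ^ (-(2 / 5) * ε) := by
        refine sum_le_sum fun i hi => ?_
        rw [hI, mem_filter] at hi
        refine scale (sc i) ?_ hi.2
        simp only [sc]
        exact le_mul_of_one_le_right hsc0.le (one_le_pow₀ (by norm_num))
    _ = I.card * (40000 * R * y ^ (-(2 / 5) * ε)) := by rw [sum_const, nsmul_eq_mul]
    _ ≤ 7 * y ^ γ * (40000 * R * y ^ (-(2 / 5) * ε)) := by gcongr
    _ ≤ R * y ^ (-γ) := by
        have h1 : y ^ (ε / 5) * y ^ (ε / 20) * (y ^ γ * y ^ (-(2 / 5) * ε)) ≤ y ^ (-γ) := by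
          rw [← Real.rpow_add hy0, ← Real.rpow_add hy0, ← Real.rpow_add hy0]
          exact Real.rpow_le_rpow_of_exponent_le hy1 (by linarith only [hγ, hf2, hε0])
        have h2 : (280000 : ℝ) ≤ y ^ (ε / 5) * y ^ (ε / 20) := by
          have h3 : (240000 : ℝ) ^ (1 / 4 : ℝ) ≤ (y ^ (ε / 5)) ^ (1 / 4 : ℝ) :=
            Real.rpow_le_rpow (by norm_num) q9 (by norm_num)
          rw [← Real.rpow_mul hy0.le, show ε / 5 * (1 / 4) = ε / 20 by ring] at h3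
          have h4 : (2 : ℝ) ≤ (240000 : ℝ) ^ (1 / 4 : ℝ) := by
            have h5 : ((16 : ℝ)) ^ (1 / 4 : ℝ) ≤ (240000 : ℝ) ^ (1 / 4 : ℝ) :=
              Real.rpow_le_rpow (by norm_num) (by norm_num) (by norm_num)
            have h6 : (16 : ℝ) ^ (1 / 4 : ℝ) = 2 := by
              rw [show (16 : ℝ) = 2 ^ (4 : ℝ) by norm_num, ← Real.rpow_mul (by norm_num)]
              norm_num
            rw [h6] at h5
            exact h5
          nlinarith only [q9, h3, h4]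
        have h3 : 0 ≤ y ^ γ * y ^ (-(2 / 5) * ε) := by positivity
        calc 7 * y ^ γ * (40000 * R * y ^ (-(2 / 5) * ε)) = R * (280000 * (y ^ γ * y ^ (-(2 / 5) * ε))) := by ring
          _ ≤ R * (y ^ (ε / 5) * y ^ (ε / 20) * (y ^ γ * y ^ (-(2 / 5) * ε))) := by gcongr
          _ ≤ R * y ^ (-γ) := by gcongr

end Pool.Agent.Helper478.Lit.Sq
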