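import Pool.Agent.Helper478_Lit.PC
import Pool.Agent.Helper478_Lit.B

/-!
# Small arcs: Chernoff bounds for lacunary sequences
-/

set_option autoImplicit false

namespace Pool.Agent.Helper478.Lit

open Finset Filter
open Pool.Agent.H469R2.NK (e norm_e e_add e_zero conj_e)
open Pool.Agent.Helper478.Kwise

lemma TPm_smul {D : ℕ} {A : ℝ} {m : ℂ} {f : ℝ → ℂ} (hf : TPm D A m f) (c : ℂ) :
    TPm D (‖c‖ * A) (c * m) (fun x => c * f x) := by
  obtain ⟨ι, _, a, Z, h1, h2, h3⟩ := hf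
  refine ⟨ι, inferInstance, fun i => c * a i, Z, h1, ?_, ?_⟩
  · simp only [norm_mul]
    rw [← mul_sum]
    exact mul_le_mul_of_nonneg_left h2 (norm_nonneg _)
  · intro x
    beta_reduce
    rw [h3, mul_add, mul_sum]
    congr 1
    refine sum_congr rfl fun i _ => ?_
    ring

lemma ind_cases (α β x : ℝ) : ind α β x = 0 ∨ ind α β x = 1 := by
  unfold ind; split_ifs <;> simp

/-- upper tail -/
lemma chernU (k D : ℕ) (α β : ℝ) (U : ℝ → ℝ) (m B : ℝ) (hU : ∀ x, ind α β x ≤ U x) (hm0 : 0 ≤ m)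
    (hm2 : m ≤ 2) (hT : TPm D B (m : ℂ) (fun x => (U x : ℂ))) {σ : Type} (S : Finset σ) (ν : σ → ℝ)
    (u : Fin k → ℝ) (W : ℝ) (hW0 : 0 ≤ W)
    (hW : ∀ Z : Fin k → ℤ, Z ≠ 0 → (∀ j, |Z j| ≤ D) → ‖∑ n ∈ S, e ((∑ j, (Z j : ℝ) * u j) * ν n)‖ ≤ W)
    (τ : ℝ) (hτ : 0 ≤ τ) :
    ((S.filter fun n => k * m + τ * (1 + √(k * m)) < ∑ j, ind α β (u j * ν n)).card : ℝ) ≤
      S.card * Real.exp (1 - τ) + (5 + 2 * B) ^ k * W := by
  have hB0 := hT.nonneg
  have hkm : 0 ≤ (k : ℝ) * m := by positivity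
  have hr0 : 0 ≤ √(k * m) := Real.sqrt_nonneg _
  have hr2 : √(k * m) ^ 2 = k * m := Real.sq_sqrt hkm
  obtain ⟨r, hr⟩ : ∃ r : ℝ, r = √(k * m) := ⟨_, rfl⟩
  rw [← hr] at hr0 hr2 ⊢
  obtain ⟨lam, hlam⟩ : ∃ lam : ℝ, lam = 1 / (1 + r) := ⟨_, rfl⟩
  have hl0 : 0 < lam := by rw [hlam]; positivity
  have hl1 : lam ≤ 1 := by rw [hlam, div_le_one (by positivity)]; linarith
  have hlr : lam * (1 + r) = 1 := by rw [hlam]; field_simp
  obtain ⟨c, hc⟩ : ∃ c : ℝ, c = Real.exp lam - 1 := ⟨_, rfl⟩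
  have hc0 : 0 ≤ c := by rw [hc]; linarith [Real.add_one_le_exp lam]
  have hc1 : c ≤ lam + lam ^ 2 := by
    have := (abs_le.1 (Real.abs_exp_sub_one_sub_id_le (x := lam) (by rw [abs_of_pos hl0]; exact hl1))).2
    rw [hc]; linarith
  have hc2 : c ≤ 2 := by nlinarith
  have hF : TPm D (c * B) ((1 + c * m : ℝ) : ℂ) (fun x => ((1 + c * U x : ℝ) : ℂ)) := by
    have h2 := (TPm.const D 1).add (TPm_smul hT (c : ℂ))
    have h3 : (1 : ℂ) + (c : ℂ) * (m : ℂ) = ((1 + c * m : ℝ) : ℂ) := by push_cast; ring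
    rw [h3, zero_add, Complex.norm_real, Real.norm_of_nonneg hc0] at h2
    convert h2 using 2 with x
    push_cast; ring
  have h4 := prod_bd k D (fun x => 1 + c * U x) (1 + c * m) _ hF S ν u W hW0 hW
  have hexp : ∀ x, Real.exp (lam * ind α β x) ≤ 1 + c * U x := by
    intro x
    have := mul_le_mul_of_nonneg_left (hU x) hc0
    rcases ind_cases α β x with h | h
    · rw [h, mul_zero, Real.exp_zero]
      rw [h] at this; linarith
    · rw [h, mul_one]
      rw [h] at this; rw [hc] at this ⊢; linarith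
  obtain ⟨A, hA⟩ : ∃ A : ℝ, A = k * m + τ * (1 + r) := ⟨_, rfl⟩
  rw [← hA]
  have hA0 : 0 ≤ A := by rw [hA]; positivity
  have h5 : ((S.filter fun n => A < ∑ j, ind α β (u j * ν n)).card : ℝ) * Real.exp (lam * A) ≤
      ∑ n ∈ S, ∏ j, (1 + c * U (u j * ν n)) := by
    calc ((S.filter fun n => A < ∑ j, ind α β (u j * ν n)).card : ℝ) * Real.exp (lam * A) =
        ∑ n ∈ S.filter (fun n => A < ∑ j, ind α β (u j * ν n)), Real.exp (lam * A) := by
          rw [sum_const, nsmul_eq_mul]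
      _ ≤ ∑ n ∈ S.filter (fun n => A < ∑ j, ind α β (u j * ν n)), ∏ j, (1 + c * U (u j * ν n)) := by
          refine sum_le_sum fun n hn => ?_
          have h6 := (mem_filter.1 hn).2
          calc Real.exp (lam * A) ≤ Real.exp (lam * ∑ j, ind α β (u j * ν n)) := by
                apply Real.exp_le_exp.2
                exact mul_le_mul_of_nonneg_left h6.le hl0.le
            _ = ∏ j, Real.exp (lam * ind α β (u j * ν n)) := by
                rw [mul_sum, Real.exp_sum]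
            _ ≤ _ := prod_le_prod (fun _ _ => (Real.exp_pos _).le) fun j _ => hexp _
      _ ≤ _ := by
          apply sum_le_sum_of_subset_of_nonneg (filter_subset _ _)
          intro n _ _
          exact prod_nonneg fun j _ => (Real.exp_pos _).le.trans (hexp _)
  have h6 := (abs_le.1 h4).2
  have h7 : (1 + c * m) ^ k ≤ Real.exp (k * m * (lam + lam ^ 2)) := by
    have h8 : 1 + c * m ≤ Real.exp (m * (lam + lam ^ 2)) := by
      have := Real.add_one_le_exp (m * (lam + lam ^ 2))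
      have := mul_le_mul_of_nonneg_left hc1 hm0
      linarith
    calc (1 + c * m) ^ k ≤ Real.exp (m * (lam + lam ^ 2)) ^ k := pow_le_pow_left₀ (by positivity) h8 k
      _ = _ := by rw [← Real.exp_nat_mul]; congr 1; ring
  have h9 : (|1 + c * m| + c * B) ^ k * W ≤ (5 + 2 * B) ^ k * W := by
    apply mul_le_mul_of_nonneg_right _ hW0
    apply pow_le_pow_left₀ (by positivity)
    rw [abs_of_nonneg (by positivity)]
    nlinarith
  have hS0 : (0 : ℝ) ≤ S.card := Nat.cast_nonneg _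
  have h10 : ((S.filter fun n => A < ∑ j, ind α β (u j * ν n)).card : ℝ) * Real.exp (lam * A) ≤
      S.card * Real.exp (k * m * (lam + lam ^ 2)) + (5 + 2 * B) ^ k * W := by
    have := mul_le_mul_of_nonneg_left h7 hS0
    linarith
  have h11 : Real.exp (k * m * (lam + lam ^ 2)) ≤ Real.exp (1 - τ) * Real.exp (lam * A) := by
    rw [← Real.exp_add]
    apply Real.exp_le_exp.2
    have e1 : lam * A = lam * (k * m) + τ * (lam * (1 + r)) := by rw [hA]; ring
    rw [e1, hlr]
    have e2 : k * m * lam ^ 2 ≤ 1 := by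
      have e3 : k * m * lam ^ 2 = (lam * r) ^ 2 := by rw [← hr2]; ring
      have e4 : lam * r ≤ 1 := by linarith
      have e5 : 0 ≤ lam * r := by positivity
      rw [e3]
      nlinarith
    linarith
  have h12 : (5 + 2 * B) ^ k * W ≤ (5 + 2 * B) ^ k * W * Real.exp (lam * A) := by
    have e1 : 1 ≤ Real.exp (lam * A) := Real.one_le_exp (by positivity)
    have e2 : 0 ≤ (5 + 2 * B) ^ k * W := by positivity
    nlinarith
  have h13 : ((S.filter fun n => A < ∑ j, ind α β (u j * ν n)).card : ℝ) * Real.exp (lam * A) ≤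
      (S.card * Real.exp (1 - τ) + (5 + 2 * B) ^ k * W) * Real.exp (lam * A) := by
    have := mul_le_mul_of_nonneg_left h11 hS0
    linarith
  exact le_of_mul_le_mul_right h13 (Real.exp_pos _)

/-- lower tail -/
lemma chernL (k D : ℕ) (α β : ℝ) (L : ℝ → ℝ) (m B : ℝ) (hL : ∀ x, L x ≤ ind α β x)
    (hm1 : m ≤ 1) (hT : TPm D B (m : ℂ) (fun x => (L x : ℂ))) {σ : Type} (S : Finset σ) (ν : σ → ℝ)
    (u : Fin k → ℝ) (W : ℝ) (hW0 : 0 ≤ W)
    (hW : ∀ Z : Fin k → ℤ, Z ≠ 0 → (∀ j, |Z j| ≤ D) → ‖∑ n ∈ S, e ((∑ j, (Z j : ℝ) * u j) * ν n)‖ ≤ W)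
    (τ : ℝ) (hτ : 0 ≤ τ) :
    ((S.filter fun n => ∑ j, ind α β (u j * ν n) < k * m - τ * (1 + √(k * m))).card : ℝ) ≤
      S.card * Real.exp (1 - τ) + (3 * (1 + B)) ^ k * W := by
  have hB0 := hT.nonneg
  have hS0 : (0 : ℝ) ≤ S.card := Nat.cast_nonneg _
  rcases le_or_gt m 0 with hm0 | hm0
  · rw [filter_eq_empty_iff.2]
    · rw [card_empty, Nat.cast_zero]; positivity
    · intro n _
      rw [not_lt]
      have h1 : 0 ≤ ∑ j, ind α β (u j * ν n) := sum_nonneg fun j _ => ind_nonneg _ _ _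
      have h2 : (k : ℝ) * m ≤ 0 := mul_nonpos_of_nonneg_of_nonpos (Nat.cast_nonneg k) hm0
      have h3 : 0 ≤ τ * (1 + √(k * m)) := by positivity
      linarith
  have hkm : 0 ≤ (k : ℝ) * m := by positivity
  have hr0 : 0 ≤ √(k * m) := Real.sqrt_nonneg _
  have hr2 : √(k * m) ^ 2 = k * m := Real.sq_sqrt hkm
  obtain ⟨r, hr⟩ : ∃ r : ℝ, r = √(k * m) := ⟨_, rfl⟩
  rw [← hr] at hr0 hr2 ⊢
  obtain ⟨lam, hlam⟩ : ∃ lam : ℝ, lam = 1 / (1 + r) := ⟨_, rfl⟩
  have hl0 : 0 < lam := by rw [hlam]; positivity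
  have hl1 : lam ≤ 1 := by rw [hlam, div_le_one (by positivity)]; linarith
  have hlr : lam * (1 + r) = 1 := by rw [hlam]; field_simp
  obtain ⟨c, hc⟩ : ∃ c : ℝ, c = 1 - Real.exp (-lam) := ⟨_, rfl⟩
  have hc0 : 0 ≤ c := by
    rw [hc]
    have : Real.exp (-lam) ≤ 1 := Real.exp_le_one_iff.2 (by linarith)
    linarith
  have hc1 : lam - lam ^ 2 ≤ c := by
    have := (abs_le.1 (Real.abs_exp_sub_one_sub_id_le (x := -lam) (by
      rw [abs_neg, abs_of_pos hl0]; exact hl1))).2
    rw [hc]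
    nlinarith
  have hc2 : c ≤ 1 := by rw [hc]; linarith [Real.exp_pos (-lam)]
  have hF : TPm D (c * B) ((1 - c * m : ℝ) : ℂ) (fun x => ((1 - c * L x : ℝ) : ℂ)) := by
    have h2 := (TPm.const D 1).add (TPm_smul hT (-c : ℂ))
    have h3 : (1 : ℂ) + (-c : ℂ) * (m : ℂ) = ((1 - c * m : ℝ) : ℂ) := by push_cast; ring
    rw [h3, zero_add, norm_neg, Complex.norm_real, Real.norm_of_nonneg hc0] at h2
    convert h2 using 2 with x
    push_cast; ring
  have h4 := prod_bd k D (fun x => 1 - c * L x) (1 - c * m) _ hF S ν u W hW0 hW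
  have hexp : ∀ x, Real.exp (-(lam * ind α β x)) ≤ 1 - c * L x := by
    intro x
    have := mul_le_mul_of_nonneg_left (hL x) hc0
    rcases ind_cases α β x with h | h
    · rw [h, mul_zero, neg_zero, Real.exp_zero]
      rw [h] at this; linarith
    · rw [h, mul_one]
      rw [h] at this; rw [hc] at this ⊢; linarith
  obtain ⟨A, hA⟩ : ∃ A : ℝ, A = k * m - τ * (1 + r) := ⟨_, rfl⟩
  rw [← hA]
  have h5 : ((S.filter fun n => ∑ j, ind α β (u j * ν n) < A).card : ℝ) * Real.exp (-(lam * A)) ≤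
      ∑ n ∈ S, ∏ j, (1 - c * L (u j * ν n)) := by
    calc ((S.filter fun n => ∑ j, ind α β (u j * ν n) < A).card : ℝ) * Real.exp (-(lam * A)) =
        ∑ n ∈ S.filter (fun n => ∑ j, ind α β (u j * ν n) < A), Real.exp (-(lam * A)) := by
          rw [sum_const, nsmul_eq_mul]
      _ ≤ ∑ n ∈ S.filter (fun n => ∑ j, ind α β (u j * ν n) < A), ∏ j, (1 - c * L (u j * ν n)) := by
          refine sum_le_sum fun n hn => ?_
          have h6 := (mem_filter.1 hn).2
          calc Real.exp (-(lam * A)) ≤ Real.exp (-(lam * ∑ j, ind α β (u j * ν n))) := by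
                apply Real.exp_le_exp.2
                have := mul_le_mul_of_nonneg_left h6.le hl0.le
                linarith
            _ = ∏ j, Real.exp (-(lam * ind α β (u j * ν n))) := by
                rw [mul_sum, ← sum_neg_distrib, Real.exp_sum]
            _ ≤ _ := prod_le_prod (fun _ _ => (Real.exp_pos _).le) fun j _ => hexp _
      _ ≤ _ := by
          apply sum_le_sum_of_subset_of_nonneg (filter_subset _ _)
          intro n _ _
          exact prod_nonneg fun j _ => (Real.exp_pos _).le.trans (hexp _)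
  have h6 := (abs_le.1 h4).2
  have hcm : c * m ≤ 1 := by nlinarith
  have hcm0 : 0 ≤ c * m := by positivity
  have h7 : (1 - c * m) ^ k ≤ Real.exp (-(k * m * (lam - lam ^ 2))) := by
    have h8 : 1 - c * m ≤ Real.exp (-(m * (lam - lam ^ 2))) := by
      have := Real.add_one_le_exp (-(m * (lam - lam ^ 2)))
      have := mul_le_mul_of_nonneg_left hc1 hm0.le
      linarith
    calc (1 - c * m) ^ k ≤ Real.exp (-(m * (lam - lam ^ 2))) ^ k :=
          pow_le_pow_left₀ (by linarith) h8 k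
      _ = _ := by rw [← Real.exp_nat_mul]; congr 1; ring
  have h9 : (|1 - c * m| + c * B) ^ k * W ≤ (1 + B) ^ k * W := by
    apply mul_le_mul_of_nonneg_right _ hW0
    apply pow_le_pow_left₀ (by positivity)
    rw [abs_of_nonneg (by linarith)]
    nlinarith
  have h10 : ((S.filter fun n => ∑ j, ind α β (u j * ν n) < A).card : ℝ) * Real.exp (-(lam * A)) ≤
      S.card * Real.exp (-(k * m * (lam - lam ^ 2))) + (1 + B) ^ k * W := by
    have := mul_le_mul_of_nonneg_left h7 hS0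
    linarith
  have h11 : Real.exp (-(k * m * (lam - lam ^ 2))) ≤ Real.exp (1 - τ) * Real.exp (-(lam * A)) := by
    rw [← Real.exp_add]
    apply Real.exp_le_exp.2
    have e1 : lam * A = lam * (k * m) - τ * (lam * (1 + r)) := by rw [hA]; ring
    rw [e1, hlr]
    have e2 : k * m * lam ^ 2 ≤ 1 := by
      have e3 : k * m * lam ^ 2 = (lam * r) ^ 2 := by rw [← hr2]; ring
      have e4 : lam * r ≤ 1 := by linarith
      have e5 : 0 ≤ lam * r := by positivity
      rw [e3]
      nlinarith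
    linarith
  have h12 : (1 + B) ^ k * W ≤ (3 * (1 + B)) ^ k * W * Real.exp (-(lam * A)) := by
    have e1 : lam * A ≤ k := by
      have e2 : lam * A ≤ lam * (k * m) := by
        apply mul_le_mul_of_nonneg_left _ hl0.le
        rw [hA]
        have : 0 ≤ τ * (1 + r) := by positivity
        linarith
      have e3 : lam * (k * m) ≤ 1 * (k * 1) := by gcongr
      linarith
    have e4 : Real.exp (lam * A) ≤ 3 ^ k := by
      calc Real.exp (lam * A) ≤ Real.exp (k * 1) := Real.exp_le_exp.2 (by linarith)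
        _ = Real.exp 1 ^ k := by rw [Real.exp_nat_mul]
        _ ≤ 3 ^ k := pow_le_pow_left₀ (Real.exp_pos _).le (by linarith [Real.exp_one_lt_d9]) k
    rw [mul_pow]
    have e5 : 1 ≤ 3 ^ k * Real.exp (-(lam * A)) := by
      rw [Real.exp_neg, ← div_eq_mul_inv, le_div_iff₀ (Real.exp_pos _)]
      linarith
    have e6 : 0 ≤ (1 + B) ^ k * W := by positivity
    calc (1 + B) ^ k * W ≤ (1 + B) ^ k * W * (3 ^ k * Real.exp (-(lam * A))) := by nlinarith
      _ = _ := by ring
  have h13 : ((S.filter fun n => ∑ j, ind α β (u j * ν n) < A).card : ℝ) * Real.exp (-(lam * A)) ≤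
      (S.card * Real.exp (1 - τ) + (3 * (1 + B)) ^ k * W) * Real.exp (-(lam * A)) := by
    have := mul_le_mul_of_nonneg_left h11 hS0
    linarith
  exact le_of_mul_le_mul_right h13 (Real.exp_pos _)

end Pool.Agent.Helper478.Lit
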