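import Pool.Agent.Helper478_Lit.SA

/-!
# Small arcs: separated sets of places
-/

set_option autoImplicit false

namespace Pool.Agent.Helper478.Lit

open Finset Filter
open Pool.Agent.H469R2.NK (e norm_e e_add e_zero conj_e)
open Pool.Agent.Helper478.Kwise

lemma sqrt_add_one_le (a : ℝ) (ha : 0 ≤ a) : √(a + 1) ≤ √a + 1 := by
  rw [Real.sqrt_le_left (by positivity)]
  have := Real.sq_sqrt ha
  have := Real.sqrt_nonneg a
  nlinarith

/-- a separated set of places -/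
theorem block (b g K : ℕ) (hb : 2 ≤ b) (hK : 1 ≤ K) (hg : 36 * K ^ 2 ≤ b ^ g) (T : Finset ℕ) (v V : ℕ)
    (hT : ∀ i ∈ T, v ≤ i ∧ i ≤ V) (hsep : ∀ i ∈ T, ∀ j ∈ T, i < j → i + g ≤ j) (hTK : T.card ≤ K)
    {σ : Type} (S : Finset σ) (β : σ → ℝ) (W : ℝ) (hW0 : 0 ≤ W)
    (hexp : ∀ F : ℝ, (b : ℝ) ^ v / 2 ≤ |F| → |F| ≤ 9 * (K : ℝ) ^ 3 * (b : ℝ) ^ V →
      ‖∑ n ∈ S, e (F * β n)‖ ≤ W) (α₁ α₂ : ℝ) (h0 : 0 ≤ α₁) (h12 : α₁ < α₂) (h1 : α₂ ≤ 1) (τ : ℝ)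
    (hτ : 0 ≤ τ) :
    ((S.filter fun n => 1 + τ * (2 + √(T.card * (α₂ - α₁))) <
      |∑ i ∈ T, ind α₁ α₂ ((b : ℝ) ^ i * β n) - T.card * (α₂ - α₁)|).card : ℝ) ≤
      2 * (S.card * Real.exp (1 - τ) + (9 + 6 * Real.log ((9 * K ^ 2 : ℕ) : ℝ)) ^ T.card * W) := by
  classical
  have hK0 : (0 : ℝ) < K := by exact_mod_cast hK
  have hK1 : (1 : ℝ) ≤ K := by exact_mod_cast hK
  obtain ⟨D, hD⟩ : ∃ D : ℕ, D = 9 * K ^ 2 := ⟨_, rfl⟩
  have hDr : (D : ℝ) = 9 * (K : ℝ) ^ 2 := by rw [hD]; push_cast; ring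
  have hD1 : 1 ≤ D := by rw [hD]; nlinarith
  rw [← hD]
  obtain ⟨k, hk⟩ : ∃ k : ℕ, T.card = k := ⟨_, rfl⟩
  have hkK : k ≤ K := hk ▸ hTK
  have hkKr : (k : ℝ) ≤ K := by exact_mod_cast hkK
  rw [hk]
  have hlogD : 0 ≤ Real.log D := Real.log_natCast_nonneg D
  obtain ⟨ed, hed⟩ : ∃ ed : Fin k ↪o ℕ, ed = T.orderEmbOfFin hk := ⟨_, rfl⟩
  have hsum : ∀ f : ℕ → ℝ, ∑ i ∈ T, f i = ∑ j : Fin k, f (ed j) := by
    intro f
    rw [hed]
    conv_lhs => rw [← Finset.map_orderEmbOfFin_univ T hk]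
    rw [sum_map]
    rfl
  have hmem : ∀ j, ed j ∈ T := fun j => by rw [hed]; exact orderEmbOfFin_mem T hk j
  -- the frequencies
  obtain ⟨u, hu⟩ : ∃ u : ℕ → ℝ, u = fun i => if h : i < k then (b : ℝ) ^ (ed ⟨i, h⟩) else 0 := ⟨_, rfl⟩
  have hu' : ∀ j : Fin k, u j = (b : ℝ) ^ (ed j) := by
    intro j
    rw [hu]
    simp only [j.2, dif_pos, Fin.eta]
  have hb0 : (0 : ℝ) < b := by exact_mod_cast (by omega : 0 < b)
  have hb1 : (1 : ℝ) ≤ b := by exact_mod_cast (by omega : 1 ≤ b)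
  have hW : ∀ Z : Fin k → ℤ, Z ≠ 0 → (∀ j, |Z j| ≤ D) →
      ‖∑ n ∈ S, e ((∑ j, (Z j : ℝ) * (b : ℝ) ^ (ed j)) * β n)‖ ≤ W := by
    intro Z hZ0 hZ
    have hkpos : 0 < k := by
      rcases Nat.eq_zero_or_pos k with h | h
      · subst h
        exact absurd (Subsingleton.elim _ _) hZ0
      · exact h
    have hu0 : u 0 = (b : ℝ) ^ (ed ⟨0, hkpos⟩) := hu' ⟨0, hkpos⟩
    have hbv : (b : ℝ) ^ v ≤ u 0 := by
      rw [hu0]
      exact pow_le_pow_right₀ hb1 (hT _ (hmem _)).1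
    have heq : ∑ j, (Z j : ℝ) * (b : ℝ) ^ (ed j) = ∑ j, (Z j : ℝ) * u j :=
      sum_congr rfl fun j _ => by rw [hu' j]
    rw [heq]
    apply hexp
    · have h2 := lac D hD1 u (lt_of_lt_of_le (by positivity) hbv) k (by
        intro i hi
        have hi' : i < k := by omega
        have e1 : u i = (b : ℝ) ^ (ed ⟨i, hi'⟩) := hu' ⟨i, hi'⟩
        have e2 : u (i + 1) = (b : ℝ) ^ (ed ⟨i + 1, hi⟩) := hu' ⟨i + 1, hi⟩
        have hlt : ed ⟨i, hi'⟩ < ed ⟨i + 1, hi⟩ := ed.lt_iff_lt.2 (by simp [Fin.lt_def])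
        have h3 := hsep _ (hmem ⟨i, hi'⟩) _ (hmem ⟨i + 1, hi⟩) hlt
        rw [e1, e2]
        calc 4 * (D : ℝ) * (b : ℝ) ^ (ed ⟨i, hi'⟩) ≤ (b : ℝ) ^ g * (b : ℝ) ^ (ed ⟨i, hi'⟩) := by
              apply mul_le_mul_of_nonneg_right _ (by positivity)
              rw [hDr]
              have : ((36 * K ^ 2 : ℕ) : ℝ) ≤ ((b ^ g : ℕ) : ℝ) := by exact_mod_cast hg
              push_cast at this
              linarith
          _ = (b : ℝ) ^ (ed ⟨i, hi'⟩ + g) := by rw [pow_add]; ring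
          _ ≤ _ := pow_le_pow_right₀ hb1 h3) Z hZ0 hZ
      linarith
    · have h2 := lac_le D u ((b : ℝ) ^ V) k (by
        intro i hi
        have e1 : u i = (b : ℝ) ^ (ed ⟨i, hi⟩) := hu' ⟨i, hi⟩
        rw [e1]
        exact ⟨by positivity, pow_le_pow_right₀ hb1 (hT _ (hmem _)).2⟩) Z hZ
      refine h2.trans ?_
      rw [hDr]
      have h3 : 9 * (K : ℝ) ^ 2 * k * (b : ℝ) ^ V ≤ 9 * (K : ℝ) ^ 2 * K * (b : ℝ) ^ V := by gcongr
      have h4 : 9 * (K : ℝ) ^ 2 * K * (b : ℝ) ^ V = 9 * (K : ℝ) ^ 3 * (b : ℝ) ^ V := by ring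
      linarith
  -- majorant and minorant
  obtain ⟨del, hdel⟩ : ∃ del : ℝ, del = 1 / (3 * K) := ⟨_, rfl⟩
  have hd0 : 0 < del := by rw [hdel]; positivity
  have hd1 : del ≤ 1 := by
    rw [hdel, div_le_one (by positivity)]; linarith
  have hdc : 1 ≤ (D : ℝ) * del ^ 2 := by
    rw [hdel, hDr]; apply le_of_eq; field_simp; norm_num
  have hkd : k * (3 * del) ≤ 1 := by
    rw [hdel]
    have : (k : ℝ) * (3 * (1 / (3 * K))) = k / K := by field_simp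
    rw [this, div_le_one hK0]; exact hkKr
  obtain ⟨U, mU, hU, hU1, hU2, hUT⟩ := major D hD1 del hd0 hd1 hdc α₁ α₂ h0 h12 h1
  obtain ⟨L, mL, hL, hL1, hL2, hLT⟩ := minor D hD1 del hd0 hd1 hdc α₁ α₂ h0 h12 h1
  have hk0 : (0 : ℝ) ≤ k := Nat.cast_nonneg k
  have h3d : 3 * del ≤ 1 := by rw [hdel]; rw [mul_one_div, div_le_one (by positivity)]; linarith
  have c1 := chernU k D α₁ α₂ U mU _ hU (by linarith) (by linarith) hUT S β
    (fun j => (b : ℝ) ^ (ed j)) W hW0 hW τ hτ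
  have c2 := chernL k D α₁ α₂ L mL _ hL (by linarith) hLT S β
    (fun j => (b : ℝ) ^ (ed j)) W hW0 hW τ hτ
  have hsub : (S.filter fun n => 1 + τ * (2 + √(k * (α₂ - α₁))) <
      |∑ i ∈ T, ind α₁ α₂ ((b : ℝ) ^ i * β n) - k * (α₂ - α₁)|) ⊆
      (S.filter fun n => k * mU + τ * (1 + √(k * mU)) < ∑ j, ind α₁ α₂ ((b : ℝ) ^ (ed j) * β n)) ∪
      (S.filter fun n => ∑ j, ind α₁ α₂ ((b : ℝ) ^ (ed j) * β n) < k * mL - τ * (1 + √(k * mL))) := by
    intro n hn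
    obtain ⟨hnS, hn⟩ := mem_filter.1 hn
    rw [mem_union, mem_filter, mem_filter]
    by_contra hcon
    push Not at hcon
    obtain ⟨d1, d2⟩ := hcon
    have d1 := d1 hnS
    have d2 := d2 hnS
    rw [hsum] at hn
    have hI0 : 0 ≤ (k : ℝ) * (α₂ - α₁) := mul_nonneg hk0 (by linarith)
    have s1 : √(k * mU) ≤ √(k * (α₂ - α₁)) + 1 := by
      refine le_trans (Real.sqrt_le_sqrt ?_) (sqrt_add_one_le _ hI0)
      have := mul_le_mul_of_nonneg_left hU2 hk0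
      linarith
    have s2 : √(k * mL) ≤ √(k * (α₂ - α₁)) :=
      Real.sqrt_le_sqrt (mul_le_mul_of_nonneg_left hL2 hk0)
    have s1' := mul_le_mul_of_nonneg_left s1 hτ
    have s2' := mul_le_mul_of_nonneg_left s2 hτ
    have m1 := mul_le_mul_of_nonneg_left hU2 hk0
    have m2 := mul_le_mul_of_nonneg_left hL1 hk0
    have hfin : |∑ j, ind α₁ α₂ ((b : ℝ) ^ (ed j) * β n) - k * (α₂ - α₁)| ≤
        1 + τ * (2 + √(k * (α₂ - α₁))) := by
      rw [abs_le]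
      constructor <;> linarith
    linarith
  have hfin : ((S.filter fun n => 1 + τ * (2 + √(k * (α₂ - α₁))) <
      |∑ i ∈ T, ind α₁ α₂ ((b : ℝ) ^ i * β n) - k * (α₂ - α₁)|).card : ℝ) ≤
      ((S.filter fun n => k * mU + τ * (1 + √(k * mU)) <
        ∑ j, ind α₁ α₂ ((b : ℝ) ^ (ed j) * β n)).card : ℝ) +
      ((S.filter fun n => ∑ j, ind α₁ α₂ ((b : ℝ) ^ (ed j) * β n) <
        k * mL - τ * (1 + √(k * mL))).card : ℝ) := by
    exact_mod_cast (card_le_card hsub).trans (card_union_le _ _)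
  have g1 : (5 + 2 * (2 + 2 * Real.log D)) ^ k * W ≤ (9 + 6 * Real.log D) ^ k * W := by
    apply mul_le_mul_of_nonneg_right _ hW0
    apply pow_le_pow_left₀ (by positivity)
    linarith
  have g2 : (3 * (1 + (2 + 2 * Real.log D))) ^ k * W = (9 + 6 * Real.log D) ^ k * W := by
    congr 2; ring
  linarith

/-- the number of places in a window at which the orbit hits an arc -/
noncomputable def cnt (b v K : ℕ) (α₁ α₂ x : ℝ) : ℝ := ∑ i ∈ Ioc v (v + K), ind α₁ α₂ ((b : ℝ) ^ i * x)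

lemma ind_mono (α₁ α₂ α₁' α₂' x : ℝ) (h1 : α₁' ≤ α₁) (h2 : α₂ ≤ α₂') : ind α₁ α₂ x ≤ ind α₁' α₂' x := by
  unfold ind
  split_ifs with h h'
  · exact le_rfl
  · exact absurd ⟨h1.trans h.1, h.2.trans_le h2⟩ h'
  · exact zero_le_one
  · exact le_rfl

lemma div_count (v K d : ℕ) (hd : 0 < d) : (v + K) / d + 1 - (v + 1) / d ≤ K / d + 2 := by
  have h1 : (v + K) / d < (v + 1) / d + K / d + 2 := by
    rw [Nat.div_lt_iff_lt_mul hd]
    have h2 := Nat.lt_div_mul_add (a := v + 1) hd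
    have h3 := Nat.lt_div_mul_add (a := K) hd
    have h4 : ((v + 1) / d + K / d + 2) * d = (v + 1) / d * d + K / d * d + 2 * d := by ring
    omega
  generalize (v + K) / d = x at h1 ⊢
  generalize (v + 1) / d = y at h1 ⊢
  generalize K / d = z at h1 ⊢
  omega

/-- one window, one arc -/
theorem one_arc (b g K k₀ v : ℕ) (hb : 2 ≤ b) (hK : 1 ≤ K) (hg1 : 1 ≤ g) (hk₀ : 1 ≤ k₀)
    (hg : 36 * K ^ 2 ≤ b ^ g) {σ : Type} (S : Finset σ) (β : σ → ℝ) (W : ℝ) (hW0 : 0 ≤ W)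
    (hexp : ∀ F : ℝ, (b : ℝ) ^ (v + 1) / 2 ≤ |F| → |F| ≤ 9 * (K : ℝ) ^ 3 * (b : ℝ) ^ (v + K) →
      ‖∑ n ∈ S, e (F * β n)‖ ≤ W) (α₁ α₂ : ℝ) (h0 : 0 ≤ α₁) (h12 : α₁ < α₂) (h1 : α₂ ≤ 1) (τ : ℝ)
    (hτ : 1 ≤ τ) :
    ((S.filter fun n => 3 * τ * ((g * (K / (g * k₀) + 2) : ℕ) : ℝ) * (1 + √(K * (α₂ - α₁))) <
      |cnt b v K α₁ α₂ (β n) - K * (α₂ - α₁)|).card : ℝ) ≤
      ((g * (K / (g * k₀) + 2) : ℕ) : ℝ) * (2 * (S.card * Real.exp (1 - τ) +
        (9 + 6 * Real.log ((9 * K ^ 2 : ℕ) : ℝ)) ^ k₀ * W)) := by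
  classical
  have hgk : 0 < g * k₀ := Nat.mul_pos hg1 hk₀
  obtain ⟨Q, hQ⟩ : ∃ Q : ℕ, Q = g * (K / (g * k₀) + 2) := ⟨_, rfl⟩
  rw [← hQ]
  have hlogD : 0 ≤ Real.log ((9 * K ^ 2 : ℕ) : ℝ) := Real.log_natCast_nonneg _
  obtain ⟨φ, hφ⟩ : ∃ φ : ℕ → ℕ × ℕ, φ = fun i => (i % g, i / (g * k₀)) := ⟨_, rfl⟩
  obtain ⟨Φ, hΦ⟩ : ∃ Φ : Finset (ℕ × ℕ), Φ = range g ×ˢ Icc ((v + 1) / (g * k₀)) ((v + K) / (g * k₀)) :=
    ⟨_, rfl⟩
  have hΦc : Φ.card ≤ Q := by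
    rw [hΦ, card_product, card_range, Nat.card_Icc, hQ]
    exact Nat.mul_le_mul_left _ (div_count v K (g * k₀) hgk)
  have hmaps : ∀ i ∈ Ioc v (v + K), φ i ∈ Φ := by
    intro i hi
    rw [mem_Ioc] at hi
    rw [hφ, hΦ, mem_product, mem_range, mem_Icc]
    exact ⟨Nat.mod_lt _ hg1, Nat.div_le_div_right (by omega), Nat.div_le_div_right (by omega)⟩
  obtain ⟨T, hT⟩ : ∃ T : ℕ × ℕ → Finset ℕ, T = fun c => (Ioc v (v + K)).filter fun i => φ i = c := ⟨_, rfl⟩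
  have hTsub : ∀ c, T c ⊆ Ioc v (v + K) := fun c => by rw [hT]; exact filter_subset _ _
  have hTK : ∀ c, (T c).card ≤ K := fun c => by
    refine (card_le_card (hTsub c)).trans ?_
    rw [Nat.card_Ioc]; omega
  have hTmem : ∀ c, ∀ i ∈ T c, (v + 1 ≤ i ∧ i ≤ v + K) ∧ i % g = c.1 ∧ i / (g * k₀) = c.2 := by
    intro c i hi
    rw [hT, mem_filter, mem_Ioc, hφ] at hi
    obtain ⟨⟨a1, a2⟩, a3⟩ := hi
    exact ⟨⟨by omega, a2⟩, congrArg Prod.fst a3, congrArg Prod.snd a3⟩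
  have hTk₀ : ∀ c, (T c).card ≤ k₀ := by
    intro c
    have h2 : (T c).card ≤ (Ico (k₀ * c.2) (k₀ * c.2 + k₀)).card := by
      apply card_le_card_of_injOn (fun i => i / g)
      · intro i hi
        obtain ⟨-, a2, a3⟩ := hTmem c i hi
        rw [mem_coe, mem_Ico]
        rw [← Nat.div_div_eq_div_mul] at a3
        constructor
        · rw [← a3]; exact Nat.mul_div_le _ _
        · have := Nat.lt_div_mul_add (a := i / g) hk₀
          rw [a3] at this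
          rw [mul_comm k₀]; exact this
      · intro i hi j hj hij
        obtain ⟨-, a2, -⟩ := hTmem c i hi
        obtain ⟨-, b2, -⟩ := hTmem c j hj
        simp only at hij
        have e1 := Nat.div_add_mod i g
        have e2 := Nat.div_add_mod j g
        rw [hij, a2] at e1
        rw [b2] at e2
        omega
    rw [Nat.card_Ico] at h2
    omega
  have hTsep : ∀ c, ∀ i ∈ T c, ∀ j ∈ T c, i < j → i + g ≤ j := by
    intro c i hi j hj hij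
    obtain ⟨-, a2, -⟩ := hTmem c i hi
    obtain ⟨-, b2, -⟩ := hTmem c j hj
    have e1 := Nat.div_add_mod i g
    have e2 := Nat.div_add_mod j g
    rw [a2] at e1
    rw [b2] at e2
    have e3 : i / g < j / g := by
      by_contra hcon
      push Not at hcon
      have := Nat.mul_le_mul_left g hcon
      omega
    have := Nat.mul_le_mul_left g (Nat.succ_le_of_lt e3)
    rw [Nat.succ_eq_add_one, Nat.mul_add, Nat.mul_one] at this
    omega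
  -- the exceptional sets of the blocks
  obtain ⟨E, hE⟩ : ∃ E : ℕ × ℕ → Finset σ, E = fun c => S.filter fun n =>
    1 + τ * (2 + √((T c).card * (α₂ - α₁))) <
      |∑ i ∈ T c, ind α₁ α₂ ((b : ℝ) ^ i * β n) - (T c).card * (α₂ - α₁)| := ⟨_, rfl⟩
  have hEc : ∀ c, ((E c).card : ℝ) ≤ 2 * (S.card * Real.exp (1 - τ) +
        (9 + 6 * Real.log ((9 * K ^ 2 : ℕ) : ℝ)) ^ k₀ * W) := by
    intro c
    have h2 := block b g K hb hK hg (T c) (v + 1) (v + K) (fun i hi => (hTmem c i hi).1) (hTsep c)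
      (hTK c) S β W hW0 hexp α₁ α₂ h0 h12 h1 τ (by linarith)
    have h3 : (9 + 6 * Real.log ((9 * K ^ 2 : ℕ) : ℝ)) ^ (T c).card * W ≤
        (9 + 6 * Real.log ((9 * K ^ 2 : ℕ) : ℝ)) ^ k₀ * W := by
      apply mul_le_mul_of_nonneg_right _ hW0
      exact pow_le_pow_right₀ (by linarith) (hTk₀ c)
    rw [hE]
    linarith
  have hsub : (S.filter fun n => 3 * τ * (Q : ℝ) * (1 + √(K * (α₂ - α₁))) <
      |cnt b v K α₁ α₂ (β n) - K * (α₂ - α₁)|) ⊆ Φ.biUnion E := by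
    intro n hn
    obtain ⟨hnS, hn⟩ := mem_filter.1 hn
    by_contra hcon
    rw [mem_biUnion] at hcon
    push Not at hcon
    have e1 : cnt b v K α₁ α₂ (β n) = ∑ c ∈ Φ, ∑ i ∈ T c, ind α₁ α₂ ((b : ℝ) ^ i * β n) := by
      rw [cnt, hT]
      exact (sum_fiberwise_of_maps_to hmaps _).symm
    have e2 : (K : ℝ) = ∑ c ∈ Φ, ((T c).card : ℝ) := by
      have h2 := sum_fiberwise_of_maps_to hmaps (fun _ => (1 : ℝ))
      simp only [sum_const, nsmul_eq_mul, mul_one, Nat.card_Ioc, add_tsub_cancel_left] at h2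
      rw [hT, h2]
    have e3 : cnt b v K α₁ α₂ (β n) - K * (α₂ - α₁) =
        ∑ c ∈ Φ, (∑ i ∈ T c, ind α₁ α₂ ((b : ℝ) ^ i * β n) - (T c).card * (α₂ - α₁)) := by
      rw [e1]
      conv_lhs => rw [e2]
      rw [sum_sub_distrib, sum_mul]
    rw [e3] at hn
    have hs0 : 0 ≤ √(K * (α₂ - α₁)) := Real.sqrt_nonneg _
    have e4 : |∑ c ∈ Φ, (∑ i ∈ T c, ind α₁ α₂ ((b : ℝ) ^ i * β n) - (T c).card * (α₂ - α₁))| ≤
        Q * (1 + τ * (2 + √(K * (α₂ - α₁)))) := by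
      refine (abs_sum_le_sum_abs _ _).trans ?_
      calc ∑ c ∈ Φ, |∑ i ∈ T c, ind α₁ α₂ ((b : ℝ) ^ i * β n) - (T c).card * (α₂ - α₁)| ≤
          ∑ c ∈ Φ, (1 + τ * (2 + √(K * (α₂ - α₁)))) := by
            refine sum_le_sum fun c hc => ?_
            have h2 := hcon c hc
            rw [hE, mem_filter, not_and, not_lt] at h2
            refine (h2 hnS).trans ?_
            have h3 : √((T c).card * (α₂ - α₁)) ≤ √(K * (α₂ - α₁)) := by
              apply Real.sqrt_le_sqrt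
              apply mul_le_mul_of_nonneg_right _ (by linarith)
              exact_mod_cast hTK c
            have := mul_le_mul_of_nonneg_left h3 (by linarith : 0 ≤ τ)
            linarith
        _ = Φ.card * (1 + τ * (2 + √(K * (α₂ - α₁)))) := by rw [sum_const, nsmul_eq_mul]
        _ ≤ _ := by
            apply mul_le_mul_of_nonneg_right _ (by positivity)
            exact_mod_cast hΦc
    have e5 : (Q : ℝ) * (1 + τ * (2 + √(K * (α₂ - α₁)))) ≤ 3 * τ * (Q : ℝ) * (1 + √(K * (α₂ - α₁))) := by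
      have h2 : 1 + τ * (2 + √(K * (α₂ - α₁))) ≤ 3 * τ * (1 + √(K * (α₂ - α₁))) := by
        have := mul_nonneg (by linarith : 0 ≤ τ) hs0
        nlinarith
      have h3 := mul_le_mul_of_nonneg_left h2 (Nat.cast_nonneg (α := ℝ) Q)
      linarith
    linarith
  have hfin : ((S.filter fun n => 3 * τ * (Q : ℝ) * (1 + √(K * (α₂ - α₁))) <
      |cnt b v K α₁ α₂ (β n) - K * (α₂ - α₁)|).card : ℝ) ≤ ∑ c ∈ Φ, ((E c).card : ℝ) := by
    exact_mod_cast (card_le_card hsub).trans card_biUnion_le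
  refine hfin.trans ((sum_le_sum fun c _ => hEc c).trans ?_)
  rw [sum_const, nsmul_eq_mul]
  apply mul_le_mul_of_nonneg_right _ (by positivity)
  exact_mod_cast hΦc

end Pool.Agent.Helper478.Lit
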