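import Pool.Agent.Helper478_Lit.SB
import Pool.Agent.Helper478_Lit.C

/-!
# Small arcs: all arcs, all windows
-/

set_option autoImplicit false

namespace Pool.Agent.Helper478.Lit

open Finset Filter Topology
open Pool.Agent.H469R2.NK (e norm_e e_add e_zero conj_e)
open Pool.Agent.Helper478.Kwise
open Pool.Agent.Helper478.Surds (ev_pow)
open Pool.Agent.Helper478.Short (germ coeffs_comb)

lemma cnt_mono (b v K : ℕ) (α₁ α₂ α₁' α₂' x : ℝ) (h1 : α₁' ≤ α₁) (h2 : α₂ ≤ α₂') :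
    cnt b v K α₁ α₂ x ≤ cnt b v K α₁' α₂' x :=
  sum_le_sum fun _ _ => ind_mono _ _ _ _ _ h1 h2

lemma cnt_nonneg (b v K : ℕ) (α₁ α₂ x : ℝ) : 0 ≤ cnt b v K α₁ α₂ x :=
  sum_nonneg fun _ _ => ind_nonneg _ _ _

/-- from a grid to all arcs -/
lemma arcs_grid (b v K : ℕ) (hK : 1 ≤ K) (x P : ℝ) (hP : 1 ≤ P)
    (H : ∀ a a' : ℕ, a < a' → a' ≤ K → |cnt b v K ((a : ℝ) / K) ((a' : ℝ) / K) x - K * ((a' : ℝ) / K - a / K)| ≤
      3 * P * (1 + √(K * ((a' : ℝ) / K - a / K)))) (α₁ α₂ : ℝ) (h0 : 0 ≤ α₁) (h12 : α₁ < α₂) (h1 : α₂ ≤ 1) :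
    |cnt b v K α₁ α₂ x - K * (α₂ - α₁)| ≤ 11 * P * (1 + √(K * (α₂ - α₁))) := by
  have hK0 : (0 : ℝ) < K := by exact_mod_cast hK
  obtain ⟨y, hy⟩ : ∃ y : ℝ, y = K * (α₂ - α₁) := ⟨_, rfl⟩
  have hy0 : 0 ≤ y := by rw [hy]; exact mul_nonneg hK0.le (by linarith)
  have hsy : 0 ≤ √y := Real.sqrt_nonneg y
  rw [← hy]
  have hdiv : ∀ a a' : ℕ, (K : ℝ) * ((a' : ℝ) / K - a / K) = a' - a := by
    intro a a'; field_simp
  have hα₂ : 0 ≤ α₂ := by linarith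
  have hPs := mul_nonneg (by linarith : 0 ≤ P) hsy
  rw [abs_le]
  constructor
  · -- lower bound
    obtain ⟨a, ha⟩ : ∃ a : ℕ, a = ⌈α₁ * K⌉₊ := ⟨_, rfl⟩
    obtain ⟨a', ha'⟩ : ∃ a' : ℕ, a' = ⌊α₂ * K⌋₊ := ⟨_, rfl⟩
    have g1 : α₁ * K ≤ a := by rw [ha]; exact Nat.le_ceil _
    have g2 : (a : ℝ) < α₁ * K + 1 := by rw [ha]; exact Nat.ceil_lt_add_one (by positivity)
    have g3 : (a' : ℝ) ≤ α₂ * K := by rw [ha']; exact Nat.floor_le (by positivity)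
    have g4 : α₂ * K < a' + 1 := by rw [ha']; exact Nat.lt_floor_add_one _
    rcases lt_or_ge a a' with hlt | hge
    · have g5 : a' ≤ K := by
        rw [ha']; apply Nat.floor_le_of_le; nlinarith
      have h2 := H a a' hlt g5
      rw [hdiv] at h2
      have h3 := (abs_le.1 h2).1
      have h4 := cnt_mono b v K ((a : ℝ) / K) ((a' : ℝ) / K) α₁ α₂ x (by
        rw [le_div_iff₀ hK0]; exact g1) (by rw [div_le_iff₀ hK0]; exact g3)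
      have h5 : √((a' : ℝ) - a) ≤ √y := by
        apply Real.sqrt_le_sqrt
        rw [hy]; linarith
      have h6 := mul_le_mul_of_nonneg_left h5 (by linarith : 0 ≤ P)
      linarith
    · have h2 : (a' : ℝ) ≤ a := by exact_mod_cast hge
      have h3 : y ≤ 2 := by rw [hy]; linarith
      have h4 := cnt_nonneg b v K α₁ α₂ x
      linarith
  · -- upper bound
    obtain ⟨a, ha⟩ : ∃ a : ℕ, a = ⌊α₁ * K⌋₊ := ⟨_, rfl⟩
    obtain ⟨a', ha'⟩ : ∃ a' : ℕ, a' = ⌈α₂ * K⌉₊ := ⟨_, rfl⟩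
    have g1 : (a : ℝ) ≤ α₁ * K := by rw [ha]; exact Nat.floor_le (by positivity)
    have g2 : α₁ * K < a + 1 := by rw [ha]; exact Nat.lt_floor_add_one _
    have g3 : α₂ * K ≤ a' := by rw [ha']; exact Nat.le_ceil _
    have g4 : (a' : ℝ) < α₂ * K + 1 := by rw [ha']; exact Nat.ceil_lt_add_one (by positivity)
    have hlt : a < a' := by
      have : (a : ℝ) < a' := by nlinarith
      exact_mod_cast this
    have g5 : a' ≤ K := by rw [ha']; apply Nat.ceil_le.2; nlinarith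
    have h2 := H a a' hlt g5
    rw [hdiv] at h2
    have h3 := (abs_le.1 h2).2
    have h4 := cnt_mono b v K α₁ α₂ ((a : ℝ) / K) ((a' : ℝ) / K) x (by
      rw [div_le_iff₀ hK0]; exact g1) (by rw [le_div_iff₀ hK0]; exact g3)
    have h5 : √((a' : ℝ) - a) ≤ √y + 2 := by
      have e1 : (a' : ℝ) - a ≤ y + 1 + 1 := by rw [hy]; linarith
      have e2 := Real.sqrt_le_sqrt e1
      have e3 := sqrt_add_one_le (y + 1) (by linarith)
      have e4 := sqrt_add_one_le y hy0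
      linarith
    have h6 := mul_le_mul_of_nonneg_left h5 (by linarith : 0 ≤ P)
    have e1 : (a' : ℝ) - a ≤ y + 2 := by rw [hy]; linarith
    linarith

open scoped Classical in
/-- one window, all arcs -/
theorem all_arcs (b g K k₀ v : ℕ) (hb : 2 ≤ b) (hK : 1 ≤ K) (hg1 : 1 ≤ g) (hk₀ : 1 ≤ k₀)
    (hg : 36 * K ^ 2 ≤ b ^ g) {σ : Type} (S : Finset σ) (β : σ → ℝ) (W : ℝ) (hW0 : 0 ≤ W)
    (hexp : ∀ F : ℝ, (b : ℝ) ^ (v + 1) / 2 ≤ |F| → |F| ≤ 9 * (K : ℝ) ^ 3 * (b : ℝ) ^ (v + K) →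
      ‖∑ n ∈ S, e (F * β n)‖ ≤ W) (τ : ℝ) (hτ : 1 ≤ τ) :
    ((S.filter fun n => ¬ ∀ α₁ α₂ : ℝ, 0 ≤ α₁ → α₁ < α₂ → α₂ ≤ 1 →
      |cnt b v K α₁ α₂ (β n) - K * (α₂ - α₁)| ≤
        11 * (τ * ((g * (K / (g * k₀) + 2) : ℕ) : ℝ)) * (1 + √(K * (α₂ - α₁)))).card : ℝ) ≤
      ((K : ℝ) + 1) ^ 2 * (((g * (K / (g * k₀) + 2) : ℕ) : ℝ) * (2 * (S.card * Real.exp (1 - τ) +
        (9 + 6 * Real.log ((9 * K ^ 2 : ℕ) : ℝ)) ^ k₀ * W))) := by
  have hK0 : (0 : ℝ) < K := by exact_mod_cast hK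
  obtain ⟨Q, hQ⟩ : ∃ Q : ℕ, Q = g * (K / (g * k₀) + 2) := ⟨_, rfl⟩
  have hQ1 : 1 ≤ Q := by
    rw [hQ]
    have h9 : 1 * 1 ≤ g * (K / (g * k₀) + 2) := Nat.mul_le_mul hg1 (Nat.succ_le_of_lt (Nat.succ_pos _))
    linarith
  have hQr : (1 : ℝ) ≤ Q := by exact_mod_cast hQ1
  have hlogD : 0 ≤ Real.log ((9 * K ^ 2 : ℕ) : ℝ) := Real.log_natCast_nonneg _
  obtain ⟨Gr, hGr⟩ : ∃ Gr : Finset (ℕ × ℕ), Gr =
    (range (K + 1) ×ˢ range (K + 1)).filter fun c => c.1 < c.2 := ⟨_, rfl⟩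
  obtain ⟨E, hE⟩ : ∃ E : ℕ × ℕ → Finset σ, E = fun c => S.filter fun n =>
    3 * τ * (Q : ℝ) * (1 + √(K * ((c.2 : ℝ) / K - (c.1 : ℝ) / K))) <
      |cnt b v K ((c.1 : ℝ) / K) ((c.2 : ℝ) / K) (β n) - K * ((c.2 : ℝ) / K - (c.1 : ℝ) / K)| := ⟨_, rfl⟩
  have hEc : ∀ c ∈ Gr, ((E c).card : ℝ) ≤ (Q : ℝ) * (2 * (S.card * Real.exp (1 - τ) +
        (9 + 6 * Real.log ((9 * K ^ 2 : ℕ) : ℝ)) ^ k₀ * W)) := by
    intro c hc
    rw [hGr, mem_filter, mem_product, mem_range, mem_range] at hc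
    obtain ⟨⟨c1, c2⟩, c3⟩ := hc
    rw [hE, hQ]
    have c3' : (c.1 : ℝ) < c.2 := by exact_mod_cast c3
    have c2' : (c.2 : ℝ) ≤ K := by exact_mod_cast (by omega : c.2 ≤ K)
    exact one_arc b g K k₀ v hb hK hg1 hk₀ hg S β W hW0 hexp _ _ (by positivity)
      (div_lt_div_of_pos_right c3' hK0) (by rw [div_le_one hK0]; exact c2') τ hτ
  have hsub : (S.filter fun n => ¬ ∀ α₁ α₂ : ℝ, 0 ≤ α₁ → α₁ < α₂ → α₂ ≤ 1 →
      |cnt b v K α₁ α₂ (β n) - K * (α₂ - α₁)| ≤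
        11 * (τ * (Q : ℝ)) * (1 + √(K * (α₂ - α₁)))) ⊆ Gr.biUnion E := by
    intro n hn
    obtain ⟨hnS, hn⟩ := mem_filter.1 hn
    by_contra hcon
    rw [mem_biUnion] at hcon
    push Not at hcon
    apply hn
    intro α₁ α₂ h0 h12 h1
    apply arcs_grid b v K hK (β n) (τ * Q) (by nlinarith) _ α₁ α₂ h0 h12 h1
    intro a a' haa ha'
    have h2 := hcon (a, a') (by
      rw [hGr, mem_filter, mem_product, mem_range, mem_range]
      exact ⟨⟨by simp only; omega, by simp only; omega⟩, haa⟩)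
    rw [hE, mem_filter, not_and, not_lt] at h2
    refine (h2 hnS).trans (le_of_eq ?_)
    ring
  have hfin := (card_le_card hsub).trans card_biUnion_le
  have hfin' : ((S.filter fun n => ¬ ∀ α₁ α₂ : ℝ, 0 ≤ α₁ → α₁ < α₂ → α₂ ≤ 1 →
      |cnt b v K α₁ α₂ (β n) - K * (α₂ - α₁)| ≤
        11 * (τ * (Q : ℝ)) * (1 + √(K * (α₂ - α₁)))).card : ℝ) ≤ ∑ c ∈ Gr, ((E c).card : ℝ) := by
    exact_mod_cast hfin
  rw [← hQ]
  refine hfin'.trans ((sum_le_sum hEc).trans ?_)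
  rw [sum_const, nsmul_eq_mul]
  apply mul_le_mul_of_nonneg_right _ (by positivity)
  have h3 : Gr.card ≤ (K + 1) ^ 2 := by
    rw [hGr]
    refine (card_filter_le _ _).trans ?_
    rw [card_product, card_range, sq]
  exact_mod_cast h3

end Pool.Agent.Helper478.Lit
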